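import Pool.Agent.Lib.MP_181146_gt.HP.SpecP
import Pool.Agent.Lib.MP_181146_gt.HE.SpecS

/-!
# Project HP: module CapD (cap product with a cochain supported in one degree)
-/

set_option autoImplicit false

namespace HPx

open scoped TensorProduct
open HEp

private lemma x_sg {k : Type} [CommRing k] {K : SS} {n : ℕ} (x : Ch k K →ₗ[k] k) (hx : Sup n x)
    (a : Ch k K) : x (a - (2 : k) • od k K a) = (-1 : k) ^ n • x a := by
  have h : x ∘ₗ (LinearMap.id - (2 : k) • od k K) = ((-1 : k) ^ n) • x := ch_ext fun i σ => by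
    rw [LinearMap.comp_apply, LinearMap.sub_apply, LinearMap.smul_apply, LinearMap.id_apply, od_sx,
      LinearMap.smul_apply]
    by_cases hi : i = n
    · subst hi
      by_cases ho : Odd i
      · rw [if_pos ho, ho.neg_one_pow, map_sub, map_smul]
        simp only [smul_eq_mul]
        ring
      · rw [if_neg ho, (Nat.not_odd_iff_even.1 ho).neg_one_pow, smul_zero, sub_zero, one_smul]
    · have h0 : x (sx k σ) = 0 := hx i hi _ (sx_mem_gr k σ)
      split_ifs
      · rw [map_sub, map_smul, h0, smul_zero, smul_zero, sub_zero]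
      · rw [smul_zero, sub_zero, h0, smul_zero]
  exact LinearMap.congr_fun h a

private lemma lx_d {k : Type} [CommRing k] {K : SS} {n : ℕ} (x : Ch k K →ₗ[k] k) (hx : Sup n x)
    (z : Ch k K ⊗[k] Ch k K) : lx x (((chDG k K).tens (chDG k K)).d z) =
      lx (x ∘ₗ bd k K) z + (-1 : k) ^ n • bd k K (lx x z) := by
  induction z with
  | zero => simp only [map_zero, smul_zero, add_zero]
  | add u v hu hv =>
    rw [map_add, map_add, hu, hv, map_add, map_add, map_add, smul_add]
    abel
  | tmul a b =>
    have h1 : ((chDG k K).tens (chDG k K)).d (a ⊗ₜ b) =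
      bd k K a ⊗ₜ[k] b + (a - (2 : k) • od k K a) ⊗ₜ[k] bd k K b := rfl
    refine (congrArg (lx x) h1).trans ?_
    rw [map_add, lx_tmul, lx_tmul, lx_tmul, lx_tmul, x_sg x hx a, map_smul, smul_assoc]
    rfl

private lemma lx_map {k : Type} [CommRing k] {K : SS} (x : Ch k K →ₗ[k] k) (ψ : SSHom K K)
    (h : ∀ y, x (cmap k ψ y) = x y) (z : Ch k K ⊗[k] Ch k K) :
    lx x (TensorProduct.map (cmap k ψ) (cmap k ψ) z) = cmap k ψ (lx x z) := by
  induction z with
  | zero => simp only [map_zero]
  | add u v hu hv => rw [map_add, map_add, hu, hv, map_add, map_add]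
  | tmul a b => rw [TensorProduct.map_tmul, lx_tmul, lx_tmul, h, map_smul]

theorem sCapD (hDlG : HEp.S_DlG) : S_CapD := by
  intro k _ K n x hx
  obtain ⟨hcm, hgr, -, hnat⟩ := hDlG k K
  refine ⟨fun y => ?_, fun i y hy => ?_, fun i hi y hy => ?_, fun ψ hψ y => ?_⟩
  · have h1 : dl k K (bd k K y) = ((chDG k K).tens (chDG k K)).d (dl k K y) := hcm.d y
    change lx x (dl k K (bd k K y)) = lx (x ∘ₗ bd k K) (dl k K y) +
      (-1 : k) ^ n • bd k K (lx x (dl k K y))
    rw [h1]
    exact lx_d x hx _
  · change lx x (dl k K y) ∈ gr k K i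
    have h1 := hgr _ y hy
    refine Submodule.span_induction (p := fun z _ => lx x z ∈ gr k K i) ?_ ?_ ?_ ?_ h1
    · rintro z ⟨p, q, a, b, hpq, ha, hb, rfl⟩
      rw [lx_tmul]
      by_cases hp : p = n
      · have hq : q = i := by omega
        rw [hq] at hb
        exact Submodule.smul_mem _ _ hb
      · rw [hx p hp a ha, zero_smul]
        exact Submodule.zero_mem _
    · rw [map_zero]
      exact Submodule.zero_mem _
    · intro u v _ _ hu hv
      rw [map_add]
      exact Submodule.add_mem _ hu hv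
    · intro c u _ hu
      rw [map_smul]
      exact Submodule.smul_mem _ _ hu
  · change lx x (dl k K y) = 0
    have h1 := hgr _ y hy
    refine Submodule.span_induction (p := fun z _ => lx x z = 0) ?_ ?_ ?_ ?_ h1
    · rintro z ⟨p, q, a, b, hpq, ha, hb, rfl⟩
      rw [lx_tmul, hx p (by omega) a ha, zero_smul]
    · rw [map_zero]
    · intro u v _ _ hu hv
      rw [map_add, hu, hv, add_zero]
    · intro c u _ hu
      rw [map_smul, hu, smul_zero]
  · change lx x (dl k K (cmap k ψ y)) = cmap k ψ (lx x (dl k K y))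
    rw [← hnat K ψ y]
    exact lx_map x ψ hψ _

end HPx
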