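import Pool.Agent.Lib.MP_181146_gt.HP.DefsP

/-!
# Project HP, part 1: algebra of the Clifford pair, chain level operators.  Every statement is a
separate task; the proof of each is in the docstring.
-/

set_option linter.unusedVariables false
set_option autoImplicit false

namespace HPx

open scoped TensorProduct
open HEp Polynomial

/-! ## A. Algebra -/

/-- **GdM.** Homogeneous elements: closed under sums, negatives, products (of degrees `m`, `m'`).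
Proof of the product: `e_j (v u) e_i = ∑_l (e_j v e_l) (e_l u e_i)` as `∑ e_l = 1`, `e_l = e_l e_l`; if
`j ≠ i + m + m'` then for every `l` one of the factors vanishes. -/
def S_GdM : Prop :=
  ∀ (R : Type) [Ring R] (N : ℕ) (g : Gd R N), g.Hm 0 1 ∧ (∀ m, g.Hm m 0) ∧
    (∀ m u v, g.Hm m u → g.Hm m v → g.Hm m (u + v)) ∧ (∀ m u, g.Hm m u → g.Hm m (-u)) ∧
    ∀ m m' u v, g.Hm m u → g.Hm m' v → g.Hm (m + m') (v * u)

/-- **GdO.** Homogeneous elements and parity. Proof: `u = ∑_(i,j) e_j u e_i`, only `j = i + m`;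
`od e_j = e_j` if `j` is odd and `0` otherwise, similarly on the right. -/
def S_GdO : Prop :=
  ∀ (R : Type) [Ring R] (N : ℕ) (g : Gd R N), g.od * g.od = g.od ∧
    ∀ m u, g.Hm m u → (Even m → g.od * u = u * g.od) ∧ (Odd m → g.od * u = u * (1 - g.od))

/-- **GdN** (from GdM).  Homogeneous elements of degree `m ≠ 0` are nilpotent: `u^N` has degree `N m`
and `|N m| ≥ N > |j - i|`, so all `e_j u^N e_i = 0`. -/
def S_GdN : Prop :=
  ∀ (R : Type) [Ring R] (N : ℕ) (g : Gd R N) (m : ℤ) (u : R), m ≠ 0 → g.Hm m u → u ^ N = 0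

/-- **GdP.** Homotopies can be chosen homogeneous: `h' = ∑_(i,j), j = i + m + 1, e_j h e_i`.
Proof: `e_j (d h) e_i = ∑_l (e_j d e_l) (e_l h e_i)`, only `l = j + 1`. -/
def S_GdP : Prop :=
  ∀ (R : Type) [Ring R] (N : ℕ) (g : Gd R N) (m : ℤ) (u d h : R) (s : ℤ), g.Hm m u → g.Hm (-1) d →
    u = d * h + s • (h * d) → ∃ h', g.Hm (m + 1) h' ∧ u = d * h' + s • (h' * d)

/-- **Pol.** Polynomials `p`, `q` with `p = 1 + X p²` and `(1 - 2 X p) q = 1` modulo `X^M`.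
Proof: `p_0 = 1`, `p_(M+1) = 1 + X p_M²`; `p_(M+1) - (1 + X p_(M+1)²) = X (p_M - p_(M+1)) (p_M + p_(M+1))`.
`q = ∑_(i<M) (2 X p)^i`. -/
def S_Pol : Prop :=
  ∀ M : ℕ, ∃ p q r r' : ℤ[X], p = 1 + X * p ^ 2 + X ^ M * r ∧
    (1 - 2 * X * p) * q = 1 + X ^ M * r'

/-- **Rng.** Normalization of a Clifford pair in a ring.
Proof: `A = α²`, `B = β²` commute with `α` and `β`: `β α² = (1 - α β) α = α - α β α = α - α (1 - α β) = α² β`,
similarly for `B`.  So `t = A B` commutes with everything, `t^M = 0`.  Put `y = -p(t) B`: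
`y + B + A y² = B (- p(t) + 1 + t p(t)²) = - B t^M r(t) = 0`.  `β' = β + y α`:
`β'² = B + y (α β + β α) + y² A = 0`.  `α' = α q(t)`: `α' β' + β' α' = q(t) (1 + 2 y A) =
q(t) (1 - 2 t p(t)) = 1 + t^M r'(t) = 1`. -/
def S_Rng : Prop :=
  ∀ (R : Type) [Ring R] (α β t : R) (M : ℕ) (p q r r' : ℤ[X])
    (hp : p = 1 + X * p ^ 2 + X ^ M * r) (hq : (1 - 2 * X * p) * q = 1 + X ^ M * r')
    (h : α * β + β * α = 1) (hβ : (β * β) ^ M = 0) (ht : t = α * α * (β * β)),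
    (β - aeval t p * (β * β) * α) * (β - aeval t p * (β * β) * α) = 0 ∧
    (α * aeval t q) * (β - aeval t p * (β * β) * α) +
      (β - aeval t p * (β * β) * α) * (α * aeval t q) = 1

/-- **Omg** (from Rng).  Normalization of a Clifford pair up to homotopy.
Proof.  `C` = the subring of `R` of the elements commuting with `d`; `I = {d h + h d}` is a two-sided
ideal of `C`; `Ω = C / I`.  `α = a sg`, `β = - b sg` are in `C`; in `Ω`: `α β + β α = - a sg b sg -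
b sg a sg = a b + b a = 1`, `β² = - b²`, `α² = - a²`, `α² β² = a² b² = t`, `(β²)^M = 0`.  By Rng
`α' = α q(t) = a' sg` and `β' = β - p(t) β² α = - b' sg` (`t` commutes with `sg`) satisfy
`α' β' + β' α' = 1`, `β'² = 0` in `Ω`, and `α' β' + β' α' = a' b' + b' a'`, `β'² = - b'²`.  (Instead of the
quotient ring one can use `RingCon` or a two-sided ideal.) -/
def S_Omg : Prop :=
  ∀ (R : Type) [Ring R] (d sg a b k t : R) (hd : d * d = 0) (hs : sg * sg = 1)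
    (hsd : sg * d = -(d * sg)) (had : a * d = -(d * a)) (hbd : b * d = -(d * b))
    (has : sg * a = -(a * sg)) (hbs : sg * b = -(b * sg))
    (hab : a * b + b * a = 1 + (d * k + k * d)) (M : ℕ) (hM : (b * b) ^ M = 0)
    (p q r r' : ℤ[X]) (hp : p = 1 + X * p ^ 2 + X ^ M * r)
    (hq : (1 - 2 * X * p) * q = 1 + X ^ M * r') (ht : t = a * a * (b * b)),
    (a * aeval t q) * d = -(d * (a * aeval t q)) ∧
    (b - aeval t p * (b * b) * a) * d = -(d * (b - aeval t p * (b * b) * a)) ∧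
    (∃ k', (a * aeval t q) * (b - aeval t p * (b * b) * a) +
      (b - aeval t p * (b * b) * a) * (a * aeval t q) = 1 + (d * k' + k' * d)) ∧
    ∃ l', (b - aeval t p * (b * b) * a) * (b - aeval t p * (b * b) * a) = d * l' + l' * d

/-- **Red** (from GdM, GdO, GdN, GdP, Pol, Omg).  Graded version of Omg.
Proof: `sg = 1 - 2 od` (GdO); `b²` has degree `-2n`, so it is nilpotent (GdN); `t` has degree `0`, so
`p(t)`, `q(t)` have degree `0` (polynomials: sums and products), `a' = a q(t)` has degree `n` and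
`b' = b - p(t) b² a` has degree `-n`; `k'`, `l'` homogeneous by GdP (`s = 1`), for `k'` applied to
`a' b' + b' a' - 1` of degree `0`. -/
def S_Red : Prop :=
  ∀ (R : Type) [Ring R] (N : ℕ) (g : Gd R N) (n : ℕ) (hn : Odd n) (hn1 : 1 < n) (d a b k : R)
    (hdd : d * d = 0) (hd : g.Hm (-1) d) (ha : g.Hm n a) (hb : g.Hm (-n) b)
    (had : a * d = -(d * a)) (hbd : b * d = -(d * b))
    (hab : a * b + b * a = 1 + (d * k + k * d)),
    ∃ a' b' k' l' : R, g.Hm n a' ∧ g.Hm (-n) b' ∧ g.Hm 1 k' ∧ g.Hm (1 - 2 * n) l' ∧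
      a' * d = -(d * a') ∧ b' * d = -(d * b') ∧
      a' * b' + b' * a' = 1 + (d * k' + k' * d) ∧ b' * b' = d * l' + l' * d

/-- **MId.** The matrices `D = DM d a b k l`, `S = SM a b k l` (checked by computer: rewrite with
`b a = 1 + d k + k d - a b`, `b b = d l + l d`, `d a = - a d`, `d b = - b d`, `d d = 0`).
With `e = a b`, `K = a k b + a a l` one has `d K + K d = e - e e`. -/
def S_MId : Prop :=
  ∀ (R : Type) [Ring R] (d a b k l : R) (hdd : d * d = 0) (had : a * d = -(d * a))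
    (hbd : b * d = -(d * b)) (hab : a * b + b * a = 1 + (d * k + k * d))
    (hbb : b * b = d * l + l * d),
    DM d a b k l * DM d a b k l = 0 ∧
    ∃ x y z : R, DM d a b k l * SM a b k l + SM a b k l * DM d a b k l =
      !![1 + ((k * b + a * l) * (a * b) - b * (a * k * b + a * a * l)), 0, 0;
         x, 1 + (a * b * (k * b + a * l) - a * l * (1 - a * b)), 0;
         y, z, 1 - ((a * k * b + a * a * l) * b + (1 - a * b) * (a * l))]

/-- **Tri.** A lower triangular matrix with units on the diagonal is a unit. -/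
def S_Tri : Prop :=
  ∀ (R : Type) [Ring R] (u v w x y z : R), IsUnit u → IsUnit v → IsUnit w →
    IsUnit (!![u, 0, 0; x, v, 0; y, z, w] : Matrix (Fin 3) (Fin 3) R)

/-- **Fex.** Proof: `T = D s + s D` commutes with `D`, let `w` be its inverse, `s' = w s`; `D s' + s' D = 1`.
`F = D + s' D s'`: `s'²` commutes with `D`, `(s' D s')² = s' D D s'² s' ... = 0`, `F² = D s' D s' + s' D s' D =
D s' (1 - s' D) ... = 1`: precisely `D (s' D s') + (s' D s') D = (D s') (D s') + (s' D) (s' D) = D s' + s' D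
= 1` because `D s'` and `s' D = 1 - D s'` are idempotent.  `P T = T P`, so `P w = w P`, `P s' = s' (1 - P)`. -/
def S_Fex : Prop :=
  ∀ (S : Type) [Ring S] (D s P : S) (hD : D * D = 0) (hu : IsUnit (D * s + s * D)) (hP : P * P = P)
    (hPD : P * D = D * (1 - P)) (hPs : P * s = s * (1 - P)),
    ∃ F : S, F * F = 1 ∧ P * F = F * (1 - P)

/-- **Alg** (from Red, MId, Tri, Fex, GdM, GdO, GdN).  The algebraic core.
Proof: Red; `D = DM`, `s = SM` with `a'`, `b'`, `k'`, `l'`.  The diagonal entries of `D s + s D` are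
`1 + x` with `x` homogeneous of degree `1 - n ≠ 0`, so units (GdN).  `PM od * DM = DM * (1 - PM od)`,
`PM od * SM = SM * (1 - PM od)` entrywise by GdO (`a`, `b`, `d`, `k`, `K` have odd degree, `a b`, `k b`, `a l`
even degree). -/
def S_Alg : Prop :=
  ∀ (R : Type) [Ring R] (N : ℕ) (g : Gd R N) (n : ℕ) (hn : Odd n) (hn1 : 1 < n) (d a b k : R)
    (hdd : d * d = 0) (hd : g.Hm (-1) d) (ha : g.Hm n a) (hb : g.Hm (-n) b)
    (had : a * d = -(d * a)) (hbd : b * d = -(d * b))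
    (hab : a * b + b * a = 1 + (d * k + k * d)),
    ∃ F : Matrix (Fin 3) (Fin 3) R, F * F = 1 ∧ PM g.od * F = F * (1 - PM g.od)

/-- **Swp.** Proof: `F` acts on `V × V × V` (or `Fin 3 → V`) by `(F x)_i = ∑_j F i j (x j)`.
Let `E3 = {x | PM P x = 0} = ker P × ker (1 - P) × ker P = ker P × range P × ker P` and
`O3 = {x | (1 - PM P) x = 0} = range P × ker P × range P`.  `F` maps `E3` to `O3` and `O3` to `E3`
(`PM P F = F (1 - PM P)`), and `F F = 1`. -/
def S_Swp : Prop :=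
  ∀ (L : Type) [Ring L] (V : Type) [AddCommGroup V] [Module L V] (P : Module.End L V)
    (hP : P * P = P) (F : Matrix (Fin 3) (Fin 3) (Module.End L V)) (hF : F * F = 1)
    (hPF : PM P * F = F * (1 - PM P)),
    Nonempty ((LinearMap.ker P × LinearMap.range P × LinearMap.ker P) ≃ₗ[L]
      (LinearMap.range P × LinearMap.ker P × LinearMap.range P))

/-- **VPar.** The even and odd parts of the total module: `(od x) j = x j` for odd `j`, `0` for even `j`. -/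
def S_VPar : Prop :=
  ∀ (L : Type) [Ring L] (M : ℕ → Type) [∀ i, AddCommGroup (M i)] [∀ i, Module L (M i)] (K : ℕ),
    Nonempty (LinearMap.ker (stG L M (2 * K)).od ≃ₗ[L] ∀ j : Fin K, M (2 * j)) ∧
    Nonempty (LinearMap.range (stG L M (2 * K)).od ≃ₗ[L] ∀ j : Fin K, M (2 * j + 1))

/-- **Cncl.** Cancellation: `E × O` is finitely generated projective, `(E × O) × Z ≃ L^c`; then
`E × L^c ≃ E × (E × O) × Z ≃ (E × O × E) × Z ≃ (O × E × O) × Z ≃ O × L^c`. -/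
def S_Cncl : Prop :=
  ∀ (L : Type) [Ring L] (E O : Type) [AddCommGroup E] [Module L E] [AddCommGroup O] [Module L O]
    [Module.Finite L E] [Module.Projective L E] [Module.Finite L O] [Module.Projective L O],
    Nonempty ((E × O × E) ≃ₗ[L] (O × E × O)) →
    ∃ c : ℕ, Nonempty ((E × (Fin c → L)) ≃ₗ[L] (O × (Fin c → L)))

/-- **AM** (from Alg, Swp, VPar, Cncl).  The algebraic part for a complex of modules. -/
def S_AM : Prop :=
  ∀ (L : Type) [Ring L] (M : ℕ → Type) [∀ i, AddCommGroup (M i)] [∀ i, Module L (M i)]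
    [∀ i, Module.Finite L (M i)] [∀ i, Module.Projective L (M i)] (K n : ℕ) (hn : Odd n)
    (hn1 : 1 < n) (d a b k : Module.End L (TV M (2 * K))) (hdd : d * d = 0)
    (hd : (stG L M (2 * K)).Hm (-1) d) (ha : (stG L M (2 * K)).Hm n a)
    (hb : (stG L M (2 * K)).Hm (-n) b) (had : a * d = -(d * a)) (hbd : b * d = -(d * b))
    (hab : a * b + b * a = 1 + (d * k + k * d)),
    ∃ c : ℕ, Nonempty (((∀ j : Fin K, M (2 * j)) × (Fin c → L)) ≃ₗ[L]
      ((∀ j : Fin K, M (2 * j + 1)) × (Fin c → L)))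

/-- **TotD.** The total differential is homogeneous of degree `-1` and has square `0`. -/
def S_TotD : Prop :=
  ∀ (L : Type) [Ring L] (M : ℕ → Type) [∀ i, AddCommGroup (M i)] [∀ i, Module L (M i)] (N : ℕ)
    (d : ∀ i : ℕ, M (i + 1) →ₗ[L] M i) (dd : ∀ i x, d i (d (i + 1) x) = 0),
    (stG L M N).Hm (-1) (totd N d) ∧ totd N d * totd N d = 0

/-! ## B. Transfer to the complex `M` -/

/-- **Trn.** Transfer of the operators.  `a = f' a f`, `b = f' b f` (additive and compatible with the group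
elements, hence linear over the group ring), `k = h + f' k f - f' (a t b + b t a) f`.
Proof: `a b + b a = f' a (f f') b f + f' b (f f') a f`, `f f' = 1 + bd t + t bd`,
`a (bd t + t bd) b = - bd (a t b) - (a t b) bd`, similarly for `b`, `a`; so with `a b + b a = 1 + bd k + k bd`
on chains and `f' f = 1 + d h + h d` one gets the claim.  Degrees: `f_gr`, `f'_gr`. -/
def S_Trn : Prop :=
  ∀ (G : Type) [Group G] (M : ℕ → Type) [∀ i, AddCommGroup (M i)] [∀ i, Module (LG G) (M i)]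
    (d : ∀ i : ℕ, M (i + 1) →ₗ[LG G] M i) (N : ℕ) (E : Type) [TopologicalSpace E]
    (act : G → C(E, E)) (T : TT G M d N E act) (n : ℕ) (a b k : Ch ℤ (Sing E) →+ Ch ℤ (Sing E))
    (had : ∀ c, a (bd ℤ (Sing E) c) = - bd ℤ (Sing E) (a c))
    (hbd : ∀ c, b (bd ℤ (Sing E) c) = - bd ℤ (Sing E) (b c))
    (hab : ∀ c, a (b c) + b (a c) = c + (bd ℤ (Sing E) (k c) + k (bd ℤ (Sing E) c)))
    (hag : ∀ i, ∀ c ∈ gr ℤ (Sing E) i, a c ∈ gr ℤ (Sing E) (i + n))
    (hbg : ∀ i, ∀ c ∈ gr ℤ (Sing E) (i + n), b c ∈ gr ℤ (Sing E) i)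
    (hbg0 : ∀ i, i < n → ∀ c ∈ gr ℤ (Sing E) i, b c = 0)
    (ga : ∀ (g : G) c, a (cmap ℤ (SingMap (act g)) c) = cmap ℤ (SingMap (act g)) (a c))
    (gb : ∀ (g : G) c, b (cmap ℤ (SingMap (act g)) c) = cmap ℤ (SingMap (act g)) (b c))
    (gk : ∀ (g : G) c, k (cmap ℤ (SingMap (act g)) c) = cmap ℤ (SingMap (act g)) (k c)),
    ∃ a' b' k' : Module.End (LG G) (TV M N), (stG (LG G) M N).Hm n a' ∧
      (stG (LG G) M N).Hm (-n) b' ∧ a' * totd N d = -(totd N d * a') ∧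
      b' * totd N d = -(totd N d * b') ∧
      a' * b' + b' * a' = 1 + (totd N d * k' + k' * totd N d)

/-- **TTex.** Existence of the data TT (adapt `HE/TEx.lean`; `SingHom.Compare`: Mathlib's singular
chain complex `HSp.SC E` is isomorphic, by `cmp`, `cmpInv`, to the elementary one, which is the part
`gr n` of `Ch ℤ (Sing E)`). -/
def S_TTex : Prop :=
  ∀ (E : Type) [TopologicalSpace E] (G : Type) [Group G] (act : G → C(E, E)) (M : ℕ → Type)
    [∀ i, AddCommGroup (M i)] [∀ i, Module (LG G) (M i)] (d : ∀ i : ℕ, M (i + 1) →ₗ[LG G] M i)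
    (N : ℕ) (hN : ∀ i, N ≤ i → Subsingleton (M i))
    (u : ∀ i, M i →+ (HSp.SC E).X i) (u' : ∀ i, (HSp.SC E).X i →+ M i)
    (a : ∀ i, M i →+ M (i + 1)) (b : ∀ i, (HSp.SC E).X i →+ (HSp.SC E).X (i + 1))
    (ud : ∀ i x, u i (d i x) = ((HSp.SC E).d (i + 1) i).hom (u (i + 1) x))
    (u'd : ∀ i x, u' i (((HSp.SC E).d (i + 1) i).hom x) = d i (u' (i + 1) x))
    (ha0 : ∀ x, u' 0 (u 0 x) - x = d 0 (a 0 x))
    (ha : ∀ i x, u' (i + 1) (u (i + 1) x) - x = d (i + 1) (a (i + 1) x) + a i (d i x))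
    (hb0 : ∀ x, u 0 (u' 0 x) - x = ((HSp.SC E).d 1 0).hom (b 0 x))
    (hb : ∀ i x, u (i + 1) (u' (i + 1) x) - x = ((HSp.SC E).d (i + 2) (i + 1)).hom (b (i + 1) x) +
      b i (((HSp.SC E).d (i + 1) i).hom x))
    (ug : ∀ (g : G) i x, u i (MonoidAlgebra.of ℤ G g • x) =
      ((HSp.SCmap (act g)).f i).hom (u i x))
    (u'g : ∀ (g : G) i x, u' i (((HSp.SCmap (act g)).f i).hom x) =
      MonoidAlgebra.of ℤ G g • u' i x)
    (ag : ∀ (g : G) i x, a i (MonoidAlgebra.of ℤ G g • x) = MonoidAlgebra.of ℤ G g • a i x)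
    (bg : ∀ (g : G) i x, b i (((HSp.SCmap (act g)).f i).hom x) =
      ((HSp.SCmap (act g)).f (i + 1)).hom (b i x)),
    Nonempty (TT G M d N E act)

/-! ## C. Operators on the singular chains -/

/-- **UNn** (from HEp.FAB, HEp.AMh).  Natural version of HEp.S_UN: the homotopy is natural.
Proof: the homotopy constructed in `HE/UN.lean` is `h (x ⊗ y) = F.map (ev x) (ev y) (H p q)` on
simplices; `(ev (φ x)) = φ ∘ ev x`. -/
def S_UNn : Prop :=
  ∀ (k : Type) [CommRing k] (F : Fn k)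
    (hc : ∀ p q : ℕ, Nonempty (Ctr (F.T (De p) (De q)) (F.aug (De p) (De q))))
    (Φ Ψ : NMap F) (ha : ∀ (K L : SS) (z : Ch k K ⊗[k] Ch k L),
      F.aug K L (Φ.f K L z) = F.aug K L (Ψ.f K L z)),
    ∃ h : ∀ K L : SS, Ch k K ⊗[k] Ch k L →ₗ[k] (F.T K L).V,
      (∀ (K L : SS) (z : Ch k K ⊗[k] Ch k L), Φ.f K L z - Ψ.f K L z =
        (F.T K L).d (h K L z) + h K L (((chDG k K).tens (chDG k L)).d z)) ∧
      ∀ {K K' L L' : SS} (φ : SSHom K K') (ψ : SSHom L L') (z : Ch k K ⊗[k] Ch k L),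
        h K' L' (TensorProduct.map (cmap k φ) (cmap k ψ) z) = F.map φ ψ (h K L z)

/-- **Hpn** (from UNn, HEp.Phi, HEp.Psi, HEp.Con, HEp.CtrT, HEp.DlG).  Natural version of HEp.S_Hopf
(compare `HE/Hopf.lean`): the homotopy `H = (m ⊗ m) ∘ h K K` satisfies
`H ((1 ⊗ ψ) z) = (m ⊗ m) (F2.map id ψ) (h z) = (ψ ⊗ ψ) H z` if `m ∘ (1 × ψ) = ψ ∘ m`. -/
def S_Hpn : Prop :=
  ∀ (e : ∀ p q : ℕ, Ch ℤ ((De p).prod (De q))) (he : EZ e) (k : Type) [CommRing k] (K : SS)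
    (m : SSHom (K.prod K) K),
    ∃ H : Ch k K ⊗[k] Ch k K →ₗ[k] Ch k K ⊗[k] Ch k K,
      (∀ z, dl k K (mu k e m z) - TensorProduct.map (mu k e m) (mu k e m)
          (exch (od k K) (TensorProduct.map (dl k K) (dl k K) z)) =
        ((chDG k K).tens (chDG k K)).d (H z) + H (((chDG k K).tens (chDG k K)).d z)) ∧
      ∀ ψ : SSHom K K, (∀ {j : ℕ} (x y : K.K j), m.f (x, ψ.f y) = ψ.f (m.f (x, y))) →
        ∀ z, H (TensorProduct.map LinearMap.id (cmap k ψ) z) =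
          TensorProduct.map (cmap k ψ) (cmap k ψ) (H z)

/-- **SHE.** Equivariant homotopy operator (compare `HE/SHot.lean`; prism operators
`SingHom.PP` of `Pool/Agent/Lib/SingHom/Htpy.lean` are natural). -/
def S_SHE : Prop :=
  ∀ (k : Type) [CommRing k] (E E' : Type) [TopologicalSpace E] [TopologicalSpace E']
    (F : C(unitInterval × E, E')) (f g : C(E, E')) (hf : ∀ x, F (0, x) = f x)
    (hg : ∀ x, F (1, x) = g x),
    ∃ B : Ch k (Sing E) →ₗ[k] Ch k (Sing E'),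
      (∀ c, cmap k (SingMap g) c - cmap k (SingMap f) c =
        bd k (Sing E') (B c) + B (bd k (Sing E) c)) ∧
      (∀ i, ∀ c ∈ gr k (Sing E) i, B c ∈ gr k (Sing E') (i + 1)) ∧
      ∀ (α : C(E, E)) (α' : C(E', E')), (∀ s x, F (s, α x) = α' (F (s, x))) →
        ∀ c, B (cmap k (SingMap α) c) = cmap k (SingMap α') (B c)

/-- **LfE.** The multiplication on the universal covering with equivariant homotopies
(adapt `HE/Lift.lean`; `A`, `B` are the lifts in its proof). -/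
def S_LfE : Prop :=
  ∀ (X E : Type) [TopologicalSpace X] [TopologicalSpace E] [PathConnectedSpace X]
    [SimplyConnectedSpace E] [LocallyPathConnectedSpace E] (p : E → X) (hp : IsCoveringMap p) (e : X)
    (μ : C(X × X, X)) (hμ : HSp.IsHMul e μ),
    ∃ (v : E) (m : C(E × E, E)) (A B : C(unitInterval × E, E)),
      (∀ x, A (0, x) = x) ∧ (∀ x, A (1, x) = m (x, v)) ∧ (∀ x, B (0, x) = x) ∧
      (∀ x, B (1, x) = m (v, x)) ∧
      (∀ (g : HSp.Deck p) (s : unitInterval) (x : E), A (s, g.1 x) = g.1 (A (s, x)) ∧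
        B (s, g.1 x) = g.1 (B (s, x))) ∧
      ∀ (g : HSp.Deck p) (x y : E), m (g.1 x, y) = g.1 (m (x, y)) ∧
        m (x, g.1 y) = g.1 (m (x, y))

section

variable (k : Type) [CommRing k] (K : SS)

/-- `m (x, ψ y) = ψ (m (x, y))`. -/
def Cm (m : SSHom (K.prod K) K) (ψ : SSHom K K) : Prop :=
  ∀ (j : ℕ) (x y : K.K j), m.f (x, ψ.f y) = ψ.f (m.f (x, y))

end

/-- **MuA** (from HEp.NabD, HEp.NabG, HEp.NabN).  The operator `y ↦ c y` for a cycle `c` of odd degree.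
(`mu` is a chain map, `sg c = - c`; naturality of `nab`: `cmap m ∘ cmap (1 × ψ) = cmap ψ ∘ cmap m`.) -/
def S_MuA : Prop :=
  ∀ (e : ∀ p q : ℕ, Ch ℤ ((De p).prod (De q))) (he : EZ e) (k : Type) [CommRing k] (K : SS)
    (m : SSHom (K.prod K) K) (n : ℕ) (hn : Odd n) (c : Ch k K) (hc : c ∈ gr k K n)
    (hbc : bd k K c = 0),
    (∀ y, mu k e m (c ⊗ₜ bd k K y) = - bd k K (mu k e m (c ⊗ₜ y))) ∧
    (∀ i, ∀ y ∈ gr k K i, mu k e m (c ⊗ₜ y) ∈ gr k K (i + n)) ∧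
    ∀ ψ : SSHom K K, Cm K m ψ → ∀ y, mu k e m (c ⊗ₜ cmap k ψ y) = cmap k ψ (mu k e m (c ⊗ₜ y))

/-- **CapD** (from HEp.DlG).  The cap product with a cochain `x` supported in degree `n`.
Proof: `lx x (D (dl y)) = cap (x ∘ bd) y + (-1)^n bd (cap x y)` since `lx x (sg a ⊗ bd b) =
(-1)^n x(a) bd b` (check for `a ∈ gr i`).  Degrees: `dl y ∈ tgr`. -/
def S_CapD : Prop :=
  ∀ (k : Type) [CommRing k] (K : SS) (n : ℕ) (x : Ch k K →ₗ[k] k) (hx : Sup n x),
    (∀ y, cap x (bd k K y) = cap (x ∘ₗ bd k K) y + (-1 : k) ^ n • bd k K (cap x y)) ∧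
    (∀ i, ∀ y ∈ gr k K (i + n), cap x y ∈ gr k K i) ∧
    (∀ i, i < n → ∀ y ∈ gr k K i, cap x y = 0) ∧
    ∀ ψ : SSHom K K, (∀ y, x (cmap k ψ y) = x y) → ∀ y, cap x (cmap k ψ y) = cmap k ψ (cap x y)

/-- **LxD.** `lx x` and the differential, `x` a cocycle of odd degree:
`lx x (D (a ⊗ b)) = x(bd a) b + x(sg a) bd b = - x(a) bd b`. -/
def S_LxD : Prop :=
  ∀ (k : Type) [CommRing k] (K : SS) (n : ℕ) (hn : Odd n) (x : Ch k K →ₗ[k] k) (hx : Sup n x)
    (hxb : ∀ y, x (bd k K y) = 0) (z : Ch k K ⊗[k] Ch k K),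
    lx x (((chDG k K).tens (chDG k K)).d z) = - bd k K (lx x z)

/-- **T1** (from Hpn, LxD).  `κ y = lx x (H (c ⊗ y))`, `H` the homotopy of Hpn;
`D (c ⊗ y) = - c ⊗ bd y`. -/
def S_T1 : Prop :=
  ∀ (e : ∀ p q : ℕ, Ch ℤ ((De p).prod (De q))) (he : EZ e) (k : Type) [CommRing k] (K : SS)
    (m : SSHom (K.prod K) K) (n : ℕ) (hn : Odd n) (c : Ch k K) (hc : c ∈ gr k K n)
    (hbc : bd k K c = 0) (x : Ch k K →ₗ[k] k) (hx : Sup n x) (hxb : ∀ y, x (bd k K y) = 0),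
    ∃ κ : Ch k K →ₗ[k] Ch k K,
      (∀ y, cap x (mu k e m (c ⊗ₜ y)) =
        Tw e m x (dl k K c) y - (bd k K (κ y) + κ (bd k K y))) ∧
      ∀ ψ : SSHom K K, Cm K m ψ → (∀ y, x (cmap k ψ y) = x y) →
        ∀ y, κ (cmap k ψ y) = cmap k ψ (κ y)

/-- **TwD** (from LxD, HEp.DlG, HEp.Mid, HEp.TCM, HEp.NabD, HEp.NabG).  `Tw` of a boundary.
Proof: `D (w ⊗ dl y) = D w ⊗ dl y + w ⊗ dl (bd y)` for even `w` (`P w = 0`, so `sg w = w`); `exch` (which is
`mid`) and `mu ⊗ mu` are chain maps, then LxD. -/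
def S_TwD : Prop :=
  ∀ (e : ∀ p q : ℕ, Ch ℤ ((De p).prod (De q))) (he : EZ e) (k : Type) [CommRing k] (K : SS)
    (m : SSHom (K.prod K) K) (n : ℕ) (hn : Odd n) (x : Ch k K →ₗ[k] k) (hx : Sup n x)
    (hxb : ∀ y, x (bd k K y) = 0) (w : Ch k K ⊗[k] Ch k K)
    (hw : ((chDG k K).tens (chDG k K)).P w = 0) (y : Ch k K),
    Tw e m x (((chDG k K).tens (chDG k K)).d w) y =
      - bd k K (Tw e m x w y) - Tw e m x w (bd k K y)

/-- **Tw3** (from HEp.NabG, HEp.DlG, HEp.DlC).  The term `c ⊗ v`.  Proof: for a simplex `y`, `dl y` is the sum of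
`y' ⊗ y''` of degrees `(i, j)`; `exch ((c ⊗ v) ⊗ (y' ⊗ y'')) = (c ⊗ y') ⊗ (v ⊗ y'')` (`P v = 0`);
`x (mu (c ⊗ y')) = 0` unless `i = 0` and then it is `aug y'` (by `hx0` and linearity); the counit (DlC). -/
def S_Tw3 : Prop :=
  ∀ (e : ∀ p q : ℕ, Ch ℤ ((De p).prod (De q))) (he : EZ e) (k : Type) [CommRing k] (K : SS)
    (m : SSHom (K.prod K) K) (n : ℕ) (c : Ch k K) (hc : c ∈ gr k K n)
    (x : Ch k K →ₗ[k] k) (hx : Sup n x) (v : K.K 0)
    (hx0 : ∀ σ : K.K 0, x (mu k e m (c ⊗ₜ sx k σ)) = 1) (y : Ch k K),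
    Tw e m x (c ⊗ₜ sx k v) y = mu k e m (sx k v ⊗ₜ y)

/-- **Tw4** (from HEp.NabG, HEp.DlG).  The term `v ⊗ c`.  Proof: `exch ((v ⊗ c) ⊗ (y' ⊗ y'')) =
(-1)^(n i) (v ⊗ y') ⊗ (c ⊗ y'')` and `x (mu (v ⊗ y')) = 0` unless `i = n`, so the sign is `-1`. -/
def S_Tw4 : Prop :=
  ∀ (e : ∀ p q : ℕ, Ch ℤ ((De p).prod (De q))) (he : EZ e) (k : Type) [CommRing k] (K : SS)
    (m : SSHom (K.prod K) K) (n : ℕ) (hn : Odd n) (c : Ch k K) (hc : c ∈ gr k K n)
    (x : Ch k K →ₗ[k] k) (hx : Sup n x) (v : K.K 0) (y : Ch k K),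
    Tw e m x (sx k v ⊗ₜ c) y =
      - mu k e m (c ⊗ₜ cap (x ∘ₗ mu k e m ∘ₗ TensorProduct.mk k (Ch k K) (Ch k K) (sx k v)) y)

/-- **TwG** (from HEp.NabN, HEp.DlG, HEp.Mid).  Equivariance of `Tw`: `dl (ψ y) = (ψ ⊗ ψ) dl y`,
`exch` is natural, `mu (a ⊗ ψ b) = ψ mu (a ⊗ b)` (naturality of `nab` and `Cm`), `x ∘ ψ = x`. -/
def S_TwG : Prop :=
  ∀ (e : ∀ p q : ℕ, Ch ℤ ((De p).prod (De q))) (k : Type) [CommRing k] (K : SS)
    (m : SSHom (K.prod K) K) (x : Ch k K →ₗ[k] k) (ψ : SSHom K K) (hψ : Cm K m ψ)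
    (hx : ∀ y, x (cmap k ψ y) = x y) (z : Ch k K ⊗[k] Ch k K) (y : Ch k K),
    Tw e m x z (cmap k ψ y) = cmap k ψ (Tw e m x z y)

/-- **Vtx** (from HEp.SHot, HEp.NabU).  `mu (c ⊗ σ)` is the image of `c` under `m (·, σ)`, and this map is
homotopic to the identity (a path from `σ` to `v`, then `hA`); so it is homologous to `c` for a cycle
`c`. -/
def S_Vtx : Prop :=
  ∀ (e : ∀ p q : ℕ, Ch ℤ ((De p).prod (De q))) (he : EZ e) (k : Type) [CommRing k] (E : Type)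
    [TopologicalSpace E] [PathConnectedSpace E] (v : E) (m : C(E × E, E))
    (hA : ContinuousMap.Homotopic (ContinuousMap.id E)
      (m.comp (ContinuousMap.prodMk (ContinuousMap.id E) (ContinuousMap.const E v))))
    (c : Ch k (Sing E)) (hbc : bd k (Sing E) c = 0) (x : Ch k (Sing E) →ₗ[k] k)
    (hxb : ∀ y, x (bd k (Sing E) y) = 0) (σ : (Sing E).K 0),
    x (mu k e (SingMul m) (c ⊗ₜ sx k σ)) = x c

/-- **UnB** (from SHE, HEp.NabU).  `mu (v ⊗ y) = cmap (m (v, ·)) y` is equivariantly homotopic to `y`. -/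
def S_UnB : Prop :=
  ∀ (e : ∀ p q : ℕ, Ch ℤ ((De p).prod (De q))) (he : EZ e) (k : Type) [CommRing k] (E : Type)
    [TopologicalSpace E] (v : E) (m : C(E × E, E)) (B : C(unitInterval × E, E))
    (hB0 : ∀ x, B (0, x) = x) (hB1 : ∀ x, B (1, x) = m (v, x)),
    ∃ b : Ch k (Sing E) →ₗ[k] Ch k (Sing E),
      (∀ y, mu k e (SingMul m) (sx k (vtx v) ⊗ₜ y) =
        y + (bd k (Sing E) (b y) + b (bd k (Sing E) y))) ∧
      (∀ i, ∀ y ∈ gr k (Sing E) i, b y ∈ gr k (Sing E) (i + 1)) ∧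
      ∀ α : C(E, E), (∀ s x, B (s, α x) = α (B (s, x))) →
        ∀ y, b (cmap k (SingMap α) y) = cmap k (SingMap α) (b y)

/-- **Rel** (from MuA, CapD, T1, TwD, Tw3, Tw4, TwG, Vtx, UnB).  The Clifford relation on the singular
chains.  Proof: `a y = mu (c ⊗ y)`, `b = cap x`.  Replace `w` by its even part `w - P w` (`dl c - c ⊗ v - v ⊗ c`
is odd, `P` of it is itself, and `P (D w) = D (w - P w)`).  By T1 and linearity of `Tw` in `z`:
`b (a y) = Tw (c ⊗ v) y + Tw (v ⊗ c) y + Tw (D w) y - [bd, κ1] y`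
`= mu (v ⊗ y) - a (cap x' y) - [bd, Tw w] y - [bd, κ1] y`, `x' = x ∘ mu (v ⊗ ·)` (`hx0` of Tw3 from Vtx);
`mu (v ⊗ y) = y + [bd, β] y` (UnB, `β` its operator), `x' = x + ξ ∘ bd` with `ξ = x ∘ β`, supported in
degree `n - 1`; by CapD for `ξ` (even degree) `cap (ξ ∘ bd) y = cap ξ (bd y) - bd (cap ξ y)`, so
`a (cap x' y) = a (b y) + a (cap ξ (bd y)) + bd (a (cap ξ y))`.  Total: `κ = β - a cap ξ - Tw w - κ1`.
`[bd, h] = bd h + h bd`.  Equivariance: `ξ ∘ α = ξ`. -/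
def S_Rel : Prop :=
  ∀ (e : ∀ p q : ℕ, Ch ℤ ((De p).prod (De q))) (he : EZ e) (k : Type) [CommRing k] (E : Type)
    [TopologicalSpace E] [PathConnectedSpace E] (v : E) (m : C(E × E, E))
    (hA : ContinuousMap.Homotopic (ContinuousMap.id E)
      (m.comp (ContinuousMap.prodMk (ContinuousMap.id E) (ContinuousMap.const E v))))
    (B : C(unitInterval × E, E)) (hB0 : ∀ x, B (0, x) = x) (hB1 : ∀ x, B (1, x) = m (v, x))
    (n : ℕ) (hn : Odd n) (c : Ch k (Sing E)) (hc : c ∈ gr k (Sing E) n)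
    (hbc : bd k (Sing E) c = 0) (x : Ch k (Sing E) →ₗ[k] k) (hx : Sup n x)
    (hxb : ∀ y, x (bd k (Sing E) y) = 0) (hxc : x c = 1)
    (w : Ch k (Sing E) ⊗[k] Ch k (Sing E))
    (hw : dl k (Sing E) c = c ⊗ₜ sx k (vtx v) + sx k (vtx v) ⊗ₜ c +
      ((chDG k (Sing E)).tens (chDG k (Sing E))).d w),
    ∃ a b κ : Ch k (Sing E) →ₗ[k] Ch k (Sing E),
      (∀ y, a (bd k (Sing E) y) = - bd k (Sing E) (a y)) ∧
      (∀ y, b (bd k (Sing E) y) = - bd k (Sing E) (b y)) ∧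
      (∀ y, a (b y) + b (a y) = y + (bd k (Sing E) (κ y) + κ (bd k (Sing E) y))) ∧
      (∀ i, ∀ y ∈ gr k (Sing E) i, a y ∈ gr k (Sing E) (i + n)) ∧
      (∀ i, ∀ y ∈ gr k (Sing E) (i + n), b y ∈ gr k (Sing E) i) ∧
      (∀ i, i < n → ∀ y ∈ gr k (Sing E) i, b y = 0) ∧
      ∀ α : C(E, E), (∀ x y, m (x, α y) = α (m (x, y))) →
        (∀ s x, B (s, α x) = α (B (s, x))) → (∀ y, x (cmap k (SingMap α) y) = x y) →
        (∀ y, a (cmap k (SingMap α) y) = cmap k (SingMap α) (a y)) ∧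
        (∀ y, b (cmap k (SingMap α) y) = cmap k (SingMap α) (b y)) ∧
        ∀ y, κ (cmap k (SingMap α) y) = cmap k (SingMap α) (κ y)

/-! ## D. Primitivity -/

/-- **Rho.** A partial contraction of the chains of a simplicial set with vanishing homology in degrees
`0 < i < n`.  Proof: define `s` on the basis of simplices by recursion on the dimension (`Ch` is the
free module on all simplices): for a vertex `σ`, `s σ ∈ gr 1` with `bd (s σ) = σ - v` (take the component in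
`gr 1` of the element given by `h0`); for a simplex `σ` of dimension `0 < i < n` the element
`σ - s (bd σ)` is a cycle of `gr i` (for `i = 1`: `bd (s (bd σ)) = bd σ - aug (bd σ) v = bd σ`), hence the boundary
of an element `s σ` of `gr (i + 1)`; `s σ = 0` for `i ≥ n`. -/
def S_Rho : Prop :=
  ∀ (k : Type) [CommRing k] (K : SS) (v : K.K 0) (n : ℕ) (hn : 0 < n)
    (h0 : ∀ x ∈ gr k K 0, ∃ y, x - aug k K x • sx k v = bd k K y)
    (hi : ∀ i, 0 < i → i < n → ∀ x ∈ gr k K i, bd k K x = 0 → ∃ y, x = bd k K y),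
    ∃ s : Ch k K →ₗ[k] Ch k K, (∀ i, ∀ x ∈ gr k K i, s x ∈ gr k K (i + 1)) ∧
      (∀ i, n ≤ i → ∀ x ∈ gr k K i, s x = 0) ∧
      (∀ x ∈ gr k K 0, bd k K (s x) = x - aug k K x • sx k v) ∧
      ∀ i, 0 < i → i < n → ∀ x ∈ gr k K i, bd k K (s x) + s (bd k K x) = x

/-- **TG** (from Rho).  The tensor square in degrees `≤ n`.
Proof: `ρ = 1 - bd s - s bd`: chain map of degree `0`, `ρ = 0` on `gr i`, `0 < i < n`, `ρ σ = aug σ • v` on `gr 0`,
`ρ x = x - s (bd x)` on `gr n`, so `ρ x = x` for cycles of `gr n`.  `S = s ⊗ 1 + (ρ sg) ⊗ s`, `sg x = x - 2 od x`: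
`D S + S D = 1 - ρ ⊗ ρ` (compare `HE/HPT.lean`), `S (tgr i) ⊆ tgr (i + 1)`.  For `z ∈ tgr i`, `0 < i < n`:
`(ρ ⊗ ρ) z = 0` since in each bidegree one of the two degrees is in `(0, n)` or both are... (the two
degrees are `< n` and not both `0`); for `i = 0`: `(ρ ⊗ ρ) z = augT z • v ⊗ v`.  For `z ∈ tgr n` only the bidegrees
`(0, n)`, `(n, 0)` survive: `(ρ ⊗ ρ) z = v ⊗ ρ z'' + ρ z' ⊗ v` with `z'' = (aug ⊗ 1) z`, `z' = (1 ⊗ aug) z`,
which are cycles of `gr n` if `D z = 0`. -/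
def S_TG : Prop :=
  ∀ (k : Type) [CommRing k] (K : SS) (v : K.K 0) (n : ℕ) (hn : 0 < n)
    (h0 : ∀ x ∈ gr k K 0, ∃ y, x - aug k K x • sx k v = bd k K y)
    (hi : ∀ i, 0 < i → i < n → ∀ x ∈ gr k K i, bd k K x = 0 → ∃ y, x = bd k K y),
    (∀ i, 0 < i → i < n → ∀ z ∈ tgr (gr k K) (gr k K) i, ((chDG k K).tens (chDG k K)).d z = 0 →
      ∃ w ∈ tgr (gr k K) (gr k K) (i + 1), ((chDG k K).tens (chDG k K)).d w = z) ∧
    (∀ z ∈ tgr (gr k K) (gr k K) 0, augT (aug k K) (aug k K) z = 0 →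
      ∃ w ∈ tgr (gr k K) (gr k K) 1, ((chDG k K).tens (chDG k K)).d w = z) ∧
    ∀ z ∈ tgr (gr k K) (gr k K) n, ((chDG k K).tens (chDG k K)).d z = 0 →
      ∃ w ∈ tgr (gr k K) (gr k K) (n + 1),
        z = sx k v ⊗ₜ (TensorProduct.lid k (Ch k K) (TensorProduct.map (aug k K) LinearMap.id z)) +
          (TensorProduct.rid k (Ch k K) (TensorProduct.map LinearMap.id (aug k K) z)) ⊗ₜ sx k v +
          ((chDG k K).tens (chDG k K)).d w

/-- **Prm** (from TG, HEp.DlG, HEp.DlC).  Cycles of degree `n` are primitive. -/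
def S_Prm : Prop :=
  ∀ (k : Type) [CommRing k] (K : SS) (v : K.K 0) (n : ℕ) (hn : 0 < n)
    (h0 : ∀ x ∈ gr k K 0, ∃ y, x - aug k K x • sx k v = bd k K y)
    (hi : ∀ i, 0 < i → i < n → ∀ x ∈ gr k K i, bd k K x = 0 → ∃ y, x = bd k K y)
    (c : Ch k K) (hc : c ∈ gr k K n) (hbc : bd k K c = 0),
    ∃ w, dl k K c = c ⊗ₜ sx k v + sx k v ⊗ₜ c + ((chDG k K).tens (chDG k K)).d w

end HPx
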