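import Pool.Agent.Lib.MP_181146_gt.HP.SpecR
import Pool.Agent.Lib.MP_181146_gt.HE.SpecS
import Pool.Agent.Lib.SingHom.Compare

/-!
# The hypothesis on the homology of `E` in terms of the elementary singular chains
-/

set_option autoImplicit false

namespace HPx

open HEp

open Pool.Agent.Lib

section

variable {E : Type} [TopologicalSpace E]

/-- a simplex as a chain -/
private noncomputable def es {n : ℕ} (σ : (Sing E).K n) : SingHom.SC ℤ E n :=
  Finsupp.single (σ : C(SingHom.Sx n, E)) 1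

private lemma es_ext {n : ℕ} {M : Type*} [AddCommGroup M] [Module ℤ M]
    {f g : SingHom.SC ℤ E n →ₗ[ℤ] M} (h : ∀ σ : (Sing E).K n, f (es σ) = g (es σ)) : f = g :=
  SingHom.slin_ext ℤ h

private lemma sbd_es {n : ℕ} (σ : (Sing E).K (n + 1)) : SingHom.sbd ℤ n (es σ) =
    ∑ i : Fin (n + 2), (-1 : ℤ) ^ (i : ℕ) • es ((Sing E).act i.succAbove σ) :=
  SingHom.sbd_single ℤ (n := n) σ

/-- the inclusion of simplices -/
private def ms (E : Type) [TopologicalSpace E] (n : ℕ) (σ : C(SingHom.Sx n, E)) :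
    Σ n, (Sing E).K n := ⟨n, σ⟩

private lemma ms_inj (n : ℕ) : Function.Injective (ms E n) := by
  intro a b h
  exact eq_of_heq (Sigma.mk.inj h).2

/-- inclusion of the chains of dimension `n` -/
private noncomputable def inc (n : ℕ) : SingHom.SC ℤ E n →ₗ[ℤ] Ch ℤ (Sing E) :=
  Finsupp.lmapDomain ℤ ℤ (ms E n)

/-- component of dimension `n` -/
private noncomputable def prj (n : ℕ) : Ch ℤ (Sing E) →ₗ[ℤ] SingHom.SC ℤ E n :=
  Finsupp.lcomapDomain (ms E n) (ms_inj n)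

private lemma inc_es {n : ℕ} (σ : (Sing E).K n) : inc n (es σ) = sx ℤ σ := by
  rw [inc, Finsupp.lmapDomain_apply]
  exact Finsupp.mapDomain_single

private lemma prj_apply (n : ℕ) (c : Ch ℤ (Sing E)) (τ : C(SingHom.Sx n, E)) :
    prj n c τ = c (ms E n τ) := rfl

private lemma inc_apply (n : ℕ) (c : SingHom.SC ℤ E n) (τ : C(SingHom.Sx n, E)) :
    inc n c (ms E n τ) = c τ := by
  rw [inc, Finsupp.lmapDomain_apply]
  exact Finsupp.mapDomain_apply (ms_inj n) c τ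

private lemma prj_inc (n : ℕ) (c : SingHom.SC ℤ E n) : prj n (inc n c) = c := by
  apply Finsupp.ext
  intro τ
  rw [prj_apply, inc_apply]

private lemma es_mem {n : ℕ} (σ : (Sing E).K n) : inc n (es σ) ∈ gr ℤ (Sing E) n := by
  rw [inc_es]
  exact sx_mem_gr ℤ _

private lemma inc_mem (n : ℕ) (c : SingHom.SC ℤ E n) : inc n c ∈ gr ℤ (Sing E) n := by
  induction c using Finsupp.induction_linear with
  | zero =>
    rw [map_zero]
    exact zero_mem _
  | add f g hf hg =>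
    rw [map_add]
    exact add_mem hf hg
  | single σ r =>
    have h : (Finsupp.single σ r : SingHom.SC ℤ E n) = r • es (E := E) (n := n) σ :=
      (Finsupp.smul_single_one σ r).symm
    rw [h, map_smul]
    exact Submodule.smul_mem _ r (es_mem (n := n) σ)

private lemma gr_zero {n m : ℕ} (h : m ≠ n) {c : Ch ℤ (Sing E)} (hc : c ∈ gr ℤ (Sing E) n)
    (τ : (Sing E).K m) : c ⟨m, τ⟩ = 0 := by
  rw [gr, Finsupp.mem_supported'] at hc
  exact hc ⟨m, τ⟩ h

private lemma prj_ne {n m : ℕ} (h : m ≠ n) {c : Ch ℤ (Sing E)} (hc : c ∈ gr ℤ (Sing E) n) :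
    prj m c = 0 := by
  apply Finsupp.ext
  intro τ
  rw [prj_apply]
  exact gr_zero h hc τ

private lemma exists_inc {n : ℕ} {c : Ch ℤ (Sing E)} (hc : c ∈ gr ℤ (Sing E) n) :
    ∃ c' : SingHom.SC ℤ E n, c = inc n c' := by
  refine ⟨prj n c, ?_⟩
  apply Finsupp.ext
  rintro ⟨m, τ⟩
  by_cases h : m = n
  · subst h
    exact (inc_apply m (prj m c) τ).symm
  · rw [gr_zero h hc, gr_zero h (inc_mem n _)]

private lemma bd_inc_succ (n : ℕ) (c : SingHom.SC ℤ E (n + 1)) :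
    bd ℤ (Sing E) (inc (n + 1) c) = inc n (SingHom.sbd ℤ n c) := by
  have h : bd ℤ (Sing E) ∘ₗ inc (n + 1) = inc n ∘ₗ SingHom.sbd ℤ n :=
    es_ext fun σ => by
      rw [LinearMap.comp_apply, LinearMap.comp_apply, inc_es, bd_sx, sbd_es, map_sum]
      refine Finset.sum_congr rfl fun i _ => ?_
      rw [map_smul, inc_es]
  exact LinearMap.congr_fun h c

private lemma bd_inc_zero (c : SingHom.SC ℤ E 0) : bd ℤ (Sing E) (inc 0 c) = 0 := by
  have h : bd ℤ (Sing E) ∘ₗ inc 0 = 0 :=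
    es_ext fun σ => by
      rw [LinearMap.comp_apply, inc_es, bd_sx_zero, LinearMap.zero_apply]
  exact LinearMap.congr_fun h c

/-! ### comparison with Mathlib's singular chains -/

private noncomputable def cm (n : ℕ) : SingHom.SC ℤ E n →ₗ[ℤ] (HSp.SC E).X n := SingHom.cmp ℤ n

private noncomputable def ci (n : ℕ) : (HSp.SC E).X n →ₗ[ℤ] SingHom.SC ℤ E n := SingHom.cmpInv ℤ n

private lemma ci_cm (n : ℕ) (c : SingHom.SC ℤ E n) : ci n (cm n c) = c := SingHom.cmpInv_cmp ℤ n c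

private lemma cm_ci (n : ℕ) (c : (HSp.SC E).X n) : cm n (ci n c) = c := SingHom.cmp_cmpInv ℤ n c

private lemma cm_d (n : ℕ) (c : SingHom.SC ℤ E (n + 1)) :
    ((HSp.SC E).d (n + 1) n).hom (cm (n + 1) c) = cm n (SingHom.sbd ℤ n c) := SingHom.cmp_d ℤ n c

private lemma ci_d (n : ℕ) (y : (HSp.SC E).X (n + 1)) :
    ci n (((HSp.SC E).d (n + 1) n).hom y) = SingHom.sbd ℤ n (ci (n + 1) y) := by
  conv_lhs => rw [← cm_ci (n + 1) y]
  rw [cm_d, ci_cm]

end

theorem sAcEx (hSH0 : HEp.S_SH0) : S_AcEx := by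
  intro E _ _ v n hE
  refine ⟨fun x hx => hSH0 ℤ E v x hx, ?_⟩
  intro i hi0 hi x hx hbx
  obtain ⟨j, rfl⟩ : ∃ j, i = j + 1 := ⟨i - 1, by omega⟩
  obtain ⟨c, rfl⟩ := exists_inc hx
  rw [bd_inc_succ] at hbx
  have hc : SingHom.sbd ℤ j c = 0 := by
    rw [← prj_inc j (SingHom.sbd ℤ j c), hbx, map_zero]
  obtain ⟨y, hy⟩ := hE j hi (cm (j + 1) c) (by
    change ((HSp.SC E).d (j + 1) j).hom (cm (j + 1) c) = 0
    rw [cm_d, hc, map_zero])
  have hy' : ((HSp.SC E).d (j + 2) (j + 1)).hom y = cm (j + 1) c := hy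
  refine ⟨inc (j + 2) (ci (j + 2) y), ?_⟩
  rw [bd_inc_succ, ← ci_d, hy', ci_cm]

end HPx
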