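import Pool.Agent.Lib.MP_181146_gt.HP.SpecP

/-!
# Project HP, statement Alg: the algebraic core
-/

set_option autoImplicit false

namespace HPx

open HEp

private lemma alg_pm {R : Type} [Ring R] (P : R) (m : Matrix (Fin 3) (Fin 3) R)
    (h00 : P * m 0 0 = m 0 0 * (1 - P)) (h01 : P * m 0 1 = m 0 1 * P)
    (h02 : P * m 0 2 = m 0 2 * (1 - P)) (h10 : P * m 1 0 = m 1 0 * P)
    (h11 : P * m 1 1 = m 1 1 * (1 - P)) (h12 : P * m 1 2 = m 1 2 * P)
    (h20 : P * m 2 0 = m 2 0 * (1 - P)) (h21 : P * m 2 1 = m 2 1 * P)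
    (h22 : P * m 2 2 = m 2 2 * (1 - P)) : PM P * m = m * (1 - PM P) := by
  rw [mul_sub, mul_one]
  rw [mul_sub, mul_one] at h00 h02 h11 h20 h22
  ext i j
  rw [Matrix.sub_apply]
  fin_cases i <;> fin_cases j <;>
    simp [PM, Matrix.mul_apply, Fin.sum_univ_three, mul_sub, sub_mul, h00, h01, h02, h10, h11, h12,
      h20, h21, h22]

private lemma alg_pp {R : Type} [Ring R] (P : R) (h : P * P = P) : PM P * PM P = PM P := by
  ext i j
  fin_cases i <;> fin_cases j <;>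
    simp [PM, Matrix.mul_apply, Fin.sum_univ_three, mul_sub, sub_mul, h]

theorem sAlg (hRed : S_Red) (hMId : S_MId) (hTri : S_Tri) (hFex : S_Fex) (hGdM : S_GdM)
    (hGdO : S_GdO) (hGdN : S_GdN) : S_Alg := by
  intro R _ N g n hn hn1 d a₀ b₀ k₀ hdd hd ha₀ hb₀ had₀ hbd₀ hab₀
  obtain ⟨a, b, k, l, ha, hb, hk, hl, had, hbd, hab, hbb⟩ :=
    hRed R N g n hn hn1 d a₀ b₀ k₀ hdd hd ha₀ hb₀ had₀ hbd₀ hab₀
  obtain ⟨hDD, x, y, z, hDS⟩ := hMId R d a b k l hdd had hbd hab hbb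
  obtain ⟨h1, h0, hadd, hneg, hmul⟩ := hGdM R N g
  obtain ⟨hoo, hpar⟩ := hGdO R N g
  have hcast : ∀ (m m' : ℤ) (u : R), g.Hm m u → m = m' → g.Hm m' u := by
    intro m m' u hu hm
    rw [← hm]
    exact hu
  have hsub : ∀ (m : ℤ) (u v : R), g.Hm m u → g.Hm m v → g.Hm m (u - v) := by
    intro m u v hu hv
    rw [sub_eq_add_neg]
    exact hadd m u (-v) hu (hneg m v hv)
  -- degrees
  have hAB : g.Hm 0 (a * b) := hcast _ _ _ (hmul _ _ _ _ hb ha) (by ring)
  have hKB : g.Hm (1 - n) (k * b) := hcast _ _ _ (hmul _ _ _ _ hb hk) (by ring)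
  have hAL : g.Hm (1 - n) (a * l) := hcast _ _ _ (hmul _ _ _ _ hl ha) (by ring)
  have hAK : g.Hm (1 + n) (a * k) := hmul _ _ _ _ hk ha
  have hAKB : g.Hm 1 (a * k * b) := hcast _ _ _ (hmul _ _ _ _ hb hAK) (by ring)
  have hAA : g.Hm (n + n) (a * a) := hmul _ _ _ _ ha ha
  have hAAL : g.Hm 1 (a * a * l) := hcast _ _ _ (hmul _ _ _ _ hl hAA) (by ring)
  have hK : g.Hm 1 (a * k * b + a * a * l) := hadd _ _ _ hAKB hAAL
  have hKL : g.Hm (1 - n) (k * b + a * l) := hadd _ _ _ hKB hAL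
  have hE1 : g.Hm 0 (1 - a * b) := hsub _ _ _ h1 hAB
  have hx1 : g.Hm (1 - n) ((k * b + a * l) * (a * b) - b * (a * k * b + a * a * l)) :=
    hsub _ _ _ (hcast _ _ _ (hmul _ _ _ _ hAB hKL) (by ring))
      (hcast _ _ _ (hmul _ _ _ _ hK hb) (by ring))
  have hx2 : g.Hm (1 - n) (a * b * (k * b + a * l) - a * l * (1 - a * b)) :=
    hsub _ _ _ (hcast _ _ _ (hmul _ _ _ _ hKL hAB) (by ring))
      (hcast _ _ _ (hmul _ _ _ _ hE1 hAL) (by ring))
  have hx3 : g.Hm (1 - n) ((a * k * b + a * a * l) * b + (1 - a * b) * (a * l)) :=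
    hadd _ _ _ (hcast _ _ _ (hmul _ _ _ _ hb hK) (by ring))
      (hcast _ _ _ (hmul _ _ _ _ hAL hE1) (by ring))
  have hne : (1 - n : ℤ) ≠ 0 := by omega
  have hnil : ∀ u : R, g.Hm (1 - n) u → IsNilpotent u := fun u hu =>
    ⟨N, hGdN R N g (1 - n) u hne hu⟩
  have hunit : IsUnit (DM d a b k l * SM a b k l + SM a b k l * DM d a b k l) := by
    rw [hDS]
    exact hTri R _ _ _ x y z (hnil _ hx1).isUnit_one_add (hnil _ hx2).isUnit_one_add
      (hnil _ hx3).isUnit_one_sub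
  -- parity
  have hev : ∀ (m : ℤ) (u : R), g.Hm m u → Even m → g.od * u = u * g.od :=
    fun m u hu hm => (hpar m u hu).1 hm
  have hod : ∀ (m : ℤ) (u : R), g.Hm m u → Odd m → g.od * u = u * (1 - g.od) :=
    fun m u hu hm => (hpar m u hu).2 hm
  have hnZ : Odd (n : ℤ) := (Int.odd_coe_nat n).2 hn
  have hnE : Even (1 - n : ℤ) := odd_one.sub_odd hnZ
  have e0 : Even (0 : ℤ) := Even.zero
  have o1 : Odd (1 : ℤ) := odd_one
  have om1 : Odd (-1 : ℤ) := odd_one.neg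
  have pd := hod _ _ hd om1
  have pa := hod _ _ ha hnZ
  have pb := hod _ _ hb hnZ.neg
  have pk := hod _ _ hk o1
  have pK := hod _ _ hK o1
  have pAB := hev _ _ hAB e0
  have pKB := hev _ _ hKB hnE
  have pAL := hev _ _ hAL hnE
  have hDo : PM g.od * DM d a b k l = DM d a b k l * (1 - PM g.od) := by
    refine alg_pm g.od (DM d a b k l) pd ?_ ?_ pAB ?_ ?_ ?_ ?_ pd
    · change g.od * 0 = 0 * g.od
      rw [mul_zero, zero_mul]
    · change g.od * 0 = 0 * (1 - g.od)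
      rw [mul_zero, zero_mul]
    · change g.od * (-d) = -d * (1 - g.od)
      rw [mul_neg, pd, neg_mul]
    · change g.od * 0 = 0 * g.od
      rw [mul_zero, zero_mul]
    · change g.od * (a - (a * k * b + a * a * l)) = (a - (a * k * b + a * a * l)) * (1 - g.od)
      rw [mul_sub g.od, pa, pK, sub_mul a]
    · change g.od * (1 - a * b) = (1 - a * b) * g.od
      rw [mul_sub, pAB, sub_mul, mul_one, one_mul]
  have hSo : PM g.od * SM a b k l = SM a b k l * (1 - PM g.od) := by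
    refine alg_pm g.od (SM a b k l) ?_ ?_ pb ?_ ?_ ?_ ?_ ?_ pK
    · change g.od * ((a * k * b + a * a * l) - k) = ((a * k * b + a * a * l) - k) * (1 - g.od)
      rw [mul_sub g.od, pK, pk, sub_mul (a * k * b + a * a * l)]
    · change g.od * (a * b + k * b + a * l) = (a * b + k * b + a * l) * g.od
      rw [mul_add, mul_add, pAB, pKB, pAL, add_mul, add_mul]
    · change g.od * 0 = 0 * g.od
      rw [mul_zero, zero_mul]
    · change g.od * (-(2 * (a * k * b + a * a * l))) = -(2 * (a * k * b + a * a * l)) * (1 - g.od)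
      rw [two_mul, mul_neg, mul_add g.od, pK, neg_mul, add_mul (a * k * b + a * a * l)]
    · change g.od * (1 - a * b - a * l) = (1 - a * b - a * l) * g.od
      rw [mul_sub, mul_sub, pAB, pAL, sub_mul, sub_mul, mul_one, one_mul]
    · change g.od * 0 = 0 * (1 - g.od)
      rw [mul_zero, zero_mul]
    · change g.od * 0 = 0 * g.od
      rw [mul_zero, zero_mul]
  exact hFex (Matrix (Fin 3) (Fin 3) R) (DM d a b k l) (SM a b k l) (PM g.od) hDD hunit
    (alg_pp g.od hoo) hDo hSo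

end HPx
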