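import Pool.Agent.Lib.MP_181146_gt.HP.SpecQ
import Pool.Agent.Lib.MP_181146_gt.HE.DStep

/-!
# Project HP: finitely generated projective modules over the group ring are free abelian groups
-/

set_option autoImplicit false

namespace HPx

open HEp

theorem sAxF : S_AxF := by
  intro G _ _ M _ _ _ _
  exact ⟨DStepAux.fin_int G M, DStepAux.free_int G M⟩

end HPx
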