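import Pool.Agent.Lib.MP_181146_gt.HP.SpecQ

/-!
# Project HP: dual bases of cocycles and cycles
-/

set_option autoImplicit false

namespace HPx

open HEp

theorem sBas (hExt : S_Ext) (hAxF : S_AxF) : S_Bas := by
  intro G _ _ X n s y hy hind
  obtain ⟨hfin, hfree⟩ := hAxF G (X.P (n + 1))
  obtain ⟨hfin0, hfree0⟩ := hAxF G (X.P n)
  let dz : X.P (n + 1) →ₗ[ℤ] X.P n := (X.d n).toAddMonoidHom.toIntLinearMap
  let dz' : X.P (n + 1 + 1) →ₗ[ℤ] X.P (n + 1) := (X.d (n + 1)).toAddMonoidHom.toIntLinearMap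
  let Z : Submodule ℤ (X.P (n + 1)) := LinearMap.ker dz
  let B : Submodule ℤ Z := (LinearMap.range dz').comap Z.subtype
  have hZ : ∀ x : X.P (n + 1), x ∈ Z ↔ X.d n x = 0 := fun x => LinearMap.mem_ker
  have hBZ : ∀ w, X.d (n + 1) w ∈ Z := fun w => (hZ _).2 (X.dd n w)
  have hBm : ∀ x : Z, x ∈ B ↔ ∃ w, X.d (n + 1) w = (x : X.P (n + 1)) := fun x => Iff.rfl
  have hfQ : Module.Finite ℤ (Z ⧸ B) := inferInstance
  let F := (Z ⧸ B) ⧸ Submodule.torsion ℤ (Z ⧸ B)
  have hfF : Module.Finite ℤ F := inferInstance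
  have htF : Module.IsTorsionFree ℤ F := inferInstance
  have hFF : Module.Free ℤ F := Module.free_of_finite_type_torsion_free'
  let π : Z →ₗ[ℤ] F := (Submodule.mkQ _).comp (Submodule.mkQ B)
  have hπ : Function.Surjective π := (Submodule.mkQ_surjective _).comp (Submodule.mkQ_surjective B)
  have hπ0 : ∀ x : Z, x ∈ B → π x = 0 := by
    intro x hx
    have h1 : Submodule.mkQ B x = 0 := (Submodule.Quotient.mk_eq_zero B).2 hx
    change Submodule.mkQ _ (Submodule.mkQ B x) = 0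
    rw [h1, map_zero]
  have hπt : ∀ x : Z, π x = 0 → ∃ k : ℤ, k ≠ 0 ∧ k • x ∈ B := by
    intro x hx
    have h1 : Submodule.mkQ B x ∈ Submodule.torsion ℤ (Z ⧸ B) :=
      (Submodule.Quotient.mk_eq_zero _).1 hx
    obtain ⟨a, ha⟩ := (Submodule.mem_torsion_iff _).1 h1
    refine ⟨a, nonZeroDivisors.coe_ne_zero a, ?_⟩
    have h2 : Submodule.mkQ B ((a : ℤ) • x) = 0 := by
      rw [map_smul]
      exact ha
    exact (Submodule.Quotient.mk_eq_zero B).1 h2
  -- the cycles `y i`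
  let yZ : Fin s → Z := fun i => ⟨y i, (hZ _).2 (hy i)⟩
  have hli : LinearIndependent ℤ fun i => π (yZ i) := by
    rw [Fintype.linearIndependent_iff]
    intro c hc
    have h1 : π (∑ i, c i • yZ i) = 0 := by
      rw [map_sum, ← hc]
      exact Finset.sum_congr rfl fun i _ => map_smul _ _ _
    obtain ⟨k, hk, hkB⟩ := hπt _ h1
    obtain ⟨w, hw⟩ := (hBm _).1 hkB
    have h2 : (fun i => k * c i) = 0 := by
      apply hind
      refine ⟨w, hw.trans ?_⟩
      rw [Finset.smul_sum, Submodule.coe_sum]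
      refine Finset.sum_congr rfl fun i _ => ?_
      rw [smul_smul]
      rfl
    intro i
    have h3 := congrFun h2 i
    exact (mul_eq_zero.1 h3).resolve_left hk
  let b := Module.finBasis ℤ F
  have hs : s ≤ Module.finrank ℤ F := by
    have h := hli.fintype_card_le_finrank
    rwa [Fintype.card_fin] at h
  choose yy hyy using fun j : Fin s => hπ (b (Fin.castLE hs j))
  have hu : ∀ i : Fin s, ∃ ξ : X.P (n + 1) →+ ℤ, ∀ x : Z,
      ((b.coord (Fin.castLE hs i)).comp π).toAddMonoidHom x = ξ (x : X.P (n + 1)) := by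
    intro i
    refine hExt Z (X.P (n + 1)) (X.P n) Z.subtype.toAddMonoidHom (X.d n).toAddMonoidHom
      (fun x => (hZ _).1 x.2) (fun v hv => ⟨⟨v, (hZ _).2 hv⟩, rfl⟩) _ ?_
    intro x hx
    have h1 : x = 0 := Subtype.ext hx
    rw [h1, map_zero]
  choose u hu using hu
  refine ⟨u, fun j => yy j, ?_, ?_, ?_⟩
  · intro i w
    rw [← hu i ⟨X.d (n + 1) w, hBZ w⟩]
    change b.coord (Fin.castLE hs i) (π ⟨X.d (n + 1) w, hBZ w⟩) = 0
    rw [hπ0 _ ((hBm _).2 ⟨w, rfl⟩), map_zero]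
  · intro j
    exact (hZ _).1 (yy j).2
  · intro i j
    rw [← hu i (yy j)]
    change b.coord (Fin.castLE hs i) (π (yy j)) = _
    rw [hyy, Module.Basis.coord_apply, Module.Basis.repr_self, Finsupp.single_apply]
    by_cases h : i = j
    · rw [if_pos h, if_pos (by rw [h])]
    · rw [if_neg h, if_neg]
      intro h'
      exact h ((Fin.castLE_injective hs h').symm)

end HPx
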