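import Pool.Agent.Lib.MP_181146_gt.HP.SpecP

/-!
# Project HP: cancellation
-/

set_option autoImplicit false

namespace HPx

open HEp

private def spl {L : Type} [Ring L] {A B : Type} [AddCommGroup A] [Module L A] [AddCommGroup B]
    [Module L B] (f : A →ₗ[L] B) (g : B →ₗ[L] A) (h : ∀ b, f (g b) = b) :
    A ≃ₗ[L] (B × LinearMap.ker f) where
  toFun x := (f x, ⟨x - g (f x), by rw [LinearMap.mem_ker, map_sub, h, sub_self]⟩)
  map_add' x y := by
    apply Prod.ext
    · exact map_add f x y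
    · apply Subtype.ext
      change x + y - g (f (x + y)) = (x - g (f x)) + (y - g (f y))
      rw [map_add, map_add]
      abel
  map_smul' c x := by
    apply Prod.ext
    · exact map_smul f c x
    · apply Subtype.ext
      change c • x - g (f (c • x)) = c • (x - g (f x))
      rw [map_smul, map_smul, smul_sub]
  invFun y := g y.1 + y.2.1
  left_inv x := by
    change g (f x) + (x - g (f x)) = x
    abel
  right_inv y := by
    have h1 : f (g y.1 + y.2.1) = y.1 := by
      rw [map_add, h, LinearMap.mem_ker.1 y.2.2, add_zero]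
    apply Prod.ext
    · exact h1
    · apply Subtype.ext
      change g y.1 + y.2.1 - g (f (g y.1 + y.2.1)) = y.2.1
      rw [h1]
      abel

private def re1 (L E O Z : Type) [Ring L] [AddCommGroup E] [Module L E] [AddCommGroup O]
    [Module L O] [AddCommGroup Z] [Module L Z] :
    (E × ((E × O) × Z)) ≃ₗ[L] ((E × O × E) × Z) where
  toFun x := ((x.1, x.2.1.2, x.2.1.1), x.2.2)
  map_add' _ _ := rfl
  map_smul' _ _ := rfl
  invFun y := (y.1.1, ((y.1.2.2, y.1.2.1), y.2))
  left_inv _ := rfl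
  right_inv _ := rfl

private def re2 (L E O Z : Type) [Ring L] [AddCommGroup E] [Module L E] [AddCommGroup O]
    [Module L O] [AddCommGroup Z] [Module L Z] :
    ((O × E × O) × Z) ≃ₗ[L] (O × ((E × O) × Z)) where
  toFun x := (x.1.1, ((x.1.2.1, x.1.2.2), x.2))
  map_add' _ _ := rfl
  map_smul' _ _ := rfl
  invFun y := ((y.1, y.2.1.1, y.2.1.2), y.2.2)
  left_inv _ := rfl
  right_inv _ := rfl

theorem sCncl : S_Cncl := by
  intro L _ E O _ _ _ _ _ _ _ _ h
  obtain ⟨e⟩ := h
  obtain ⟨c, f, g, -, -, hfg⟩ := Module.Finite.exists_comp_eq_id_of_projective L (E × O)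
  have w : (Fin c → L) ≃ₗ[L] ((E × O) × LinearMap.ker f) :=
    spl f g (fun b => LinearMap.congr_fun hfg b)
  refine ⟨c, ⟨?_⟩⟩
  exact (LinearEquiv.prodCongr (LinearEquiv.refl L E) w) ≪≫ₗ (re1 L E O _) ≪≫ₗ
    (LinearEquiv.prodCongr e (LinearEquiv.refl L _)) ≪≫ₗ (re2 L E O _) ≪≫ₗ
    (LinearEquiv.prodCongr (LinearEquiv.refl L O) w.symm)

end HPx
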