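import Pool.Agent.Lib.MP_181146_gt.HP.SpecQ

/-!
# Project HP, module CobI: cocycles in the exact range
-/

set_option autoImplicit false

namespace HPx

open HEp

theorem sCobI (hExt : S_Ext) (hAxF : S_AxF) : S_CobI := by
  intro G _ _ X n hX
  obtain ⟨⟨v, hv⟩, hex⟩ := hX
  have h1 : ∀ i, i < n → ∀ u : X.P (i + 1) →+ ℤ, (∀ x, X.d i x = 0 → u x = 0) →
      ∃ ξ : X.P i →+ ℤ, ∀ x, u x = ξ (X.d i x) := by
    intro i hi u hu
    have hf := (hAxF G (X.P i)).1
    cases i with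
    | zero =>
      exact hExt (X.P 1) (X.P 0) ℤ (X.d 0).toAddMonoidHom X.ε (fun x => X.εd x)
        (fun y hy => hex 0 hi y hy) u hu
    | succ i =>
      have hK := (hAxF G (X.P i)).2
      exact hExt (X.P (i + 1 + 1)) (X.P (i + 1)) (X.P i) (X.d (i + 1)).toAddMonoidHom
        (X.d i).toAddMonoidHom (fun x => X.dd i x) (fun y hy => hex (i + 1) hi y hy) u hu
  refine ⟨h1, ?_, ?_⟩
  · intro i hi u hu
    refine h1 i (by omega) u fun x hx => ?_
    obtain ⟨y, rfl⟩ := hex (i + 1) hi x hx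
    exact hu y
  · intro hn u hu
    refine ⟨u v, fun x => ?_⟩
    have h2 : X.ε (x - X.ε x • v) = 0 := by
      rw [map_sub, map_zsmul, hv, smul_eq_mul, mul_one, sub_self]
    obtain ⟨y, hy⟩ := hex 0 hn (x - X.ε x • v) h2
    have h3 : u (x - X.ε x • v) = 0 := by
      rw [← hy]
      exact hu y
    rw [map_sub, map_zsmul, smul_eq_mul, sub_eq_zero] at h3
    rw [h3, mul_comm]

end HPx
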