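import Pool.Agent.Lib.MP_181146_gt.HP.SpecR

/-!
# Project HP, module `Core`: the unobstructed case
-/

set_option autoImplicit false

namespace HPx

open scoped TensorProduct
open HEp

/-- **Core.** -/
theorem sCore (hExi : S_Exi) (hRel : S_Rel) (hTrn : S_Trn) (hTTex : S_TTex) (hAM : S_AM)
    (hTotD : S_TotD) (hPrm : S_Prm) (hLkEx : S_LkEx) (hLkAc : S_LkAc) (hAcEx : S_AcEx) :
    S_Core := by
  intro e he G _ _ E _ _ act hact1 hact v m hA B hB0 hB1 hBg hm1 hm2 M _ _ _ _ d dd K hK u u' a b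
    ud u'd ha0 ha hb0 hb ug u'g ag bg hPN n hn hE s z hz hind hs
  obtain ⟨ε, εg, εd, ⟨Λ⟩⟩ := hLkEx E G act M d dd u u' a b ud u'd ha0 ha hb0 hb ug u'g
  have hAc : AcE E (vtx v) (n + 1) := hAcEx E v (n + 1) fun i hi => hE i (by omega)
  have hX : (mkAX M d dd ε εg εd).Ac (n + 1) := hLkAc G _ E act Λ (vtx v) (n + 1) hAc
  have hB : ContinuousMap.Homotopic (ContinuousMap.id E)
      (m.comp (ContinuousMap.prodMk (ContinuousMap.const E v) (ContinuousMap.id E))) :=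
    ⟨{ toContinuousMap := B
       map_zero_left := fun x => hB0 x
       map_one_left := fun x => hB1 x }⟩
  have hn1 : Odd (n + 1) := ⟨n / 2, by omega⟩
  -- the cycles
  obtain ⟨z', hz', hind'⟩ : ∃ z' : Fin s → (HSp.SC E).X (n + 1),
      (∀ i, ((HSp.SC E).d (n + 1) n).hom (z' i) = 0) ∧ ∀ c : Fin s → ℤ,
        (∃ w : (HSp.SC E).X (n + 1 + 1), ((HSp.SC E).d (n + 1 + 1) (n + 1)).hom w =
          ∑ i, c i • z' i) → c = 0 := ⟨z, hz, hind⟩
  have hy : ∀ i, d n (u' (n + 1) (z' i)) = 0 := by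
    intro i
    rw [← u'd, hz', map_zero]
  have hcyc : ∀ y : (HSp.SC E).X (n + 1), ((HSp.SC E).d (n + 1) n).hom y = 0 →
      u (n + 1) (u' (n + 1) y) - y = ((HSp.SC E).d (n + 2) (n + 1)).hom (b (n + 1) y) := by
    intro y hy
    rw [hb n y, hy, map_zero, add_zero]
  have e3 : ∀ (r : ℤ) (p q : (HSp.SC E).X (n + 1)), r • p - r • (p - q) = r • q := by
    intro r p q
    have := zsmul_sub p q r
    rw [this, sub_sub_cancel]
  have hyind : ∀ c : Fin s → ℤ, (∃ w, d (n + 1) w = ∑ i, c i • u' (n + 1) (z' i)) → c = 0 := by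
    rintro c ⟨w, hw⟩
    refine hind' c ⟨u (n + 1 + 1) w - ∑ i, c i • b (n + 1) (z' i), ?_⟩
    have e1 : ((HSp.SC E).d (n + 1 + 1) (n + 1)).hom (u (n + 1 + 1) w) =
        ∑ i, c i • u (n + 1) (u' (n + 1) (z' i)) := by
      rw [← ud, hw, map_sum]
      exact Finset.sum_congr rfl fun i _ => map_zsmul _ _ _
    have e2 : ((HSp.SC E).d (n + 1 + 1) (n + 1)).hom (∑ i, c i • b (n + 1) (z' i)) =
        ∑ i, c i • (u (n + 1) (u' (n + 1) (z' i)) - z' i) := by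
      rw [map_sum]
      refine Finset.sum_congr rfl fun i _ => ?_
      rw [map_zsmul, hcyc (z' i) (hz' i)]
    rw [map_sub, e1, e2, ← Finset.sum_sub_distrib]
    refine Finset.sum_congr rfl fun i _ => ?_
    exact e3 (c i) _ _
  obtain ⟨x, y', hxc, hxg, hy', hxy⟩ := hExi e he G (mkAX M d dd ε εg εd) hPN E act hact1 hact Λ v
    m hA hB hm1 hm2 n hn hX hAc s (fun i => u' (n + 1) (z' i)) hy hyind hs
  -- the cochain and the cycle on the singular chains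
  obtain ⟨xh, hxh⟩ : ∃ xh : Ch ℤ (Sing E) →ₗ[ℤ] ℤ, ∀ c, xh c = x (Λ.f' (n + 1) c) :=
    ⟨(x.comp (Λ.f' (n + 1))).toIntLinearMap, fun _ => rfl⟩
  have hSup : Sup (n + 1) xh := by
    intro i hi y hy
    rw [hxh, Λ.f'_gr i (n + 1) (Ne.symm hi) y hy, map_zero]
  have hxb : ∀ y, xh (bd ℤ (Sing E) y) = 0 := by
    intro y
    rw [hxh, Λ.f'd]
    exact hxc _
  obtain ⟨c, hc⟩ : ∃ c, c = Λ.f (n + 1) y' := ⟨_, rfl⟩
  have hcg : c ∈ gr ℤ (Sing E) (n + 1) := by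
    rw [hc]
    exact Λ.f_gr (n + 1) y'
  have hcb : bd ℤ (Sing E) c = 0 := by
    rw [hc, ← Λ.fd, hy', map_zero]
  have hxc1 : xh c = 1 := by
    have h1 := Λ.hs n y'
    rw [hy', map_zero, add_zero] at h1
    have h2 : Λ.f' (n + 1) c = y' + (mkAX M d dd ε εg εd).d (n + 1) (Λ.h (n + 1) y') := by
      rw [hc, ← h1]
      abel
    rw [hxh, h2, map_add, hxc, hxy, add_zero]
  obtain ⟨w, hw⟩ := hPrm ℤ (Sing E) (vtx v) (n + 1) (Nat.succ_pos n) hAc.1 hAc.2 c hcg hcb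
  obtain ⟨al, be, κ, r1, r2, r3, r4, r5, r6, r7⟩ := hRel e he ℤ E v m hA B hB0 hB1 (n + 1) hn1 c
    hcg hcb xh hSup hxb hxc1 w hw
  have hinv : ∀ g : G, ∀ y, xh (cmap ℤ (SingMap (act g)) y) = xh y := by
    intro g y
    rw [hxh, hxh, Λ.f'g]
    exact hxg g _
  have r8 := fun g : G => r7 (act g) (fun x y => hm2 g x y) (fun s x => hBg g s x) (hinv g)
  obtain ⟨T⟩ := hTTex E G act M d (2 * K) hK u u' a b ud u'd ha0 ha hb0 hb ug u'g ag bg
  obtain ⟨a', b', k', t1, t2, t3, t4, t5⟩ := hTrn G M d (2 * K) E act T (n + 1)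
    al.toAddMonoidHom be.toAddMonoidHom κ.toAddMonoidHom r1 r2 r3 r4 r5 r6
    (fun g => (r8 g).1) (fun g => (r8 g).2.1) (fun g => (r8 g).2.2)
  obtain ⟨d1, d2⟩ := hTotD (LG G) M (2 * K) d dd
  exact hAM (LG G) M K (n + 1) hn1 (by omega) (totd (2 * K) d) a' b' k' d2 d1 t1 t2 t3 t4 t5

end HPx
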