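import Pool.Agent.Lib.MP_181146_gt.HP.SpecQ

/-!
# Project HP, part 2: cyclic subgroups
-/

set_option autoImplicit false

namespace HPx

open HEp

/-- Linear combinations of towers. -/
private theorem Cyc_lin {G : Type} [CommGroup G] {X : AX G} {g : G} {m n : ℕ}
    {u u' w : X.P (n + 1) →+ ℤ} {z z' y : ℤ} (c : ℤ) (T : X.Tower g m n u z)
    (T' : X.Tower g m n u' z') (hw : ∀ x, w x = u x + c * u' x) (hy : y = z + c * z') :
    Nonempty (X.Tower g m n w y) := by
  refine ⟨⟨fun i => T.b i + c • T'.b i, ?_, ?_, ?_⟩⟩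
  · intro x
    rw [hw, T.top, T'.top]
    rfl
  · intro i hi x
    have h1 := T.rel i hi x
    have h2 := T'.rel i hi x
    change T.b (i + 1) (tw g m (i + 1) • x) + c * T'.b (i + 1) (tw g m (i + 1) • x) =
      T.b i (X.d i x) + c * T'.b i (X.d i x)
    rw [h1, h2]
  · intro x
    have h1 := T.bot x
    have h2 := T'.bot x
    change T.b 0 (tw g m 0 • x) + c * T'.b 0 (tw g m 0 • x) = y * X.ε x
    rw [h1, h2, hy]
    ring

private theorem Cyc_dvd (hTowU : S_TowU) (hTowP : S_TowP) {G : Type} [CommGroup G] [Finite G]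
    (X : AX G) (n : ℕ) (hn : n % 4 = 2) (hX : X.Ac (n + 1)) (g : G) (φ : ∀ i, X.P i →+ X.P i)
    (φg : ∀ i x, φ i (MonoidAlgebra.of ℤ G g • x) = MonoidAlgebra.of ℤ G g⁻¹ • φ i x)
    (φd : ∀ i x, φ i (X.d i x) = X.d i (φ (i + 1) x)) (φε : ∀ x, X.ε (φ 0 x) = X.ε x)
    (hφ : ∀ y : X.P (n + 1), X.d n y = 0 →
      ∃ w, φ (n + 1) y - ((orderOf g : ℤ) - 1) • y = X.d (n + 1) w)
    (u : X.P (n + 1) →+ ℤ) (hu : X.Coc u) (z : ℤ) (T : X.Tower g (orderOf g) n u z) :
    (orderOf g : ℤ) ∣ 2 * z := by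
  have hg : g ^ orderOf g = 1 := pow_orderOf_eq_one g
  have hev : Even n := by
    rw [Nat.even_iff]
    omega
  obtain ⟨T'⟩ := hTowP G X n hn g (orderOf g) hg u z T φ φg φd φε
  obtain ⟨S⟩ := Cyc_lin (w := u.comp (φ (n + 1)) - ((orderOf g : ℤ) - 1) • u)
    (y := z + (-((orderOf g : ℤ) - 1)) * z) (-((orderOf g : ℤ) - 1)) T' T
    (fun x => by
      change u (φ (n + 1) x) - ((orderOf g : ℤ) - 1) * u x = _
      change _ = u (φ (n + 1) x) + _
      ring) rfl
  have h1 := hTowU G X n hev hX g (orderOf g) hg _ (fun y hy => by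
    obtain ⟨w, hw⟩ := hφ y hy
    have h2 := hu w
    rw [← hw, map_sub, map_zsmul] at h2
    exact h2) _ S
  obtain ⟨k, hk⟩ := h1
  refine ⟨k + z, ?_⟩
  linear_combination hk

theorem sCyc (hTow : S_Tow) (hTowU : S_TowU) (hTowZ : S_TowZ) (hTowP : S_TowP) : S_Cyc := by
  intro G _ _ X n hn hX hN g φ φg φd φε hφ
  have hg : g ^ orderOf g = 1 := pow_orderOf_eq_one g
  have hev : Even n := by
    rw [Nat.even_iff]
    omega
  constructor
  · intro hodd u hu
    obtain ⟨z, ⟨T⟩⟩ := hTow G X n hev hX hN g (orderOf g) hg u hu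
    have h1 := Cyc_dvd hTowU hTowP X n hn hX g φ φg φd φε hφ u hu z T
    have hcop : IsCoprime (orderOf g : ℤ) 2 := by
      have h2 : Nat.Coprime (orderOf g) 2 := hodd.coprime_two_right
      exact_mod_cast Nat.isCoprime_iff_coprime.2 h2
    exact hTowZ G X n hev g u hu z T (hcop.dvd_of_dvd_mul_left h1)
  · intro u u' hu hu' hI hI'
    obtain ⟨z, ⟨T⟩⟩ := hTow G X n hev hX hN g (orderOf g) hg u hu
    obtain ⟨z', ⟨T'⟩⟩ := hTow G X n hev hX hN g (orderOf g) hg u' hu'
    have h1 := Cyc_dvd hTowU hTowP X n hn hX g φ φg φd φε hφ u hu z T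
    have h1' := Cyc_dvd hTowU hTowP X n hn hX g φ φg φd φε hφ u' hu' z' T'
    have h2 : ¬ (orderOf g : ℤ) ∣ z := fun h => hI (hTowZ G X n hev g u hu z T h)
    have h2' : ¬ (orderOf g : ℤ) ∣ z' := fun h => hI' (hTowZ G X n hev g u' hu' z' T' h)
    obtain ⟨S⟩ := Cyc_lin (w := u + u') (y := z + z') 1 T T'
      (fun x => by
        change u x + u' x = _
        ring) (by ring)
    refine hTowZ G X n hev g (u + u') (fun y => ?_) (z + z') S ?_
    · change u _ + u' _ = 0
      rw [hu y, hu' y, add_zero]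
    · obtain ⟨a, ha⟩ := h1
      obtain ⟨a', ha'⟩ := h1'
      rcases Int.even_or_odd' a with ⟨c, hc | hc⟩
      · exfalso
        apply h2
        refine ⟨c, ?_⟩
        rw [hc] at ha
        linarith
      · rcases Int.even_or_odd' a' with ⟨c', hc' | hc'⟩
        · exfalso
          apply h2'
          refine ⟨c', ?_⟩
          rw [hc'] at ha'
          linarith
        · refine ⟨c + c' + 1, ?_⟩
          rw [hc] at ha
          rw [hc'] at ha'
          linarith

end HPx
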