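import Pool.Agent.Lib.MP_181146_gt.HP.SpecQ

/-!
# Project HP: extension of functionals
-/

set_option autoImplicit false

namespace HPx

open HEp

theorem sExt : S_Ext := by
  intro M N K _ _ _ _ _ α β hβα hex ζ hζ
  let α' : M →ₗ[ℤ] N := α.toIntLinearMap
  let β' : N →ₗ[ℤ] K := β.toIntLinearMap
  let ζ' : M →ₗ[ℤ] ℤ := ζ.toIntLinearMap
  have h1 : Module.Finite ℤ (LinearMap.range β') := inferInstance
  have h2 : Module.Free ℤ (LinearMap.range β') := Module.free_of_finite_type_torsion_free'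
  obtain ⟨s, hs⟩ := Module.projective_lifting_property β'.rangeRestrict LinearMap.id
    (LinearMap.surjective_rangeRestrict β')
  have hs' : ∀ w : LinearMap.range β', β (s w) = w := by
    intro w
    have h3 := LinearMap.congr_fun hs w
    exact congrArg Subtype.val h3
  let p : N →ₗ[ℤ] LinearMap.range α' :=
    LinearMap.codRestrict _ (LinearMap.id - s ∘ₗ β'.rangeRestrict) (by
      intro y
      obtain ⟨x, hx⟩ := hex (y - s (β'.rangeRestrict y)) (by
        rw [map_sub, hs']
        exact sub_self _)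
      exact ⟨x, hx⟩)
  have hk : LinearMap.ker α' ≤ LinearMap.ker ζ' := by
    intro x hx
    exact hζ x hx
  let ζb : LinearMap.range α' →ₗ[ℤ] ℤ :=
    ((LinearMap.ker α').liftQ ζ' hk) ∘ₗ
      (α'.quotKerEquivRange.symm : LinearMap.range α' →ₗ[ℤ] _)
  refine ⟨(ζb ∘ₗ p).toAddMonoidHom, fun x => ?_⟩
  have h4 : p (α x) = ⟨α' x, ⟨x, rfl⟩⟩ := by
    apply Subtype.ext
    change α x - s (β'.rangeRestrict (α x)) = α x
    have h5 : β'.rangeRestrict (α x) = 0 := by
      apply Subtype.ext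
      exact hβα x
    rw [h5, map_zero, sub_zero]
  change ζ x = ζb (p (α x))
  rw [h4]
  change ζ x = (LinearMap.ker α').liftQ ζ' hk (α'.quotKerEquivRange.symm ⟨α' x, ⟨x, rfl⟩⟩)
  have h6 : α'.quotKerEquivRange.symm ⟨α' x, ⟨x, rfl⟩⟩ = (LinearMap.ker α').mkQ x := by
    rw [LinearEquiv.symm_apply_eq]
    apply Subtype.ext
    exact (LinearMap.quotKerEquivRange_apply_mk α' x).symm
  rw [h6, Submodule.mkQ_apply, Submodule.liftQ_apply]
  rfl

end HPx
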