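import Pool.Agent.Lib.MP_181146_gt.HP.SpecP

set_option autoImplicit false

/-!
# Project HP, module Fex: an odd involution from a contraction
-/

namespace HPx

open HEp

theorem sFex : S_Fex := by
  intro S _ D s P hD hu hP hPD hPs
  obtain ⟨T, hT⟩ := hu
  have hcD : Commute (T : S) D := by
    change (T : S) * D = D * T
    rw [hT, add_mul, mul_add, mul_assoc s D D, hD, ← mul_assoc D D s, hD]
    simp [mul_assoc]
  have hQD : (1 - P) * D = D * P := by
    rw [sub_mul, hPD]
    noncomm_ring
  have hQs : (1 - P) * s = s * P := by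
    rw [sub_mul, hPs]
    noncomm_ring
  have hcP : Commute (T : S) P := by
    change (T : S) * P = P * T
    rw [hT, mul_add, ← mul_assoc P D s, hPD, ← mul_assoc P s D, hPs, mul_assoc D, hQs,
      mul_assoc s, hQD, add_mul, mul_assoc, mul_assoc]
  set w : S := ((T⁻¹ : Sˣ) : S) with hw
  have hwD : w * D = D * w := (hcD.units_inv_left).eq
  have hwP : w * P = P * w := (hcP.units_inv_left).eq
  have hwT : w * (D * s + s * D) = 1 := by
    rw [← hT]
    exact T.inv_mul
  obtain ⟨s', hs'⟩ : ∃ s' : S, s' = w * s := ⟨_, rfl⟩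
  have h1 : D * s' + s' * D = 1 := by
    rw [hs', ← mul_assoc D w s, ← hwD, mul_assoc w D s, mul_assoc w s D, ← mul_add]
    exact hwT
  have hPs' : P * s' = s' * (1 - P) := by
    rw [hs', ← mul_assoc, ← hwP, mul_assoc, hPs, mul_assoc]
  have hQs' : (1 - P) * s' = s' * P := by
    rw [sub_mul, hPs']
    noncomm_ring
  have h2 : D * s' = 1 - s' * D := by
    rw [← h1]
    noncomm_ring
  have hsq : D * (s' * s') = s' * s' * D := by
    rw [← mul_assoc, h2, sub_mul, one_mul, mul_assoc s' D s', h2, mul_sub, mul_one,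
      ← mul_assoc s' s' D]
    noncomm_ring
  have h3 : D * s' * (D * s') = D * s' := by
    have h : s' * D = 1 - D * s' := by
      rw [← h1]
      noncomm_ring
    rw [mul_assoc, ← mul_assoc s' D s', h, sub_mul, mul_sub, one_mul, ← mul_assoc D (D * s') s',
      ← mul_assoc D D s', hD]
    simp
  have h4 : s' * D * (s' * D) = s' * D := by
    rw [mul_assoc, ← mul_assoc D s' D, h2, sub_mul, mul_assoc s' D D, hD, mul_zero, sub_zero,
      one_mul]
  have h5 : s' * D * s' * (s' * D * s') = 0 := by
    have e : s' * D * s' * (s' * D * s') = s' * (D * (s' * s')) * D * s' := by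
      simp only [mul_assoc]
    rw [e, hsq]
    have e2 : s' * (s' * s' * D) * D * s' = s' * s' * s' * (D * D) * s' := by
      simp only [mul_assoc]
    rw [e2, hD]
    simp
  refine ⟨D + s' * D * s', ?_, ?_⟩
  · have e : (D + s' * D * s') * (D + s' * D * s') = D * D + D * s' * (D * s') +
        s' * D * (s' * D) + s' * D * s' * (s' * D * s') := by
      noncomm_ring
    rw [e, hD, h3, h4, h5, zero_add, add_zero, h1]
  · have e : P * (s' * D * s') = s' * D * s' * (1 - P) := by
      rw [← mul_assoc, ← mul_assoc, hPs', mul_assoc s', hQD, ← mul_assoc s', mul_assoc (s' * D) P s',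
        hPs', ← mul_assoc]
    rw [mul_add, add_mul, hPD, e]

end HPx
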