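import Pool.Agent.Lib.MP_181146_gt.HP.SpecQ

/-!
# Project HP: functionals on a projective module
-/

set_option autoImplicit false

namespace HPx

open HEp

private theorem FunH_rep (G : Type) [CommGroup G] [Finite G] (g : G) :
    ∃ (q : G → G) (J : G → ℕ), (∀ a, q (g * a) = q a) ∧ (∀ a, J a < orderOf g) ∧
      (∀ a, g ^ J a * q a = a) ∧ ∀ a, J (g * a) = (J a + 1) % orderOf g := by
  classical
  have hm : 0 < orderOf g := orderOf_pos g
  let q : G → G := fun a => Quotient.out (a : G ⧸ Subgroup.zpowers g)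
  have hq : ∀ a, q (g * a) = q a := by
    intro a
    have h1 : ((g * a : G) : G ⧸ Subgroup.zpowers g) = (a : G ⧸ Subgroup.zpowers g) := by
      rw [QuotientGroup.eq]
      have h2 : (g * a)⁻¹ * a = g⁻¹ := by
        rw [mul_inv_rev, mul_comm a⁻¹ g⁻¹, inv_mul_cancel_right]
      rw [h2]
      exact inv_mem (Subgroup.mem_zpowers g)
    change Quotient.out ((g * a : G) : G ⧸ Subgroup.zpowers g) = _
    rw [h1]
  have hJ : ∀ a, ∃ j, j < orderOf g ∧ g ^ j * q a = a := by
    intro a
    have h1 : (q a)⁻¹ * a ∈ Subgroup.zpowers g := by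
      rw [← QuotientGroup.eq]
      exact QuotientGroup.out_eq' _
    rw [mem_zpowers_iff_mem_range_orderOf, Finset.mem_image] at h1
    obtain ⟨j, hj, h2⟩ := h1
    refine ⟨j, Finset.mem_range.1 hj, ?_⟩
    change g ^ j = (q a)⁻¹ * a at h2
    rw [h2, mul_comm, mul_inv_cancel_left]
  choose J hJ1 hJ2 using hJ
  refine ⟨q, J, hq, hJ1, hJ2, fun a => ?_⟩
  have h1 : g ^ J (g * a) * q a = g ^ (J a + 1) * q a := by
    rw [← hq a, hJ2 (g * a), pow_succ', mul_assoc, hq a, hJ2 a]
  have h2 : g ^ J (g * a) = g ^ (J a + 1) := mul_right_cancel h1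
  have h3 := pow_inj_mod.1 h2
  rw [Nat.mod_eq_of_lt (hJ1 (g * a))] at h3
  exact h3

private theorem FunH_one (G : Type) [CommGroup G] [Finite G] (g : G) (φ : G → ℤ)
    (h : ∀ a, ∑ j ∈ Finset.range (orderOf g), φ (g ^ j * a) = 0) :
    ∃ c : G → ℤ, ∀ a, φ a = c (g * a) - c a := by
  obtain ⟨q, J, hq, hJ1, hJ2, hJ3⟩ := FunH_rep G g
  refine ⟨fun a => ∑ i ∈ Finset.range (J a), φ (g ^ i * q a), fun a => ?_⟩
  change φ a = ∑ i ∈ Finset.range (J (g * a)), φ (g ^ i * q (g * a)) -
    ∑ i ∈ Finset.range (J a), φ (g ^ i * q a)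
  have h0 := h (q a)
  rw [hq, hJ3]
  rcases Nat.lt_or_ge (J a + 1) (orderOf g) with h1 | h1
  · rw [Nat.mod_eq_of_lt h1, Finset.sum_range_succ, hJ2]
    ring
  · have h2 : orderOf g = J a + 1 := le_antisymm h1 (hJ1 a)
    rw [h2, Finset.sum_range_succ, hJ2] at h0
    rw [← h2, Nat.mod_self, Finset.sum_range_zero]
    linear_combination h0

private theorem FunH_two (G : Type) [CommGroup G] [Finite G] (g : G) (φ : G → ℤ)
    (h : ∀ a, φ (g * a) = φ a) :
    ∃ c : G → ℤ, ∀ a, φ a = ∑ j ∈ Finset.range (orderOf g), c (g ^ j * a) := by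
  obtain ⟨q, J, hq, hJ1, hJ2, hJ3⟩ := FunH_rep G g
  have hm : 0 < orderOf g := orderOf_pos g
  refine ⟨fun a => if J a = 0 then φ a else 0, fun a => ?_⟩
  have h1 : ∀ j : ℕ, J (g ^ j * a) = (J a + j) % orderOf g := by
    intro j
    induction j with
    | zero => rw [pow_zero, one_mul, add_zero, Nat.mod_eq_of_lt (hJ1 a)]
    | succ j ih => rw [pow_succ', mul_assoc, hJ3, ih, Nat.mod_add_mod, add_assoc]
  have h2 : ∀ j : ℕ, φ (g ^ j * a) = φ a := by
    intro j
    induction j with
    | zero => rw [pow_zero, one_mul]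
    | succ j ih => rw [pow_succ', mul_assoc, h, ih]
  simp only [h1, h2]
  have hJ := hJ1 a
  rw [Finset.sum_eq_single ((orderOf g - J a) % orderOf g)]
  · rw [if_pos]
    rw [Nat.add_mod_mod, Nat.add_sub_cancel' hJ.le, Nat.mod_self]
  · intro j hj hj0
    rw [if_neg]
    intro h3
    have hj' := Finset.mem_range.1 hj
    obtain ⟨k, hk⟩ := Nat.dvd_of_mod_eq_zero h3
    apply hj0
    have hk2 : k < 2 := by
      by_contra hc
      have : orderOf g * 2 ≤ orderOf g * k := Nat.mul_le_mul_left _ (by omega)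
      omega
    have hk3 : k = 0 ∨ k = 1 := by omega
    rcases hk3 with rfl | rfl
    · have hj1 : j = 0 := by omega
      have hj2 : J a = 0 := by omega
      rw [hj1, hj2, Nat.sub_zero, Nat.mod_self]
    · have hj1 : orderOf g - J a = j := by omega
      rw [hj1, Nat.mod_eq_of_lt hj']
  · intro hc
    exact absurd (Finset.mem_range.2 (Nat.mod_lt _ hm)) hc

/-- the functional with given values on the group elements -/
private noncomputable def FunH_ext {G : Type} (c : G → ℤ) : ZG G →+ ℤ :=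
  ((MonoidAlgebra.basis G ℤ).constr ℤ c).toAddMonoidHom

private theorem FunH_ext_single {G : Type} (c : G → ℤ) (a : G) :
    FunH_ext c (MonoidAlgebra.single a 1) = c a := by
  have h := (MonoidAlgebra.basis G ℤ).constr_basis ℤ c a
  rw [MonoidAlgebra.basis_apply] at h
  exact h

private theorem FunH_hom_ext {G : Type} (F F' : ZG G →+ ℤ)
    (h : ∀ a : G, F (MonoidAlgebra.single a 1) = F' (MonoidAlgebra.single a 1)) (x : ZG G) :
    F x = F' x := by
  have h1 : F.toIntLinearMap = F'.toIntLinearMap := by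
    refine (MonoidAlgebra.basis G ℤ).ext fun a => ?_
    rw [MonoidAlgebra.basis_apply]
    exact h a
  exact LinearMap.congr_fun h1 x

private theorem FunH_tw0 {G : Type} [CommGroup G] (g : G) (m : ℕ) (a : G) :
    tw g m 0 • (MonoidAlgebra.single a 1 : ZG G) =
      ∑ j ∈ Finset.range m, MonoidAlgebra.single (g ^ j * a) 1 := by
  unfold tw
  rw [if_pos Even.zero, smul_eq_mul, Finset.sum_mul]
  refine Finset.sum_congr rfl fun j _ => ?_
  rw [MonoidAlgebra.of_apply, MonoidAlgebra.single_mul_single, one_mul]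

private theorem FunH_tw1 {G : Type} [CommGroup G] (g : G) (m : ℕ) (a : G) :
    tw g m 1 • (MonoidAlgebra.single a 1 : ZG G) =
      MonoidAlgebra.single (g * a) 1 - MonoidAlgebra.single a 1 := by
  unfold tw
  rw [if_neg (by decide), smul_eq_mul, sub_mul, one_mul, MonoidAlgebra.of_apply,
    MonoidAlgebra.single_mul_single, one_mul]

/-- from the group ring to projective modules -/
private theorem FunH_proj (G : Type) [CommGroup G] (τ σ : ZG G)
    (h : ∀ f : ZG G →+ ℤ, (∀ x, f (τ • x) = 0) → ∃ c : ZG G →+ ℤ, ∀ x, f x = c (σ • x))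
    (M : Type) [AddCommGroup M] [Module (ZG G) M] [Module.Finite (ZG G) M]
    [Module.Projective (ZG G) M] (f : M →+ ℤ) (hf : ∀ x, f (τ • x) = 0) :
    ∃ c : M →+ ℤ, ∀ x, f x = c (σ • x) := by
  obtain ⟨k, π, hπ⟩ := Module.Finite.exists_fin' (ZG G) M
  obtain ⟨s, hs⟩ := Module.projective_lifting_property π LinearMap.id hπ
  have h1 : ∀ i : Fin k, ∃ c : ZG G →+ ℤ, ∀ x, f (π (Pi.single i x)) = c (σ • x) := by
    intro i
    refine h ((f.comp π.toAddMonoidHom).comp (AddMonoidHom.single (fun _ : Fin k => ZG G) i)) ?_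
    intro x
    change f (π (Pi.single i (τ • x))) = 0
    have h2 : (Pi.single i (τ • x) : Fin k → ZG G) = τ • Pi.single i x := by
      funext j
      rw [Pi.smul_apply]
      by_cases hj : j = i
      · subst hj
        rw [Pi.single_eq_same, Pi.single_eq_same]
      · rw [Pi.single_eq_of_ne hj, Pi.single_eq_of_ne hj, smul_zero]
    have h3 : π (Pi.single i (τ • x)) = τ • π (Pi.single i x) := by
      rw [h2]
      exact π.map_smul τ _
    rw [h3]
    exact hf _
  choose c hc using h1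
  let C : M →+ ℤ := ∑ i, (c i).comp ((Pi.evalAddMonoidHom (fun _ : Fin k => ZG G) i).comp
    s.toAddMonoidHom)
  have hC : ∀ x, C x = ∑ i, c i (s x i) := by
    intro x
    simp only [C, AddMonoidHom.finsetSum_apply]
    rfl
  refine ⟨C, fun x => ?_⟩
  have h3 : x = π (s x) := (LinearMap.congr_fun hs x).symm
  rw [hC]
  have h4 : s x = ∑ i, Pi.single i (s x i) := (Finset.univ_sum_single (s x)).symm
  have h5 : f x = ∑ i, f (π (Pi.single i (s x i))) := by
    conv_lhs => rw [h3, h4]
    rw [map_sum, map_sum]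
  rw [h5]
  refine Finset.sum_congr rfl fun i _ => ?_
  have h6 : s (σ • x) = σ • s x := s.map_smul σ x
  rw [hc, h6]
  rfl

private theorem FunH_r1 (G : Type) [CommGroup G] [Finite G] (g : G) (F : ZG G →+ ℤ)
    (hF : ∀ x, F (tw g (orderOf g) 0 • x) = 0) :
    ∃ c : ZG G →+ ℤ, ∀ x, F x = c (tw g (orderOf g) 1 • x) := by
  obtain ⟨c, hc⟩ := FunH_one G g (fun a => F (MonoidAlgebra.single a 1)) (by
    intro a
    have h1 := hF (MonoidAlgebra.single a 1)
    rw [FunH_tw0, map_sum] at h1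
    exact h1)
  refine ⟨FunH_ext c, ?_⟩
  refine FunH_hom_ext F (AddMonoidHom.mk' (fun x => FunH_ext c (tw g (orderOf g) 1 • x))
    (fun x y => by rw [smul_add, map_add])) ?_
  intro a
  change F (MonoidAlgebra.single a 1) =
    FunH_ext c (tw g (orderOf g) 1 • MonoidAlgebra.single a 1)
  rw [FunH_tw1, map_sub, FunH_ext_single, FunH_ext_single]
  exact hc a

private theorem FunH_r2 (G : Type) [CommGroup G] [Finite G] (g : G) (F : ZG G →+ ℤ)
    (hF : ∀ x, F (tw g (orderOf g) 1 • x) = 0) :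
    ∃ c : ZG G →+ ℤ, ∀ x, F x = c (tw g (orderOf g) 0 • x) := by
  obtain ⟨c, hc⟩ := FunH_two G g (fun a => F (MonoidAlgebra.single a 1)) (by
    intro a
    have h1 := hF (MonoidAlgebra.single a 1)
    rw [FunH_tw1, map_sub] at h1
    exact sub_eq_zero.1 h1)
  refine ⟨FunH_ext c, ?_⟩
  refine FunH_hom_ext F (AddMonoidHom.mk' (fun x => FunH_ext c (tw g (orderOf g) 0 • x))
    (fun x y => by rw [smul_add, map_add])) ?_
  intro a
  change F (MonoidAlgebra.single a 1) =
    FunH_ext c (tw g (orderOf g) 0 • MonoidAlgebra.single a 1)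
  rw [FunH_tw0, map_sum]
  simp only [FunH_ext_single]
  exact hc a

theorem sFunH : S_FunH := by
  intro G _ _ M _ _ _ _ g f
  exact ⟨fun hf => FunH_proj G (tw g (orderOf g) 0) (tw g (orderOf g) 1)
      (fun F hF => FunH_r1 G g F hF) M f hf,
    fun hf => FunH_proj G (tw g (orderOf g) 1) (tw g (orderOf g) 0)
      (fun F hF => FunH_r2 G g F hF) M f hf⟩

end HPx
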