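import Pool.Agent.Lib.MP_181146_gt.HP.SpecP

set_option autoImplicit false

namespace HPx
open HEp

private lemma gdm_one (R : Type) [Ring R] (N : ℕ) (g : Gd R N) : g.Hm 0 1 := by
  intro i j h
  rw [mul_one]
  apply g.mul_ne
  intro hji
  apply h
  rw [hji, add_zero]

private lemma gdm_mul (R : Type) [Ring R] (N : ℕ) (g : Gd R N) (m m' : ℤ) (u v : R)
    (hu : g.Hm m u) (hv : g.Hm m' v) : g.Hm (m + m') (v * u) := by
  intro i j h
  have h1 : g.e j * (v * u) * g.e i = ∑ l, (g.e j * v * g.e l) * (g.e l * u * g.e i) := by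
    have h2 : ∀ l, (g.e j * v * g.e l) * (g.e l * u * g.e i) =
        g.e j * v * g.e l * (u * g.e i) := by
      intro l
      calc (g.e j * v * g.e l) * (g.e l * u * g.e i)
          = g.e j * v * (g.e l * g.e l) * (u * g.e i) := by simp only [mul_assoc]
        _ = g.e j * v * g.e l * (u * g.e i) := by rw [g.mul_self]
    simp only [h2]
    rw [← Finset.sum_mul, ← Finset.mul_sum, g.sum, mul_one]
    simp only [mul_assoc]
  rw [h1]
  apply Finset.sum_eq_zero
  intro l _
  by_cases hl : (l : ℤ) = (i : ℤ) + m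
  · have : (j : ℤ) ≠ (l : ℤ) + m' := by
      intro hj
      apply h
      rw [hj, hl]
      ring
    rw [hv l j this, zero_mul]
  · rw [hu i l hl, mul_zero]

theorem sGdM : S_GdM := by
  intro R _ N g
  refine ⟨gdm_one R N g, ?_, ?_, ?_, ?_⟩
  · intro m i j _
    rw [mul_zero, zero_mul]
  · intro m u v hu hv i j h
    rw [mul_add, add_mul, hu i j h, hv i j h, add_zero]
  · intro m u hu i j h
    rw [mul_neg, neg_mul, hu i j h, neg_zero]
  · intro m m' u v hu hv
    exact gdm_mul R N g m m' u v hu hv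

end HPx
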