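import Pool.Agent.Lib.MP_181146_gt.HP.SpecP

/-!
# Project HP, part 1, module GdN: homogeneous elements of nonzero degree are nilpotent
-/

set_option autoImplicit false

namespace HPx

open HEp

private lemma gdN_pow (hGdM : S_GdM) {R : Type} [Ring R] {N : ℕ} (g : Gd R N) (m : ℤ) (u : R)
    (hu : g.Hm m u) (k : ℕ) : g.Hm ((k : ℤ) * m) (u ^ k) := by
  obtain ⟨h1, -, -, -, h5⟩ := hGdM R N g
  induction k with
  | zero =>
    rw [Nat.cast_zero, zero_mul, pow_zero]
    exact h1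
  | succ k ih =>
    have h := h5 _ _ _ _ ih hu
    rw [pow_succ']
    have e : ((k + 1 : ℕ) : ℤ) * m = (k : ℤ) * m + m := by
      push_cast
      ring
    rw [e]
    exact h

private lemma gdN_ne {N : ℕ} (i j : Fin N) (m : ℤ) (hm : m ≠ 0) :
    (j : ℤ) ≠ (i : ℤ) + (N : ℤ) * m := by
  intro h
  have hi := i.2
  have hj := j.2
  rcases lt_or_gt_of_ne hm with h1 | h1
  · have h2 : (N : ℤ) * m ≤ (N : ℤ) * (-1) :=
      mul_le_mul_of_nonneg_left (by omega) (by omega)
    omega
  · have h2 : (N : ℤ) * 1 ≤ (N : ℤ) * m :=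
      mul_le_mul_of_nonneg_left (by omega) (by omega)
    omega

theorem sGdN (hGdM : S_GdM) : S_GdN := by
  intro R _ N g m u hm hu
  have h1 := gdN_pow hGdM g m u hu N
  have h2 : ∀ i j : Fin N, g.e j * u ^ N * g.e i = 0 := fun i j =>
    h1 i j (gdN_ne i j m hm)
  calc u ^ N = 1 * u ^ N * 1 := by rw [one_mul, mul_one]
    _ = (∑ j, g.e j) * u ^ N * ∑ i, g.e i := by rw [g.sum]
    _ = 0 := by
      rw [Finset.sum_mul, Finset.sum_mul_sum]
      refine Finset.sum_eq_zero fun j _ => Finset.sum_eq_zero fun i _ => h2 i j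

end HPx
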