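import Pool.Agent.Lib.MP_181146_gt.HP.SpecP

/-! # Project HP: homogeneous elements and parity (author helper94) -/

set_option autoImplicit false

namespace HPx

open HEp

private theorem GdO_mul_od {R : Type} [Ring R] {N : ℕ} (g : Gd R N) (j : Fin N) :
    g.e j * g.od = if Odd (j : ℕ) then g.e j else 0 := by
  unfold Gd.od
  rw [Finset.mul_sum, Finset.sum_eq_single j]
  · by_cases h : Odd (j : ℕ)
    · rw [if_pos h, g.mul_self]
    · rw [if_neg h, mul_zero]
  · intro i _ hi
    by_cases h : Odd (i : ℕ)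
    · rw [if_pos h, g.mul_ne j i (Ne.symm hi)]
    · rw [if_neg h, mul_zero]
  · exact fun h => absurd (Finset.mem_univ j) h

private theorem GdO_od_mul {R : Type} [Ring R] {N : ℕ} (g : Gd R N) (j : Fin N) :
    g.od * g.e j = if Odd (j : ℕ) then g.e j else 0 := by
  unfold Gd.od
  rw [Finset.sum_mul, Finset.sum_eq_single j]
  · by_cases h : Odd (j : ℕ)
    · rw [if_pos h, g.mul_self]
    · rw [if_neg h, zero_mul]
  · intro i _ hi
    by_cases h : Odd (i : ℕ)
    · rw [if_pos h, g.mul_ne i j hi]
    · rw [if_neg h, zero_mul]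
  · exact fun h => absurd (Finset.mem_univ j) h

private theorem GdO_ext {R : Type} [Ring R] {N : ℕ} (g : Gd R N) {x y : R}
    (h : ∀ i j, g.e j * x * g.e i = g.e j * y * g.e i) : x = y := by
  have key : ∀ z : R, z = ∑ j, ∑ i, g.e j * z * g.e i := by
    intro z
    have h1 : ∀ j, ∑ i, g.e j * z * g.e i = g.e j * z := by
      intro j
      rw [← Finset.mul_sum, g.sum, mul_one]
    rw [Finset.sum_congr rfl fun j _ => h1 j, ← Finset.sum_mul, g.sum, one_mul]
  rw [key x, key y]
  exact Finset.sum_congr rfl fun j _ => Finset.sum_congr rfl fun i _ => h i j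

theorem sGdO : S_GdO := by
  intro R _ N g
  constructor
  · have h1 : g.od * g.od = ∑ i : Fin N, (if Odd (i : ℕ) then g.e i else 0) * g.od := by
      conv_lhs => rw [Gd.od, Finset.sum_mul]
      rfl
    rw [h1]
    conv_rhs => rw [Gd.od]
    refine Finset.sum_congr rfl fun i _ => ?_
    by_cases h : Odd (i : ℕ)
    · rw [if_pos h, GdO_mul_od, if_pos h]
    · rw [if_neg h, zero_mul]
  · intro m u hu
    have h1 : ∀ i j, g.e j * (g.od * u) * g.e i = if Odd (j : ℕ) then g.e j * u * g.e i else 0 := by
      intro i j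
      rw [← mul_assoc (g.e j), GdO_mul_od]
      by_cases h : Odd (j : ℕ)
      · rw [if_pos h, if_pos h]
      · rw [if_neg h, if_neg h, zero_mul, zero_mul]
    have h2 : ∀ i j, g.e j * (u * g.od) * g.e i = if Odd (i : ℕ) then g.e j * u * g.e i else 0 := by
      intro i j
      rw [← mul_assoc (g.e j), mul_assoc _ g.od, GdO_od_mul]
      by_cases h : Odd (i : ℕ)
      · rw [if_pos h, if_pos h]
      · rw [if_neg h, if_neg h, mul_zero]
    constructor
    · intro hm
      refine GdO_ext g fun i j => ?_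
      rw [h1, h2]
      by_cases hij : (j : ℤ) = (i : ℤ) + m
      · have h3 : Odd (j : ℕ) ↔ Odd (i : ℕ) := by
          rw [← Int.odd_coe_nat, ← Int.odd_coe_nat, hij, Int.odd_add]
          exact ⟨fun h => h.2 hm, fun h => ⟨fun _ => hm, fun _ => h⟩⟩
        by_cases h : Odd (i : ℕ)
        · rw [if_pos h, if_pos (h3.2 h)]
        · rw [if_neg h, if_neg fun h' => h (h3.1 h')]
      · rw [hu i j hij]
        simp
    · intro hm
      refine GdO_ext g fun i j => ?_
      rw [h1, mul_sub, mul_one, mul_sub, sub_mul, h2]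
      by_cases hij : (j : ℤ) = (i : ℤ) + m
      · have h3 : Odd (j : ℕ) ↔ ¬ Odd (i : ℕ) := by
          rw [← Int.odd_coe_nat, ← Int.odd_coe_nat, hij, Int.odd_add]
          have hm' : ¬ Even m := Int.not_even_iff_odd.2 hm
          tauto
        by_cases h : Odd (i : ℕ)
        · rw [if_pos h, if_neg fun h' => h3.1 h' h, sub_self]
        · rw [if_neg h, if_pos (h3.2 h), sub_zero]
      · rw [hu i j hij]
        simp

end HPx
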