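import Pool.Agent.Lib.MP_181146_gt.HP.SpecP

set_option autoImplicit false

/-!
# Project HP: homogeneous homotopies
-/

namespace HPx

open HEp

section

variable {R : Type} [Ring R] {N : ℕ}

private theorem GdP_exp (g : Gd R N) (x : R) : x = ∑ j, ∑ i, g.e j * x * g.e i := by
  conv_lhs => rw [← one_mul x, ← mul_one (1 * x), ← g.sum]
  rw [Finset.sum_mul, Finset.sum_mul]
  refine Finset.sum_congr rfl fun j _ => ?_
  rw [Finset.mul_sum]

private theorem GdP_ext (g : Gd R N) {x y : R}
    (h : ∀ i j, g.e j * x * g.e i = g.e j * y * g.e i) : x = y := by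
  rw [GdP_exp g x, GdP_exp g y]
  exact Finset.sum_congr rfl fun j _ => Finset.sum_congr rfl fun i _ => h i j

private theorem GdP_mul (g : Gd R N) (x y : R) (i j : Fin N) :
    g.e j * (x * y) * g.e i = ∑ l, (g.e j * x * g.e l) * (g.e l * y * g.e i) := by
  have h : ∀ l, (g.e j * x * g.e l) * (g.e l * y * g.e i) = g.e j * x * (g.e l) * (y * g.e i) := by
    intro l
    conv_rhs => rw [← g.mul_self l]
    simp only [mul_assoc]
  simp only [h]
  rw [← Finset.sum_mul, ← Finset.mul_sum, g.sum, mul_one]
  simp only [mul_assoc]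

/-- The homogeneous part of degree `m` of `h`. -/
private noncomputable def GdP_h (g : Gd R N) (m : ℤ) (h : R) : R :=
  ∑ a : Fin N, ∑ b : Fin N, if (b : ℤ) = (a : ℤ) + m then g.e b * h * g.e a else 0

private theorem GdP_hc (g : Gd R N) (m : ℤ) (h : R) (i j : Fin N) :
    g.e j * GdP_h g m h * g.e i = if (j : ℤ) = (i : ℤ) + m then g.e j * h * g.e i else 0 := by
  unfold GdP_h
  rw [Finset.mul_sum, Finset.sum_mul, Finset.sum_eq_single i, Finset.mul_sum, Finset.sum_mul,
    Finset.sum_eq_single j]
  · split_ifs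
    · have e : g.e j * (g.e j * h * g.e i) * g.e i = (g.e j * g.e j) * h * (g.e i * g.e i) := by
        simp only [mul_assoc]
      rw [e, g.mul_self, g.mul_self]
    · rw [mul_zero, zero_mul]
  · intro b _ hb
    split_ifs
    · have e : g.e j * (g.e b * h * g.e i) * g.e i = (g.e j * g.e b) * h * (g.e i * g.e i) := by
        simp only [mul_assoc]
      rw [e, g.mul_ne j b hb.symm, zero_mul, zero_mul]
    · rw [mul_zero, zero_mul]
  · intro h1
    exact absurd (Finset.mem_univ j) h1
  · intro a _ ha
    rw [Finset.mul_sum, Finset.sum_mul]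
    refine Finset.sum_eq_zero fun b _ => ?_
    split_ifs
    · have e : g.e j * (g.e b * h * g.e a) * g.e i = (g.e j * g.e b) * h * (g.e a * g.e i) := by
        simp only [mul_assoc]
      rw [e, g.mul_ne a i ha, mul_zero]
    · rw [mul_zero, zero_mul]
  · intro h1
    exact absurd (Finset.mem_univ i) h1

end

theorem sGdP : S_GdP := by
  intro R _ N g m u d h s hu hd hud
  refine ⟨GdP_h g (m + 1) h, fun i j hij => ?_, GdP_ext g fun i j => ?_⟩
  · rw [GdP_hc, if_neg hij]
  · have e1 : ∀ x y z : R, g.e j * (x * y + s • (z * x)) * g.e i =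
        g.e j * (x * y) * g.e i + s • (g.e j * (z * x) * g.e i) := by
      intro x y z
      rw [mul_add, add_mul, mul_smul_comm, smul_mul_assoc]
    by_cases hij : (j : ℤ) = (i : ℤ) + m
    · rw [hud, e1, e1]
      congr 1
      · rw [GdP_mul, GdP_mul]
        refine Finset.sum_congr rfl fun l _ => ?_
        by_cases hl : (j : ℤ) = (l : ℤ) + -1
        · rw [GdP_hc, if_pos (by omega)]
        · rw [hd l j hl, zero_mul, zero_mul]
      · congr 1
        rw [GdP_mul, GdP_mul]
        refine Finset.sum_congr rfl fun l _ => ?_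
        by_cases hl : (l : ℤ) = (i : ℤ) + -1
        · rw [GdP_hc, if_pos (by omega)]
        · rw [hd i l hl, mul_zero, mul_zero]
    · rw [hu i j hij, e1, GdP_mul, GdP_mul]
      have z1 : ∑ l, (g.e j * d * g.e l) * (g.e l * GdP_h g (m + 1) h * g.e i) = 0 := by
        refine Finset.sum_eq_zero fun l _ => ?_
        by_cases hl : (j : ℤ) = (l : ℤ) + -1
        · rw [GdP_hc, if_neg (by omega), mul_zero]
        · rw [hd l j hl, zero_mul]
      have z2 : ∑ l, (g.e j * GdP_h g (m + 1) h * g.e l) * (g.e l * d * g.e i) = 0 := by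
        refine Finset.sum_eq_zero fun l _ => ?_
        by_cases hl : (l : ℤ) = (i : ℤ) + -1
        · rw [GdP_hc, if_neg (by omega), zero_mul]
        · rw [hd i l hl, mul_zero]
      rw [z1, z2, smul_zero, add_zero]

end HPx
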