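import Pool.Agent.Lib.MP_181146_gt.HP.SpecQ

/-!
# Project HP, statement Grp: combination over a decomposition of `G` into cyclic groups
-/

set_option autoImplicit false

namespace HPx

open HEp

section Dec

variable {G : Type} [CommGroup G] {ι : Type} [DecidableEq ι] {n : ι → ℕ}
  (e : G ≃* ((i : ι) → Multiplicative (ZMod (n i))))

/-- The generator of the factor `j`. -/
private def gi (j : ι) : G := e.symm (Pi.mulSingle j (Multiplicative.ofAdd 1))

private lemma e_gi_pow (j : ι) (a : ℤ) :
    e (gi e j ^ a) = Pi.mulSingle j (Multiplicative.ofAdd (a : ZMod (n j))) := by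
  rw [map_zpow, gi, MulEquiv.apply_symm_apply, ← Pi.mulSingle_zpow, ← ofAdd_zsmul, zsmul_one]

/-- The elements with trivial components outside `T`. -/
private def AT (T : Finset ι) : Subgroup G where
  carrier := {x | ∀ j, j ∉ T → e x j = 1}
  mul_mem' := by
    intro x y hx hy j hj
    rw [map_mul, Pi.mul_apply, hx j hj, hy j hj, one_mul]
  one_mem' := by
    intro j _
    rw [map_one, Pi.one_apply]
  inv_mem' := by
    intro x hx j hj
    rw [map_inv, Pi.inv_apply, hx j hj, inv_one]

omit [DecidableEq ι] in
private lemma AT_empty : AT e ∅ = ⊥ := by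
  rw [eq_bot_iff]
  intro x hx
  rw [Subgroup.mem_bot]
  apply e.injective
  rw [map_one]
  funext j
  exact hx j (Finset.notMem_empty j)

private lemma AT_inf (T : Finset ι) (j : ι) (hj : j ∉ T) :
    AT e T ⊓ Subgroup.zpowers (gi e j) = ⊥ := by
  rw [eq_bot_iff]
  rintro x ⟨hx, hx2⟩
  obtain ⟨a, rfl⟩ := Subgroup.mem_zpowers_iff.1 hx2
  rw [Subgroup.mem_bot]
  apply e.injective
  rw [map_one]
  funext i
  by_cases h : i = j
  · subst h
    exact hx i hj
  · rw [e_gi_pow, Pi.mulSingle_eq_of_ne h, Pi.one_apply]

private lemma AT_insert (T : Finset ι) (j : ι) :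
    AT e T ⊔ Subgroup.zpowers (gi e j) = AT e (insert j T) := by
  apply le_antisymm
  · apply sup_le
    · intro x hx i hi
      exact hx i (fun h => hi (Finset.mem_insert_of_mem h))
    · rw [Subgroup.zpowers_le]
      intro i hi
      have h : i ≠ j := fun h => hi (h ▸ Finset.mem_insert_self _ _)
      have := e_gi_pow e j 1
      rw [zpow_one] at this
      rw [this, Pi.mulSingle_eq_of_ne h]
  · intro x hx
    rw [Subgroup.mem_sup]
    obtain ⟨a, ha⟩ := ZMod.intCast_surjective (Multiplicative.toAdd (e x j))
    refine ⟨x * (gi e j ^ a)⁻¹, ?_, gi e j ^ a, Subgroup.zpow_mem_zpowers _ _, by group⟩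
    intro i hi
    rw [map_mul, map_inv, Pi.mul_apply, Pi.inv_apply, e_gi_pow]
    by_cases h : i = j
    · subst h
      rw [Pi.mulSingle_eq_same, ha]
      exact mul_inv_cancel _
    · rw [Pi.mulSingle_eq_of_ne h, inv_one, mul_one]
      apply hx
      intro h2
      rcases Finset.mem_insert.1 h2 with h3 | h3
      · exact h h3
      · exact hi h3

private lemma gi_pow (j : ι) : gi e j ^ (n j) = 1 := by
  apply e.injective
  have := e_gi_pow e j (n j : ℤ)
  rw [zpow_natCast] at this
  rw [this, map_one]
  have h : ((n j : ℤ) : ZMod (n j)) = 0 := by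
    rw [Int.cast_natCast, ZMod.natCast_self]
  rw [h, ofAdd_zero, Pi.mulSingle_one]

/-- The elements of order two. -/
private def hT (T : Finset ι) : G :=
  e.symm (fun i => if i ∈ T then Multiplicative.ofAdd (((n i / 2 : ℕ)) : ZMod (n i)) else 1)

private lemma hT_sq (T : Finset ι) (hT2 : ∀ i ∈ T, Even (n i)) : hT e T * hT e T = 1 := by
  apply e.injective
  rw [map_mul, map_one, hT, MulEquiv.apply_symm_apply]
  funext i
  rw [Pi.mul_apply, Pi.one_apply]
  by_cases h : i ∈ T
  · rw [if_pos h, ← ofAdd_add, ← Nat.cast_add]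
    have h2 : n i / 2 + n i / 2 = n i := by
      obtain ⟨c, hc⟩ := hT2 i h
      omega
    rw [h2, ZMod.natCast_self, ofAdd_zero]
  · rw [if_neg h, one_mul]

private lemma hT_inj (hn : ∀ i, 1 < n i) (T T' : Finset ι) (h : hT e T = hT e T') : T = T' := by
  have h1 := e.symm.injective h
  ext i
  have h2 := congrFun h1 i
  have h3 : Multiplicative.ofAdd (((n i / 2 : ℕ)) : ZMod (n i)) ≠ 1 := by
    intro h4
    rw [ofAdd_eq_one] at h4
    rw [ZMod.natCast_eq_zero_iff] at h4
    have h5 := hn i
    have h6 := Nat.le_of_dvd (by omega) h4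
    omega
  by_cases hi : i ∈ T
  · by_cases hi' : i ∈ T'
    · exact iff_of_true hi hi'
    · exfalso
      simp only [if_pos hi, if_neg hi'] at h2
      exact h3 h2
  · by_cases hi' : i ∈ T'
    · exfalso
      simp only [if_neg hi, if_pos hi'] at h2
      exact h3 h2.symm
    · exact iff_of_false hi hi'

end Dec

/-- **Grp.** -/
theorem sGrp : S_Grp := by
  classical
  intro G _ _ U _ Q hbot hadd hneg hprod hodd h2 s hs u
  obtain ⟨ι, _, n, hn, ⟨e⟩⟩ := CommGroup.equiv_prod_multiplicative_zmod_of_finite G
  -- zero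
  have hz : ∀ g, Q (Subgroup.zpowers g) 0 := by
    intro g
    by_contra h
    exact h (by simpa using h2 g 0 0 h h)
  -- twice
  have htw : ∀ g x, Q (Subgroup.zpowers g) (x + x) := by
    intro g x
    by_cases h : Q (Subgroup.zpowers g) x
    · exact hadd _ _ _ h h
    · exact h2 g x x h h
  -- difference
  have hdf : ∀ g x y, (Q (Subgroup.zpowers g) x ↔ Q (Subgroup.zpowers g) y) →
      Q (Subgroup.zpowers g) (x - y) := by
    intro g x y h
    rw [sub_eq_add_neg]
    by_cases hx : Q (Subgroup.zpowers g) x
    · exact hadd _ _ _ hx (hneg _ _ (h.1 hx))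
    · apply h2 g _ _ hx
      intro hy
      have := hneg _ _ hy
      rw [neg_neg] at this
      exact hx (h.2 this)
  -- the even factors
  let ev : Finset ι := Finset.univ.filter (fun i => Even (n i))
  have hcard : 2 ^ ev.card ≤ Nat.card {g : G // g * g = 1} := by
    let F : {T // T ∈ ev.powerset} → {g : G // g * g = 1} := fun T =>
      ⟨hT e T.1, hT_sq e T.1 (fun i hi => by
        have := Finset.mem_powerset.1 T.2 hi
        exact (Finset.mem_filter.1 this).2)⟩
    have hF : Function.Injective F := by
      intro T T' h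
      apply Subtype.ext
      exact hT_inj e hn _ _ (congrArg Subtype.val h)
    have := Nat.card_le_card_of_injective F hF
    rw [Nat.card_eq_fintype_card, Fintype.card_coe, Finset.card_powerset] at this
    exact this
  -- pigeonhole
  let pat : Finset (Fin s) → Finset ι := fun S =>
    ev.filter (fun i => Q (Subgroup.zpowers (gi e i)) (∑ l ∈ S, u l))
  have hpig : ∃ S ∈ (Finset.univ : Finset (Finset (Fin s))),
      ∃ T ∈ (Finset.univ : Finset (Finset (Fin s))), S ≠ T ∧ pat S = pat T := by
    apply Finset.exists_ne_map_eq_of_card_lt_of_maps_to (t := ev.powerset)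
    · rw [Finset.card_powerset, Finset.card_univ, Fintype.card_finset, Fintype.card_fin]
      exact lt_of_le_of_lt hcard hs
    · intro S _
      exact Finset.mem_powerset.2 (Finset.filter_subset _ _)
  obtain ⟨S, -, T, -, hST, hp⟩ := hpig
  refine ⟨symmDiff S T, ?_, ?_⟩
  · rw [Finset.nonempty_iff_ne_empty]
    intro h
    apply hST
    exact symmDiff_eq_bot.1 h
  · -- the sum over the symmetric difference
    have hsum : ∑ l ∈ symmDiff S T, u l = (∑ l ∈ S, u l - ∑ l ∈ T, u l) +
        (∑ l ∈ T \ S, u l + ∑ l ∈ T \ S, u l) := by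
      have h1 : ∑ l ∈ symmDiff S T, u l = ∑ l ∈ S \ T, u l + ∑ l ∈ T \ S, u l := by
        rw [symmDiff_def, Finset.sup_eq_union, Finset.sum_union]
        exact disjoint_sdiff_sdiff
      have h3 : ∑ l ∈ S \ T, u l + ∑ l ∈ S ∩ T, u l = ∑ l ∈ S, u l := by
        rw [add_comm]
        exact Finset.sum_inter_add_sum_sdiff S T u
      have h4 : ∑ l ∈ T \ S, u l + ∑ l ∈ S ∩ T, u l = ∑ l ∈ T, u l := by
        rw [Finset.inter_comm, add_comm]
        exact Finset.sum_inter_add_sum_sdiff T S u
      rw [h1, ← h3, ← h4]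
      abel
    have hall : ∀ i, Q (Subgroup.zpowers (gi e i)) (∑ l ∈ symmDiff S T, u l) := by
      intro i
      by_cases hi : Even (n i)
      · rw [hsum]
        apply hadd _ _ _ _ (htw _ _)
        apply hdf
        have hiev : i ∈ ev := Finset.mem_filter.2 ⟨Finset.mem_univ _, hi⟩
        have h5 : i ∈ pat S ↔ i ∈ pat T := by rw [hp]
        simp only [pat, Finset.mem_filter, hiev, true_and] at h5
        exact h5
      · apply hodd
        rw [Nat.not_even_iff_odd] at hi
        have h6 : orderOf (gi e i) ∣ n i := orderOf_dvd_of_pow_eq_one (gi_pow e i)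
        exact Odd.of_dvd_nat hi h6
    have hfin : ∀ W : Finset ι, Q (AT e W) (∑ l ∈ symmDiff S T, u l) := by
      intro W
      induction W using Finset.induction_on with
      | empty =>
        rw [AT_empty]
        exact hbot _
      | insert j W hj ih =>
        rw [← AT_insert]
        exact hprod _ _ _ (AT_inf e W j hj) ih (hall j)
    have htop : AT e (Finset.univ : Finset ι) = ⊤ := by
      rw [eq_top_iff]
      intro x _ j hj
      exact absurd (Finset.mem_univ j) hj
    rw [← htop]
    exact hfin _

end HPx
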