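import Pool.Agent.Lib.MP_181146_gt.HP.SpecQ

/-!
# HP/HmQ: chain maps over the augmentation are equivariantly homotopic to the identity
-/

set_option autoImplicit false

namespace HPx

open HEp

section

variable {G : Type} [CommGroup G] {H : Type} [CommGroup H]

/-- The action of `H` on a module over `ℤ[G]` through `j : H → G`. -/
private noncomputable def hmqR (j : H →* G) (W : Type) [AddCommGroup W] [Module (ZG G) W] :
    H →* AddMonoid.End W :=
  (Module.toAddMonoidEnd (ZG G) W).toMonoidHom.comp ((MonoidAlgebra.of ℤ G).comp j)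

private lemma hmqR_apply (j : H →* G) (W : Type) [AddCommGroup W] [Module (ZG G) W] (γ : H)
    (w : W) : hmqR j W γ w = (MonoidAlgebra.of ℤ G (j γ) : ZG G) • w := rfl

variable (X : AX G)

private lemma hmq_cy : ∀ (i : ℕ) (x : X.P (i + 1)), X.Cy i (X.d i x)
  | 0, x => X.εd x
  | i + 1, x => X.dd i x

/-- The lifting step. -/
private lemma hmq_step (hPLift : S_PLift) (j : H →* G) (hj : Function.Injective j) (i : ℕ)
    (hac : ∀ x : X.P i, X.Cy i x → ∃ y, X.d i y = x) (φ : X.P i →+ X.P i)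
    (hφg : ∀ γ x, φ (MonoidAlgebra.of ℤ G (j γ) • x) = MonoidAlgebra.of ℤ G (j γ) • φ x)
    (hφ : ∀ x, X.Cy i (φ x)) :
    ∃ h : X.P i →+ X.P (i + 1),
      (∀ γ x, h (MonoidAlgebra.of ℤ G (j γ) • x) = MonoidAlgebra.of ℤ G (j γ) • h x) ∧
      ∀ x, X.d i (h x) = φ x := by
  obtain ⟨ψ, -, h2, h3⟩ := hPLift G (X.P i) H j hj (X.P (i + 1)) (X.P i)
    (hmqR j (X.P (i + 1))) (hmqR j (X.P i)) (X.d i).toAddMonoidHom
    (fun γ w => (X.d i).map_smul (MonoidAlgebra.of ℤ G (j γ) : ZG G) w) ⊤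
    (fun _ _ _ => AddSubgroup.mem_top _) φ (fun γ x => hφg γ x)
    (fun x => by
      obtain ⟨y, hy⟩ := hac (φ x) (hφ x)
      exact ⟨y, AddSubgroup.mem_top _, hy⟩)
  exact ⟨ψ, fun γ x => h3 γ x, fun x => h2 x⟩

end

theorem sHmQ (hPLift : S_PLift) : S_HmQ := by
  intro G _ X q hX H _ j hj κ κg κd κε
  have hac : ∀ i, i < q + 1 → ∀ x : X.P i, X.Cy i x → ∃ y, X.d i y = x := hX.2
  have key : ∀ i, i ≤ q → ∃ h : X.P i →+ X.P (i + 1),
      (∀ γ x, h (MonoidAlgebra.of ℤ G (j γ) • x) = MonoidAlgebra.of ℤ G (j γ) • h x) ∧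
      ∀ x, X.Cy i x → X.d i (h x) = κ i x - x := by
    intro i
    induction i with
    | zero =>
      intro _
      obtain ⟨h, h1, h2⟩ := hmq_step X hPLift j hj 0 (hac 0 (Nat.succ_pos q))
        (κ 0 - AddMonoidHom.id _)
        (fun γ x => by
          change κ 0 (MonoidAlgebra.of ℤ G (j γ) • x) - MonoidAlgebra.of ℤ G (j γ) • x =
            MonoidAlgebra.of ℤ G (j γ) • (κ 0 x - x)
          rw [κg 0 (Nat.zero_le _), smul_sub])
        (fun x => by
          change X.ε (κ 0 x - x) = 0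
          rw [map_sub, κε, sub_self])
      exact ⟨h, h1, fun x _ => h2 x⟩
    | succ i ih =>
      intro hi
      obtain ⟨h, h1, h2⟩ := ih (Nat.le_of_succ_le hi)
      obtain ⟨h', h1', h2'⟩ := hmq_step X hPLift j hj (i + 1) (hac (i + 1) (Nat.lt_succ_of_le hi))
        (κ (i + 1) - AddMonoidHom.id _ - h.comp (X.d i).toAddMonoidHom)
        (fun γ x => by
          change κ (i + 1) (MonoidAlgebra.of ℤ G (j γ) • x) - MonoidAlgebra.of ℤ G (j γ) • x -
              h (X.d i (MonoidAlgebra.of ℤ G (j γ) • x)) =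
            MonoidAlgebra.of ℤ G (j γ) • (κ (i + 1) x - x - h (X.d i x))
          rw [κg (i + 1) (Nat.le_succ_of_le hi), (X.d i).map_smul, h1, smul_sub, smul_sub])
        (fun x => by
          change X.d i (κ (i + 1) x - x - h (X.d i x)) = 0
          rw [map_sub, map_sub, κd i (Nat.le_of_succ_le hi), h2 _ (hmq_cy X i x), sub_self])
      refine ⟨h', h1', fun x hx => ?_⟩
      have hx' : X.d i x = 0 := hx
      rw [h2']
      change κ (i + 1) x - x - h (X.d i x) = κ (i + 1) x - x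
      rw [hx', map_zero, sub_zero]
  obtain ⟨h, h1, h2⟩ := key q le_rfl
  refine ⟨h, h1, fun x => ?_⟩
  rw [map_sub, map_sub, κd q le_rfl, h2 _ (hmq_cy X q x), sub_self]

end HPx
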