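import Pool.Agent.Lib.MP_181146_gt.HP.SpecP
import Pool.Agent.Lib.MP_181146_gt.HE.SpecS

/-!
# Project HP: natural version of the multiplicativity of the coproduct (S_Hpn)
-/

set_option autoImplicit false

namespace HPx

open scoped TensorProduct
open HEp

private lemma hpn_map_comp {k : Type} [CommRing k] {U V W X : Type} [AddCommMonoid U]
    [Module k U] [AddCommMonoid V] [Module k V] [AddCommMonoid W] [Module k W] [AddCommMonoid X]
    [Module k X] (g : V →ₗ[k] W) (f : U →ₗ[k] V) (mm : U →ₗ[k] W) (hmm : mm = g ∘ₗ f)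
    (E : X →ₗ[k] U ⊗[k] U) (z : X) :
    (TensorProduct.map mm mm ∘ₗ E) z =
      TensorProduct.map g g (TensorProduct.map f f (E z)) := by
  subst hmm
  rw [TensorProduct.map_comp]
  rfl

private lemma hpn_mid_eq {k : Type} [CommRing k] (A : DG k) : mid A A A A = exch A.P := rfl

private lemma hpn_mid_ch (k : Type) [CommRing k] (K : SS)
    (z : (Ch k K ⊗[k] Ch k K) ⊗[k] (Ch k K ⊗[k] Ch k K)) : exch (od k K) z =
    mid (chDG k K) (chDG k K) (chDG k K) (chDG k K) z :=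
  (LinearMap.congr_fun (hpn_mid_eq (chDG k K)) z).symm

private lemma hpn_rhs (k : Type) [CommRing k] (e : ∀ p q : ℕ, Ch ℤ ((De p).prod (De q)))
    (K : SS) (m : SSHom (K.prod K) K) (z : Ch k K ⊗[k] Ch k K) :
    (TensorProduct.map (mu k e m) (mu k e m) ∘ₗ exch (od k K) ∘ₗ
      TensorProduct.map (dl k K) (dl k K)) z =
    TensorProduct.map (cmap k m) (cmap k m) (TensorProduct.map (nab k e K K) (nab k e K K)
      (exch (od k K) (TensorProduct.map (dl k K) (dl k K) z))) :=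
  hpn_map_comp (cmap k m) (nab k e K K) (mu k e m) rfl
    (exch (od k K) ∘ₗ TensorProduct.map (dl k K) (dl k K)) z

private lemma hpn_rhs2 (k : Type) [CommRing k] (e : ∀ p q : ℕ, Ch ℤ ((De p).prod (De q)))
    (K : SS) (m : SSHom (K.prod K) K) (z : Ch k K ⊗[k] Ch k K) (Ψ : NMap (F2 k))
    (hΨ : ∀ K L z, Ψ.f K L z =
        TensorProduct.map (nab k e K L) (nab k e K L)
          (mid (chDG k K) (chDG k K) (chDG k L) (chDG k L)
            (TensorProduct.map (dl k K) (dl k L) z))) :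
    TensorProduct.map (mu k e m) (mu k e m)
      (exch (od k K) (TensorProduct.map (dl k K) (dl k K) z)) =
      TensorProduct.map (cmap k m) (cmap k m) (Ψ.f K K z) := by
  refine (hpn_rhs k e K m z).trans ?_
  refine congrArg (TensorProduct.map (cmap k m) (cmap k m)) ?_
  refine Eq.trans ?_ (hΨ K K z).symm
  exact congrArg (TensorProduct.map (nab k e K K) (nab k e K K)) (hpn_mid_ch k K _)

private lemma hpn_lhs (k : Type) [CommRing k] (e : ∀ p q : ℕ, Ch ℤ ((De p).prod (De q)))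
    (K : SS) (m : SSHom (K.prod K) K) (z : Ch k K ⊗[k] Ch k K) (Φ : NMap (F2 k))
    (hΦ : ∀ K L z, Φ.f K L z = dl k (K.prod L) (nab k e K L z)) (hDlG : HEp.S_DlG) :
    dl k K (mu k e m z) = TensorProduct.map (cmap k m) (cmap k m) (Φ.f K K z) := by
  refine Eq.trans ?_ (congrArg (TensorProduct.map (cmap k m) (cmap k m)) (hΦ K K z)).symm
  exact ((hDlG k (K.prod K)).2.2.2 K m (nab k e K K z)).symm

/-- The homotopy obtained from a homotopy of the natural maps. -/
private lemma hpn_hot (k : Type) [CommRing k] (K : SS) (m : SSHom (K.prod K) K) (Φ Ψ : NMap (F2 k))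
    (h : Ch k K ⊗[k] Ch k K →ₗ[k] ((F2 k).T K K).V)
    (hh : ∀ x, Φ.f K K x - Ψ.f K K x =
      ((F2 k).T K K).d (h x) + h (((chDG k K).tens (chDG k K)).d x))
    (z : Ch k K ⊗[k] Ch k K) :
    TensorProduct.map (cmap k m) (cmap k m) (Φ.f K K z) -
      TensorProduct.map (cmap k m) (cmap k m) (Ψ.f K K z) =
      ((chDG k K).tens (chDG k K)).d (TensorProduct.map (cmap k m) (cmap k m) (h z)) +
        TensorProduct.map (cmap k m) (cmap k m) (h (((chDG k K).tens (chDG k K)).d z)) := by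
  have h1 := congrArg (TensorProduct.map (cmap k m) (cmap k m)) (hh z)
  refine (map_sub (TensorProduct.map (cmap k m) (cmap k m)) _ _).symm.trans (h1.trans ?_)
  refine (map_add (TensorProduct.map (cmap k m) (cmap k m)) _ _).trans ?_
  exact congrArg (· + _) (cmap_tmap_d k m (h z))

private lemma hpn_id (k : Type) [CommRing k] (K : SS) : cmap k (SSHom.id K) = LinearMap.id :=
  LinearMap.ext fun x => cmap_id k x

/-- `m ∘ (1 × ψ) = ψ ∘ m` on chains. -/
private lemma hpn_comm (k : Type) [CommRing k] (K : SS) (m : SSHom (K.prod K) K) (ψ : SSHom K K)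
    (hψ : ∀ {j : ℕ} (x y : K.K j), m.f (x, ψ.f y) = ψ.f (m.f (x, y))) :
    cmap k m ∘ₗ cmap k ((SSHom.id K).prod ψ) = cmap k ψ ∘ₗ cmap k m := by
  refine ch_ext fun n x => ?_
  rw [LinearMap.comp_apply, LinearMap.comp_apply, cmap_sx, cmap_sx, cmap_sx, cmap_sx]
  exact congrArg (sx k) (hψ x.1 x.2)

private lemma hpn_sq (k : Type) [CommRing k] (K : SS) (m : SSHom (K.prod K) K) (ψ : SSHom K K)
    (hψ : ∀ {j : ℕ} (x y : K.K j), m.f (x, ψ.f y) = ψ.f (m.f (x, y)))
    (x : Ch k (K.prod K) ⊗[k] Ch k (K.prod K)) :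
    TensorProduct.map (cmap k m) (cmap k m) (TensorProduct.map (cmap k ((SSHom.id K).prod ψ))
      (cmap k ((SSHom.id K).prod ψ)) x) =
      TensorProduct.map (cmap k ψ) (cmap k ψ) (TensorProduct.map (cmap k m) (cmap k m) x) := by
  have h1 : TensorProduct.map (cmap k m) (cmap k m) ∘ₗ TensorProduct.map
      (cmap k ((SSHom.id K).prod ψ)) (cmap k ((SSHom.id K).prod ψ)) =
      TensorProduct.map (cmap k ψ) (cmap k ψ) ∘ₗ TensorProduct.map (cmap k m) (cmap k m) := by
    rw [← TensorProduct.map_comp, ← TensorProduct.map_comp, hpn_comm k K m ψ hψ]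
  exact LinearMap.congr_fun h1 x

private lemma hpn_nat (k : Type) [CommRing k] (K : SS) (m : SSHom (K.prod K) K) (ψ : SSHom K K)
    (hψ : ∀ {j : ℕ} (x y : K.K j), m.f (x, ψ.f y) = ψ.f (m.f (x, y)))
    (x : ((F2 k).T K K).V) :
    TensorProduct.map (cmap k m) (cmap k m) ((F2 k).map (SSHom.id K) ψ x) =
      TensorProduct.map (cmap k ψ) (cmap k ψ) (TensorProduct.map (cmap k m) (cmap k m) x) :=
  hpn_sq k K m ψ hψ x

theorem sHpn (hUNn : S_UNn) (hPhi : HEp.S_Phi) (hPsi : HEp.S_Psi) (hCon : HEp.S_Con)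
    (hCtrT : HEp.S_CtrT) (hDlG : HEp.S_DlG) : S_Hpn := by
  intro e he k _ K m
  obtain ⟨Φ, hΦ, hΦa⟩ := hPhi e he k
  obtain ⟨Ψ, hΨ, hΨa⟩ := hPsi e he k
  have hc : ∀ p q : ℕ, Nonempty (Ctr ((F2 k).T (De p) (De q)) ((F2 k).aug (De p) (De q))) := by
    intro p q
    obtain ⟨C, _⟩ := hCon k p q
    exact hCtrT k _ _ _ _ C C
  obtain ⟨h, hh, hn⟩ := hUNn k (F2 k) hc Φ Ψ
    (fun K L z => (hΦa K L z).trans (hΨa K L z).symm)
  refine ⟨TensorProduct.map (cmap k m) (cmap k m) ∘ₗ h K K, fun z => ?_, fun ψ hψ z => ?_⟩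
  · rw [hpn_lhs k e K m z Φ hΦ hDlG, hpn_rhs2 k e K m z Ψ hΨ]
    exact hpn_hot k K m Φ Ψ (h K K) (hh K K) z
  · have h1 := hn (SSHom.id K) ψ z
    rw [hpn_id] at h1
    refine (congrArg (TensorProduct.map (cmap k m) (cmap k m)) h1).trans ?_
    exact hpn_nat k K m ψ hψ (h K K z)

end HPx
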