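import Pool.Agent.Lib.MP_181146_gt.HP.SpecR

/-!
# Exactness of `X` from the link with the singular chains
-/

set_option autoImplicit false

namespace HPx

open HEp

theorem sLkAc : S_LkAc := by
  intro G _ X E _ act Λ v n hE
  refine ⟨⟨Λ.f' 0 (sx ℤ v), ?_⟩, ?_⟩
  · rw [Λ.f'ε, aug_sx_zero]
  · intro i hi x hx
    cases i with
    | zero =>
      have hx' : X.ε x = 0 := hx
      obtain ⟨y, hy⟩ := hE.1 (Λ.f 0 x) (Λ.f_gr 0 x)
      rw [Λ.fε, hx', zero_smul, sub_zero] at hy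
      refine ⟨Λ.f' 1 y - Λ.h 0 x, ?_⟩
      rw [map_sub, ← Λ.f'd, ← hy, ← Λ.h0, sub_sub_cancel]
    | succ j =>
      have hx' : X.d j x = 0 := hx
      obtain ⟨y, hy⟩ := hE.2 (j + 1) (Nat.succ_pos j) hi (Λ.f (j + 1) x) (Λ.f_gr (j + 1) x)
        (by rw [← Λ.fd, hx', map_zero])
      refine ⟨Λ.f' (j + 2) y - Λ.h (j + 1) x, ?_⟩
      have h1 := Λ.hs j x
      rw [hx', map_zero, add_zero] at h1
      rw [map_sub, ← Λ.f'd, ← hy, ← h1, sub_sub_cancel]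

end HPx
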