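import Pool.Agent.Lib.MP_181146_gt.HP.SpecR
import Pool.Agent.Lib.SingHom.Compare

/-!
# Project HP: the augmentation and the link with the singular chains
-/

set_option autoImplicit false

namespace HPx

open HEp

open Pool.Agent.Lib

section

variable {E : Type} [TopologicalSpace E]

/-- a simplex as a chain -/
private noncomputable def es {n : ℕ} (σ : (Sing E).K n) : SingHom.SC ℤ E n :=
  Finsupp.single (σ : C(SingHom.Sx n, E)) 1

private lemma es_ext {n : ℕ} {M : Type*} [AddCommGroup M] [Module ℤ M]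
    {f g : SingHom.SC ℤ E n →ₗ[ℤ] M} (h : ∀ σ : (Sing E).K n, f (es σ) = g (es σ)) : f = g :=
  SingHom.slin_ext ℤ h

private lemma sbd_es {n : ℕ} (σ : (Sing E).K (n + 1)) : SingHom.sbd ℤ n (es σ) =
    ∑ i : Fin (n + 2), (-1 : ℤ) ^ (i : ℕ) • es ((Sing E).act i.succAbove σ) :=
  SingHom.sbd_single ℤ (n := n) σ

private lemma smp_es (g : C(E, E)) {n : ℕ} (σ : (Sing E).K n) :
    SingHom.smp ℤ g n (es σ) = es ((SingMap g).f σ) :=
  SingHom.smp_single ℤ g (n := n) σ 1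

/-- the inclusion of simplices -/
private def ms (E : Type) [TopologicalSpace E] (n : ℕ) (σ : C(SingHom.Sx n, E)) :
    Σ n, (Sing E).K n := ⟨n, σ⟩

private lemma ms_inj (n : ℕ) : Function.Injective (ms E n) := by
  intro a b h
  exact eq_of_heq (Sigma.mk.inj h).2

/-- inclusion of the chains of dimension `n` -/
private noncomputable def inc (n : ℕ) : SingHom.SC ℤ E n →ₗ[ℤ] Ch ℤ (Sing E) :=
  Finsupp.lmapDomain ℤ ℤ (ms E n)

/-- component of dimension `n` -/
private noncomputable def prj (n : ℕ) : Ch ℤ (Sing E) →ₗ[ℤ] SingHom.SC ℤ E n :=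
  Finsupp.lcomapDomain (ms E n) (ms_inj n)

private lemma inc_es {n : ℕ} (σ : (Sing E).K n) : inc n (es σ) = sx ℤ σ := by
  rw [inc, Finsupp.lmapDomain_apply]
  exact Finsupp.mapDomain_single

private lemma prj_apply (n : ℕ) (c : Ch ℤ (Sing E)) (τ : C(SingHom.Sx n, E)) :
    prj n c τ = c (ms E n τ) := rfl

private lemma inc_apply (n : ℕ) (c : SingHom.SC ℤ E n) (τ : C(SingHom.Sx n, E)) :
    inc n c (ms E n τ) = c τ := by
  rw [inc, Finsupp.lmapDomain_apply]
  exact Finsupp.mapDomain_apply (ms_inj n) c τ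

private lemma prj_inc (n : ℕ) (c : SingHom.SC ℤ E n) : prj n (inc n c) = c := by
  apply Finsupp.ext
  intro τ
  rw [prj_apply, inc_apply]

private lemma es_mem {n : ℕ} (σ : (Sing E).K n) : inc n (es σ) ∈ gr ℤ (Sing E) n := by
  rw [inc_es]
  exact sx_mem_gr ℤ _

private lemma inc_mem (n : ℕ) (c : SingHom.SC ℤ E n) : inc n c ∈ gr ℤ (Sing E) n := by
  induction c using Finsupp.induction_linear with
  | zero =>
    rw [map_zero]
    exact zero_mem _
  | add f g hf hg =>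
    rw [map_add]
    exact add_mem hf hg
  | single σ r =>
    have h : (Finsupp.single σ r : SingHom.SC ℤ E n) = r • es (E := E) (n := n) σ :=
      (Finsupp.smul_single_one σ r).symm
    rw [h, map_smul]
    exact Submodule.smul_mem _ r (es_mem (n := n) σ)

private lemma gr_zero {n m : ℕ} (h : m ≠ n) {c : Ch ℤ (Sing E)} (hc : c ∈ gr ℤ (Sing E) n)
    (τ : (Sing E).K m) : c ⟨m, τ⟩ = 0 := by
  rw [gr, Finsupp.mem_supported'] at hc
  exact hc ⟨m, τ⟩ h

private lemma prj_ne {n m : ℕ} (h : m ≠ n) {c : Ch ℤ (Sing E)} (hc : c ∈ gr ℤ (Sing E) n) :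
    prj m c = 0 := by
  apply Finsupp.ext
  intro τ
  rw [prj_apply]
  exact gr_zero h hc τ

private lemma exists_inc {n : ℕ} {c : Ch ℤ (Sing E)} (hc : c ∈ gr ℤ (Sing E) n) :
    ∃ c' : SingHom.SC ℤ E n, c = inc n c' := by
  refine ⟨prj n c, ?_⟩
  apply Finsupp.ext
  rintro ⟨m, τ⟩
  by_cases h : m = n
  · subst h
    exact (inc_apply m (prj m c) τ).symm
  · rw [gr_zero h hc, gr_zero h (inc_mem n _)]

private lemma bd_inc_succ (n : ℕ) (c : SingHom.SC ℤ E (n + 1)) :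
    bd ℤ (Sing E) (inc (n + 1) c) = inc n (SingHom.sbd ℤ n c) := by
  have h : bd ℤ (Sing E) ∘ₗ inc (n + 1) = inc n ∘ₗ SingHom.sbd ℤ n :=
    es_ext fun σ => by
      rw [LinearMap.comp_apply, LinearMap.comp_apply, inc_es, bd_sx, sbd_es, map_sum]
      refine Finset.sum_congr rfl fun i _ => ?_
      rw [map_smul, inc_es]
  exact LinearMap.congr_fun h c

private lemma bd_inc_zero (c : SingHom.SC ℤ E 0) : bd ℤ (Sing E) (inc 0 c) = 0 := by
  have h : bd ℤ (Sing E) ∘ₗ inc 0 = 0 :=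
    es_ext fun σ => by
      rw [LinearMap.comp_apply, inc_es, bd_sx_zero, LinearMap.zero_apply]
  exact LinearMap.congr_fun h c

private lemma prj_bd (n : ℕ) (c : Ch ℤ (Sing E)) :
    prj n (bd ℤ (Sing E) c) = SingHom.sbd ℤ n (prj (n + 1) c) := by
  have h : prj n ∘ₗ bd ℤ (Sing E) = SingHom.sbd ℤ n ∘ₗ prj (n + 1) := ch_ext fun m σ => by
    rw [LinearMap.comp_apply, LinearMap.comp_apply, ← inc_es]
    cases m with
    | zero =>
      rw [bd_inc_zero, map_zero, prj_ne (Nat.succ_ne_zero n) (inc_mem 0 _), map_zero]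
    | succ m =>
      rw [bd_inc_succ]
      by_cases hm : n = m
      · subst hm
        rw [prj_inc, prj_inc]
      · rw [prj_ne hm (inc_mem m _), prj_ne (fun e => hm (Nat.succ.inj e)) (inc_mem (m + 1) _),
          map_zero]
  exact LinearMap.congr_fun h c

private lemma cmap_inc (g : C(E, E)) (n : ℕ) (c : SingHom.SC ℤ E n) :
    cmap ℤ (SingMap g) (inc n c) = inc n (SingHom.smp ℤ g n c) := by
  have h : cmap ℤ (SingMap g) ∘ₗ inc n = inc n ∘ₗ SingHom.smp ℤ g n :=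
    es_ext fun σ => by
      rw [LinearMap.comp_apply, LinearMap.comp_apply, inc_es, cmap_sx, smp_es, inc_es]
  exact LinearMap.congr_fun h c

private lemma prj_cmap (g : C(E, E)) (n : ℕ) (c : Ch ℤ (Sing E)) :
    prj n (cmap ℤ (SingMap g) c) = SingHom.smp ℤ g n (prj n c) := by
  have h : prj n ∘ₗ cmap ℤ (SingMap g) = SingHom.smp ℤ g n ∘ₗ prj n := ch_ext fun m σ => by
    rw [LinearMap.comp_apply, LinearMap.comp_apply, cmap_sx]
    by_cases hm : n = m
    · subst hm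
      rw [← inc_es, ← inc_es, prj_inc, prj_inc, smp_es]
    · rw [prj_ne hm (sx_mem_gr ℤ _), prj_ne hm (sx_mem_gr ℤ _), map_zero]
  exact LinearMap.congr_fun h c

/-! ### comparison with Mathlib's singular chains -/

private noncomputable def cm (n : ℕ) : SingHom.SC ℤ E n →ₗ[ℤ] (HSp.SC E).X n := SingHom.cmp ℤ n

private noncomputable def ci (n : ℕ) : (HSp.SC E).X n →ₗ[ℤ] SingHom.SC ℤ E n := SingHom.cmpInv ℤ n

private lemma ci_cm (n : ℕ) (c : SingHom.SC ℤ E n) : ci n (cm n c) = c := SingHom.cmpInv_cmp ℤ n c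

private lemma cm_ci (n : ℕ) (c : (HSp.SC E).X n) : cm n (ci n c) = c := SingHom.cmp_cmpInv ℤ n c

private lemma cm_d (n : ℕ) (c : SingHom.SC ℤ E (n + 1)) :
    ((HSp.SC E).d (n + 1) n).hom (cm (n + 1) c) = cm n (SingHom.sbd ℤ n c) := SingHom.cmp_d ℤ n c

private lemma ci_d (n : ℕ) (y : (HSp.SC E).X (n + 1)) :
    ci n (((HSp.SC E).d (n + 1) n).hom y) = SingHom.sbd ℤ n (ci (n + 1) y) := by
  conv_lhs => rw [← cm_ci (n + 1) y]
  rw [cm_d, ci_cm]

private lemma cm_map (g : C(E, E)) (n : ℕ) (c : SingHom.SC ℤ E n) :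
    ((HSp.SCmap g).f n).hom (cm n c) = cm n (SingHom.smp ℤ g n c) := SingHom.cmp_map ℤ g n c

private lemma ci_map (g : C(E, E)) (n : ℕ) (y : (HSp.SC E).X n) :
    ci n (((HSp.SCmap g).f n).hom y) = SingHom.smp ℤ g n (ci n y) := by
  conv_lhs => rw [← cm_ci n y]
  rw [cm_map, ci_cm]

private lemma aug_inc_succ (n : ℕ) (c : SingHom.SC ℤ E (n + 1)) :
    aug ℤ (Sing E) (inc (n + 1) c) = 0 := by
  have h : aug ℤ (Sing E) ∘ₗ inc (n + 1) = 0 :=
    es_ext fun σ => by
      rw [LinearMap.comp_apply, inc_es, aug_sx_succ, LinearMap.zero_apply]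
  exact LinearMap.congr_fun h c

private lemma Lk_ind {Q : Type} [AddCommGroup Q] (φ ψ : Ch ℤ (Sing E) →+ Q)
    (h : ∀ (n : ℕ) (c : SingHom.SC ℤ E n), φ (inc n c) = ψ (inc n c)) (c : Ch ℤ (Sing E)) :
    φ c = ψ c := by
  induction c using Finsupp.induction_linear with
  | zero => rw [map_zero, map_zero]
  | add x y hx hy => rw [map_add, map_add, hx, hy]
  | single σ r =>
    obtain ⟨n, σ⟩ := σ
    have e : (Finsupp.single (⟨n, σ⟩ : Σ n, (Sing E).K n) r : Ch ℤ (Sing E)) =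
        inc n (Finsupp.single σ r) := by
      rw [inc, Finsupp.lmapDomain_apply]
      exact Finsupp.mapDomain_single.symm
    rw [e]
    exact h n _

end

/-- **LkEx.** -/
theorem sLkEx : S_LkEx := by
  intro E _ G _ act M _ _ _ _ d dd u u' a b ud u'd ha0 ha hb0 hb ug u'g
  let F : ∀ i, M i →+ Ch ℤ (Sing E) := fun i => ((inc i ∘ₗ ci i).toAddMonoidHom).comp (u i)
  let F' : ∀ i, Ch ℤ (Sing E) →+ M i := fun i => (u' i).comp ((cm i ∘ₗ prj i).toAddMonoidHom)
  have eF : ∀ i x, F i x = inc i (ci i (u i x)) := fun _ _ => rfl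
  have eF' : ∀ i c, F' i c = u' i (cm i (prj i c)) := fun _ _ => rfl
  have kfd : ∀ (n : ℕ) (x : M (n + 1)), F n (d n x) = bd ℤ (Sing E) (F (n + 1) x) := by
    intro n x
    rw [eF, eF, bd_inc_succ, ← ci_d, ← ud]
  have kfg : ∀ (g : G) (i : ℕ) (x : M i), F i (MonoidAlgebra.of ℤ G g • x) =
      cmap ℤ (SingMap (act g)) (F i x) := by
    intro g i x
    rw [eF, eF, ug, ci_map, cmap_inc]
  let ε : M 0 →+ ℤ := (aug ℤ (Sing E)).toAddMonoidHom.comp (F 0)
  have eε : ∀ x, ε x = aug ℤ (Sing E) (F 0 x) := fun _ => rfl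
  have εg : ∀ (g : G) (x : M 0), ε (MonoidAlgebra.of ℤ G g • x) = ε x := by
    intro g x
    rw [eε, eε, kfg, aug_cmap]
  have εd : ∀ x, ε (d 0 x) = 0 := by
    intro x
    rw [eε, kfd, aug_bd]
  refine ⟨ε, εg, εd, ⟨{
    f := F
    f' := F'
    h := a
    f_gr := fun i x => inc_mem i _
    f'_gr := ?_
    fd := kfd
    f'd := ?_
    fε := fun x => rfl
    f'ε := ?_
    h0 := ?_
    hs := ?_
    fg := kfg
    f'g := ?_ }⟩⟩
  · intro n i hi c hc
    change u' i (cm i (prj i c)) = 0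
    rw [prj_ne hi hc, map_zero, map_zero]
  · intro i c
    change u' i (cm i (prj i (bd ℤ (Sing E) c))) = d i (u' (i + 1) (cm (i + 1) (prj (i + 1) c)))
    rw [prj_bd, ← cm_d, u'd]
  · refine fun c => Lk_ind (ε.comp (F' 0)) (aug ℤ (Sing E)).toAddMonoidHom ?_ c
    intro n c
    change aug ℤ (Sing E) (inc 0 (ci 0 (u 0 (u' 0 (cm 0 (prj 0 (inc n c))))))) =
      aug ℤ (Sing E) (inc n c)
    cases n with
    | zero =>
      rw [prj_inc, ← sub_eq_zero, ← map_sub]
      have e : inc 0 (ci 0 (u 0 (u' 0 (cm 0 c)))) - inc 0 c =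
          inc 0 (ci 0 (u 0 (u' 0 (cm 0 c)) - cm 0 c)) := by
        rw [map_sub, map_sub, ci_cm]
      rw [e, hb0, ci_d, ← bd_inc_succ, aug_bd]
    | succ n =>
      rw [prj_ne (Nat.succ_ne_zero n).symm (inc_mem (n + 1) _), aug_inc_succ]
      simp only [map_zero]
  · intro (x : M 0)
    change u' 0 (cm 0 (prj 0 (inc 0 (ci 0 (u 0 x))))) - x = d 0 (a 0 x)
    rw [prj_inc, cm_ci]
    exact ha0 x
  · intro i (x : M (i + 1))
    change u' (i + 1) (cm (i + 1) (prj (i + 1) (inc (i + 1) (ci (i + 1) (u (i + 1) x))))) - x =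
      d (i + 1) (a (i + 1) x) + a i (d i x)
    rw [prj_inc, cm_ci]
    exact ha i x
  · intro g i c
    change u' i (cm i (prj i (cmap ℤ (SingMap (act g)) c))) =
      MonoidAlgebra.of ℤ G g • u' i (cm i (prj i c))
    rw [prj_cmap, ← cm_map, u'g]

end HPx
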