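import Pool.Agent.Lib.MP_181146_gt.HP.SpecP

/-!
# Project HP, module LxD: `lx x` and the differential
-/

set_option autoImplicit false

namespace HPx

open scoped TensorProduct
open HEp

private theorem LxD_od {k : Type} [CommRing k] {K : SS} {n : ℕ} (hn : Odd n)
    (x : Ch k K →ₗ[k] k) (hx : Sup n x) (a : Ch k K) : x (od k K a) = x a := by
  have h : x ∘ₗ od k K = x := ch_ext fun i s => by
    rw [LinearMap.comp_apply, od_sx]
    split_ifs with hi
    · rfl
    · rw [map_zero, hx i (fun h => hi (h ▸ hn)) _ (sx_mem_gr k s)]
  exact LinearMap.congr_fun h a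

theorem sLxD : S_LxD := by
  intro k _ K n hn x hx hxb z
  induction z with
  | zero => rw [map_zero, map_zero, map_zero, neg_zero]
  | add a b ha hb => rw [map_add, map_add, map_add, map_add, ha, hb, neg_add]
  | tmul a b =>
    rw [DG.tens_d, map_add, lx_tmul, lx_tmul, lx_tmul]
    change x (bd k K a) • b + x ((chDG k K).sg a) • bd k K b = -bd k K (x a • b)
    rw [hxb, zero_smul, zero_add, DG.sg_apply]
    change x (a - (2 : k) • od k K a) • bd k K b = -bd k K (x a • b)
    rw [map_sub, map_smul, LxD_od hn x hx, map_smul]
    simp only [smul_eq_mul]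
    module

end HPx
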