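import Pool.Agent.Lib.MP_181146_gt.HP.SpecP

/-!
# Project HP, module MId: the matrix identities of the contractible complex
-/

set_option autoImplicit false

namespace HPx

open HEp

private lemma MId_add {R : Type} [Ring R] (a b c d e f g h i a' b' c' d' e' f' g' h' i' : R) :
    !![a, b, c; d, e, f; g, h, i] + !![a', b', c'; d', e', f'; g', h', i'] =
      !![a + a', b + b', c + c'; d + d', e + e', f + f'; g + g', h + h', i + i'] := by
  ext x y
  fin_cases x <;> fin_cases y <;> rfl

private lemma MId_zero {R : Type} [Ring R] :
    (0 : Matrix (Fin 3) (Fin 3) R) = !![0, 0, 0; 0, 0, 0; 0, 0, 0] := by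
  ext x y
  fin_cases x <;> fin_cases y <;> rfl

private lemma MId_ext {R : Type} {a b c d e f g h i a' b' c' d' e' f' g' h' i' : R}
    (h1 : a = a') (h2 : b = b') (h3 : c = c') (h4 : d = d') (h5 : e = e') (h6 : f = f')
    (h7 : g = g') (h8 : h = h') (h9 : i = i') :
    (!![a, b, c; d, e, f; g, h, i] : Matrix (Fin 3) (Fin 3) R) =
      !![a', b', c'; d', e', f'; g', h', i'] := by
  rw [h1, h2, h3, h4, h5, h6, h7, h8, h9]

theorem sMId : S_MId := by
  intro R _ d a b k l hdd had hbd hab hbb
  have hK : d * (a * k * b + a * a * l) + (a * k * b + a * a * l) * d =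
      a * b - a * b * (a * b) := by
    linear_combination (norm := noncomm_ring) had * (k * b) + had * (a * l) - a * had * l +
      a * k * hbd + a * hab * b - a * a * hbb
  have he : a * b * d = d * (a * b) := by
    linear_combination (norm := noncomm_ring) a * hbd - had * b
  constructor
  · rw [DM, Matrix.mul_fin_three, MId_zero]
    refine MId_ext ?_ ?_ ?_ ?_ ?_ ?_ ?_ ?_ ?_
    · linear_combination (norm := noncomm_ring) hdd
    · noncomm_ring
    · noncomm_ring
    · linear_combination (norm := noncomm_ring) he
    · linear_combination (norm := noncomm_ring) hdd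
    · noncomm_ring
    · linear_combination (norm := noncomm_ring) had - hK
    · linear_combination (norm := noncomm_ring) he
    · linear_combination (norm := noncomm_ring) hdd
  · rw [DM, SM, Matrix.mul_fin_three, Matrix.mul_fin_three, MId_add]
    refine ⟨_, _, _, MId_ext ?_ ?_ ?_ rfl ?_ ?_ rfl rfl ?_⟩
    · linear_combination (norm := noncomm_ring) hK + hab
    · linear_combination (norm := noncomm_ring) (-1 : R) * he - k * hbd - hab * b + had * l + a * hbb
    · linear_combination (norm := noncomm_ring) hbd
    · linear_combination (norm := noncomm_ring) 2 * hK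
    · linear_combination (norm := noncomm_ring) (-1 : R) * he + had * l + a * hbb
    · linear_combination (norm := noncomm_ring) hK

end HPx
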