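import Pool.Agent.Lib.MP_181146_gt.HP.SpecP
import Pool.Agent.Lib.MP_181146_gt.HE.SpecS

/-!
# Project HP: the operator `y ↦ c y` for a cycle `c` of odd degree
-/

set_option autoImplicit false

namespace HPx

open scoped TensorProduct
open HEp

private lemma mua_gr_ind {k : Type} [CommRing k] {K : SS} {n : ℕ} {M : Type} [AddCommGroup M]
    [Module k M] (f : Ch k K →ₗ[k] M) (S : Submodule k M) (h : ∀ x : K.K n, f (sx k x) ∈ S)
    (x : Ch k K) (hx : x ∈ gr k K n) : f x ∈ S := by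
  have h1 : gr k K n ≤ S.comap f := by
    rw [gr, Finsupp.supported_eq_span_single, Submodule.span_le]
    rintro _ ⟨⟨m, y⟩, hm, rfl⟩
    change m = n at hm
    subst hm
    exact h y
  exact h1 hx

private lemma mua_cmap_gr {k : Type} [CommRing k] {K L : SS} (f : SSHom K L) (n : ℕ) (x : Ch k K)
    (hx : x ∈ gr k K n) : cmap k f x ∈ gr k L n := by
  refine mua_gr_ind (cmap k f) (gr k L n) (fun x => ?_) x hx
  rw [cmap_sx]
  exact sx_mem_gr k _

private lemma mua_od_gr {k : Type} [CommRing k] {K : SS} (n : ℕ) (h : Odd n) (x : Ch k K)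
    (hx : x ∈ gr k K n) : od k K x = x := by
  have h1 := mua_gr_ind (od k K - LinearMap.id) ⊥ (fun x => by
    rw [LinearMap.sub_apply, LinearMap.id_apply, od_sx, if_pos h, sub_self]
    exact Submodule.zero_mem _) x hx
  rw [Submodule.mem_bot, LinearMap.sub_apply, LinearMap.id_apply] at h1
  exact sub_eq_zero.1 h1

theorem sMuA (hNabD : HEp.S_NabD) (hNabG : HEp.S_NabG) (hNabN : HEp.S_NabN) : S_MuA := by
  intro e he k _ K m n hn c hc hbc
  refine ⟨?_, ?_, ?_⟩
  · intro y
    have h1 := hNabD e he k K K (c ⊗ₜ y)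
    have h2 : ((chDG k K).tens (chDG k K)).d (c ⊗ₜ y) =
      bd k K c ⊗ₜ[k] y + (c - (2 : k) • od k K c) ⊗ₜ[k] bd k K y := rfl
    have h3 : ((chDG k K).tens (chDG k K)).d (c ⊗ₜ y) = - (c ⊗ₜ[k] bd k K y) := by
      rw [h2, hbc, TensorProduct.zero_tmul, zero_add, mua_od_gr n hn c hc, two_smul,
        ← TensorProduct.neg_tmul]
      congr 1
      abel
    have h4 : nab k e K K (((chDG k K).tens (chDG k K)).d (c ⊗ₜ y)) =
        - nab k e K K (c ⊗ₜ[k] bd k K y) := by
      refine Eq.trans (congrArg _ h3) ?_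
      exact map_neg (nab k e K K) (c ⊗ₜ[k] bd k K y)
    have h5 : bd k (K.prod K) (nab k e K K (c ⊗ₜ y)) = - nab k e K K (c ⊗ₜ[k] bd k K y) :=
      h1.symm.trans h4
    rw [mu, LinearMap.comp_apply, LinearMap.comp_apply, ← cmap_bd, h5, map_neg, neg_neg]
  · intro i y hy
    rw [mu, LinearMap.comp_apply, add_comm i n]
    exact mua_cmap_gr _ _ _ ((hNabG e he k K K).1 n i c hc y hy)
  · intro ψ hψ y
    have h1 := hNabN e k K K K K (SSHom.id K) ψ (c ⊗ₜ y)
    rw [TensorProduct.map_tmul, cmap_id] at h1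
    have h2 : m.comp ((SSHom.id K).prod ψ) = ψ.comp m := by
      unfold SSHom.comp SSHom.prod SSHom.id
      congr 1
      funext j x
      exact hψ j x.1 x.2
    rw [mu, LinearMap.comp_apply, LinearMap.comp_apply, h1, ← cmap_comp, h2, cmap_comp]

end HPx
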