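import Pool.Agent.Lib.MP_181146_gt.HP.SpecQ

/-!
# Project HP: equivariant lifting from a projective module over a larger group

The free module `M →₀ ℤ[G]` has the `ℤ`-basis `g · m`, on which `H` acts freely; choose lifts for
representatives of the orbits, extend equivariantly and compose with a section of `(M →₀ ℤ[G]) → M`.
-/

set_option autoImplicit false

namespace HPx

open HEp

section Gen

set_option linter.unusedSectionVars false

variable {G M W : Type} [CommGroup G] [AddCommGroup M] [Module (ZG G) M] [AddCommGroup W]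

/-- The additive map on the free module with given values on the basis. -/
private noncomputable def PLift_map (w : M → G → W) : (M →₀ ZG G) →+ W :=
  Finsupp.liftAddHom fun m => (Finsupp.liftAddHom fun g => (zmultiplesHom W) (w m g)).comp
    MonoidAlgebra.coeffAddEquiv.toAddMonoidHom

private theorem PLift_single (w : M → G → W) (m : M) (g : G) (n : ℤ) :
    PLift_map w (Finsupp.single m (MonoidAlgebra.single g n)) = n • w m g := by
  unfold PLift_map
  rw [Finsupp.liftAddHom_apply_single]
  change (Finsupp.liftAddHom fun g => (zmultiplesHom W) (w m g)) (Finsupp.single g n) = _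
  rw [Finsupp.liftAddHom_apply_single]
  rfl

private theorem PLift_ext {A : Type} [AddCommGroup A] (f g : (M →₀ ZG G) →+ A)
    (h : ∀ (m : M) (a : G) (n : ℤ), f (Finsupp.single m (MonoidAlgebra.single a n)) =
      g (Finsupp.single m (MonoidAlgebra.single a n))) : f = g := by
  apply Finsupp.addHom_ext
  intro m x
  have h1 : f.comp (Finsupp.singleAddHom m) = g.comp (Finsupp.singleAddHom m) := by
    apply MonoidAlgebra.addHom_ext'
    intro a
    apply AddMonoidHom.ext
    intro n
    exact h m a n
  exact DFunLike.congr_fun h1 x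

private theorem PLift_mem (w : M → G → W) (S : AddSubgroup W) (hw : ∀ m g, w m g ∈ S)
    (x : M →₀ ZG G) : PLift_map w x ∈ S := by
  have h1 : (QuotientAddGroup.mk' S).comp (PLift_map w) = 0 := by
    apply PLift_ext
    intro m a n
    rw [AddMonoidHom.comp_apply, PLift_single, AddMonoidHom.zero_apply,
      QuotientAddGroup.mk'_apply, QuotientAddGroup.eq_zero_iff]
    exact S.zsmul_mem (hw m a) n
  have h2 := DFunLike.congr_fun h1 x
  rw [AddMonoidHom.comp_apply, AddMonoidHom.zero_apply, QuotientAddGroup.mk'_apply,
    QuotientAddGroup.eq_zero_iff] at h2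
  exact h2

private theorem PLift_sm (m : M) (a b : G) (n : ℤ) :
    MonoidAlgebra.of ℤ G a • Finsupp.single m (MonoidAlgebra.single b n : ZG G) =
      Finsupp.single m (MonoidAlgebra.single (a * b) n) := by
  rw [Finsupp.smul_single, smul_eq_mul, MonoidAlgebra.of_apply, MonoidAlgebra.single_mul_single,
    one_mul]

private theorem PLift_sg (m : M) (a : G) (n : ℤ) :
    (MonoidAlgebra.single a n : ZG G) • m = n • (MonoidAlgebra.of ℤ G a • m) := by
  have h1 : (MonoidAlgebra.single a n : ZG G) = n • MonoidAlgebra.of ℤ G a := by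
    rw [MonoidAlgebra.of_apply, MonoidAlgebra.smul_single, smul_eq_mul, mul_one]
  rw [h1, smul_assoc]

end Gen

theorem sPLift : S_PLift := by
  intro G _ M _ _ _ H _ j hj W W' _ _ r r' D hD S hS φ hφ hex
  classical
  -- representatives
  have hrep : ∀ g : G, ∃ h : H, g = j h * Quotient.out (g : G ⧸ j.range) := by
    intro g
    obtain ⟨⟨h', h'', hh⟩, h2⟩ := QuotientGroup.mk_out_eq_mul j.range g
    refine ⟨h''⁻¹, ?_⟩
    rw [h2, map_inv, hh, mul_comm g, inv_mul_cancel_left]
  choose hh hhg using hrep
  have hrj : ∀ (h : H) (g : G), Quotient.out ((j h * g : G) : G ⧸ j.range) =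
      Quotient.out (g : G ⧸ j.range) := by
    intro h g
    have h1 : ((j h * g : G) : G ⧸ j.range) = (g : G ⧸ j.range) := by
      rw [QuotientGroup.eq]
      refine ⟨h⁻¹, ?_⟩
      rw [map_inv, mul_inv, mul_assoc, inv_mul_cancel, mul_one]
    rw [h1]
  have hhj : ∀ (h : H) (g : G), hh (j h * g) = h * hh g := by
    intro h g
    apply hj
    have h1 := hhg (j h * g)
    rw [hrj h g] at h1
    have h2 := hhg g
    have h3 : j (hh (j h * g)) * Quotient.out (g : G ⧸ j.range) =
        j h * j (hh g) * Quotient.out (g : G ⧸ j.range) := by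
      rw [← h1, mul_assoc, ← h2]
    rw [map_mul]
    exact mul_right_cancel h3
  choose w0 hw0 hw0' using hex
  set w : M → G → W := fun m g =>
    r (hh g) (w0 (MonoidAlgebra.of ℤ G (Quotient.out (g : G ⧸ j.range)) • m)) with hw
  have hwS : ∀ m g, w m g ∈ S := fun m g => hS _ _ (hw0 _)
  have hwD : ∀ m g, D (w m g) = φ (MonoidAlgebra.of ℤ G g • m) := by
    intro m g
    rw [hw]
    beta_reduce
    rw [hD, hw0', ← hφ, smul_smul, ← map_mul, ← hhg]
  have hwr : ∀ m h g, w m (j h * g) = r h (w m g) := by
    intro m h g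
    rw [hw]
    beta_reduce
    rw [hrj, hhj, map_mul]
    rfl
  obtain ⟨s, hs⟩ := Module.Projective.out (R := ZG G) (P := M)
  have k1 : D.comp (PLift_map w) =
      φ.comp (Finsupp.linearCombination (ZG G) (id : M → M)).toAddMonoidHom := by
    apply PLift_ext
    intro m a n
    rw [AddMonoidHom.comp_apply, PLift_single, map_zsmul, hwD, AddMonoidHom.comp_apply,
      LinearMap.toAddMonoidHom_coe, Finsupp.linearCombination_single, id_eq, PLift_sg, map_zsmul]
  have k2 : ∀ h : H, (PLift_map w).comp
      (DistribSMul.toAddMonoidHom (M →₀ ZG G) (MonoidAlgebra.of ℤ G (j h))) =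
        AddMonoidHom.comp (r h : W →+ W) (PLift_map w) := by
    intro h
    apply PLift_ext
    intro m a n
    have e1 : (AddMonoidHom.comp (r h : W →+ W) (PLift_map w))
        (Finsupp.single m (MonoidAlgebra.single a n)) = r h (n • w m a) := by
      rw [AddMonoidHom.comp_apply, PLift_single]
      rfl
    rw [e1, AddMonoidHom.comp_apply, DistribSMul.toAddMonoidHom_apply, PLift_sm, PLift_single, hwr]
    exact (map_zsmul (r h : W →+ W) n (w m a)).symm
  refine ⟨(PLift_map w).comp s.toAddMonoidHom, fun x => PLift_mem w S hwS _, ?_, ?_⟩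
  · intro x
    have h1 := DFunLike.congr_fun k1 (s x)
    rw [AddMonoidHom.comp_apply, AddMonoidHom.comp_apply, LinearMap.toAddMonoidHom_coe, hs x] at h1
    exact h1
  · intro h x
    have h1 := DFunLike.congr_fun (k2 h) (s x)
    rw [AddMonoidHom.comp_apply, DistribSMul.toAddMonoidHom_apply, ← map_smul] at h1
    exact h1

end HPx
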