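import Pool.Agent.Lib.MP_181146_gt.HP.SpecR
import Pool.Agent.Lib.MP_181146_gt.HE.SpecS
import Pool.Agent.Lib.MP_181146_gt.HS.SlimT
import Pool.Agent.Lib.MP_181146_gt.HS.Spec

/-!
# Project HP, module `PStop`: the theorem for the unobstructed case
-/

set_option autoImplicit false

namespace HPx

open HEp

/-- **PStop.** -/
theorem sPStop (hCore : S_Core) (hLfE : S_LfE) (hLpc : HEp.S_Lpc) (hDCo : HEp.S_DCo)
    (hPNx : HEp.S_PNx) (hEZex : HEp.S_EZex) (hTN : HSp.S_TN) : S_PStop := by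
  intro X E _ _ _ _ _ p hp e μ hμ hfin C K hC heq j hE s z hz hind hs
  have hlpc : LocallyPathConnectedSpace E := hLpc X E p hp
  obtain ⟨v, m, A, B, hA0, hA1, hB0, hB1, hAB, hm⟩ := hLfE X E p hp e μ hμ
  have hN : HSp.PropN (HSp.Deck p) := hTN X E p hp e μ hμ
  have hcomm := hDCo E (HSp.Deck p) hN
  have hPN := hPNx E (HSp.Deck p) hN C.cx (C.cx_equiv heq)
  obtain ⟨f, g, s', t', ha, fγ, gγ, sγ, tγ, hf, hg, ⟨hs0, hs1⟩, ⟨ht0, ht1⟩⟩ := heq
  obtain ⟨e', he⟩ := hEZex
  let cg : CommGroup (HSp.Deck p) :=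
    { (inferInstance : Group (HSp.Deck p)) with mul_comm := hcomm }
  have hA : ContinuousMap.Homotopic (ContinuousMap.id E)
      (m.comp (ContinuousMap.prodMk (ContinuousMap.id E) (ContinuousMap.const E v))) :=
    ⟨{ toContinuousMap := A
       map_zero_left := fun x => hA0 x
       map_one_left := fun x => hA1 x }⟩
  have hfi : ∀ i, Module.Finite (ZG (HSp.Deck p)) (C.X i) := fun i => (hC i).1
  have hpr : ∀ i, Module.Projective (ZG (HSp.Deck p)) (C.X i) := fun i => (hC i).2.1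
  refine hCore e' he (HSp.Deck p) E (fun g => (g.1 : C(E, E))) rfl (fun a b => rfl) v m hA B hB0 hB1
    (fun g s x => (hAB g s x).2) (fun g x y => (hm g x y).1) (fun g x y => (hm g x y).2) C.X C.dL
    C.d_d K (fun i hi => (hC i).2.2 hi) (fun i => AddMonoidHom.mk' (f i) (ha i).1)
    (fun i => AddMonoidHom.mk' (g i) (ha i).2.1) (fun i => AddMonoidHom.mk' (s' i) (ha i).2.2.1)
    (fun i => AddMonoidHom.mk' (t' i) (ha i).2.2.2) ?_ ?_ ?_ ?_ ?_ ?_ ?_ ?_ ?_ ?_ ?_ (4 * j + 2) ?_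
    hE s z hz hind hs
  · exact fun i x => (hf i x).symm
  · exact fun i x => (hg i x).symm
  · exact fun x => (hs0 x).symm
  · exact fun i x => (hs1 i x).symm
  · exact fun x => (ht0 x).symm
  · exact fun i x => (ht1 i x).symm
  · exact fun γ i x => fγ i γ x
  · exact fun γ i x => gγ i γ x
  · exact fun γ i x => sγ i γ x
  · exact fun γ i x => tγ i γ x
  · intro γ
    obtain ⟨h, h0, h1⟩ := hPN γ
    refine ⟨h, ?_, ?_⟩
    · intro x
      exact (LinearMap.congr_fun (C.cx_d 0) (h 0 x)).symm.trans (h0 x)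
    · intro i x
      refine Eq.trans ?_ (h1 i x)
      exact congrArg₂ (fun (a : C.X (i + 1)) (b : C.X i) =>
          (a + (show C.X (i + 1) from h i b) : C.X (i + 1)))
        (LinearMap.congr_fun (C.cx_d (i + 1)) (h (i + 1) x)).symm
        (LinearMap.congr_fun (C.cx_d i) x).symm
  · omega

end HPx
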