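import Pool.Agent.Lib.MP_181146_gt.HP.SpecQ

/-!
# Project HP: the power map on `X` (helper27)
-/

set_option autoImplicit false

namespace HPx

open scoped TensorProduct
open HEp

theorem sPhP (hPhi : S_Phi) (hPrm : S_Prm) : S_PhP := by
  intro e he G _ X E _ _ act hact1 hact Λ v m hA hB hm1 hm2 n hE g hg
  obtain ⟨φ, h1, h2, h3, h4, h5⟩ := hPhi e he G E act hact1 hact v m hA hB hm1 hm2
    (orderOf g - 1) (by omega)
  refine ⟨fun i => (Λ.f' i).comp (φ.toAddMonoidHom.comp (Λ.f i)), ?_, ?_, ?_, ?_⟩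
  · intro i x
    change Λ.f' i (φ (Λ.f i (MonoidAlgebra.of ℤ G g • x))) =
      MonoidAlgebra.of ℤ G g⁻¹ • Λ.f' i (φ (Λ.f i x))
    have hgr : g ^ (orderOf g - 1) = g⁻¹ := by
      rw [eq_inv_iff_mul_eq_one, ← pow_succ, Nat.sub_add_cancel (by omega), pow_orderOf_eq_one]
    rw [Λ.fg, h4, hgr, Λ.f'g]
  · intro i x
    change Λ.f' i (φ (Λ.f i (X.d i x))) = X.d i (Λ.f' (i + 1) (φ (Λ.f (i + 1) x)))
    rw [Λ.fd, h1, Λ.f'd]
  · intro x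
    change X.ε (Λ.f' 0 (φ (Λ.f 0 x))) = X.ε x
    rw [Λ.f'ε, h3, Λ.fε]
  · intro y hy
    have hbc : bd ℤ (Sing E) (Λ.f (n + 1) y) = 0 := by
      rw [← Λ.fd, hy, map_zero]
    obtain ⟨w, hw⟩ := hPrm ℤ (Sing E) (vtx v) (n + 1) (Nat.succ_pos n) hE.1 hE.2
      (Λ.f (n + 1) y) (Λ.f_gr (n + 1) y) hbc
    obtain ⟨y', hy'⟩ := h5 (Λ.f (n + 1) y) hbc ⟨w, hw⟩
    have hs := Λ.hs n y
    rw [hy, map_zero, add_zero] at hs
    have h6 : Λ.f' (n + 1) (φ (Λ.f (n + 1) y)) -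
        ((orderOf g - 1 : ℕ) : ℤ) • Λ.f' (n + 1) (Λ.f (n + 1) y) =
        X.d (n + 1) (Λ.f' (n + 1 + 1) y') := by
      rw [← Λ.f'd, ← hy', map_sub, map_zsmul]
    have hr : ((orderOf g : ℤ) - 1) = ((orderOf g - 1 : ℕ) : ℤ) := by
      rw [Nat.cast_sub (by omega), Nat.cast_one]
    refine ⟨Λ.f' (n + 1 + 1) y' + ((orderOf g - 1 : ℕ) : ℤ) • Λ.h (n + 1) y, ?_⟩
    change Λ.f' (n + 1) (φ (Λ.f (n + 1) y)) - ((orderOf g : ℤ) - 1) • y = _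
    rw [hr, map_add, map_zsmul, ← h6, ← hs, smul_sub]
    abel

end HPx
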