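import Pool.Agent.Lib.MP_181146_gt.HP.SpecP

/-!
# Project HP: the polynomials `p` and `q`
-/

set_option autoImplicit false

namespace HPx

open HEp Polynomial

private theorem Pol_aux (M : ℕ) : ∃ p r : ℤ[X], p = 1 + X * p ^ 2 + X ^ M * r := by
  induction M with
  | zero => exact ⟨0, -1, by ring⟩
  | succ M ih =>
    obtain ⟨p, r, h⟩ := ih
    have h1 : (1 + X * p ^ 2 : ℤ[X]) = p - X ^ M * r := by
      nth_rewrite 2 [h]
      ring
    refine ⟨1 + X * p ^ 2, r * (p + (1 + X * p ^ 2)), ?_⟩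
    have h2 : (1 + X * p ^ 2 : ℤ[X]) - (1 + X * (1 + X * p ^ 2) ^ 2) =
        X * ((p - (1 + X * p ^ 2)) * (p + (1 + X * p ^ 2))) := by ring
    have h3 : p - (1 + X * p ^ 2) = X ^ M * r := by
      rw [h1]
      ring
    rw [h3] at h2
    have h4 : (1 + X * p ^ 2 : ℤ[X]) = (1 + X * (1 + X * p ^ 2) ^ 2) +
        ((1 + X * p ^ 2) - (1 + X * (1 + X * p ^ 2) ^ 2)) := by ring
    rw [h2] at h4
    calc (1 + X * p ^ 2 : ℤ[X]) = (1 + X * (1 + X * p ^ 2) ^ 2) +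
        X * (X ^ M * r * (p + (1 + X * p ^ 2))) := h4
      _ = 1 + X * (1 + X * p ^ 2) ^ 2 + X ^ (M + 1) * (r * (p + (1 + X * p ^ 2))) := by
        rw [pow_succ]
        ring

/-- **Pol.** Polynomials `p`, `q` with `p = 1 + X p²` and `(1 - 2 X p) q = 1` modulo `X^M`. -/
theorem sPol : S_Pol := by
  intro M
  obtain ⟨p, r, h⟩ := Pol_aux M
  refine ⟨p, ∑ i ∈ Finset.range M, (2 * X * p) ^ i, r, -(2 * p) ^ M, h, ?_⟩
  rw [mul_neg_geom_sum]
  have h1 : (2 * X * p : ℤ[X]) ^ M = X ^ M * (2 * p) ^ M := by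
    rw [← mul_pow]
    congr 1
    ring
  rw [h1]
  ring

end HPx
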