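import Pool.Agent.Lib.MP_181146_gt.HP.SpecQ
import Pool.Agent.Lib.MP_181146_gt.HE.SpecS

/-!
# Project HP: the product step (`S_Prd`)
-/

set_option autoImplicit false

namespace HPx

open scoped TensorProduct
open HEp

private lemma Prd_cmap {K L : SS} (f g : SSHom K L)
    (h : ∀ (n : ℕ) (x : K.K n), f.f x = g.f x) (z : Ch ℤ K) : cmap ℤ f z = cmap ℤ g z := by
  have h2 : cmap ℤ f = cmap ℤ g := ch_ext fun n x => by rw [cmap_sx, cmap_sx, h]
  rw [h2]

private lemma Prd_mu (hNabN : HEp.S_NabN) (e : ∀ p q : ℕ, Ch ℤ ((De p).prod (De q)))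
    {G : Type} [CommGroup G] {E : Type} [TopologicalSpace E] (act : G → C(E, E))
    (hact : ∀ a b, act (a * b) = (act a).comp (act b)) (m : C(E × E, E))
    (hm1 : ∀ (g : G) (x y : E), m (act g x, y) = act g (m (x, y)))
    (hm2 : ∀ (g : G) (x y : E), m (x, act g y) = act g (m (x, y))) (a c : G)
    (z : Ch ℤ (Sing E) ⊗[ℤ] Ch ℤ (Sing E)) :
    mu ℤ e (SingMul m) (TensorProduct.map (cmap ℤ (SingMap (act a)))
      (cmap ℤ (SingMap (act c))) z) =
      cmap ℤ (SingMap (act (a * c))) (mu ℤ e (SingMul m) z) := by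
  rw [mu, LinearMap.comp_apply, LinearMap.comp_apply, hNabN, ← cmap_comp, ← cmap_comp]
  refine Prd_cmap _ _ (fun n (x : C(Pool.Agent.Lib.SingHom.Sx n, E) ×
    C(Pool.Agent.Lib.SingHom.Sx n, E)) => ?_) _
  refine ContinuousMap.ext fun t => ?_
  change m (act a (x.1 t), act c (x.2 t)) = act (a * c) (m (x.1 t, x.2 t))
  rw [hm1, hm2, hact]
  rfl

private lemma Prd_bd (hNabD : HEp.S_NabD) (e : ∀ p q : ℕ, Ch ℤ ((De p).prod (De q)))
    (he : EZ e) {E : Type} [TopologicalSpace E] (m : C(E × E, E))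
    (z : Ch ℤ (Sing E) ⊗[ℤ] Ch ℤ (Sing E)) :
    mu ℤ e (SingMul m) (((cz (Sing E)).tens (cz (Sing E))).d z) =
      bd ℤ (Sing E) (mu ℤ e (SingMul m) z) := by
  rw [mu, LinearMap.comp_apply, LinearMap.comp_apply]
  refine (congrArg (cmap ℤ (SingMul m)) (hNabD e he ℤ (Sing E) (Sing E) z)).trans ?_
  exact cmap_bd ℤ _ _

private lemma Prd_p1 {K : SS} (φ ψ : SSHom K K) (z : Ch ℤ K ⊗[ℤ] Ch ℤ K) :
    p1 (TensorProduct.map (cmap ℤ φ) (cmap ℤ ψ) z) = cmap ℤ φ (p1 z) := by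
  induction z using TensorProduct.induction_on with
  | zero => simp only [p1, map_zero]
  | add x y hx hy =>
    rw [p1] at hx hy ⊢
    rw [map_add, map_add, map_add, hx, hy, p1, p1, p1, map_add, map_add, map_add]
  | tmul a b =>
    rw [p1, p1, TensorProduct.map_tmul, TensorProduct.map_tmul, TensorProduct.map_tmul,
      TensorProduct.rid_tmul, TensorProduct.rid_tmul, aug_cmap, map_smul]
    rfl

private lemma Prd_p2 {K : SS} (φ ψ : SSHom K K) (z : Ch ℤ K ⊗[ℤ] Ch ℤ K) :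
    p2 (TensorProduct.map (cmap ℤ φ) (cmap ℤ ψ) z) = cmap ℤ ψ (p2 z) := by
  induction z using TensorProduct.induction_on with
  | zero => simp only [p2, map_zero]
  | add x y hx hy =>
    rw [p2] at hx hy ⊢
    rw [map_add, map_add, map_add, hx, hy, p2, p2, p2, map_add, map_add, map_add]
  | tmul a b =>
    rw [p2, p2, TensorProduct.map_tmul, TensorProduct.map_tmul, TensorProduct.map_tmul,
      TensorProduct.lid_tmul, TensorProduct.lid_tmul, aug_cmap, map_smul]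
    rfl

private lemma Prd_p1_add {K : SS} (z w : Ch ℤ K ⊗[ℤ] Ch ℤ K) : p1 (z + w) = p1 z + p1 w := by
  rw [p1, p1, p1, map_add, map_add]

private lemma Prd_p2_add {K : SS} (z w : Ch ℤ K ⊗[ℤ] Ch ℤ K) : p2 (z + w) = p2 z + p2 w := by
  rw [p2, p2, p2, map_add, map_add]

theorem sPrd (hHmQ : S_HmQ) (hJex : S_Jex) (hZet : S_Zet) (hNabD : HEp.S_NabD)
    (hNabG : HEp.S_NabG) (hNabN : HEp.S_NabN) (hNabU : HEp.S_NabU) : S_Prd := by
  intro e he G _ X hN E _ act hact1 hact Λ v m hA hB hm1 hm2 q hX hE u hu A C hAC h1 h2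
  obtain ⟨xA, -, hxA, hxAu⟩ := h1
  obtain ⟨xC, -, hxC, hxCu⟩ := h2
  obtain ⟨J, hJ1, hJ2, hJ3, hJ4⟩ := hJex G X E act hact1 hact (vtx v) (q + 1) q.succ_pos hE A C hAC
  let κ : ∀ i, X.P i →+ X.P i := fun i =>
    (Λ.f' i).comp ((mu ℤ e (SingMul m)).toAddMonoidHom.comp (J i))
  have hκ : ∀ i x, κ i x = Λ.f' i (mu ℤ e (SingMul m) (J i x)) := fun i x => rfl
  let j : (A × C) →* G := MonoidHom.coprod A.subtype C.subtype
  have hj0 : ∀ p : A × C, j p = (p.1 : G) * (p.2 : G) := fun p => rfl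
  have hj : Function.Injective j := by
    rw [injective_iff_map_eq_one]
    rintro ⟨a, c⟩ h
    have h3 : (a : G) * (c : G) = 1 := h
    have h4 : (a : G) = (c : G)⁻¹ := eq_inv_of_mul_eq_one_left h3
    have h5 : (a : G) ∈ A ⊓ C := ⟨a.2, h4 ▸ C.inv_mem c.2⟩
    rw [hAC, Subgroup.mem_bot] at h5
    have h6 : (c : G) = 1 := by rwa [h5, one_mul] at h3
    exact Prod.ext (Subtype.ext h5) (Subtype.ext h6)
  have hκg : ∀ i, i ≤ q + 1 → ∀ (h : A × C) x, κ i (MonoidAlgebra.of ℤ G (j h) • x) =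
      MonoidAlgebra.of ℤ G (j h) • κ i x := by
    intro i hi h x
    rw [hκ, hκ, hj0, hJ4 i hi h.1 h.1.2 h.2 h.2.2, Prd_mu hNabN e act hact m hm1 hm2, Λ.f'g]
  obtain ⟨h, hh, hd⟩ := hHmQ G X q hX (A × C) j hj κ hκg
    (fun i hi x => by
      rw [hκ, hκ, ← Λ.f'd, ← Prd_bd hNabD e he, hJ3 i (by omega)])
    (fun x => by
      rw [hκ, Λ.f'ε, mu, LinearMap.comp_apply, aug_cmap, (hNabU e he ℤ _ _).2.2, hJ2])
  -- the value on cycles
  have hcyc : ∀ y : X.P (q + 1), X.d q y = 0 →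
      xA (Λ.f' (q + 1) (p1 (J (q + 1) y))) + xC (Λ.f' (q + 1) (p2 (J (q + 1) y))) =
        u (κ (q + 1) y) := by
    intro y hy
    rw [hκ]
    exact (hZet e he G X E act Λ v m hA hB q hE u xA xC hu hxAu hxCu (J (q + 1) y)
      (hJ1 _ le_rfl y) (by rw [hJ3 q q.lt_succ_self, hy, map_zero])).symm
  let x : X.P (q + 1) →+ ℤ := AddMonoidHom.mk'
    (fun y => xA (Λ.f' (q + 1) (p1 (J (q + 1) y))) + xC (Λ.f' (q + 1) (p2 (J (q + 1) y))) -
      u (κ (q + 1) y - y - h (X.d q y)))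
    (fun a b => by
      simp only [map_add, map_sub, Prd_p1_add, Prd_p2_add]
      ring)
  have hx : ∀ y, x y = xA (Λ.f' (q + 1) (p1 (J (q + 1) y))) +
      xC (Λ.f' (q + 1) (p2 (J (q + 1) y))) - u (κ (q + 1) y - y - h (X.d q y)) := fun y => rfl
  have hxu : ∀ y, X.d q y = 0 → x y = u y := by
    intro y hy
    rw [hx, hcyc y hy, hy, map_zero, sub_zero, map_sub]
    ring
  have hug : ∀ (g : G) (y : X.P (q + 1)), X.d q y = 0 → u (MonoidAlgebra.of ℤ G g • y) = u y := by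
    intro g y hy
    obtain ⟨k, -, hk⟩ := hN g
    have h3 := hk q y
    rw [hy, map_zero, add_zero] at h3
    have h4 := congrArg u h3
    rw [hu, map_sub] at h4
    linarith
  refine ⟨x, fun y => ?_, ?_, fun y hy => hxu y hy⟩
  · rw [hxu _ (X.dd q y), hu]
  · intro g hg y
    obtain ⟨a, ha, c, hc, rfl⟩ := Subgroup.mem_sup.1 hg
    have hjg : a * c = j (⟨a, ha⟩, ⟨c, hc⟩) := rfl
    have hcy : κ (q + 1) (MonoidAlgebra.of ℤ G (a * c) • y) - MonoidAlgebra.of ℤ G (a * c) • y -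
        h (X.d q (MonoidAlgebra.of ℤ G (a * c) • y)) =
        MonoidAlgebra.of ℤ G (a * c) • (κ (q + 1) y - y - h (X.d q y)) := by
      rw [(X.d q).map_smul, hjg, hκg _ le_rfl, hh, smul_sub, smul_sub]
    rw [hx, hx, hcy, hug _ _ (hd y), hJ4 _ le_rfl a ha c hc, Prd_p1, Prd_p2, Λ.f'g, Λ.f'g,
      hxA a ha, hxC c hc]

end HPx
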