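import Pool.Agent.Lib.MP_181146_gt.HP.SpecP
import Pool.Agent.Lib.MP_181146_gt.HE.SpecS

/-!
# Project HP: cycles of the lowest degree are primitive
-/

set_option autoImplicit false

namespace HPx

open scoped TensorProduct
open HEp

/-- **Prm.** The coproduct of a cycle `c` of degree `n` is a cycle of degree `n` of the tensor square;
apply TG and the counit relations. -/
theorem sPrm (hTG : S_TG) (hDlG : HEp.S_DlG) (hDlC : HEp.S_DlC) : S_Prm := by
  intro k _ K v n hn h0 hi c hc hbc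
  obtain ⟨hcm, hgr, -, -⟩ := hDlG k K
  obtain ⟨-, -, h3⟩ := hTG k K v n hn h0 hi
  have hz : ((chDG k K).tens (chDG k K)).d (dl k K c) = 0 := by
    have h : dl k K (bd k K c) = ((chDG k K).tens (chDG k K)).d (dl k K c) := hcm.d c
    rw [← h, hbc, map_zero]
  obtain ⟨w, -, hw⟩ := h3 (dl k K c) (hgr n c hc) hz
  obtain ⟨hl, hr⟩ := hDlC k K c
  refine ⟨w, ?_⟩
  rw [hl, hr] at hw
  rw [add_comm (c ⊗ₜ[k] sx k v)]
  exact hw

end HPx
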