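import Pool.Agent.Lib.MP_181146_gt.HP.SpecP

set_option autoImplicit false

/-!
# Project HP: graded normalization of a Clifford pair
-/

namespace HPx

open HEp Polynomial

/-- The homogeneous elements of degree `m`. -/
private def Red_sg (hGdM : S_GdM) {R : Type} [Ring R] {N : ℕ} (g : Gd R N) (m : ℤ) :
    AddSubgroup R where
  carrier := {u | g.Hm m u}
  zero_mem' := (hGdM R N g).2.1 m
  add_mem' h h' := (hGdM R N g).2.2.1 m _ _ h h'
  neg_mem' h := (hGdM R N g).2.2.2.1 m _ h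

/-- Polynomials in a homogeneous element of degree `0`. -/
private theorem Red_pol (hGdM : S_GdM) {R : Type} [Ring R] {N : ℕ} (g : Gd R N) (t : R)
    (ht : g.Hm 0 t) (p : ℤ[X]) : g.Hm 0 (aeval t p) := by
  have hpow : ∀ n : ℕ, g.Hm 0 (t ^ n) := by
    intro n
    induction n with
    | zero => rw [pow_zero]; exact (hGdM R N g).1
    | succ n ih =>
      rw [pow_succ']
      have := (hGdM R N g).2.2.2.2 0 0 _ _ ih ht
      rwa [add_zero] at this
  induction p using Polynomial.induction_on' with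
  | add p q hp hq =>
    rw [map_add]
    exact (hGdM R N g).2.2.1 0 _ _ hp hq
  | monomial n a =>
    rw [aeval_monomial, algebraMap_int_eq, eq_intCast, ← zsmul_eq_mul]
    exact zsmul_mem (S := AddSubgroup R) (K := Red_sg hGdM g 0) (hpow n) a

theorem sRed (hGdM : S_GdM) (hGdO : S_GdO) (hGdN : S_GdN) (hGdP : S_GdP) (hPol : S_Pol)
    (hOmg : S_Omg) : S_Red := by
  intro R _ N g n hn hn1 d a b k hdd hd ha hb had hbd hab
  obtain ⟨h1, h0, hadd, hneg, hmul⟩ := hGdM R N g
  obtain ⟨hoo, hpar⟩ := hGdO R N g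
  have hnZ : Odd (n : ℤ) := by exact_mod_cast hn
  have od : g.od * d = d * (1 - g.od) := (hpar (-1) d hd).2 (by decide)
  have oa : g.od * a = a * (1 - g.od) := (hpar n a ha).2 hnZ
  have ob : g.od * b = b * (1 - g.od) := (hpar (-n) b hb).2 hnZ.neg
  set sg : R := 1 - 2 * g.od with hsg
  have hss : sg * sg = 1 := by
    have e : sg * sg = 1 - 4 * g.od + 4 * (g.od * g.od) := by rw [hsg]; noncomm_ring
    rw [e, hoo]
    noncomm_ring
  have anti : ∀ x : R, g.od * x = x * (1 - g.od) → sg * x = -(x * sg) := by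
    intro x hx
    have e : sg * x = x - 2 * (g.od * x) := by rw [hsg]; noncomm_ring
    rw [e, hx, hsg]
    noncomm_ring
  have hbb : g.Hm (-n + -n) (b * b) := hmul _ _ _ _ hb hb
  have haa : g.Hm (n + n) (a * a) := hmul _ _ _ _ ha ha
  have hM : (b * b) ^ N = 0 := hGdN R N g _ _ (by omega) hbb
  obtain ⟨p, q, r, r', hp, hq⟩ := hPol N
  set t : R := a * a * (b * b) with ht
  have htd : g.Hm 0 t := by
    have := hmul _ _ _ _ hbb haa
    rwa [show (-(n : ℤ) + -n + (n + n)) = 0 by ring] at this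
  obtain ⟨c1, c2, ⟨k', c3⟩, ⟨l', c4⟩⟩ := hOmg R d sg a b k t hdd hss (anti d od) had hbd (anti a oa)
    (anti b ob) hab N hM p q r r' hp hq ht
  set a' : R := a * aeval t q with ha'
  set b' : R := b - aeval t p * (b * b) * a with hb'
  have da' : g.Hm n a' := by
    have := hmul _ _ _ _ (Red_pol hGdM g t htd q) ha
    rwa [zero_add] at this
  have db' : g.Hm (-n) b' := by
    have e1 := hmul _ _ _ _ ha (hmul _ _ _ _ hbb (Red_pol hGdM g t htd p))
    rw [show ((n : ℤ) + (-n + -n + 0)) = -n by ring] at e1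
    have e2 := hadd _ _ _ hb (hneg _ _ e1)
    rwa [← sub_eq_add_neg] at e2
  have dk : g.Hm 0 (a' * b' + b' * a' + -1) := by
    have e1 := hmul _ _ _ _ db' da'
    have e2 := hmul _ _ _ _ da' db'
    rw [show (-(n : ℤ) + n) = 0 by ring] at e1
    rw [show ((n : ℤ) + -n) = 0 by ring] at e2
    exact hadd _ _ _ (hadd _ _ _ e1 e2) (hneg _ _ h1)
  have dl : g.Hm (-n + -n) (b' * b') := hmul _ _ _ _ db' db'
  obtain ⟨k'', hk1, hk2⟩ := hGdP R N g 0 _ d k' 1 dk hd (by
    rw [c3, one_smul]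
    abel)
  obtain ⟨l'', hl1, hl2⟩ := hGdP R N g (-n + -n) _ d l' 1 dl hd (by
    rw [c4, one_smul])
  refine ⟨a', b', k'', l'', da', db', ?_, ?_, c1, c2, ?_, ?_⟩
  · rwa [zero_add] at hk1
  · rwa [show (-(n : ℤ) + -n + 1) = 1 - 2 * n by ring] at hl1
  · rw [one_smul] at hk2
    rw [← hk2]
    abel
  · rw [one_smul] at hl2
    exact hl2

end HPx
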