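import Pool.Agent.Lib.MP_181146_gt.HP.SpecP

/-!
# Project HP, module `Rho`: a partial contraction of the chains
-/

set_option autoImplicit false

namespace HPx

open HEp

section

variable {k : Type} [CommRing k] {K : SS}

private lemma gr_ind {M : Type} [AddCommGroup M] [Module k M] {f : Ch k K →ₗ[k] M}
    {S : Submodule k M} {m : ℕ} (h : ∀ σ : K.K m, f (sx k σ) ∈ S) {x : Ch k K}
    (hx : x ∈ gr k K m) : f x ∈ S := by
  have hle : gr k K m ≤ S.comap f := by
    rw [gr, Finsupp.supported_eq_span_single, Submodule.span_le]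
    rintro _ ⟨⟨m', σ⟩, hσ, rfl⟩
    have hσ' : m' = m := hσ
    subst hσ'
    exact h σ
  exact hle hx

private lemma gr_eq {M : Type} [AddCommGroup M] [Module k M] {f g : Ch k K →ₗ[k] M} {m : ℕ}
    (h : ∀ σ : K.K m, f (sx k σ) = g (sx k σ)) {x : Ch k K} (hx : x ∈ gr k K m) :
    f x = g x := by
  have := gr_ind (f := f - g) (S := ⊥) (m := m) (fun σ => by
    rw [LinearMap.sub_apply, h σ, sub_self]
    exact Submodule.zero_mem _) hx
  rw [LinearMap.sub_apply, Submodule.mem_bot] at this
  exact sub_eq_zero.1 this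

private lemma bd_gr {m : ℕ} {x : Ch k K} (hx : x ∈ gr k K (m + 1)) : bd k K x ∈ gr k K m := by
  refine gr_ind (fun σ => ?_) hx
  rw [bd_sx]
  exact Submodule.sum_mem _ fun i _ => Submodule.smul_mem _ _ (sx_mem_gr k _)

private lemma bd_gr0 {x : Ch k K} (hx : x ∈ gr k K 0) : bd k K x = 0 :=
  gr_eq (g := 0) (fun σ => bd_sx_zero k σ) hx

/-- the map given by `Y` on the simplices of dimension `m` -/
private noncomputable def dt (m : ℕ) (Y : K.K m → Ch k K) : Ch k K →ₗ[k] Ch k K :=
  Finsupp.linearCombination k (fun x : (Σ n, K.K n) => if h : x.1 = m then Y (h ▸ x.2) else 0)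

private lemma dt_eq {m : ℕ} (Y : K.K m → Ch k K) (σ : K.K m) : dt m Y (sx k σ) = Y σ := by
  rw [dt, sx, Finsupp.linearCombination_single, one_smul]
  exact dif_pos rfl

private lemma dt_ne {m i : ℕ} (h : i ≠ m) (Y : K.K m → Ch k K) (σ : K.K i) :
    dt m Y (sx k σ) = 0 := by
  rw [dt, sx, Finsupp.linearCombination_single, one_smul]
  exact dif_neg h

private lemma dt_gr_ne {m i : ℕ} (h : i ≠ m) (Y : K.K m → Ch k K) {x : Ch k K}
    (hx : x ∈ gr k K i) : dt m Y x = 0 :=
  gr_eq (g := 0) (fun σ => dt_ne h Y σ) hx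

private lemma dt_gr {m : ℕ} (Y : K.K m → Ch k K) (hY : ∀ σ, Y σ ∈ gr k K (m + 1)) {i : ℕ}
    {x : Ch k K} (hx : x ∈ gr k K i) : dt m Y x ∈ gr k K (i + 1) := by
  by_cases h : i = m
  · subst h
    exact gr_ind (fun σ => by rw [dt_eq]; exact hY σ) hx
  · rw [dt_gr_ne h Y hx]
    exact Submodule.zero_mem _

/-- the projection onto dimension `m` -/
private noncomputable def pj (m : ℕ) : Ch k K →ₗ[k] Ch k K := dt m (fun σ => sx k σ)

private lemma pj_gr {m : ℕ} {x : Ch k K} (hx : x ∈ gr k K m) : pj m x = x :=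
  gr_eq (g := LinearMap.id) (fun σ => dt_eq _ σ) hx

private lemma pj_mem (m : ℕ) (x : Ch k K) : pj m x ∈ gr k K m := by
  have h : ∀ (n : ℕ) (σ : K.K n), pj m (sx k σ) ∈ gr k K m := by
    intro n σ
    by_cases hn : n = m
    · subst hn
      rw [pj, dt_eq]
      exact sx_mem_gr k σ
    · rw [pj, dt_ne hn]
      exact Submodule.zero_mem _
  induction x using Finsupp.induction_linear with
  | zero =>
    rw [map_zero]
    exact Submodule.zero_mem _
  | add x y hx hy =>
    rw [map_add]
    exact Submodule.add_mem _ hx hy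
  | single σ r =>
    obtain ⟨n, σ⟩ := σ
    have e : (Finsupp.single (⟨n, σ⟩ : Σ n, K.K n) r : Ch k K) = r • sx k σ :=
      (Finsupp.smul_single_one _ r).symm
    rw [e, map_smul]
    exact Submodule.smul_mem _ r (h n σ)

private lemma bd_pj (m : ℕ) (x : Ch k K) : bd k K (pj (m + 1) x) = pj m (bd k K x) := by
  have h : bd k K ∘ₗ pj (m + 1) = pj m ∘ₗ bd k K := ch_ext fun n σ => by
    rw [LinearMap.comp_apply, LinearMap.comp_apply]
    cases n with
    | zero => rw [pj, dt_ne (by omega), bd_sx_zero, map_zero, map_zero]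
    | succ n =>
      have hb : bd k K (sx k σ) ∈ gr k K n := bd_gr (sx_mem_gr k σ)
      by_cases hn : n = m
      · subst hn
        rw [pj, dt_eq, pj_gr hb]
      · rw [pj, dt_ne (by omega), map_zero, pj, dt_gr_ne hn _ hb]
  exact LinearMap.congr_fun h x

private lemma ex_bd {m : ℕ} {x y : Ch k K} (hx : x ∈ gr k K m) (h : x = bd k K y) :
    ∃ z ∈ gr k K (m + 1), bd k K z = x :=
  ⟨pj (m + 1) y, pj_mem _ _, by rw [bd_pj, ← h, pj_gr hx]⟩

end

/-- **Rho.** -/
theorem sRho : S_Rho := by
  intro k _ K v n hn h0 hi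
  have key : ∀ j, j < n → ∃ s : Ch k K →ₗ[k] Ch k K,
      (∀ i, ∀ x ∈ gr k K i, s x ∈ gr k K (i + 1)) ∧
      (∀ i, j + 1 ≤ i → ∀ x ∈ gr k K i, s x = 0) ∧
      (∀ x ∈ gr k K 0, bd k K (s x) = x - aug k K x • sx k v) ∧
      ∀ i, 0 < i → i < j + 1 → ∀ x ∈ gr k K i, bd k K (s x) + s (bd k K x) = x := by
    intro j
    induction j with
    | zero =>
      intro _
      have hy : ∀ σ : K.K 0, ∃ z ∈ gr k K 1, bd k K z = sx k σ - aug k K (sx k σ) • sx k v := by
        intro σ
        obtain ⟨y, hy⟩ := h0 (sx k σ) (sx_mem_gr k σ)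
        exact ex_bd (Submodule.sub_mem _ (sx_mem_gr k σ)
          (Submodule.smul_mem _ _ (sx_mem_gr k v))) hy
      choose Y hY hY' using hy
      refine ⟨dt 0 Y, fun i x hx => dt_gr Y hY hx, fun i h x hx => dt_gr_ne (by omega) Y hx,
        fun x hx => ?_, fun i h1 h2 => by omega⟩
      exact gr_eq (f := bd k K ∘ₗ dt 0 Y)
        (g := LinearMap.id - (LinearMap.toSpanSingleton k (Ch k K) (sx k v)) ∘ₗ aug k K)
        (fun σ => by
          rw [LinearMap.comp_apply, dt_eq, hY']
          rfl) hx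
    | succ j ih =>
      intro hj
      obtain ⟨s, s1, s2, s3, s4⟩ := ih (by omega)
      have hy : ∀ σ : K.K (j + 1), ∃ z ∈ gr k K (j + 1 + 1),
          bd k K z = sx k σ - s (bd k K (sx k σ)) := by
        intro σ
        have hb : bd k K (sx k σ) ∈ gr k K j := bd_gr (sx_mem_gr k σ)
        have hz : sx k σ - s (bd k K (sx k σ)) ∈ gr k K (j + 1) :=
          Submodule.sub_mem _ (sx_mem_gr k σ) (s1 _ _ hb)
        have hz0 : bd k K (sx k σ - s (bd k K (sx k σ))) = 0 := by
          rw [map_sub]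
          cases j with
          | zero => rw [s3 _ hb, aug_bd, zero_smul, sub_zero, sub_self]
          | succ j =>
            have := s4 (j + 1) (by omega) (by omega) _ hb
            rw [bd_bd, map_zero, add_zero] at this
            rw [this, sub_self]
        obtain ⟨y, hy⟩ := hi (j + 1) (by omega) hj _ hz hz0
        exact ex_bd hz hy
      choose Y hY hY' using hy
      refine ⟨s + dt (j + 1) Y, ?_, ?_, ?_, ?_⟩
      · intro i x hx
        exact Submodule.add_mem _ (s1 i x hx) (dt_gr Y hY hx)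
      · intro i hi x hx
        rw [LinearMap.add_apply, s2 i (by omega) x hx, dt_gr_ne (by omega) Y hx, add_zero]
      · intro x hx
        rw [LinearMap.add_apply, dt_gr_ne (by omega) Y hx, add_zero]
        exact s3 x hx
      · intro i i1 i2 x hx
        by_cases h : i = j + 1
        · subst h
          have hb := bd_gr hx
          rw [LinearMap.add_apply, LinearMap.add_apply, s2 (j + 1) le_rfl x hx,
            dt_gr_ne (by omega) Y hb, add_zero, zero_add]
          exact gr_eq (f := bd k K ∘ₗ dt (j + 1) Y + s ∘ₗ bd k K) (g := LinearMap.id)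
            (fun σ => by
              rw [LinearMap.add_apply, LinearMap.comp_apply, LinearMap.comp_apply, dt_eq, hY',
                sub_add_cancel]
              rfl) hx
        · obtain ⟨i', rfl⟩ : ∃ i', i = i' + 1 := ⟨i - 1, by omega⟩
          have hb := bd_gr hx
          rw [LinearMap.add_apply, LinearMap.add_apply, dt_gr_ne h Y hx,
            dt_gr_ne (by omega) Y hb, add_zero, add_zero]
          exact s4 _ i1 (by omega) x hx
  obtain ⟨s, s1, s2, s3, s4⟩ := key (n - 1) (by omega)
  rw [Nat.sub_add_cancel hn] at s2 s4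
  exact ⟨s, s1, s2, s3, s4⟩

end HPx
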