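import Pool.Agent.Lib.MP_181146_gt.HP.SpecP

/-!
# Project HP: normalization of a Clifford pair in a ring
-/

set_option autoImplicit false

namespace HPx

open HEp Polynomial

private lemma Rng_commute {R : Type} [Ring R] {t x : R} (h : Commute t x) (p : ℤ[X]) :
    Commute (aeval t p) x := by
  induction p using Polynomial.induction_on' with
  | add p q hp hq =>
    rw [map_add]
    exact hp.add_left hq
  | monomial n a =>
    rw [aeval_monomial]
    have h1 : Commute (algebraMap ℤ R a) x := Algebra.commutes a x
    exact h1.mul_left (h.pow_left n)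

theorem sRng : S_Rng := by
  intro R _ α β t M p q r r' hp hq h hβ ht
  have cAβ : Commute (α * α) β := by
    have h1 : (α * α) * β - β * (α * α) = α * (α * β + β * α) - (α * β + β * α) * α := by
      noncomm_ring
    rw [h, mul_one, one_mul, sub_self] at h1
    exact sub_eq_zero.1 h1
  have cBα : Commute (β * β) α := by
    have h1 : (β * β) * α - α * (β * β) = β * (α * β + β * α) - (α * β + β * α) * β := by
      noncomm_ring
    rw [h, mul_one, one_mul, sub_self] at h1
    exact sub_eq_zero.1 h1
  have cAα : Commute (α * α) α := (Commute.refl α).mul_left (Commute.refl α)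
  have cBβ : Commute (β * β) β := (Commute.refl β).mul_left (Commute.refl β)
  have cAB : Commute (α * α) (β * β) := cAβ.mul_right cAβ
  have ctα : Commute t α := by
    rw [ht]
    exact cAα.mul_left cBα
  have ctβ : Commute t β := by
    rw [ht]
    exact cAβ.mul_left cBβ
  have htM : t ^ M = 0 := by
    rw [ht, cAB.mul_pow, hβ, mul_zero]
  have hP : aeval t p = 1 + t * aeval t p ^ 2 := by
    have h1 := congrArg (aeval t) hp
    simpa only [map_add, map_mul, map_pow, map_one, aeval_X, htM, zero_mul, add_zero] using h1
  have hQ : (1 - 2 * t * aeval t p) * aeval t q = 1 := by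
    have h1 := congrArg (aeval t) hq
    simpa only [map_sub, map_add, map_mul, map_pow, map_one, aeval_X, htM, zero_mul, add_zero,
      map_ofNat] using h1
  have cPα : Commute (aeval t p) α := Rng_commute ctα p
  have cPβ : Commute (aeval t p) β := Rng_commute ctβ p
  have cQα : Commute (aeval t q) α := Rng_commute ctα q
  have cQβ : Commute (aeval t q) β := Rng_commute ctβ q
  have cPt : Commute (aeval t p) t := Rng_commute (Commute.refl t) p
  have cPQ : Commute (aeval t p) (aeval t q) := Rng_commute (Rng_commute (Commute.refl t) q).symm p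
  generalize hPe : aeval t p = P at *
  generalize hQe : aeval t q = Q at *
  have cSα : Commute (P * (β * β)) α := cPα.mul_left cBα
  have cSβ : Commute (P * (β * β)) β := cPβ.mul_left cBβ
  have cSQ : Commute (P * (β * β)) Q := cPQ.mul_left (cQβ.symm.mul_left cQβ.symm)
  have hSA : P * (β * β) * (α * α) = t * P := by
    rw [mul_assoc, ← cAB.eq, ← ht, cPt.eq]
  generalize hSe : P * (β * β) = S at *
  have hS1 : S = β * β + t * P * S := by
    have h1 : S = (1 + t * P ^ 2) * (β * β) := by
      rw [← hP, hSe]
    have h2 : (1 + t * P ^ 2) * (β * β) = β * β + t * P * (P * (β * β)) := by noncomm_ring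
    rw [h2, hSe] at h1
    exact h1
  constructor
  · have h1 : (β - S * α) * (β - S * α) =
        β * β - (β * S) * α - S * (α * β) + S * (α * S) * α := by noncomm_ring
    rw [h1, ← cSβ.eq, ← cSα.eq]
    have h2 : β * β - (S * β) * α - S * (α * β) + S * (S * α) * α =
        β * β - S * (α * β + β * α) + S * (S * (α * α)) := by noncomm_ring
    rw [h2, h, hSA, mul_one]
    have h3 : S * (t * P) = t * P * S := by
      rw [← hSA]
      exact ((Commute.refl S).mul_right (cSα.mul_right cSα)).eq
    rw [h3]
    nth_rewrite 1 [hS1]
    noncomm_ring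
  · have h1 : α * Q * (β - S * α) + (β - S * α) * (α * Q) =
        α * (Q * β) + β * α * Q - α * (Q * S) * α - S * (α * α) * Q := by noncomm_ring
    rw [h1, cQβ.eq, ← cSQ.eq, hSA]
    have h2 : α * (S * Q) * α = S * (α * α) * Q := by
      calc α * (S * Q) * α = (α * S) * (Q * α) := by noncomm_ring
        _ = (S * α) * (α * Q) := by rw [← cSα.eq, cQα.eq]
        _ = S * (α * α) * Q := by noncomm_ring
    rw [h2, hSA]
    have h3 : α * (β * Q) + β * α * Q - t * P * Q - t * P * Q =
        (α * β + β * α) * Q - 2 * t * P * Q := by noncomm_ring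
    rw [h3, h, ← sub_mul, hQ]

end HPx
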