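import Pool.Agent.Lib.MP_181146_gt.HP.SpecP

/-!
# Project HP: equivariant homotopy operator (module SHE)
-/

set_option autoImplicit false

namespace HPx

open HEp
open Pool.Agent.Lib

section

variable (k : Type) [CommRing k] {E E' : Type} [TopologicalSpace E] [TopologicalSpace E']

/-- The singular chains of dimension `n` in the total module. -/
private noncomputable def inc (n : ℕ) : SingHom.SC k E n →ₗ[k] Ch k (Sing E) :=
  Finsupp.lmapDomain k k (fun σ => (⟨n, σ⟩ : Σ n, (Sing E).K n))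

private theorem inc_single {n : ℕ} (σ : C(SingHom.Sx n, E)) :
    inc k n (Finsupp.single σ 1) = sx k (K := Sing E) (n := n) σ := by
  rw [inc, Finsupp.lmapDomain_apply, Finsupp.mapDomain_single]
  rfl

private theorem inc_mem (n : ℕ) (c : SingHom.SC k E n) : inc k n c ∈ gr k (Sing E) n := by
  induction c using Finsupp.induction_linear with
  | zero =>
    rw [map_zero]
    exact Submodule.zero_mem _
  | add x y hx hy =>
    rw [map_add]
    exact Submodule.add_mem _ hx hy
  | single σ r =>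
    have e : (Finsupp.single σ r : SingHom.SC k E n) = r • Finsupp.single σ 1 := by
      rw [Finsupp.smul_single, smul_eq_mul, mul_one]
    rw [e, map_smul, inc_single]
    exact Submodule.smul_mem _ _ (sx_mem_gr k _)

private theorem bd_inc (n : ℕ) (c : SingHom.SC k E (n + 1)) :
    bd k (Sing E) (inc k (n + 1) c) = inc k n (SingHom.sbd k n c) := by
  have h : bd k (Sing E) ∘ₗ inc k (n + 1) = inc k n ∘ₗ SingHom.sbd k n := by
    apply SingHom.slin_ext
    intro σ
    rw [LinearMap.comp_apply, LinearMap.comp_apply, inc_single, bd_sx, SingHom.sbd_single,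
      SingHom.sbdv, map_sum]
    refine Finset.sum_congr rfl fun i _ => ?_
    rw [map_smul, inc_single]
    rfl
  exact LinearMap.congr_fun h c

private theorem cmap_inc (g : C(E, E')) (n : ℕ) (c : SingHom.SC k E n) :
    cmap k (SingMap g) (inc k n c) = inc k n (SingHom.smp k g n c) := by
  have h : cmap k (SingMap g) ∘ₗ inc k n = inc k n ∘ₗ SingHom.smp k g n := by
    apply SingHom.slin_ext
    intro σ
    rw [LinearMap.comp_apply, LinearMap.comp_apply, inc_single, cmap_sx, SingHom.smp_single,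
      inc_single]
    rfl
  exact LinearMap.congr_fun h c

/-- The total prism operator for the homotopy `G`. -/
private noncomputable def prT (G : C(E × SingHom.Sx 1, E')) (w₀ w₁ : SingHom.Sx 1) :
    Ch k (Sing E) →ₗ[k] Ch k (Sing E') :=
  Finsupp.linearCombination k (fun x : Σ n, (Sing E).K n =>
    inc k (x.1 + 1) (SingHom.smp k G (x.1 + 1) (SingHom.PP k w₀ w₁ x.1 (Finsupp.single x.2 1))))

private theorem prT_sx (G : C(E × SingHom.Sx 1, E')) (w₀ w₁ : SingHom.Sx 1) {n : ℕ}
    (σ : C(SingHom.Sx n, E)) : prT k G w₀ w₁ (sx k (K := Sing E) (n := n) σ) =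
      inc k (n + 1) (SingHom.smp k G (n + 1) (SingHom.PP k w₀ w₁ n (Finsupp.single σ 1))) := by
  rw [prT, sx, Finsupp.linearCombination_single, one_smul]

private theorem prT_inc (G : C(E × SingHom.Sx 1, E')) (w₀ w₁ : SingHom.Sx 1) (n : ℕ)
    (c : SingHom.SC k E n) : prT k G w₀ w₁ (inc k n c) =
      inc k (n + 1) (SingHom.smp k G (n + 1) (SingHom.PP k w₀ w₁ n c)) := by
  have h : prT k G w₀ w₁ ∘ₗ inc k n =
      inc k (n + 1) ∘ₗ SingHom.smp k G (n + 1) ∘ₗ SingHom.PP k w₀ w₁ n := by
    apply SingHom.slin_ext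
    intro σ
    rw [LinearMap.comp_apply, inc_single, prT_sx]
    rfl
  exact LinearMap.congr_fun h c

private theorem prT_mem (G : C(E × SingHom.Sx 1, E')) (w₀ w₁ : SingHom.Sx 1) (i : ℕ)
    (c : Ch k (Sing E)) (hc : c ∈ gr k (Sing E) i) :
    prT k G w₀ w₁ c ∈ gr k (Sing E') (i + 1) := by
  rw [prT, Finsupp.linearCombination_apply, Finsupp.sum]
  refine Submodule.sum_mem _ fun x hx => Submodule.smul_mem _ _ ?_
  have h1 : x.1 = i := hc hx
  rw [← h1]
  exact inc_mem k _ _

/-- The map `(x, w) ↦ (α x, w)`. -/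
private def pd (α : C(E, E)) : C(E × SingHom.Sx 1, E × SingHom.Sx 1) :=
  ⟨fun p => (α p.1, p.2), by fun_prop⟩

private theorem push2_pd (α : C(E, E)) {n : ℕ} (σ : C(SingHom.Sx n, E)) (m : ℕ)
    (c : SingHom.Ch k (SingHom.Sx n × SingHom.Sx 1) m) :
    SingHom.push2 k (α.comp σ) m c = SingHom.smp k (pd α) m (SingHom.push2 k σ m c) := by
  have h : SingHom.push2 k (α.comp σ) m = SingHom.smp k (pd α) m ∘ₗ SingHom.push2 k σ m := by
    apply SingHom.lin_ext
    intro w
    rw [LinearMap.comp_apply, SingHom.push2_single, SingHom.push2_single, SingHom.smp_single]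
    rfl
  exact LinearMap.congr_fun h c

private theorem prT_nat (G : C(E × SingHom.Sx 1, E')) (w₀ w₁ : SingHom.Sx 1) (α : C(E, E))
    (α' : C(E', E')) (h : G.comp (pd α) = α'.comp G) (c : Ch k (Sing E)) :
    prT k G w₀ w₁ (cmap k (SingMap α) c) = cmap k (SingMap α') (prT k G w₀ w₁ c) := by
  have key : prT k G w₀ w₁ ∘ₗ cmap k (SingMap α) = cmap k (SingMap α') ∘ₗ prT k G w₀ w₁ := by
    refine ch_ext fun n σ => ?_
    rw [LinearMap.comp_apply, LinearMap.comp_apply, cmap_sx]
    have e1 : prT k G w₀ w₁ (sx k (K := Sing E) (n := n) ((SingMap α).f σ)) =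
        inc k (n + 1) (SingHom.smp k G (n + 1)
          (SingHom.PP k w₀ w₁ n (Finsupp.single (α.comp σ) 1))) := prT_sx k G w₀ w₁ (α.comp σ)
    have e2 : prT k G w₀ w₁ (sx k (K := Sing E) (n := n) σ) =
        inc k (n + 1) (SingHom.smp k G (n + 1)
          (SingHom.PP k w₀ w₁ n (Finsupp.single σ 1))) := prT_sx k G w₀ w₁ σ
    rw [e1, e2, cmap_inc, SingHom.PP_single, SingHom.PP_single, push2_pd, ← SingHom.smp_comp,
      ← SingHom.smp_comp, h]
  exact LinearMap.congr_fun key c

end

theorem sSHE : S_SHE := by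
  intro k _ E E' _ _ F f g hf hg
  obtain ⟨G, hG⟩ : ∃ G : C(E × SingHom.Sx 1, E'),
      G = ⟨fun p => F (stdSimplexHomeomorphUnitInterval p.2, p.1), by fun_prop⟩ := ⟨_, rfl⟩
  obtain ⟨w₀, hw₀⟩ : ∃ w₀ : SingHom.Sx 1, w₀ = stdSimplexHomeomorphUnitInterval.symm 0 :=
    ⟨_, rfl⟩
  obtain ⟨w₁, hw₁⟩ : ∃ w₁ : SingHom.Sx 1, w₁ = stdSimplexHomeomorphUnitInterval.symm 1 :=
    ⟨_, rfl⟩
  have e0 : G.comp (SingHom.at1 w₀) = f := by
    ext1 x
    rw [hG, hw₀]
    change F (stdSimplexHomeomorphUnitInterval (stdSimplexHomeomorphUnitInterval.symm 0), x) = f x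
    rw [Homeomorph.apply_symm_apply]
    exact hf x
  have e1 : G.comp (SingHom.at1 w₁) = g := by
    ext1 x
    rw [hG, hw₁]
    change F (stdSimplexHomeomorphUnitInterval (stdSimplexHomeomorphUnitInterval.symm 1), x) = g x
    rw [Homeomorph.apply_symm_apply]
    exact hg x
  refine ⟨prT k G w₀ w₁, fun x => ?_, fun i c hc => prT_mem k G w₀ w₁ i c hc,
    fun α α' h c => prT_nat k G w₀ w₁ α α' ?_ c⟩
  · have key : cmap k (SingMap g) - cmap k (SingMap f) =
        bd k (Sing E') ∘ₗ prT k G w₀ w₁ + prT k G w₀ w₁ ∘ₗ bd k (Sing E) := by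
      refine ch_ext fun n σ => ?_
      change cmap k (SingMap g) (sx k (K := Sing E) (n := n) σ) -
        cmap k (SingMap f) (sx k (K := Sing E) (n := n) σ) =
        bd k (Sing E') (prT k G w₀ w₁ (sx k (K := Sing E) (n := n) σ)) +
          prT k G w₀ w₁ (bd k (Sing E) (sx k (K := Sing E) (n := n) σ))
      cases n with
      | zero =>
        rw [bd_sx_zero, map_zero, add_zero]
        rw [← inc_single k (n := 0) σ, cmap_inc, cmap_inc, prT_inc, bd_inc, SingHom.sbd_smp,
          SingHom.sbd_PP_zero, map_sub, ← SingHom.smp_comp, ← SingHom.smp_comp, e0, e1, map_sub]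
      | succ n =>
        rw [← inc_single k (n := n + 1) σ, cmap_inc, cmap_inc, bd_inc, prT_inc, prT_inc, bd_inc,
          SingHom.sbd_smp, ← map_add, ← map_add, SingHom.sbd_PP, map_sub, ← SingHom.smp_comp,
          ← SingHom.smp_comp, e0, e1, map_sub]
    exact LinearMap.congr_fun key x
  · ext1 p
    rw [hG]
    exact h _ p.1

end HPx
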