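import Pool.Agent.Lib.MP_181146_gt.HP.SpecP

/-!
# Project HP: the involution exchanges the even and the odd part
-/

set_option autoImplicit false

namespace HPx

open HEp

section

variable {L : Type} [Ring L] {V : Type} [AddCommGroup V] [Module L V]

private def tr (F : Matrix (Fin 3) (Fin 3) (Module.End L V)) (x : V × V × V) : V × V × V :=
  (F 0 0 x.1 + F 0 1 x.2.1 + F 0 2 x.2.2, F 1 0 x.1 + F 1 1 x.2.1 + F 1 2 x.2.2,
    F 2 0 x.1 + F 2 1 x.2.1 + F 2 2 x.2.2)

private lemma tr_add (F : Matrix (Fin 3) (Fin 3) (Module.End L V)) (x y : V × V × V) :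
    tr F (x + y) = tr F x + tr F y := by
  simp only [tr, Prod.fst_add, Prod.snd_add, map_add, Prod.mk_add_mk, Prod.mk.injEq]
  refine ⟨?_, ?_, ?_⟩ <;> abel

private lemma tr_smul (F : Matrix (Fin 3) (Fin 3) (Module.End L V)) (c : L) (x : V × V × V) :
    tr F (c • x) = c • tr F x := by
  simp only [tr, Prod.smul_fst, Prod.smul_snd, map_smul, Prod.smul_mk, smul_add]

private lemma tr_tr (F : Matrix (Fin 3) (Fin 3) (Module.End L V)) (hF : F * F = 1)
    (x : V × V × V) : tr F (tr F x) = x := by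
  have key : ∀ i j : Fin 3, F i 0 * F 0 j + F i 1 * F 1 j + F i 2 * F 2 j =
      (1 : Matrix (Fin 3) (Fin 3) (Module.End L V)) i j := fun i j => by
    have h := congrFun (congrFun hF i) j
    rw [Matrix.mul_apply, Fin.sum_univ_three] at h
    exact h
  have k2 : ∀ i j : Fin 3, ∀ v : V, F i 0 (F 0 j v) + F i 1 (F 1 j v) + F i 2 (F 2 j v) =
      (1 : Matrix (Fin 3) (Fin 3) (Module.End L V)) i j v := fun i j v =>
    LinearMap.congr_fun (key i j) v
  have k3 : ∀ i : Fin 3, F i 0 (tr F x).1 + F i 1 (tr F x).2.1 + F i 2 (tr F x).2.2 =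
      (1 : Matrix (Fin 3) (Fin 3) (Module.End L V)) i 0 x.1 +
      (1 : Matrix (Fin 3) (Fin 3) (Module.End L V)) i 1 x.2.1 +
      (1 : Matrix (Fin 3) (Fin 3) (Module.End L V)) i 2 x.2.2 := fun i => by
    rw [← k2 i 0 x.1, ← k2 i 1 x.2.1, ← k2 i 2 x.2.2]
    simp only [tr, map_add]
    abel
  have o : ∀ i : Fin 3, ∀ v : V,
      (1 : Matrix (Fin 3) (Fin 3) (Module.End L V)) i i v = v := fun i v => by
    rw [Matrix.one_apply_eq]
    rfl
  have z : ∀ i j : Fin 3, i ≠ j → ∀ v : V,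
      (1 : Matrix (Fin 3) (Fin 3) (Module.End L V)) i j v = 0 := fun i j h v => by
    rw [Matrix.one_apply_ne h]
    rfl
  apply Prod.ext
  · refine (k3 0).trans ?_
    rw [o, z 0 1 (by decide), z 0 2 (by decide), add_zero, add_zero]
  · apply Prod.ext
    · refine (k3 1).trans ?_
      rw [o, z 1 0 (by decide), z 1 2 (by decide), zero_add, add_zero]
    · refine (k3 2).trans ?_
      rw [o, z 2 0 (by decide), z 2 1 (by decide), zero_add, zero_add]

/-- The condition for the even part. -/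
private def Ev (P : Module.End L V) (x : V × V × V) : Prop :=
  P x.1 = 0 ∧ P x.2.1 = x.2.1 ∧ P x.2.2 = 0

/-- The condition for the odd part. -/
private def Od (P : Module.End L V) (x : V × V × V) : Prop :=
  P x.1 = x.1 ∧ P x.2.1 = 0 ∧ P x.2.2 = x.2.2

private lemma ent (P : Module.End L V) (F : Matrix (Fin 3) (Fin 3) (Module.End L V))
    (hPF : PM P * F = F * (1 - PM P)) :
    (∀ v, P (F 0 0 v) = F 0 0 (v - P v)) ∧ (∀ v, P (F 0 1 v) = F 0 1 (P v)) ∧
    (∀ v, P (F 0 2 v) = F 0 2 (v - P v)) ∧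
    (∀ v, F 1 0 v - P (F 1 0 v) = F 1 0 (v - P v)) ∧
    (∀ v, F 1 1 v - P (F 1 1 v) = F 1 1 (P v)) ∧
    (∀ v, F 1 2 v - P (F 1 2 v) = F 1 2 (v - P v)) ∧
    (∀ v, P (F 2 0 v) = F 2 0 (v - P v)) ∧ (∀ v, P (F 2 1 v) = F 2 1 (P v)) ∧
    (∀ v, P (F 2 2 v) = F 2 2 (v - P v)) := by
  have key : ∀ i j : Fin 3, ∀ v : V, (PM P * F) i j v = (F * (1 - PM P)) i j v := fun i j v => by
    rw [hPF]
  simp only [Matrix.mul_apply, Fin.sum_univ_three, PM] at key
  refine ⟨fun v => ?_, fun v => ?_, fun v => ?_, fun v => ?_, fun v => ?_, fun v => ?_,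
    fun v => ?_, fun v => ?_, fun v => ?_⟩
  · simpa using key 0 0 v
  · simpa using key 0 1 v
  · simpa using key 0 2 v
  · simpa using key 1 0 v
  · simpa using key 1 1 v
  · simpa using key 1 2 v
  · simpa using key 2 0 v
  · simpa using key 2 1 v
  · simpa using key 2 2 v

private lemma ev_od (P : Module.End L V) (F : Matrix (Fin 3) (Fin 3) (Module.End L V))
    (hPF : PM P * F = F * (1 - PM P)) (x : V × V × V) (hx : Ev P x) : Od P (tr F x) := by
  obtain ⟨h00, h01, h02, h10, h11, h12, h20, h21, h22⟩ := ent P F hPF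
  obtain ⟨h0, h1, h2⟩ := hx
  refine ⟨?_, ?_, ?_⟩
  · change P (F 0 0 x.1 + F 0 1 x.2.1 + F 0 2 x.2.2) = F 0 0 x.1 + F 0 1 x.2.1 + F 0 2 x.2.2
    rw [map_add, map_add, h00, h01, h02, h0, h1, h2, sub_zero, sub_zero]
  · change P (F 1 0 x.1 + F 1 1 x.2.1 + F 1 2 x.2.2) = 0
    have a0 := h10 x.1
    have a1 := h11 x.2.1
    have a2 := h12 x.2.2
    rw [h0, sub_zero, sub_eq_self] at a0
    rw [h1, sub_eq_self] at a1
    rw [h2, sub_zero, sub_eq_self] at a2
    rw [map_add, map_add, a0, a1, a2, add_zero, add_zero]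
  · change P (F 2 0 x.1 + F 2 1 x.2.1 + F 2 2 x.2.2) = F 2 0 x.1 + F 2 1 x.2.1 + F 2 2 x.2.2
    rw [map_add, map_add, h20, h21, h22, h0, h1, h2, sub_zero, sub_zero]

private lemma od_ev (P : Module.End L V) (F : Matrix (Fin 3) (Fin 3) (Module.End L V))
    (hPF : PM P * F = F * (1 - PM P)) (x : V × V × V) (hx : Od P x) : Ev P (tr F x) := by
  obtain ⟨h00, h01, h02, h10, h11, h12, h20, h21, h22⟩ := ent P F hPF
  obtain ⟨h0, h1, h2⟩ := hx
  refine ⟨?_, ?_, ?_⟩
  · change P (F 0 0 x.1 + F 0 1 x.2.1 + F 0 2 x.2.2) = 0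
    rw [map_add, map_add, h00, h01, h02, h0, h1, h2, sub_self, sub_self, map_zero, map_zero,
      map_zero, add_zero, add_zero]
  · change P (F 1 0 x.1 + F 1 1 x.2.1 + F 1 2 x.2.2) = F 1 0 x.1 + F 1 1 x.2.1 + F 1 2 x.2.2
    have a0 := h10 x.1
    have a1 := h11 x.2.1
    have a2 := h12 x.2.2
    rw [h0, sub_self, map_zero, sub_eq_zero] at a0
    rw [h1, map_zero, sub_eq_zero] at a1
    rw [h2, sub_self, map_zero, sub_eq_zero] at a2
    rw [map_add, map_add, ← a0, ← a1, ← a2]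
  · change P (F 2 0 x.1 + F 2 1 x.2.1 + F 2 2 x.2.2) = 0
    rw [map_add, map_add, h20, h21, h22, h0, h1, h2, sub_self, sub_self, map_zero, map_zero,
      map_zero, add_zero, add_zero]

private lemma mr (P : Module.End L V) (hP : P * P = P) (v : V) :
    v ∈ LinearMap.range P ↔ P v = v := by
  constructor
  · rintro ⟨w, rfl⟩
    exact LinearMap.congr_fun hP w
  · intro h
    exact ⟨v, h⟩

end

theorem sSwp : S_Swp := by
  intro L _ V _ _ P hP F hF hPF
  have he : ∀ x : LinearMap.ker P × LinearMap.range P × LinearMap.ker P,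
      Od P (tr F (x.1.1, x.2.1.1, x.2.2.1)) := fun x =>
    ev_od P F hPF _ ⟨LinearMap.mem_ker.1 x.1.2, (mr P hP _).1 x.2.1.2, LinearMap.mem_ker.1 x.2.2.2⟩
  have ho : ∀ x : LinearMap.range P × LinearMap.ker P × LinearMap.range P,
      Ev P (tr F (x.1.1, x.2.1.1, x.2.2.1)) := fun x =>
    od_ev P F hPF _ ⟨(mr P hP _).1 x.1.2, LinearMap.mem_ker.1 x.2.1.2, (mr P hP _).1 x.2.2.2⟩
  refine ⟨{
    toFun := fun x => (⟨(tr F (x.1.1, x.2.1.1, x.2.2.1)).1, (mr P hP _).2 (he x).1⟩,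
      ⟨(tr F (x.1.1, x.2.1.1, x.2.2.1)).2.1, LinearMap.mem_ker.2 (he x).2.1⟩,
      ⟨(tr F (x.1.1, x.2.1.1, x.2.2.1)).2.2, (mr P hP _).2 (he x).2.2⟩)
    map_add' := ?_
    map_smul' := ?_
    invFun := fun x => (⟨(tr F (x.1.1, x.2.1.1, x.2.2.1)).1, LinearMap.mem_ker.2 (ho x).1⟩,
      ⟨(tr F (x.1.1, x.2.1.1, x.2.2.1)).2.1, (mr P hP _).2 (ho x).2.1⟩,
      ⟨(tr F (x.1.1, x.2.1.1, x.2.2.1)).2.2, LinearMap.mem_ker.2 (ho x).2.2⟩)
    left_inv := ?_
    right_inv := ?_ }⟩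
  · intro x y
    have h := tr_add F (x.1.1, x.2.1.1, x.2.2.1) (y.1.1, y.2.1.1, y.2.2.1)
    apply Prod.ext
    · exact Subtype.ext (congrArg Prod.fst h)
    · apply Prod.ext
      · exact Subtype.ext (congrArg (fun z => z.2.1) h)
      · exact Subtype.ext (congrArg (fun z => z.2.2) h)
  · intro c x
    have h := tr_smul F c (x.1.1, x.2.1.1, x.2.2.1)
    apply Prod.ext
    · exact Subtype.ext (congrArg Prod.fst h)
    · apply Prod.ext
      · exact Subtype.ext (congrArg (fun z => z.2.1) h)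
      · exact Subtype.ext (congrArg (fun z => z.2.2) h)
  · intro x
    have h := tr_tr F hF (x.1.1, x.2.1.1, x.2.2.1)
    apply Prod.ext
    · exact Subtype.ext (congrArg Prod.fst h)
    · apply Prod.ext
      · exact Subtype.ext (congrArg (fun z => z.2.1) h)
      · exact Subtype.ext (congrArg (fun z => z.2.2) h)
  · intro x
    have h := tr_tr F hF (x.1.1, x.2.1.1, x.2.2.1)
    apply Prod.ext
    · exact Subtype.ext (congrArg Prod.fst h)
    · apply Prod.ext
      · exact Subtype.ext (congrArg (fun z => z.2.1) h)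
      · exact Subtype.ext (congrArg (fun z => z.2.2) h)

end HPx
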