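import Pool.Agent.Lib.MP_181146_gt.HP.SpecP

/-!
# Project HP, module T1
-/

set_option autoImplicit false

namespace HPx

open scoped TensorProduct
open HEp

private theorem T1_od {k : Type} [CommRing k] {K : SS} {n : ℕ} (hn : Odd n) {c : Ch k K}
    (hc : c ∈ gr k K n) : od k K c = c := by
  rw [od, Finsupp.linearCombination_apply]
  have h : (c.sum fun a r => r • if Odd a.1 then Finsupp.single a (1 : k) else 0) =
      c.sum Finsupp.single := by
    refine Finsupp.sum_congr fun a ha => ?_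
    have h1 : a.1 = n := (Finsupp.mem_supported k c).1 hc ha
    rw [if_pos (h1 ▸ hn), Finsupp.smul_single, smul_eq_mul, mul_one]
  rw [h, Finsupp.sum_single]

private theorem T1_nat {k : Type} [CommRing k] {K : SS} (x : Ch k K →ₗ[k] k) (ψ : SSHom K K)
    (hψ : ∀ y, x (cmap k ψ y) = x y) (z : Ch k K ⊗[k] Ch k K) :
    lx x (TensorProduct.map (cmap k ψ) (cmap k ψ) z) = cmap k ψ (lx x z) := by
  induction z with
  | zero => rw [map_zero, map_zero, map_zero]
  | add a b ha hb => rw [map_add, map_add, map_add, map_add, ha, hb]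
  | tmul a b => rw [TensorProduct.map_tmul, lx_tmul, lx_tmul, hψ, map_smul]

theorem sT1 (hHpn : S_Hpn) (hLxD : S_LxD) : S_T1 := by
  intro e he k _ K m n hn c hc hbc x hx hxb
  obtain ⟨H, hH, hN⟩ := hHpn e he k K m
  refine ⟨lx x ∘ₗ H ∘ₗ TensorProduct.mk k (Ch k K) (Ch k K) c, ?_, ?_⟩
  · intro y
    have h1 := congrArg (lx x) (hH (c ⊗ₜ y))
    rw [map_sub, map_add, hLxD k K n hn x hx hxb, TensorProduct.map_tmul] at h1
    have h2 : ((chDG k K).tens (chDG k K)).d (c ⊗ₜ[k] y) = (-1 : k) • (c ⊗ₜ[k] bd k K y) := by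
      rw [DG.tens_d]
      change bd k K c ⊗ₜ[k] y + (chDG k K).sg c ⊗ₜ[k] bd k K y = (-1 : k) • (c ⊗ₜ[k] bd k K y)
      rw [hbc, TensorProduct.zero_tmul, zero_add, DG.sg_apply]
      change (c - (2 : k) • od k K c) ⊗ₜ[k] bd k K y = (-1 : k) • (c ⊗ₜ[k] bd k K y)
      rw [T1_od hn hc, TensorProduct.smul_tmul']
      congr 1
      module
    have h5 : lx x (H ((-1 : k) • (c ⊗ₜ[k] bd k K y))) = -lx x (H (c ⊗ₜ[k] bd k K y)) := by
      rw [map_smul, map_smul, neg_one_smul]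
    rw [h2] at h1
    replace h1 := h1.trans (congrArg (fun t => -bd k K (lx x (H (c ⊗ₜ[k] y))) + t) h5)
    have h3 : Tw e m x (dl k K c) y = lx x (TensorProduct.map (mu k e m) (mu k e m)
        (exch (od k K) (dl k K c ⊗ₜ[k] dl k K y))) := rfl
    have h4 : cap x (mu k e m (c ⊗ₜ[k] y)) = lx x (dl k K (mu k e m (c ⊗ₜ[k] y))) := rfl
    rw [← h3, ← h4] at h1
    change cap x (mu k e m (c ⊗ₜ[k] y)) = Tw e m x (dl k K c) y -
      (bd k K (lx x (H (c ⊗ₜ[k] y))) + lx x (H (c ⊗ₜ[k] bd k K y)))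
    rw [sub_eq_iff_eq_add] at h1
    rw [h1]
    abel
  · intro ψ hψ hxψ y
    change lx x (H (c ⊗ₜ[k] cmap k ψ y)) = cmap k ψ (lx x (H (c ⊗ₜ[k] y)))
    have h := hN ψ (fun {j} a b => hψ j a b) (c ⊗ₜ[k] y)
    rw [TensorProduct.map_tmul, LinearMap.id_apply] at h
    rw [h, T1_nat x ψ hxψ]

end HPx
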