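import Pool.Agent.Lib.MP_181146_gt.HP.SpecP
import Pool.Agent.Lib.SingHom.Compare

/-!
# Project HP, module `TTex`: the transfer data for a complex equivalent to the singular complex
-/

set_option autoImplicit false

namespace HPx

open HEp

open Pool.Agent.Lib

section

variable {E : Type} [TopologicalSpace E]

/-- a simplex as a chain -/
private noncomputable def es {n : ℕ} (σ : (Sing E).K n) : SingHom.SC ℤ E n :=
  Finsupp.single (σ : C(SingHom.Sx n, E)) 1

private lemma es_ext {n : ℕ} {M : Type*} [AddCommGroup M] [Module ℤ M]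
    {f g : SingHom.SC ℤ E n →ₗ[ℤ] M} (h : ∀ σ : (Sing E).K n, f (es σ) = g (es σ)) : f = g :=
  SingHom.slin_ext ℤ h

private lemma sbd_es {n : ℕ} (σ : (Sing E).K (n + 1)) : SingHom.sbd ℤ n (es σ) =
    ∑ i : Fin (n + 2), (-1 : ℤ) ^ (i : ℕ) • es ((Sing E).act i.succAbove σ) :=
  SingHom.sbd_single ℤ (n := n) σ

private lemma smp_es (g : C(E, E)) {n : ℕ} (σ : (Sing E).K n) :
    SingHom.smp ℤ g n (es σ) = es ((SingMap g).f σ) :=
  SingHom.smp_single ℤ g (n := n) σ 1

/-- the inclusion of simplices -/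
private def ms (E : Type) [TopologicalSpace E] (n : ℕ) (σ : C(SingHom.Sx n, E)) :
    Σ n, (Sing E).K n := ⟨n, σ⟩

private lemma ms_inj (n : ℕ) : Function.Injective (ms E n) := by
  intro a b h
  exact eq_of_heq (Sigma.mk.inj h).2

/-- inclusion of the chains of dimension `n` -/
private noncomputable def inc (n : ℕ) : SingHom.SC ℤ E n →ₗ[ℤ] Ch ℤ (Sing E) :=
  Finsupp.lmapDomain ℤ ℤ (ms E n)

/-- component of dimension `n` -/
private noncomputable def prj (n : ℕ) : Ch ℤ (Sing E) →ₗ[ℤ] SingHom.SC ℤ E n :=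
  Finsupp.lcomapDomain (ms E n) (ms_inj n)

private lemma inc_es {n : ℕ} (σ : (Sing E).K n) : inc n (es σ) = sx ℤ σ := by
  rw [inc, Finsupp.lmapDomain_apply]
  exact Finsupp.mapDomain_single

private lemma prj_apply (n : ℕ) (c : Ch ℤ (Sing E)) (τ : C(SingHom.Sx n, E)) :
    prj n c τ = c (ms E n τ) := rfl

private lemma inc_apply (n : ℕ) (c : SingHom.SC ℤ E n) (τ : C(SingHom.Sx n, E)) :
    inc n c (ms E n τ) = c τ := by
  rw [inc, Finsupp.lmapDomain_apply]
  exact Finsupp.mapDomain_apply (ms_inj n) c τ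

private lemma prj_inc (n : ℕ) (c : SingHom.SC ℤ E n) : prj n (inc n c) = c := by
  apply Finsupp.ext
  intro τ
  rw [prj_apply, inc_apply]

private lemma es_mem {n : ℕ} (σ : (Sing E).K n) : inc n (es σ) ∈ gr ℤ (Sing E) n := by
  rw [inc_es]
  exact sx_mem_gr ℤ _

private lemma inc_mem (n : ℕ) (c : SingHom.SC ℤ E n) : inc n c ∈ gr ℤ (Sing E) n := by
  induction c using Finsupp.induction_linear with
  | zero =>
    rw [map_zero]
    exact zero_mem _
  | add f g hf hg =>
    rw [map_add]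
    exact add_mem hf hg
  | single σ r =>
    have h : (Finsupp.single σ r : SingHom.SC ℤ E n) = r • es (E := E) (n := n) σ :=
      (Finsupp.smul_single_one σ r).symm
    rw [h, map_smul]
    exact Submodule.smul_mem _ r (es_mem (n := n) σ)

private lemma gr_zero {n m : ℕ} (h : m ≠ n) {c : Ch ℤ (Sing E)} (hc : c ∈ gr ℤ (Sing E) n)
    (τ : (Sing E).K m) : c ⟨m, τ⟩ = 0 := by
  rw [gr, Finsupp.mem_supported'] at hc
  exact hc ⟨m, τ⟩ h

private lemma prj_ne {n m : ℕ} (h : m ≠ n) {c : Ch ℤ (Sing E)} (hc : c ∈ gr ℤ (Sing E) n) :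
    prj m c = 0 := by
  apply Finsupp.ext
  intro τ
  rw [prj_apply]
  exact gr_zero h hc τ

private lemma exists_inc {n : ℕ} {c : Ch ℤ (Sing E)} (hc : c ∈ gr ℤ (Sing E) n) :
    ∃ c' : SingHom.SC ℤ E n, c = inc n c' := by
  refine ⟨prj n c, ?_⟩
  apply Finsupp.ext
  rintro ⟨m, τ⟩
  by_cases h : m = n
  · subst h
    exact (inc_apply m (prj m c) τ).symm
  · rw [gr_zero h hc, gr_zero h (inc_mem n _)]

private lemma bd_inc_succ (n : ℕ) (c : SingHom.SC ℤ E (n + 1)) :
    bd ℤ (Sing E) (inc (n + 1) c) = inc n (SingHom.sbd ℤ n c) := by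
  have h : bd ℤ (Sing E) ∘ₗ inc (n + 1) = inc n ∘ₗ SingHom.sbd ℤ n :=
    es_ext fun σ => by
      rw [LinearMap.comp_apply, LinearMap.comp_apply, inc_es, bd_sx, sbd_es, map_sum]
      refine Finset.sum_congr rfl fun i _ => ?_
      rw [map_smul, inc_es]
  exact LinearMap.congr_fun h c

private lemma bd_inc_zero (c : SingHom.SC ℤ E 0) : bd ℤ (Sing E) (inc 0 c) = 0 := by
  have h : bd ℤ (Sing E) ∘ₗ inc 0 = 0 :=
    es_ext fun σ => by
      rw [LinearMap.comp_apply, inc_es, bd_sx_zero, LinearMap.zero_apply]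
  exact LinearMap.congr_fun h c

private lemma prj_bd (n : ℕ) (c : Ch ℤ (Sing E)) :
    prj n (bd ℤ (Sing E) c) = SingHom.sbd ℤ n (prj (n + 1) c) := by
  have h : prj n ∘ₗ bd ℤ (Sing E) = SingHom.sbd ℤ n ∘ₗ prj (n + 1) := ch_ext fun m σ => by
    rw [LinearMap.comp_apply, LinearMap.comp_apply, ← inc_es]
    cases m with
    | zero =>
      rw [bd_inc_zero, map_zero, prj_ne (Nat.succ_ne_zero n) (inc_mem 0 _), map_zero]
    | succ m =>
      rw [bd_inc_succ]
      by_cases hm : n = m
      · subst hm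
        rw [prj_inc, prj_inc]
      · rw [prj_ne hm (inc_mem m _), prj_ne (fun e => hm (Nat.succ.inj e)) (inc_mem (m + 1) _),
          map_zero]
  exact LinearMap.congr_fun h c

private lemma cmap_inc (g : C(E, E)) (n : ℕ) (c : SingHom.SC ℤ E n) :
    cmap ℤ (SingMap g) (inc n c) = inc n (SingHom.smp ℤ g n c) := by
  have h : cmap ℤ (SingMap g) ∘ₗ inc n = inc n ∘ₗ SingHom.smp ℤ g n :=
    es_ext fun σ => by
      rw [LinearMap.comp_apply, LinearMap.comp_apply, inc_es, cmap_sx, smp_es, inc_es]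
  exact LinearMap.congr_fun h c

private lemma prj_cmap (g : C(E, E)) (n : ℕ) (c : Ch ℤ (Sing E)) :
    prj n (cmap ℤ (SingMap g) c) = SingHom.smp ℤ g n (prj n c) := by
  have h : prj n ∘ₗ cmap ℤ (SingMap g) = SingHom.smp ℤ g n ∘ₗ prj n := ch_ext fun m σ => by
    rw [LinearMap.comp_apply, LinearMap.comp_apply, cmap_sx]
    by_cases hm : n = m
    · subst hm
      rw [← inc_es, ← inc_es, prj_inc, prj_inc, smp_es]
    · rw [prj_ne hm (sx_mem_gr ℤ _), prj_ne hm (sx_mem_gr ℤ _), map_zero]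
  exact LinearMap.congr_fun h c

/-! ### comparison with Mathlib's singular chains -/

private noncomputable def cm (n : ℕ) : SingHom.SC ℤ E n →ₗ[ℤ] (HSp.SC E).X n := SingHom.cmp ℤ n

private noncomputable def ci (n : ℕ) : (HSp.SC E).X n →ₗ[ℤ] SingHom.SC ℤ E n := SingHom.cmpInv ℤ n

private lemma ci_cm (n : ℕ) (c : SingHom.SC ℤ E n) : ci n (cm n c) = c := SingHom.cmpInv_cmp ℤ n c

private lemma cm_ci (n : ℕ) (c : (HSp.SC E).X n) : cm n (ci n c) = c := SingHom.cmp_cmpInv ℤ n c

private lemma cm_d (n : ℕ) (c : SingHom.SC ℤ E (n + 1)) :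
    ((HSp.SC E).d (n + 1) n).hom (cm (n + 1) c) = cm n (SingHom.sbd ℤ n c) := SingHom.cmp_d ℤ n c

private lemma ci_d (n : ℕ) (y : (HSp.SC E).X (n + 1)) :
    ci n (((HSp.SC E).d (n + 1) n).hom y) = SingHom.sbd ℤ n (ci (n + 1) y) := by
  conv_lhs => rw [← cm_ci (n + 1) y]
  rw [cm_d, ci_cm]

private lemma cm_map (g : C(E, E)) (n : ℕ) (c : SingHom.SC ℤ E n) :
    ((HSp.SCmap g).f n).hom (cm n c) = cm n (SingHom.smp ℤ g n c) := SingHom.cmp_map ℤ g n c

private lemma ci_map (g : C(E, E)) (n : ℕ) (y : (HSp.SC E).X n) :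
    ci n (((HSp.SCmap g).f n).hom y) = SingHom.smp ℤ g n (ci n y) := by
  conv_lhs => rw [← cm_ci n y]
  rw [cm_map, ci_cm]

/-- the homotopy on chains -/
private noncomputable def tt (b : ∀ i, (HSp.SC E).X i →+ (HSp.SC E).X (i + 1)) :
    Ch ℤ (Sing E) →ₗ[ℤ] Ch ℤ (Sing E) :=
  Finsupp.linearCombination ℤ (fun x : (Σ n, (Sing E).K n) =>
    inc (x.1 + 1) (ci (x.1 + 1) (b x.1 (cm x.1 (es x.2)))))

private noncomputable def bl (b : ∀ i, (HSp.SC E).X i →+ (HSp.SC E).X (i + 1)) (n : ℕ) :
    (HSp.SC E).X n →ₗ[ℤ] (HSp.SC E).X (n + 1) where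
  toFun := b n
  map_add' := map_add (b n)
  map_smul' := fun r x => by
    have := map_intCast_smul (b n) ℤ ℤ r x
    rw [Int.cast_id] at this
    exact this

private lemma tt_inc (b : ∀ i, (HSp.SC E).X i →+ (HSp.SC E).X (i + 1)) (n : ℕ)
    (c : SingHom.SC ℤ E n) : tt b (inc n c) = inc (n + 1) (ci (n + 1) (b n (cm n c))) := by
  have h : tt b ∘ₗ inc n = inc (n + 1) ∘ₗ ci (n + 1) ∘ₗ bl b n ∘ₗ cm n :=
    es_ext fun σ => by
      rw [LinearMap.comp_apply, inc_es, tt, sx, Finsupp.linearCombination_single, one_smul]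
      rfl
  exact LinearMap.congr_fun h c

end


/-! ### the total module -/

section

variable {M : ℕ → Type} [∀ i, AddCommGroup (M i)]

/-- the components in all degrees -/
private def xe {N : ℕ} (x : TV M N) (i : ℕ) : M i := if h : i < N then x ⟨i, h⟩ else 0

private lemma xe_lt {N : ℕ} (x : TV M N) (i : Fin N) : xe x i = x i := dif_pos i.2

private lemma xe_ge {N : ℕ} (x : TV M N) {i : ℕ} (h : ¬ i < N) : xe x i = 0 := dif_neg h

private lemma xe_add {N : ℕ} (x y : TV M N) (i : ℕ) : xe (x + y) i = xe x i + xe y i := by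
  unfold xe
  split_ifs
  · rfl
  · rw [add_zero]

private lemma xe_sub {N : ℕ} (x y : TV M N) (i : ℕ) : xe (x - y) i = xe x i - xe y i := by
  unfold xe
  split_ifs
  · rfl
  · rw [sub_zero]

private lemma xe_zero {N : ℕ} (i : ℕ) : xe (0 : TV M N) i = 0 := by
  unfold xe
  split_ifs
  · rfl
  · rfl

private lemma tv_ext {N : ℕ} {x y : TV M N} (h : ∀ i, xe x i = xe y i) : x = y := by
  funext i
  rw [← xe_lt x i, ← xe_lt y i, h]

private lemma xe_mk {N : ℕ} (hN : ∀ i, N ≤ i → Subsingleton (M i)) (F : ∀ i, M i) (i : ℕ) :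
    xe (fun j : Fin N => F j : TV M N) i = F i := by
  unfold xe
  split_ifs with h
  · rfl
  · exact @Subsingleton.elim _ (hN i (not_lt.1 h)) _ _

private lemma xe_single {N : ℕ} (i : Fin N) (x : M i) {j : ℕ} (hj : j ≠ i) :
    xe (Pi.single i x : TV M N) j = 0 := by
  unfold xe
  split_ifs with h
  · exact Pi.single_eq_of_ne (fun e => hj (congrArg Fin.val e)) _
  · rfl

private lemma xe_smul {L : Type} [Ring L] [∀ i, Module L (M i)] {N : ℕ} (r : L) (x : TV M N)
    (i : ℕ) : xe (r • x) i = r • xe x i := by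
  unfold xe
  split_ifs
  · rfl
  · rw [smul_zero]

private lemma xe_totd {L : Type} [Ring L] [∀ i, Module L (M i)] {N : ℕ}
    (hN : ∀ i, N ≤ i → Subsingleton (M i)) (d : ∀ i : ℕ, M (i + 1) →ₗ[L] M i) (x : TV M N)
    (i : ℕ) : xe (totd N d x) i = d i (xe x (i + 1)) := by
  have h : totd N d x = (fun j : Fin N => d j (xe x (j + 1)) : TV M N) := by
    funext j
    change (if h : (j : ℕ) + 1 < N then d j (x ⟨j + 1, h⟩) else 0) = d j (xe x (j + 1))
    unfold xe
    split_ifs
    · rfl
    · rw [map_zero]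
  rw [h]
  exact xe_mk hN (fun j => d j (xe x (j + 1))) i

/-- the shifted components -/
private def ah (a : ∀ i, M i →+ M (i + 1)) {N : ℕ} (x : TV M N) : ∀ i : ℕ, M i
  | 0 => 0
  | i + 1 => a i (xe x i)

private lemma ah_add (a : ∀ i, M i →+ M (i + 1)) {N : ℕ} (x y : TV M N) (i : ℕ) :
    ah a (x + y) i = ah a x i + ah a y i := by
  cases i with
  | zero => exact (add_zero _).symm
  | succ i =>
    change a i (xe (x + y) i) = a i (xe x i) + a i (xe y i)
    rw [xe_add, map_add]

end

private lemma lin_of {G : Type} [Group G] {P Q : Type} [AddCommGroup P] [Module (LG G) P]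
    [AddCommGroup Q] [Module (LG G) Q] (φ : P →+ Q)
    (h : ∀ (g : G) (x : P), φ (MonoidAlgebra.of ℤ G g • x) = MonoidAlgebra.of ℤ G g • φ x)
    (r : LG G) (x : P) : φ (r • x) = r • φ x := by
  induction r using MonoidAlgebra.induction_on with
  | of g => exact h g x
  | add a b ha hb => rw [add_smul, add_smul, map_add, ha, hb]
  | smul r a ha => rw [smul_assoc, smul_assoc, map_zsmul, ha]

private lemma ah_smul {G : Type} [Group G] {M : ℕ → Type} [∀ i, AddCommGroup (M i)]
    [∀ i, Module (LG G) (M i)] (a : ∀ i, M i →+ M (i + 1))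
    (ag : ∀ (g : G) i x, a i (MonoidAlgebra.of ℤ G g • x) = MonoidAlgebra.of ℤ G g • a i x)
    {N : ℕ} (r : LG G) (x : TV M N) (i : ℕ) : ah a (r • x) i = r • ah a x i := by
  cases i with
  | zero => exact (smul_zero _).symm
  | succ i =>
    change a i (xe (r • x) i) = r • a i (xe x i)
    rw [xe_smul, lin_of (a i) (fun g x => ag g i x)]

/-- **TTex.** -/
theorem sTTex : S_TTex := by
  intro E _ G _ act M _ _ d N hN u u' a b ud u'd ha0 ha hb0 hb ug u'g ag bg
  let F : TV M N →+ Ch ℤ (Sing E) :=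
    { toFun := fun x => ∑ i ∈ Finset.range N, inc i (ci i (u i (xe x i)))
      map_zero' := Finset.sum_eq_zero fun i _ => by rw [xe_zero, map_zero, map_zero, map_zero]
      map_add' := fun x y => by
        rw [← Finset.sum_add_distrib]
        refine Finset.sum_congr rfl fun i _ => ?_
        rw [xe_add, map_add, map_add, map_add] }
  let F' : Ch ℤ (Sing E) →+ TV M N :=
    { toFun := fun c j => u' j (cm j (prj j c))
      map_zero' := by
        funext j
        change u' j (cm j (prj j 0)) = 0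
        rw [map_zero, map_zero, map_zero]
      map_add' := fun x y => by
        funext j
        change u' j (cm j (prj j (x + y))) = u' j (cm j (prj j x)) + u' j (cm j (prj j y))
        rw [map_add, map_add, map_add] }
  let H : Module.End (LG G) (TV M N) :=
    { toFun := fun x j => ah a x j
      map_add' := fun x y => funext fun j => ah_add a x y j
      map_smul' := fun r x => funext fun j => ah_smul a ag r x j }
  have eF : ∀ x, F x = ∑ i ∈ Finset.range N, inc i (ci i (u i (xe x i))) := fun _ => rfl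
  have eF' : ∀ c i, xe (F' c) i = u' i (cm i (prj i c)) := fun c i =>
    xe_mk hN (fun j => u' j (cm j (prj j c))) i
  have eH : ∀ x i, xe (H x) i = ah a x i := fun x i => xe_mk hN (ah a x) i
  have kfd : ∀ (n : ℕ) (x : M (n + 1)), inc n (ci n (u n (d n x))) =
      bd ℤ (Sing E) (inc (n + 1) (ci (n + 1) (u (n + 1) x))) := by
    intro n x
    rw [bd_inc_succ, ← ci_d, ← ud]
  have kt : ∀ (n : ℕ) (c : SingHom.SC ℤ E n),
      inc n (ci n (u n (u' n (cm n c)))) - inc n c =
        bd ℤ (Sing E) (tt b (inc n c)) + tt b (bd ℤ (Sing E) (inc n c)) := by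
    intro n c
    have e : inc n (ci n (u n (u' n (cm n c)))) - inc n c =
        inc n (ci n (u n (u' n (cm n c)) - cm n c)) := by
      rw [map_sub, map_sub, ci_cm]
    rw [e, tt_inc, bd_inc_succ, ← ci_d]
    cases n with
    | zero =>
      rw [bd_inc_zero, map_zero, add_zero, hb0]
    | succ n =>
      rw [bd_inc_succ, tt_inc, ← cm_d, hb, map_add, map_add]
  have kp : ∀ (x : TV M N) (i : ℕ), prj i (F x) = ci i (u i (xe x i)) := by
    intro x i
    rw [eF, map_sum]
    by_cases hi : i < N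
    · rw [Finset.sum_eq_single_of_mem i (Finset.mem_range.2 hi), prj_inc]
      intro j _ hj
      exact prj_ne (Ne.symm hj) (inc_mem j _)
    · rw [xe_ge x hi, map_zero, map_zero]
      refine Finset.sum_eq_zero fun j hj => prj_ne ?_ (inc_mem j _)
      rintro rfl
      exact hi (Finset.mem_range.1 hj)
  have kFF : ∀ (n : ℕ) (c : SingHom.SC ℤ E n),
      F (F' (inc n c)) = inc n (ci n (u n (u' n (cm n c)))) := by
    intro n c
    rw [eF]
    have h0 : ∀ i, i ≠ n → inc i (ci i (u i (xe (F' (inc n c)) i))) = 0 := by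
      intro i hi
      rw [eF', prj_ne hi (inc_mem n c)]
      simp only [map_zero]
    by_cases hn : n < N
    · rw [Finset.sum_eq_single_of_mem n (Finset.mem_range.2 hn) fun j _ hj => h0 j hj, eF',
        prj_inc]
    · have h1 : u' n (cm n c) = 0 := @Subsingleton.elim _ (hN n (not_lt.1 hn)) _ _
      rw [h1]
      simp only [map_zero]
      refine Finset.sum_eq_zero fun j hj => h0 j ?_
      rintro rfl
      exact hn (Finset.mem_range.1 hj)
  have ind : ∀ {Q : Type} [AddCommGroup Q] (φ ψ : Ch ℤ (Sing E) →+ Q),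
      (∀ (n : ℕ) (c : SingHom.SC ℤ E n), φ (inc n c) = ψ (inc n c)) → ∀ c, φ c = ψ c := by
    intro Q _ φ ψ h c
    induction c using Finsupp.induction_linear with
    | zero => rw [map_zero, map_zero]
    | add x y hx hy => rw [map_add, map_add, hx, hy]
    | single σ r =>
      obtain ⟨n, σ⟩ := σ
      have e : (Finsupp.single (⟨n, σ⟩ : Σ n, (Sing E).K n) r : Ch ℤ (Sing E)) =
          inc n (Finsupp.single σ r) := by
        rw [inc, Finsupp.lmapDomain_apply]
        exact Finsupp.mapDomain_single.symm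
      rw [e]
      exact h n _
  refine ⟨{
    f := F
    f' := F'
    h := H
    t := (tt b).toAddMonoidHom
    f_gr := ?_
    f'_gr := ?_
    fd := ?_
    f'd := ?_
    hV := ?_
    ht := ?_
    fg := ?_
    f'g := ?_
    tg := ?_ }⟩
  · intro i x
    rw [eF]
    refine Submodule.sum_mem _ fun j _ => ?_
    by_cases hj : j = i
    · subst hj
      exact inc_mem _ _
    · rw [xe_single i x hj]
      simp only [map_zero]
      exact Submodule.zero_mem _
  · intro n c hc j hj
    change u' j (cm j (prj j c)) = 0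
    rw [prj_ne hj hc, map_zero, map_zero]
  · intro x
    rw [eF, eF, map_sum]
    have h1 := Finset.sum_range_succ' (fun i => bd ℤ (Sing E) (inc i (ci i (u i (xe x i))))) N
    have h2 := Finset.sum_range_succ (fun i => bd ℤ (Sing E) (inc i (ci i (u i (xe x i))))) N
    rw [h1, bd_inc_zero, add_zero, xe_ge x (lt_irrefl N)] at h2
    simp only [map_zero, add_zero] at h2
    rw [← h2]
    refine Finset.sum_congr rfl fun i _ => ?_
    rw [xe_totd hN, kfd]
  · intro c
    refine tv_ext fun i => ?_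
    rw [xe_totd hN, eF', eF', prj_bd, ← cm_d, u'd]
  · intro x
    refine tv_ext fun i => ?_
    rw [xe_sub, xe_add, eF', kp, cm_ci, xe_totd hN, eH, eH]
    cases i with
    | zero =>
      change u' 0 (u 0 (xe x 0)) - xe x 0 = d 0 (a 0 (xe x 0)) + 0
      rw [add_zero]
      exact ha0 _
    | succ i =>
      change u' (i + 1) (u (i + 1) (xe x (i + 1))) - xe x (i + 1) =
        d (i + 1) (a (i + 1) (xe x (i + 1))) + a i (xe (totd N d x) i)
      rw [xe_totd hN]
      exact ha i _
  · refine fun c => ind (F.comp F' - AddMonoidHom.id _)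
      ((bd ℤ (Sing E)).toAddMonoidHom.comp (tt b).toAddMonoidHom +
        (tt b).toAddMonoidHom.comp (bd ℤ (Sing E)).toAddMonoidHom) ?_ c
    intro n c
    change F (F' (inc n c)) - inc n c =
      bd ℤ (Sing E) (tt b (inc n c)) + tt b (bd ℤ (Sing E) (inc n c))
    rw [kFF]
    exact kt n c
  · intro g x
    rw [eF, eF, map_sum]
    refine Finset.sum_congr rfl fun i _ => ?_
    rw [xe_smul, ug, ci_map, cmap_inc]
  · intro g c
    refine tv_ext fun i => ?_
    rw [xe_smul, eF', eF', prj_cmap, ← cm_map, u'g]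
  · intro g
    refine ind ((tt b).toAddMonoidHom.comp (cmap ℤ (SingMap (act g))).toAddMonoidHom)
      ((cmap ℤ (SingMap (act g))).toAddMonoidHom.comp (tt b).toAddMonoidHom) ?_
    intro n c
    change tt b (cmap ℤ (SingMap (act g)) (inc n c)) =
      cmap ℤ (SingMap (act g)) (tt b (inc n c))
    rw [cmap_inc, tt_inc, tt_inc, cmap_inc, ← cm_map, bg, ci_map]

end HPx
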