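import Pool.Agent.Lib.MP_181146_gt.HP.SpecP

/-!
# Project HP: the total differential
-/

set_option autoImplicit false

namespace HPx

open HEp

private lemma totd_ap {L : Type} [Ring L] {M : ℕ → Type} [∀ i, AddCommGroup (M i)]
    [∀ i, Module L (M i)] (N : ℕ) (d : ∀ i : ℕ, M (i + 1) →ₗ[L] M i) (x : TV M N) (j : Fin N) :
    totd N d x j = if h : (j : ℕ) + 1 < N then d j (x ⟨j + 1, h⟩) else 0 := rfl

theorem sTotD : S_TotD := by
  intro L _ M _ _ N d dd
  constructor
  · intro i j hij
    apply LinearMap.ext
    intro x
    change ePr L M N j (totd N d (ePr L M N i x)) = 0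
    rw [ePr_apply, ePr_apply, totd_ap]
    have h0 : (if h : (j : ℕ) + 1 < N then
        d j ((Pi.single i (x i) : TV M N) ⟨j + 1, h⟩) else 0) = 0 := by
      split_ifs with h
      · rw [Pi.single_eq_of_ne, map_zero]
        intro he
        apply hij
        have h1 : (j : ℕ) + 1 = (i : ℕ) := congrArg Fin.val he
        omega
      · rfl
    rw [h0, Pi.single_zero]
  · apply LinearMap.ext
    intro x
    funext j
    change totd N d (totd N d x) j = 0
    rw [totd_ap]
    split_ifs with h
    · rw [totd_ap]
      split_ifs with h'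
      · exact dd j _
      · rw [map_zero]
    · rfl

end HPx
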