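import Pool.Agent.Lib.MP_181146_gt.HP.SpecQ

set_option autoImplicit false

/-!
# Project HP: existence of towers (`S_Tow`)
-/

namespace HPx

open HEp

private lemma Tow_tw {G : Type} [CommGroup G] (g : G) (m : ℕ) (hg : g ^ m = 1) (i : ℕ) :
    tw g m (i + 1) * tw g m i = 0 := by
  have key : ((MonoidAlgebra.of ℤ G g - 1 : ZG G)) *
      ∑ j ∈ Finset.range m, (MonoidAlgebra.of ℤ G (g ^ j) : ZG G) = 0 := by
    have h1 := mul_geom_sum (MonoidAlgebra.of ℤ G g : ZG G) m
    have h2 : ∀ j, (MonoidAlgebra.of ℤ G (g ^ j) : ZG G) = (MonoidAlgebra.of ℤ G g : ZG G) ^ j :=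
      fun j => map_pow _ _ _
    rw [Finset.sum_congr rfl fun j _ => h2 j, h1, ← h2 m, hg, map_one, sub_self]
  by_cases h : Even i
  · have h' : ¬ Even (i + 1) := by
      rw [Nat.even_add_one]
      exact not_not.2 h
    simp only [tw, if_pos h, if_neg h']
    exact key
  · have h' : Even (i + 1) := Nat.even_add_one.2 h
    simp only [tw, if_pos h', if_neg h]
    rw [mul_comm]
    exact key

private lemma Tow_ind (hCobI : S_CobI) {G : Type} [CommGroup G] [Finite G] (X : AX G) (n : ℕ)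
    (hX : X.Ac (n + 1)) (g : G) (m : ℕ) (hg : g ^ m = 1) (i : ℕ) :
    i ≤ n → ∀ c : X.P i →+ ℤ, (∀ y : X.P (i + 1), c (tw g m i • X.d i y) = 0) →
      ∃ (z : ℤ) (b : ∀ j, X.P j →+ ℤ), b i = c ∧
        (∀ j, j < i → ∀ x : X.P (j + 1), b (j + 1) (tw g m (j + 1) • x) = b j (X.d j x)) ∧
        ∀ x : X.P 0, b 0 (tw g m 0 • x) = z * X.ε x := by
  obtain ⟨-, hC2, hC3⟩ := hCobI G X (n + 1) hX
  induction i with
  | zero =>
    intro _ c hc
    obtain ⟨z, hz⟩ := hC3 (Nat.succ_pos n) (c.comp (DistribSMul.toAddMonoidHom (X.P 0) (tw g m 0)))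
      (fun y => hc y)
    refine ⟨z, Function.update (fun j => (0 : X.P j →+ ℤ)) 0 c, Function.update_self _ _ _,
      fun j hj => absurd hj (Nat.not_lt_zero j), fun x => ?_⟩
    rw [Function.update_self]
    exact hz x
  | succ i ih =>
    intro hi c hc
    obtain ⟨ξ, hξ⟩ := hC2 i (by omega)
      (c.comp (DistribSMul.toAddMonoidHom (X.P (i + 1)) (tw g m (i + 1)))) (fun y => hc y)
    have hξ' : ∀ x : X.P (i + 1), c (tw g m (i + 1) • x) = ξ (X.d i x) := hξ
    obtain ⟨z, b, hb, hrel, hbot⟩ := ih (by omega) ξ (fun y => by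
      rw [← map_smul, ← hξ', smul_smul, Tow_tw g m hg, zero_smul, map_zero])
    refine ⟨z, Function.update b (i + 1) c, Function.update_self _ _ _, ?_, ?_⟩
    · intro j hj x
      rcases Nat.lt_or_ge j i with h | h
      · rw [Function.update_of_ne (by omega), Function.update_of_ne (by omega)]
        exact hrel j h x
      · have hji : j = i := by omega
        subst hji
        rw [Function.update_self, Function.update_of_ne (by omega), hb]
        exact hξ' x
    · intro x
      rw [Function.update_of_ne (by omega)]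
      exact hbot x

/-- **Existence of a tower.** -/
theorem sTow (hCobI : S_CobI) : S_Tow := by
  intro G _ _ X n hn hX hN g m hg u hu
  obtain ⟨h, -, hh⟩ := hN g
  obtain ⟨c, hc⟩ : ∃ c : X.P n →+ ℤ, ∀ x, c x = u (h n x) :=
    ⟨u.comp (h n).toAddMonoidHom, fun x => rfl⟩
  have htop : ∀ x : X.P (n + 1), u ((MonoidAlgebra.of ℤ G g - 1 : ZG G) • x) = c (X.d n x) := by
    intro x
    rw [sub_smul, one_smul, ← hh n x, map_add, hu, zero_add, hc]
  obtain ⟨z, b, hb, hrel, hbot⟩ := Tow_ind hCobI X n hX g m hg n le_rfl c (fun y => by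
    rw [← map_smul, ← htop, smul_smul]
    have h1 := Tow_tw g m hg n
    have h2 : ¬ Even (n + 1) := by
      rw [Nat.even_add_one]
      exact not_not.2 hn
    have h3 : tw g m (n + 1) = (MonoidAlgebra.of ℤ G g - 1 : ZG G) := by
      simp only [tw, if_neg h2]
    rw [h3] at h1
    rw [h1, zero_smul, map_zero])
  exact ⟨z, ⟨⟨b, fun x => by rw [hb]; exact htop x, hrel, hbot⟩⟩⟩

end HPx
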