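import Pool.Agent.Lib.MP_181146_gt.HP.SpecQ

/-!
# Project HP: transport of towers (`S_TowP`)
-/

set_option autoImplicit false

namespace HPx

open HEp

section

variable {G : Type} [CommGroup G]

private lemma of_mul_norm (g : G) (m : ℕ) (hg : g ^ m = 1) :
    MonoidAlgebra.of ℤ G g * (∑ j ∈ Finset.range m, MonoidAlgebra.of ℤ G (g ^ j)) =
      ∑ j ∈ Finset.range m, MonoidAlgebra.of ℤ G (g ^ j) := by
  have h1 : MonoidAlgebra.of ℤ G g * (∑ j ∈ Finset.range m, MonoidAlgebra.of ℤ G (g ^ j)) =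
      ∑ j ∈ Finset.range m, MonoidAlgebra.of ℤ G (g ^ (j + 1)) := by
    rw [Finset.mul_sum]
    apply Finset.sum_congr rfl
    intro j _
    rw [← map_mul, pow_succ']
  have h2 := Finset.sum_range_succ (fun j => MonoidAlgebra.of ℤ G (g ^ j)) m
  have h3 := Finset.sum_range_succ' (fun j => MonoidAlgebra.of ℤ G (g ^ j)) m
  rw [h1]
  have h4 : ∑ j ∈ Finset.range m, MonoidAlgebra.of ℤ G (g ^ (j + 1)) +
      MonoidAlgebra.of ℤ G (g ^ 0) =
      ∑ j ∈ Finset.range m, MonoidAlgebra.of ℤ G (g ^ j) + MonoidAlgebra.of ℤ G (g ^ m) := by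
    rw [← h2, h3]
  rw [hg, pow_zero] at h4
  exact add_right_cancel h4

private lemma ofinv_mul_norm (g : G) (m : ℕ) (hg : g ^ m = 1) :
    MonoidAlgebra.of ℤ G g⁻¹ * (∑ j ∈ Finset.range m, MonoidAlgebra.of ℤ G (g ^ j)) =
      ∑ j ∈ Finset.range m, MonoidAlgebra.of ℤ G (g ^ j) := by
  have h := congrArg (fun z => MonoidAlgebra.of ℤ G g⁻¹ * z) (of_mul_norm g m hg)
  have h' : MonoidAlgebra.of ℤ G g⁻¹ * (MonoidAlgebra.of ℤ G g *
      (∑ j ∈ Finset.range m, MonoidAlgebra.of ℤ G (g ^ j))) =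
      ∑ j ∈ Finset.range m, MonoidAlgebra.of ℤ G (g ^ j) := by
    rw [← mul_assoc, ← map_mul, inv_mul_cancel, map_one, one_mul]
  exact h.symm.trans h'

private lemma norm_inv (g : G) (m : ℕ) (hg : g ^ m = 1) :
    ∑ j ∈ Finset.range m, MonoidAlgebra.of ℤ G (g⁻¹ ^ j) =
      ∑ j ∈ Finset.range m, MonoidAlgebra.of ℤ G (g ^ j) := by
  rw [← Finset.sum_range_reflect (fun j => MonoidAlgebra.of ℤ G (g ^ j)) m]
  have h2 : ∑ j ∈ Finset.range m, MonoidAlgebra.of ℤ G (g⁻¹ ^ j) =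
      MonoidAlgebra.of ℤ G g * ∑ j ∈ Finset.range m, MonoidAlgebra.of ℤ G (g ^ (m - 1 - j)) := by
    rw [Finset.mul_sum]
    apply Finset.sum_congr rfl
    intro j hj
    have hj' : j < m := Finset.mem_range.mp hj
    rw [← map_mul]
    congr 1
    have h3 : g ^ (m - 1 - j) * g ^ (j + 1) = 1 := by
      rw [← pow_add]
      have : m - 1 - j + (j + 1) = m := by omega
      rw [this, hg]
    rw [inv_pow, inv_eq_iff_mul_eq_one]
    rw [pow_succ'] at h3
    calc g ^ j * (g * g ^ (m - 1 - j)) = g ^ (m - 1 - j) * (g * g ^ j) := by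
          rw [mul_comm (g ^ j), mul_assoc, mul_comm g, mul_assoc, mul_comm (g ^ j)]
      _ = 1 := h3
  rw [h2, Finset.sum_range_reflect (fun j => MonoidAlgebra.of ℤ G (g ^ j)) m,
    of_mul_norm g m hg]

variable (X : AX G)

private lemma phi_pow (g : G) (φ : ∀ i, X.P i →+ X.P i)
    (φg : ∀ i x, φ i (MonoidAlgebra.of ℤ G g • x) = MonoidAlgebra.of ℤ G g⁻¹ • φ i x)
    (i : ℕ) (j : ℕ) (x : X.P i) :
    φ i (MonoidAlgebra.of ℤ G (g ^ j) • x) = MonoidAlgebra.of ℤ G (g⁻¹ ^ j) • φ i x := by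
  induction j generalizing x with
  | zero => simp only [pow_zero, map_one, one_smul]
  | succ j ih =>
    rw [pow_succ, map_mul, mul_smul, ih, φg, pow_succ, map_mul, mul_smul]

private lemma phi_norm (g : G) (m : ℕ) (hg : g ^ m = 1) (φ : ∀ i, X.P i →+ X.P i)
    (φg : ∀ i x, φ i (MonoidAlgebra.of ℤ G g • x) = MonoidAlgebra.of ℤ G g⁻¹ • φ i x)
    (i : ℕ) (x : X.P i) :
    MonoidAlgebra.of ℤ G g⁻¹ •
      φ i ((∑ j ∈ Finset.range m, MonoidAlgebra.of ℤ G (g ^ j) : ZG G) • x) =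
      (∑ j ∈ Finset.range m, MonoidAlgebra.of ℤ G (g ^ j) : ZG G) • φ i x := by
  have h1 : φ i ((∑ j ∈ Finset.range m, MonoidAlgebra.of ℤ G (g ^ j) : ZG G) • x) =
      (∑ j ∈ Finset.range m, MonoidAlgebra.of ℤ G (g ^ j) : ZG G) • φ i x := by
    rw [Finset.sum_smul, map_sum, ← norm_inv g m hg, Finset.sum_smul]
    apply Finset.sum_congr rfl
    intro j _
    exact phi_pow X g φ φg i j x
  rw [h1, ← mul_smul, ofinv_mul_norm g m hg]

private lemma phi_t (g : G) (φ : ∀ i, X.P i →+ X.P i)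
    (φg : ∀ i x, φ i (MonoidAlgebra.of ℤ G g • x) = MonoidAlgebra.of ℤ G g⁻¹ • φ i x)
    (i : ℕ) (x : X.P i) :
    φ i ((MonoidAlgebra.of ℤ G g - 1 : ZG G) • x) =
      - ((MonoidAlgebra.of ℤ G g - 1 : ZG G) • (MonoidAlgebra.of ℤ G g⁻¹ • φ i x)) := by
  rw [sub_smul, one_smul, map_sub, φg, sub_smul, one_smul, ← mul_smul, ← map_mul,
    mul_inv_cancel, map_one, one_smul]
  abel

/-- The sign. -/
private def sg (i : ℕ) : ℤ := if i % 4 = 1 ∨ i % 4 = 2 then -1 else 1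

private lemma sg_odd (i : ℕ) (hi : ¬ Even i) : sg (i + 1) = sg i := by
  unfold sg
  rw [Nat.not_even_iff] at hi
  have h : (i + 1) % 4 = 1 ∨ (i + 1) % 4 = 2 ↔ i % 4 = 1 ∨ i % 4 = 2 := by omega
  simp only [h]

private lemma sg_even (i : ℕ) (hi : Even i) : sg (i + 1) = - sg i := by
  unfold sg
  rw [Nat.even_iff] at hi
  have h : (i + 1) % 4 = 1 ∨ (i + 1) % 4 = 2 ↔ ¬ (i % 4 = 1 ∨ i % 4 = 2) := by omega
  by_cases h' : i % 4 = 1 ∨ i % 4 = 2
  · simp only [h, h', not_true_eq_false, if_true, if_false, neg_neg]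
  · simp only [h, h', not_false_eq_true, if_true, if_false]

/-- Multiplication by `g⁻¹`. -/
private noncomputable def ginv (g : G) (i : ℕ) : X.P i →+ X.P i where
  toFun x := MonoidAlgebra.of ℤ G g⁻¹ • x
  map_zero' := smul_zero _
  map_add' := smul_add _

/-- The transported functional. -/
private noncomputable def tb (g : G) (φ : ∀ i, X.P i →+ X.P i) (b : ∀ i, X.P i →+ ℤ) (i : ℕ) :
    X.P i →+ ℤ :=
  sg i • (if Even i then (b i).comp ((ginv X g i).comp (φ i)) else (b i).comp (φ i))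

private lemma tb_even (g : G) (φ : ∀ i, X.P i →+ X.P i) (b : ∀ i, X.P i →+ ℤ) (i : ℕ)
    (hi : Even i) (x : X.P i) :
    tb X g φ b i x = sg i * b i (MonoidAlgebra.of ℤ G g⁻¹ • φ i x) := by
  unfold tb
  rw [if_pos hi, AddMonoidHom.smul_apply, smul_eq_mul]
  rfl

private lemma tb_odd (g : G) (φ : ∀ i, X.P i →+ X.P i) (b : ∀ i, X.P i →+ ℤ) (i : ℕ)
    (hi : ¬ Even i) (x : X.P i) :
    tb X g φ b i x = sg i * b i (φ i x) := by
  unfold tb
  rw [if_neg hi, AddMonoidHom.smul_apply, smul_eq_mul]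
  rfl

end

theorem sTowP : S_TowP := by
  intro G _ X n hn g m hg u z T φ φg φd φε
  have hne : Even n := by
    rw [Nat.even_iff]
    omega
  have hsn : sg n = -1 := by
    unfold sg
    rw [if_pos (Or.inr hn)]
  refine ⟨⟨tb X g φ T.b, ?_, ?_, ?_⟩⟩
  · intro x
    rw [AddMonoidHom.comp_apply, phi_t X g φ φg, map_neg, T.top, tb_even X g φ T.b n hne, hsn,
      LinearMap.map_smul, φd, neg_one_mul]
  · intro i hi x
    by_cases he : Even i
    · have ho : ¬ Even (i + 1) := by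
        rw [Nat.even_add_one]
        exact not_not.mpr he
      have htw : tw g m (i + 1) = (MonoidAlgebra.of ℤ G g - 1 : ZG G) := by
        unfold tw
        rw [if_neg ho]
      have h := T.rel i hi (MonoidAlgebra.of ℤ G g⁻¹ • φ (i + 1) x)
      rw [htw] at h ⊢
      rw [tb_odd X g φ T.b (i + 1) ho, tb_even X g φ T.b i he, phi_t X g φ φg, map_neg, h,
        LinearMap.map_smul, φd, sg_even i he]
      ring
    · have ho : Even (i + 1) := by
        rw [Nat.even_add_one]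
        exact he
      have htw : tw g m (i + 1) =
          (∑ j ∈ Finset.range m, MonoidAlgebra.of ℤ G (g ^ j) : ZG G) := by
        unfold tw
        rw [if_pos ho]
      have h := T.rel i hi (φ (i + 1) x)
      rw [htw] at h ⊢
      rw [tb_even X g φ T.b (i + 1) ho, tb_odd X g φ T.b i he, phi_norm X g m hg φ φg, h, φd,
        sg_odd i he]
  · intro x
    have htw : tw g m 0 =
        (∑ j ∈ Finset.range m, MonoidAlgebra.of ℤ G (g ^ j) : ZG G) := by
      unfold tw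
      rw [if_pos Even.zero]
    have h := T.bot (φ 0 x)
    have hs : sg 0 = 1 := by
      unfold sg
      rw [if_neg (by omega)]
    rw [htw] at h ⊢
    rw [tb_even X g φ T.b 0 Even.zero, phi_norm X g m hg φ φg, h, φε, hs, one_mul]

end HPx
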