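import Pool.Agent.Lib.MP_181146_gt.HP.SpecQ

/-!
# Uniqueness of the last value of a tower modulo `m`
-/

set_option autoImplicit false

namespace HPx

open HEp

namespace TowUAux

theorem norm_mul {G : Type} [CommGroup G] (g : G) (m : ℕ) (hg : g ^ m = 1) :
    (MonoidAlgebra.of ℤ G g - 1 : ZG G) * ∑ j ∈ Finset.range m, MonoidAlgebra.of ℤ G (g ^ j) = 0 := by
  have h1 : ∑ j ∈ Finset.range m, MonoidAlgebra.of ℤ G (g ^ j) =
      ∑ j ∈ Finset.range m, (MonoidAlgebra.of ℤ G g) ^ j := by
    refine Finset.sum_congr rfl (fun j _ => ?_)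
    rw [map_pow]
  rw [h1, mul_geom_sum, ← map_pow, hg, map_one, sub_self]

theorem tw_mul {G : Type} [CommGroup G] (g : G) (m : ℕ) (hg : g ^ m = 1) (i : ℕ) :
    tw g m (i + 1) * tw g m i = 0 := by
  unfold tw
  rcases Nat.even_or_odd i with h | h
  · have h' : ¬ Even (i + 1) := by
      rw [Nat.not_even_iff_odd]; exact h.add_one
    rw [if_neg h', if_pos h]
    exact norm_mul g m hg
  · have h' : Even (i + 1) := h.add_one
    rw [if_pos h', if_neg (Nat.not_even_iff_odd.mpr h), mul_comm]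
    exact norm_mul g m hg

theorem eps_norm {G : Type} [CommGroup G] (X : AX G) (g : G) (m : ℕ) (x : X.P 0) :
    X.ε (tw g m 0 • x) = m * X.ε x := by
  unfold tw
  rw [if_pos (by decide), Finset.sum_smul, map_sum]
  simp only [X.εg, Finset.sum_const, Finset.card_range, nsmul_eq_mul]

theorem tw_odd {G : Type} [CommGroup G] (g : G) (m i : ℕ) (h : Odd i) :
    tw g m i = MonoidAlgebra.of ℤ G g - 1 := by
  unfold tw
  rw [if_neg (Nat.not_even_iff_odd.mpr h)]

end TowUAux

open TowUAux in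
theorem sTowU (hCobI : S_CobI) : S_TowU := by
  intro G _ _ X n hn hX g m hg u hu z T
  obtain ⟨h1, h2, h3⟩ := hCobI G X (n + 1) hX
  -- the top
  have htop : ∃ η : X.P n →+ ℤ, ∀ x : X.P (n + 1), T.b n (X.d n x) = η (tw g m (n + 1) • X.d n x) := by
    obtain ⟨ξ, hξ⟩ := h1 n (Nat.lt_succ_self n) u hu
    refine ⟨ξ, fun x => ?_⟩
    rw [← T.top x, hξ, map_smul, tw_odd g m (n + 1) hn.add_one]
  -- downward induction
  have key : ∀ k i, i + k = n → ∃ η : X.P i →+ ℤ, ∀ x : X.P (i + 1),
      T.b i (X.d i x) = η (tw g m (i + 1) • X.d i x) := by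
    intro k
    induction k with
    | zero =>
      intro i hi
      obtain rfl : i = n := by omega
      exact htop
    | succ k ih =>
      intro i hi
      obtain ⟨η, hη⟩ := ih (i + 1) (by omega)
      have hcoc : X.Coc (T.b (i + 1) - η.comp (DistribSMul.toAddMonoidHom (X.P (i + 1)) (tw g m (i + 2)))) := by
        intro y
        rw [AddMonoidHom.sub_apply, AddMonoidHom.comp_apply, DistribSMul.toAddMonoidHom_apply, hη y,
          sub_self]
      obtain ⟨ξ, hξ⟩ := h2 i (by omega) _ hcoc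
      refine ⟨ξ, fun x => ?_⟩
      have h4 := hξ (tw g m (i + 1) • x)
      rw [AddMonoidHom.sub_apply, AddMonoidHom.comp_apply, DistribSMul.toAddMonoidHom_apply, smul_smul,
        tw_mul g m hg (i + 1), zero_smul, map_zero, sub_zero, T.rel i (by omega) x, map_smul] at h4
      exact h4
  obtain ⟨η, hη⟩ := key n 0 (by omega)
  have hcoc : X.Coc (T.b 0 - η.comp (DistribSMul.toAddMonoidHom (X.P 0) (tw g m 1))) := by
    intro y
    rw [AddMonoidHom.sub_apply, AddMonoidHom.comp_apply, DistribSMul.toAddMonoidHom_apply, hη y,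
      sub_self]
  obtain ⟨j, hj⟩ := h3 (Nat.succ_pos n) _ hcoc
  obtain ⟨v, hv⟩ := hX.1
  have h5 := hj (tw g m 0 • v)
  rw [AddMonoidHom.sub_apply, AddMonoidHom.comp_apply, DistribSMul.toAddMonoidHom_apply, smul_smul,
    tw_mul g m hg 0, zero_smul, map_zero, sub_zero, T.bot, eps_norm, hv, mul_one, mul_one] at h5
  exact ⟨j, by rw [h5, mul_comm]⟩

end HPx
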