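import Pool.Agent.Lib.MP_181146_gt.HP.SpecQ

/-!
# A tower with last value divisible by the order of `g` gives an invariant cocycle
-/

set_option autoImplicit false

namespace HPx

open HEp

namespace TowZAux

theorem tw_even {G : Type} [CommGroup G] (g : G) (m i : ℕ) (h : Even i) : tw g m i = tw g m 0 := by
  unfold tw
  rw [if_pos h, if_pos (by decide)]

theorem tw_odd {G : Type} [CommGroup G] (g : G) (m i : ℕ) (h : Odd i) : tw g m i = tw g m 1 := by
  unfold tw
  rw [if_neg (Nat.not_even_iff_odd.mpr h), if_neg (by decide)]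

theorem tw_one {G : Type} [CommGroup G] (g : G) (m : ℕ) :
    tw g m 1 = MonoidAlgebra.of ℤ G g - 1 := by
  unfold tw
  rw [if_neg (by decide)]

theorem eps_norm {G : Type} [CommGroup G] (X : AX G) (g : G) (m : ℕ) (x : X.P 0) :
    X.ε (tw g m 0 • x) = m * X.ε x := by
  unfold tw
  rw [if_pos (by decide), Finset.sum_smul, map_sum]
  simp only [X.εg, Finset.sum_const, Finset.card_range, nsmul_eq_mul]

end TowZAux

open TowZAux in
theorem sTowZ (hFunH : S_FunH) : S_TowZ := by
  intro G _ _ X n hn g u hu z T hz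
  classical
  set m := orderOf g with hm
  have hF : ∀ (i : ℕ) (f : X.P i →+ ℤ), (∀ x, f (tw g m i • x) = 0) →
      ∃ c : X.P i →+ ℤ, ∀ x, f x = c (tw g m (i + 1) • x) := by
    intro i f hf
    rcases Nat.even_or_odd i with h | h
    · rw [tw_even g m i h] at hf
      rw [tw_odd g m (i + 1) h.add_one]
      exact (hFunH G (X.P i) g f).1 hf
    · rw [tw_odd g m i h] at hf
      rw [tw_even g m (i + 1) h.add_one]
      exact (hFunH G (X.P i) g f).2 hf
  obtain ⟨j, hj⟩ := hz
  have key : ∀ i, i ≤ n → ∃ c : X.P i →+ ℤ, ∀ x : X.P (i + 1),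
      T.b i (X.d i x) = c (tw g m (i + 1) • X.d i x) := by
    intro i
    induction i with
    | zero =>
      intro _
      obtain ⟨c, hc⟩ := hF 0 (T.b 0 - j • X.ε) (fun x => by
        rw [AddMonoidHom.sub_apply, T.bot, AddMonoidHom.smul_apply, eps_norm, hj, smul_eq_mul]
        ring)
      refine ⟨c, fun x => ?_⟩
      rw [← hc, AddMonoidHom.sub_apply, AddMonoidHom.smul_apply, X.εd, smul_zero, sub_zero]
    | succ i ih =>
      intro hi
      obtain ⟨c, hc⟩ := ih (by omega)
      obtain ⟨c', hc'⟩ := hF (i + 1) (T.b (i + 1) - c.comp (X.d i).toAddMonoidHom) (fun x => by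
        rw [AddMonoidHom.sub_apply, T.rel i (by omega) x, AddMonoidHom.comp_apply,
          LinearMap.toAddMonoidHom_coe, map_smul, hc x, sub_self])
      refine ⟨c', fun x => ?_⟩
      rw [← hc', AddMonoidHom.sub_apply, AddMonoidHom.comp_apply, LinearMap.toAddMonoidHom_coe, X.dd,
        map_zero, sub_zero]
  obtain ⟨c, hc⟩ := key n le_rfl
  set w : X.P (n + 1) →+ ℤ := u - c.comp (X.d n).toAddMonoidHom with hw
  have hwa : ∀ x, w x = u x - c (X.d n x) := fun x => rfl
  have hg : ∀ x, w (MonoidAlgebra.of ℤ G g • x) = w x := by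
    intro x
    have h1 : w ((MonoidAlgebra.of ℤ G g - 1 : ZG G) • x) = 0 := by
      rw [hwa, T.top, hc, (X.d n).map_smul, tw_odd g m (n + 1) hn.add_one, tw_one, sub_self]
    rw [sub_smul, one_smul, map_sub, sub_eq_zero] at h1
    exact h1
  refine ⟨w, ?_, ?_, ?_⟩
  · intro y
    rw [hwa, hu y, X.dd, map_zero, sub_zero]
  · have hpow : ∀ (k : ℕ) (y : X.P (n + 1)), w (MonoidAlgebra.of ℤ G (g ^ k) • y) = w y := by
      intro k
      induction k with
      | zero =>
        intro y
        rw [pow_zero, map_one, one_smul]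
      | succ k ih =>
        intro y
        rw [pow_succ, map_mul, mul_smul, ih, hg]
    intro a ha y
    have hfin : IsOfFinOrder g := isOfFinOrder_of_finite g
    rw [hfin.mem_zpowers_iff_mem_range_orderOf, Finset.mem_image] at ha
    obtain ⟨k, _, rfl⟩ := ha
    exact hpow k y
  · intro y hy
    have hy' : X.d n y = 0 := hy
    rw [hwa, hy', map_zero, sub_zero]

end HPx
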