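import Pool.Agent.Lib.MP_181146_gt.HP.SpecP

set_option autoImplicit false

/-!
# Project HP, module Tri: lower triangular matrices with units on the diagonal
-/

namespace HPx

open HEp

private lemma tri_inv {R : Type} [Ring R] (u v w : Rˣ) (x y z : R) :
    (!![(u : R), 0, 0; x, v, 0; y, z, w] : Matrix (Fin 3) (Fin 3) R) *
      !![((u⁻¹ : Rˣ) : R), 0, 0;
         -(((v⁻¹ : Rˣ) : R) * x * ((u⁻¹ : Rˣ) : R)), ((v⁻¹ : Rˣ) : R), 0;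
         ((w⁻¹ : Rˣ) : R) * (z * ((v⁻¹ : Rˣ) : R) * x - y) * ((u⁻¹ : Rˣ) : R),
           -(((w⁻¹ : Rˣ) : R) * z * ((v⁻¹ : Rˣ) : R)), ((w⁻¹ : Rˣ) : R)] = 1 ∧
    !![((u⁻¹ : Rˣ) : R), 0, 0;
         -(((v⁻¹ : Rˣ) : R) * x * ((u⁻¹ : Rˣ) : R)), ((v⁻¹ : Rˣ) : R), 0;
         ((w⁻¹ : Rˣ) : R) * (z * ((v⁻¹ : Rˣ) : R) * x - y) * ((u⁻¹ : Rˣ) : R),
           -(((w⁻¹ : Rˣ) : R) * z * ((v⁻¹ : Rˣ) : R)), ((w⁻¹ : Rˣ) : R)] *
      (!![(u : R), 0, 0; x, v, 0; y, z, w] : Matrix (Fin 3) (Fin 3) R) = 1 := by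
  constructor
  · ext i j
    fin_cases i <;> fin_cases j <;>
      simp [Matrix.mul_apply, Fin.sum_univ_three, mul_sub, sub_mul, ← mul_assoc]
    abel
  · ext i j
    fin_cases i <;> fin_cases j <;>
      simp [Matrix.mul_apply, Fin.sum_univ_three, mul_sub, sub_mul, mul_assoc]
    abel

theorem sTri : S_Tri := by
  intro R _ u v w x y z hu hv hw
  obtain ⟨u, rfl⟩ := hu
  obtain ⟨v, rfl⟩ := hv
  obtain ⟨w, rfl⟩ := hw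
  obtain ⟨h1, h2⟩ := tri_inv u v w x y z
  exact ⟨⟨_, _, h1, h2⟩, rfl⟩

end HPx
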