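import Pool.Agent.Lib.MP_181146_gt.HP.SpecP

/-!
# HP/Trn: transfer of the operators to the complex `M`
-/

set_option autoImplicit false

namespace HPx

open HEp

/-- An additive map which commutes with the group elements is linear over the group ring. -/
private lemma trn_lin {G : Type} [Group G] {V W : Type} [AddCommGroup V] [AddCommGroup W]
    [Module (LG G) V] [Module (LG G) W] (F : V →+ W)
    (h : ∀ (g : G) (x : V), F (MonoidAlgebra.of ℤ G g • x) = MonoidAlgebra.of ℤ G g • F x)
    (r : LG G) (x : V) : F (r • x) = r • F x := by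
  have key : F.comp ((smulAddHom (LG G) V).flip x) = (smulAddHom (LG G) W).flip (F x) := by
    apply MonoidAlgebra.addHom_ext'
    intro g
    apply AddMonoidHom.ext_int
    exact h g x
  exact DFunLike.congr_fun key r

section

variable {G : Type} [Group G] {M : ℕ → Type} [∀ i, AddCommGroup (M i)]
  [∀ i, Module (LG G) (M i)] {d : ∀ i : ℕ, M (i + 1) →ₗ[LG G] M i} {N : ℕ} {E : Type}
  [TopologicalSpace E] {act : G → C(E, E)} (T : TT G M d N E act)

/-- The operator `f' F f`. -/
private noncomputable def trnL (F : Ch ℤ (Sing E) →+ Ch ℤ (Sing E))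
    (hF : ∀ (g : G) c, F (cmap ℤ (SingMap (act g)) c) = cmap ℤ (SingMap (act g)) (F c)) :
    Module.End (LG G) (TV M N) where
  toFun x := T.f' (F (T.f x))
  map_add' x y := by rw [map_add, map_add, map_add]
  map_smul' r x := by
    refine trn_lin ((T.f'.comp F).comp T.f) ?_ r x
    intro g y
    change T.f' (F (T.f (MonoidAlgebra.of ℤ G g • y))) =
      MonoidAlgebra.of ℤ G g • T.f' (F (T.f y))
    rw [T.fg, hF, T.f'g]

private lemma trnL_apply (F : Ch ℤ (Sing E) →+ Ch ℤ (Sing E))
    (hF : ∀ (g : G) c, F (cmap ℤ (SingMap (act g)) c) = cmap ℤ (SingMap (act g)) (F c))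
    (x : TV M N) : trnL T F hF x = T.f' (F (T.f x)) := rfl

/-- Homogeneity. -/
private lemma trnL_hm (F : Ch ℤ (Sing E) →+ Ch ℤ (Sing E))
    (hF : ∀ (g : G) c, F (cmap ℤ (SingMap (act g)) c) = cmap ℤ (SingMap (act g)) (F c)) (m : ℤ)
    (h : ∀ i j : Fin N, (j : ℤ) ≠ (i : ℤ) + m → ∀ c ∈ gr ℤ (Sing E) i, T.f' (F c) j = 0) :
    (stG (LG G) M N).Hm m (trnL T F hF) := by
  intro i j hij
  apply LinearMap.ext
  intro x
  change ePr (LG G) M N j (trnL T F hF (ePr (LG G) M N i x)) = 0
  rw [ePr_apply, ePr_apply, trnL_apply, h i j hij _ (T.f_gr i (x i)), Pi.single_zero]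

/-- Anticommutation with the differential. -/
private lemma trnL_d (F : Ch ℤ (Sing E) →+ Ch ℤ (Sing E))
    (hF : ∀ (g : G) c, F (cmap ℤ (SingMap (act g)) c) = cmap ℤ (SingMap (act g)) (F c))
    (h : ∀ c, F (bd ℤ (Sing E) c) = - bd ℤ (Sing E) (F c)) :
    trnL T F hF * totd N d = -(totd N d * trnL T F hF) := by
  apply LinearMap.ext
  intro x
  change T.f' (F (T.f (totd N d x))) = -(totd N d (T.f' (F (T.f x))))
  rw [T.fd, h, map_neg, T.f'd]

end

theorem sTrn : S_Trn := by
  intro G _ M _ _ d N E _ act T n a b k had hbd hab hag hbg hbg0 ga gb gk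
  have gK : ∀ (g : G) c, (k - ((a.comp T.t).comp b + (b.comp T.t).comp a))
      (cmap ℤ (SingMap (act g)) c) = cmap ℤ (SingMap (act g))
        ((k - ((a.comp T.t).comp b + (b.comp T.t).comp a)) c) := by
    intro g c
    change k (cmap ℤ (SingMap (act g)) c) - (a (T.t (b (cmap ℤ (SingMap (act g)) c))) +
      b (T.t (a (cmap ℤ (SingMap (act g)) c)))) =
        cmap ℤ (SingMap (act g)) (k c - (a (T.t (b c)) + b (T.t (a c))))
    rw [map_sub, map_add, gk, gb, ga, T.tg, T.tg, ga, gb]
  refine ⟨trnL T a ga, trnL T b gb, T.h + trnL T _ gK, ?_, ?_, trnL_d T a ga had,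
    trnL_d T b gb hbd, ?_⟩
  · apply trnL_hm
    intro i j hij c hc
    apply T.f'_gr _ _ (hag i c hc)
    intro hj
    apply hij
    rw [hj]
    push_cast
    rfl
  · apply trnL_hm
    intro i j hij c hc
    by_cases hi : (i : ℕ) < n
    · rw [hbg0 i hi c hc, map_zero]
      rfl
    · have hin : ((i : ℕ) - n) + n = (i : ℕ) := Nat.sub_add_cancel (Nat.le_of_not_lt hi)
      have hc' : c ∈ gr ℤ (Sing E) (((i : ℕ) - n) + n) := by
        rw [hin]
        exact hc
      apply T.f'_gr _ _ (hbg _ c hc')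
      intro hj
      apply hij
      omega
  · apply LinearMap.ext
    intro x
    have e1 : T.f (T.f' (b (T.f x))) = b (T.f x) +
        (bd ℤ (Sing E) (T.t (b (T.f x))) + T.t (bd ℤ (Sing E) (b (T.f x)))) := by
      rw [← T.ht]
      abel
    have e2 : T.f (T.f' (a (T.f x))) = a (T.f x) +
        (bd ℤ (Sing E) (T.t (a (T.f x))) + T.t (bd ℤ (Sing E) (a (T.f x)))) := by
      rw [← T.ht]
      abel
    have e3 : T.f' (T.f x) = x + (totd N d (T.h x) + T.h (totd N d x)) := by
      rw [← T.hV]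
      abel
    have e4 : bd ℤ (Sing E) (b (T.f x)) = - b (T.f (totd N d x)) := by
      rw [T.fd, hbd, neg_neg]
    have e5 : bd ℤ (Sing E) (a (T.f x)) = - a (T.f (totd N d x)) := by
      rw [T.fd, had, neg_neg]
    have e6 : T.f' (a (b (T.f x))) + T.f' (b (a (T.f x))) = T.f' (T.f x) +
        (totd N d (T.f' (k (T.f x))) + T.f' (k (T.f (totd N d x)))) := by
      rw [← map_add, hab, map_add, map_add, T.f'd, T.fd]
    change T.f' (a (T.f (T.f' (b (T.f x))))) + T.f' (b (T.f (T.f' (a (T.f x))))) =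
      x + (totd N d (T.h x + T.f' (k (T.f x) - (a (T.t (b (T.f x))) + b (T.t (a (T.f x)))))) +
        (T.h (totd N d x) + T.f' (k (T.f (totd N d x)) -
          (a (T.t (b (T.f (totd N d x)))) + b (T.t (a (T.f (totd N d x))))))))
    rw [e1, e2, e4, e5]
    simp only [map_add, map_sub, map_neg, had, hbd, T.f'd]
    rw [e3] at e6
    generalize T.f' (a (b (T.f x))) = A at *
    generalize T.f' (b (a (T.f x))) = B at *
    have e7 : A = x + (totd N d (T.h x) + T.h (totd N d x)) +
      (totd N d (T.f' (k (T.f x))) + T.f' (k (T.f (totd N d x)))) - B := by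
      rw [← e6]
      abel
    rw [e7]
    abel

end HPx
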