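import Pool.Agent.Lib.MP_181146_gt.HP.SpecP
import Pool.Agent.Lib.MP_181146_gt.HE.SpecS

/-!
# Project HP: the operator `Tw` for `c ⊗ v` (helper27)
-/

set_option autoImplicit false

namespace HPx

open scoped TensorProduct
open HEp

private theorem Tw3_cmap_gr (k : Type) [CommRing k] {K L : SS} (f : SSHom K L) {n : ℕ}
    {c : Ch k K} (hc : c ∈ gr k K n) : cmap k f c ∈ gr k L n := by
  classical
  rw [gr, Finsupp.mem_supported] at hc ⊢
  intro y hy
  have h1 := Finsupp.mapDomain_support hy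
  obtain ⟨z, hz, rfl⟩ := Finset.mem_image.mp h1
  exact hc hz

private theorem Tw3_exch {k : Type} [CommRing k] {V : Type} [AddCommGroup V] [Module k V]
    (P : V →ₗ[k] V) (a b c d : V) (hb : P b = 0) :
    exch P ((a ⊗ₜ[k] b) ⊗ₜ[k] (c ⊗ₜ[k] d)) = (a ⊗ₜ[k] c) ⊗ₜ[k] (b ⊗ₜ[k] d) := by
  rw [exch, LinearMap.comp_apply, LinearMap.sub_apply, LinearMap.smul_apply, LinearMap.id_apply,
    TensorProduct.map_tmul, TensorProduct.map_tmul, hb, TensorProduct.tmul_zero,
    TensorProduct.zero_tmul, smul_zero, sub_zero]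
  rfl

theorem sTw3 (hNabG : HEp.S_NabG) (hDlG : HEp.S_DlG) (hDlC : HEp.S_DlC) : S_Tw3 := by
  intro e he k _ K m n c hc x hx v hx0 y
  have hod : od k K (sx k v) = 0 := by
    rw [od_sx, if_neg (by decide)]
  have hG := (hNabG e he k K K).1
  have key : lx x ∘ₗ TensorProduct.map (mu k e m) (mu k e m) ∘ₗ exch (od k K) ∘ₗ
      TensorProduct.mk k (Ch k K ⊗[k] Ch k K) (Ch k K ⊗[k] Ch k K) (c ⊗ₜ sx k v) =
      mu k e m ∘ₗ TensorProduct.mk k (Ch k K) (Ch k K) (sx k v) ∘ₗ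
        (TensorProduct.lid k (Ch k K)).toLinearMap ∘ₗ
        TensorProduct.map (aug k K) LinearMap.id := by
    refine TensorProduct.ext' fun a z => ?_
    refine LinearMap.congr_fun (ch_ext (f := (lx x ∘ₗ TensorProduct.map (mu k e m) (mu k e m) ∘ₗ
      exch (od k K) ∘ₗ TensorProduct.mk k (Ch k K ⊗[k] Ch k K) (Ch k K ⊗[k] Ch k K)
        (c ⊗ₜ sx k v)) ∘ₗ (TensorProduct.mk k (Ch k K) (Ch k K)).flip z)
      (g := (mu k e m ∘ₗ TensorProduct.mk k (Ch k K) (Ch k K) (sx k v) ∘ₗ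
        (TensorProduct.lid k (Ch k K)).toLinearMap ∘ₗ
        TensorProduct.map (aug k K) LinearMap.id) ∘ₗ
          (TensorProduct.mk k (Ch k K) (Ch k K)).flip z) ?_) a
    intro i σ
    change lx x (TensorProduct.map (mu k e m) (mu k e m)
      (exch (od k K) ((c ⊗ₜ[k] sx k v) ⊗ₜ[k] (sx k σ ⊗ₜ[k] z)))) =
      mu k e m (sx k v ⊗ₜ[k] (TensorProduct.lid k (Ch k K) (aug k K (sx k σ) ⊗ₜ[k] z)))
    rw [Tw3_exch (od k K) c (sx k v) (sx k σ) z hod, TensorProduct.map_tmul, lx_tmul,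
      TensorProduct.lid_tmul, TensorProduct.tmul_smul, map_smul]
    congr 1
    cases i with
    | zero => rw [aug_sx_zero, hx0 σ]
    | succ i =>
      rw [aug_sx_succ]
      apply hx (n + (i + 1)) (by omega)
      exact Tw3_cmap_gr k m (hG n (i + 1) c hc (sx k σ) (sx_mem_gr k σ))
  have h1 := LinearMap.congr_fun key (dl k K y)
  have h2 : Tw e m x (c ⊗ₜ sx k v) y = mu k e m (sx k v ⊗ₜ[k] (TensorProduct.lid k (Ch k K)
      (TensorProduct.map (aug k K) LinearMap.id (dl k K y)))) := h1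
  rw [h2, (hDlC k K y).1]

end HPx
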