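import Pool.Agent.Lib.MP_181146_gt.HP.SpecP
import Pool.Agent.Lib.MP_181146_gt.HE.SpecS

/-!
# Project HP: the term `v ⊗ c` of the operator `Tw`
-/

set_option autoImplicit false

namespace HPx

open HEp
open scoped TensorProduct

private lemma Tw4_gr_ind {k : Type} [CommRing k] {K : SS} {n : ℕ} {M : Type} [AddCommGroup M]
    [Module k M] (f : Ch k K →ₗ[k] M) (S : Submodule k M) (h : ∀ x : K.K n, f (sx k x) ∈ S)
    (x : Ch k K) (hx : x ∈ gr k K n) : f x ∈ S := by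
  have h1 : gr k K n ≤ S.comap f := by
    rw [gr, Finsupp.supported_eq_span_single, Submodule.span_le]
    rintro _ ⟨⟨m, y⟩, hm, rfl⟩
    change m = n at hm
    subst hm
    exact h y
  exact h1 hx

private lemma Tw4_cmap_gr {k : Type} [CommRing k] {K L : SS} (f : SSHom K L) (n : ℕ) (x : Ch k K)
    (hx : x ∈ gr k K n) : cmap k f x ∈ gr k L n := by
  refine Tw4_gr_ind (cmap k f) (gr k L n) (fun x => ?_) x hx
  rw [cmap_sx]
  exact sx_mem_gr k _

private lemma Tw4_od {k : Type} [CommRing k] {K : SS} (n : ℕ) (hn : Odd n) (x : Ch k K)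
    (hx : x ∈ gr k K n) : od k K x = x := by
  have h1 := Tw4_gr_ind (od k K - LinearMap.id) ⊥ (fun x => by
    rw [LinearMap.sub_apply, LinearMap.id_apply, od_sx, if_pos hn, sub_self]
    exact Submodule.zero_mem _) x hx
  rw [Submodule.mem_bot, LinearMap.sub_apply, LinearMap.id_apply] at h1
  exact sub_eq_zero.1 h1

private lemma Tw4_ext {k : Type} [CommRing k] {K : SS} {M : Type} [AddCommGroup M]
    [Module k M] {f g : Ch k K ⊗[k] Ch k K →ₗ[k] M}
    (h : ∀ (p q : ℕ) (x : K.K p) (y : K.K q), f (sx k x ⊗ₜ sx k y) = g (sx k x ⊗ₜ sx k y)) :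
    f = g := by
  apply TensorProduct.ext
  apply ch_ext
  intro p x
  apply ch_ext
  intro q y
  exact h p q x y

private lemma Tw4_exch {k : Type} [CommRing k] {V : Type} [AddCommGroup V] [Module k V]
    (P : V →ₗ[k] V) (a b c d : V) :
    exch P ((a ⊗ₜ[k] b) ⊗ₜ[k] (c ⊗ₜ[k] d)) = (a ⊗ₜ[k] c) ⊗ₜ[k] (b ⊗ₜ[k] d) -
      (2 : k) • ((a ⊗ₜ[k] P c) ⊗ₜ[k] (P b ⊗ₜ[k] d)) := by
  rw [exch, LinearMap.comp_apply, LinearMap.sub_apply, LinearMap.id_apply, LinearMap.smul_apply,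
    TensorProduct.map_tmul, TensorProduct.map_tmul, TensorProduct.map_tmul, LinearMap.id_apply,
    LinearMap.id_apply, LinearEquiv.coe_coe, map_sub, map_smul,
    TensorProduct.tensorTensorTensorComm_tmul, TensorProduct.tensorTensorTensorComm_tmul]

private lemma Tw4_lx {k : Type} [CommRing k] {V : Type} [AddCommGroup V] [Module k V]
    (P : V →ₗ[k] V) (F : V ⊗[k] V →ₗ[k] V) (x : V →ₗ[k] k) (a b c d : V) :
    lx x (TensorProduct.map F F (exch P ((a ⊗ₜ[k] b) ⊗ₜ[k] (c ⊗ₜ[k] d)))) =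
      x (F (a ⊗ₜ[k] c)) • F (b ⊗ₜ[k] d) - (2 : k) • (x (F (a ⊗ₜ[k] P c)) • F (P b ⊗ₜ[k] d)) := by
  rw [Tw4_exch, map_sub, map_sub, map_smul, map_smul, TensorProduct.map_tmul,
    TensorProduct.map_tmul, lx_tmul, lx_tmul]

theorem sTw4 (hNabG : HEp.S_NabG) (hDlG : HEp.S_DlG) : S_Tw4 := by
  intro e he k _ K m n hn c hc x hx v y
  have hmu : ∀ (i : ℕ) (a : K.K i), mu k e m (sx k v ⊗ₜ sx k a) ∈ gr k K i := by
    intro i a
    have h1 := (hNabG e he k K K).1 0 i (sx k v) (sx_mem_gr k v) (sx k a) (sx_mem_gr k a)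
    rw [zero_add] at h1
    exact Tw4_cmap_gr m i _ h1
  have key : (lx x ∘ₗ TensorProduct.map (mu k e m) (mu k e m) ∘ₗ exch (od k K) ∘ₗ
      TensorProduct.mk k (Ch k K ⊗[k] Ch k K) (Ch k K ⊗[k] Ch k K) (sx k v ⊗ₜ c)) =
      -(mu k e m ∘ₗ TensorProduct.mk k (Ch k K) (Ch k K) c ∘ₗ
        lx (x ∘ₗ mu k e m ∘ₗ TensorProduct.mk k (Ch k K) (Ch k K) (sx k v))) := by
    apply Tw4_ext
    intro i j a b
    have hL : (lx x ∘ₗ TensorProduct.map (mu k e m) (mu k e m) ∘ₗ exch (od k K) ∘ₗ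
        TensorProduct.mk k (Ch k K ⊗[k] Ch k K) (Ch k K ⊗[k] Ch k K) (sx k v ⊗ₜ c))
          (sx k a ⊗ₜ sx k b) =
        x (mu k e m (sx k v ⊗ₜ sx k a)) • mu k e m (c ⊗ₜ sx k b) -
          (2 : k) • (x (mu k e m (sx k v ⊗ₜ od k K (sx k a))) • mu k e m (c ⊗ₜ sx k b)) := by
      have h0 := Tw4_lx (od k K) (mu k e m) x (sx k v) c (sx k a) (sx k b)
      rw [Tw4_od n hn c hc] at h0
      exact h0
    have hR : (-(mu k e m ∘ₗ TensorProduct.mk k (Ch k K) (Ch k K) c ∘ₗ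
        lx (x ∘ₗ mu k e m ∘ₗ TensorProduct.mk k (Ch k K) (Ch k K) (sx k v))))
          (sx k a ⊗ₜ sx k b) =
        -(x (mu k e m (sx k v ⊗ₜ sx k a)) • mu k e m (c ⊗ₜ sx k b)) := by
      rw [LinearMap.neg_apply, LinearMap.comp_apply, LinearMap.comp_apply, lx_tmul, map_smul,
        map_smul, TensorProduct.mk_apply]
      rfl
    rw [hL, hR]
    by_cases hi : i = n
    · have h1 : od k K (sx k a) = sx k a := by
        rw [od_sx, if_pos (by rw [hi]; exact hn)]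
      rw [h1, two_smul]
      abel
    · have h2 : x (mu k e m (sx k v ⊗ₜ sx k a)) = 0 := hx i hi _ (hmu i a)
      have h3 : x (mu k e m (sx k v ⊗ₜ od k K (sx k a))) = 0 := by
        rw [od_sx]
        split_ifs
        · exact h2
        · rw [TensorProduct.tmul_zero, map_zero, map_zero]
      rw [h2, h3, zero_smul, smul_zero, sub_zero, neg_zero]
  exact LinearMap.congr_fun key (dl k K y)

end HPx
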