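import Pool.Agent.Lib.MP_181146_gt.HP.SpecP
import Pool.Agent.Lib.MP_181146_gt.HE.SpecS

/-!
# Project HP: equivariance of `Tw` (task 20877)
-/

set_option autoImplicit false

namespace HPx

open scoped TensorProduct
open HEp

private lemma TwG_mu (hNabN : HEp.S_NabN) (e : ∀ p q : ℕ, Ch ℤ ((De p).prod (De q))) (k : Type)
    [CommRing k] (K : SS) (m : SSHom (K.prod K) K) (ψ : SSHom K K) (hψ : Cm K m ψ)
    (a b : Ch k K) : mu k e m (a ⊗ₜ cmap k ψ b) = cmap k ψ (mu k e m (a ⊗ₜ b)) := by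
  have h1 := hNabN e k K K K K (SSHom.id K) ψ (a ⊗ₜ b)
  rw [TensorProduct.map_tmul, cmap_id] at h1
  have h2 : cmap k m ∘ₗ cmap k ((SSHom.id K).prod ψ) = cmap k ψ ∘ₗ cmap k m :=
    ch_ext fun n x => by
      rw [LinearMap.comp_apply, LinearMap.comp_apply, cmap_sx, cmap_sx, cmap_sx, cmap_sx]
      exact congrArg (sx k) (hψ n x.1 x.2)
  rw [mu, LinearMap.comp_apply, LinearMap.comp_apply, h1]
  exact LinearMap.congr_fun h2 _

private lemma TwG_exch {k : Type} [CommRing k] {V : Type} [AddCommGroup V] [Module k V]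
    (P : V →ₗ[k] V) (a b c d : V) :
    exch P ((a ⊗ₜ b) ⊗ₜ (c ⊗ₜ d)) =
      (a ⊗ₜ[k] c) ⊗ₜ[k] (b ⊗ₜ[k] d) - (2 : k) • ((a ⊗ₜ[k] P c) ⊗ₜ[k] (P b ⊗ₜ[k] d)) := by
  rw [exch, LinearMap.comp_apply, LinearMap.sub_apply, LinearMap.smul_apply, LinearMap.id_apply,
    TensorProduct.map_tmul, TensorProduct.map_tmul, TensorProduct.map_tmul, LinearMap.id_apply,
    LinearMap.id_apply, map_sub, map_smul]
  rfl

theorem sTwG (hNabN : HEp.S_NabN) (hDlG : HEp.S_DlG) (_hMid : HEp.S_Mid) : S_TwG := by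
  intro e k _ K m x ψ hψ hx z y
  rw [Tw_apply, Tw_apply, ← (hDlG k K).2.2.2 K ψ y]
  obtain ⟨w, hw⟩ : ∃ w : Ch k K ⊗[k] Ch k K, w = dl k K y := ⟨_, rfl⟩
  rw [← hw]
  clear hw
  induction z with
  | zero => simp only [TensorProduct.zero_tmul, map_zero]
  | add z z' hz hz' => simp only [TensorProduct.add_tmul, map_add, hz, hz']
  | tmul a b =>
    induction w with
    | zero => simp only [TensorProduct.tmul_zero, map_zero]
    | add w w' hw hw' => simp only [TensorProduct.tmul_add, map_add, hw, hw']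
    | tmul c d =>
      rw [TensorProduct.map_tmul, TwG_exch, TwG_exch]
      simp only [map_sub, map_smul, TensorProduct.map_tmul, lx_tmul]
      rw [← cmap_od, TwG_mu hNabN e k K m ψ hψ, TwG_mu hNabN e k K m ψ hψ,
        TwG_mu hNabN e k K m ψ hψ, TwG_mu hNabN e k K m ψ hψ, hx, hx]

end HPx
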