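import Pool.Agent.Lib.MP_181146_gt.HP.SpecP
import Pool.Agent.Lib.MP_181146_gt.HE.SpecS

/-!
# Project HP, module UnB: the left unit up to an equivariant homotopy
-/

set_option autoImplicit false

namespace HPx

open scoped TensorProduct
open HEp

private theorem UnB_id (k : Type) [CommRing k] {E : Type} [TopologicalSpace E]
    (x : Ch k (Sing E)) : cmap k (SingMap (ContinuousMap.id E)) x = x := by
  have h : cmap k (SingMap (ContinuousMap.id E)) = LinearMap.id := ch_ext fun n y => by
    rw [cmap_sx]
    change sx k (K := Sing E) (n := n) ((ContinuousMap.id E).comp y) = sx k y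
    rw [ContinuousMap.id_comp]
  exact LinearMap.congr_fun h x

private theorem UnB_left (k : Type) [CommRing k] {E : Type} [TopologicalSpace E] (v : E)
    (m : C(E × E, E)) (x : Ch k (Sing E)) :
    cmap k (SingMul m) (cmap k (SSHom.pair (SSHom.cst (Sing E) (vtx v)) (SSHom.id (Sing E))) x) =
      cmap k (SingMap (m.comp (ContinuousMap.prodMk (ContinuousMap.const E v)
        (ContinuousMap.id E)))) x := by
  have h : cmap k (SingMul m) ∘ₗ
      cmap k (SSHom.pair (SSHom.cst (Sing E) (vtx v)) (SSHom.id (Sing E))) =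
      cmap k (SingMap (m.comp (ContinuousMap.prodMk (ContinuousMap.const E v)
        (ContinuousMap.id E)))) := ch_ext fun n y => by
    rw [LinearMap.comp_apply, cmap_sx, cmap_sx, cmap_sx]
    rfl
  exact LinearMap.congr_fun h x

theorem sUnB (hSHE : S_SHE) (hNabU : HEp.S_NabU) : S_UnB := by
  intro e he k _ E _ v m B hB0 hB1
  obtain ⟨-, n2, -⟩ := hNabU e he k (Sing E) (Sing E)
  obtain ⟨b, h1, h2, h3⟩ := hSHE k E E B (ContinuousMap.id E)
    (m.comp (ContinuousMap.prodMk (ContinuousMap.const E v) (ContinuousMap.id E)))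
    (fun x => hB0 x) (fun x => hB1 x)
  refine ⟨b, fun y => ?_, h2, fun α hα y => h3 α α hα y⟩
  have h4 := h1 y
  rw [UnB_id] at h4
  rw [mu, LinearMap.comp_apply, n2, UnB_left, ← h4]
  abel

end HPx
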