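import Pool.Agent.Lib.MP_181146_gt.HP.SpecP

/-!
# Project HP, module VPar: the even and odd parts of the total module
-/

set_option autoImplicit false

namespace HPx

open HEp

section VParAux

variable {L : Type} [Ring L] {M : ℕ → Type} [∀ i, AddCommGroup (M i)] [∀ i, Module L (M i)]

private theorem VPar_od (N : ℕ) (x : TV M N) (j : Fin N) :
    (stG L M N).od x j = if Odd (j : ℕ) then x j else 0 := by
  have h0 : (stG L M N).od = ∑ i : Fin N, if Odd (i : ℕ) then ePr L M N i else 0 := rfl
  rw [h0, LinearMap.sum_apply, Finset.sum_apply, Finset.sum_eq_single j]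
  · by_cases h : Odd (j : ℕ)
    · rw [if_pos h, if_pos h, ePr_apply, Pi.single_eq_same]
    · rw [if_neg h, if_neg h]
      rfl
  · intro i _ hij
    by_cases h : Odd (i : ℕ)
    · rw [if_pos h, ePr_apply, Pi.single_eq_of_ne hij.symm]
    · rw [if_neg h]
      rfl
  · intro h
    exact absurd (Finset.mem_univ j) h

private theorem VPar_main {N K : ℕ} (q : Fin K → Fin N) (hq : Function.Injective q)
    (W : Submodule L (TV M N))
    (hW : ∀ x : TV M N, x ∈ W ↔ ∀ i, (∀ j, q j ≠ i) → x i = 0) :
    Nonempty (W ≃ₗ[L] ∀ j : Fin K, M (q j)) := by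
  let f : W →ₗ[L] ∀ j : Fin K, M (q j) :=
    LinearMap.pi fun j => (LinearMap.proj (q j) : TV M N →ₗ[L] M (q j)) ∘ₗ W.subtype
  have hf : ∀ (x : W) (j : Fin K), f x j = x.1 (q j) := fun _ _ => rfl
  refine ⟨LinearEquiv.ofBijective f ⟨?_, ?_⟩⟩
  · intro x y hxy
    apply Subtype.ext
    funext i
    by_cases h : ∃ j, q j = i
    · obtain ⟨j, rfl⟩ := h
      have := congrFun hxy j
      rwa [hf, hf] at this
    · have h' : ∀ j, q j ≠ i := fun j hj => h ⟨j, hj⟩
      rw [(hW x.1).1 x.2 i h', (hW y.1).1 y.2 i h']
  · intro y
    refine ⟨⟨∑ j, Pi.single (q j) (y j), (hW _).2 fun i hi => ?_⟩, ?_⟩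
    · rw [Finset.sum_apply]
      refine Finset.sum_eq_zero fun j _ => ?_
      exact Pi.single_eq_of_ne (hi j).symm _
    · funext j
      rw [hf]
      change (∑ j, Pi.single (q j) (y j) : TV M N) (q j) = y j
      rw [Finset.sum_apply, Finset.sum_eq_single j]
      · exact Pi.single_eq_same _ _
      · intro b _ hb
        exact Pi.single_eq_of_ne (fun h => hb (hq h).symm) _
      · intro h
        exact absurd (Finset.mem_univ j) h

end VParAux

theorem sVPar : S_VPar := by
  intro L _ M _ _ K
  constructor
  · refine VPar_main (fun j : Fin K => (⟨2 * j, by omega⟩ : Fin (2 * K))) ?_ _ ?_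
    · intro i j h
      have := congrArg Fin.val h
      simp only at this
      exact Fin.ext (by omega)
    · intro x
      rw [LinearMap.mem_ker]
      constructor
      · intro h i hi
        have h1 := congrFun h i
        rw [VPar_od] at h1
        have hodd : Odd (i : ℕ) := by
          rcases Nat.even_or_odd (i : ℕ) with h2 | h2
          · exfalso
            obtain ⟨k, hk⟩ := h2
            refine hi ⟨k, by omega⟩ (Fin.ext ?_)
            simp only
            omega
          · exact h2
        rwa [if_pos hodd] at h1
      · intro h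
        funext i
        rw [VPar_od]
        split_ifs with ho
        · refine h i fun j hj => ?_
          have := congrArg Fin.val hj
          simp only at this
          obtain ⟨k, hk⟩ := ho
          omega
        · rfl
  · refine VPar_main (fun j : Fin K => (⟨2 * j + 1, by omega⟩ : Fin (2 * K))) ?_ _ ?_
    · intro i j h
      have := congrArg Fin.val h
      simp only at this
      exact Fin.ext (by omega)
    · intro x
      rw [LinearMap.mem_range]
      constructor
      · rintro ⟨y, rfl⟩ i hi
        rw [VPar_od]
        have hodd : ¬ Odd (i : ℕ) := by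
          rintro ⟨k, hk⟩
          refine hi ⟨k, by omega⟩ (Fin.ext ?_)
          simp only
          omega
        rw [if_neg hodd]
      · intro h
        refine ⟨x, ?_⟩
        funext i
        rw [VPar_od]
        split_ifs with ho
        · rfl
        · refine (h i fun j hj => ho ?_).symm
          have := congrArg Fin.val hj
          simp only at this
          exact ⟨j, by omega⟩

end HPx
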