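import Pool.Agent.Lib.MP_181146_gt.HP.SpecP
import Pool.Agent.Lib.MP_181146_gt.HE.SpecS

/-! # Project HP, module Vtx (helper47): products with a vertex

The auxiliary statements are those of `HE/SUn.lean`, with the vertex `w` in place of the unit. -/

set_option autoImplicit false

namespace HPx

open scoped TensorProduct
open HEp

private theorem Vtx_id (k : Type) [CommRing k] {E : Type} [TopologicalSpace E]
    (x : Ch k (Sing E)) : cmap k (SingMap (ContinuousMap.id E)) x = x := by
  have h : cmap k (SingMap (ContinuousMap.id E)) = LinearMap.id := ch_ext fun n y => by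
    rw [cmap_sx]
    rfl
  exact LinearMap.congr_fun h x

private theorem Vtx_right (k : Type) [CommRing k] {E : Type} [TopologicalSpace E] (v : E)
    (m : C(E × E, E)) (x : Ch k (Sing E)) :
    cmap k (SingMul m) (cmap k (SSHom.pair (SSHom.id (Sing E)) (SSHom.cst (Sing E) (vtx v))) x) =
      cmap k (SingMap (m.comp (ContinuousMap.prodMk (ContinuousMap.id E)
        (ContinuousMap.const E v)))) x := by
  have h : cmap k (SingMul m) ∘ₗ
      cmap k (SSHom.pair (SSHom.id (Sing E)) (SSHom.cst (Sing E) (vtx v))) =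
      cmap k (SingMap (m.comp (ContinuousMap.prodMk (ContinuousMap.id E)
        (ContinuousMap.const E v)))) := ch_ext fun n y => by
    rw [LinearMap.comp_apply, cmap_sx, cmap_sx, cmap_sx]
    rfl
  exact LinearMap.congr_fun h x

private theorem Vtx_hot (hSHot : S_SHot) (k : Type) [CommRing k] {E : Type} [TopologicalSpace E]
    (g : C(E, E)) (hg : (ContinuousMap.id E).Homotopic g) (x : Ch k (Sing E))
    (hx : bd k (Sing E) x = 0) : ∃ y, cmap k (SingMap g) x - x = bd k (Sing E) y := by
  obtain ⟨h, hh⟩ := hSHot k E E (ContinuousMap.id E) g hg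
  refine ⟨h x, ?_⟩
  have h1 : cmap k (SingMap g) x - cmap k (SingMap (ContinuousMap.id E)) x =
      bd k (Sing E) (h x) + h (bd k (Sing E) x) := hh x
  rw [Vtx_id, hx, map_zero, add_zero] at h1
  exact h1

/-- Every `0`-simplex is a vertex. -/
private theorem Vtx_eq {E : Type} [TopologicalSpace E] (σ : (Sing E).K 0) :
    ∃ w : E, σ = vtx w := by
  have hsub : ∀ p q : Pool.Agent.Lib.SingHom.Sx 0, p = q := by
    intro p q
    apply Subtype.ext
    funext i
    have hp := p.2.2
    have hq := q.2.2
    rw [Fin.sum_univ_one] at hp hq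
    have hi : i = 0 := Fin.eq_zero i
    rw [hi]
    exact hp.trans hq.symm
  obtain ⟨p⟩ : Nonempty (Pool.Agent.Lib.SingHom.Sx 0) := inferInstance
  let τ : C(Pool.Agent.Lib.SingHom.Sx 0, E) := σ
  refine ⟨τ p, ?_⟩
  change τ = ContinuousMap.const _ (τ p)
  apply ContinuousMap.ext
  intro q
  rw [ContinuousMap.const_apply, hsub q p]

theorem sVtx (hSHot : HEp.S_SHot) (hNabU : HEp.S_NabU) : S_Vtx := by
  intro e he k _ E _ _ v m hA c hbc x hxb σ
  obtain ⟨w, rfl⟩ := Vtx_eq σ
  obtain ⟨n1, -, -⟩ := hNabU e he k (Sing E) (Sing E)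
  have hne : Nonempty E := ⟨v⟩
  have h1 : (ContinuousMap.const E v).Homotopic (ContinuousMap.const E w) :=
    ContinuousMap.homotopic_const_iff.2 (PathConnectedSpace.joined v w)
  have h2 : (m.comp (ContinuousMap.prodMk (ContinuousMap.id E) (ContinuousMap.const E v))).Homotopic
      (m.comp (ContinuousMap.prodMk (ContinuousMap.id E) (ContinuousMap.const E w))) :=
    (ContinuousMap.Homotopic.refl m).comp ((ContinuousMap.Homotopic.refl _).prodMk h1)
  obtain ⟨y, hy⟩ := Vtx_hot hSHot k _ (hA.trans h2) c hbc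
  have h3 : mu k e (SingMul m) (c ⊗ₜ sx k (vtx w)) = c + bd k (Sing E) y := by
    rw [← hy, mu, LinearMap.comp_apply, n1, Vtx_right]
    abel
  rw [h3, map_add, hxb, add_zero]

end HPx
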