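import Pool.Agent.Lib.MP_181146_gt.HP.SpecQ
import Pool.Agent.Lib.MP_181146_gt.HE.SpecS
import Pool.Agent.Lib.MP_181146_gt.HE.SUn

/-! # Project HP, module Zet (helper47): the cocycle on products of cycles -/

set_option autoImplicit false

namespace HPx

open scoped TensorProduct
open HEp

private theorem Zet_aug_bd (K : SS) (y : Ch ℤ K) : aug ℤ K (bd ℤ K y) = 0 := by
  have h : aug ℤ K ∘ₗ bd ℤ K = 0 := ch_ext fun n x => by
    rw [LinearMap.comp_apply, LinearMap.zero_apply]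
    cases n with
    | zero => rw [bd_sx_zero, map_zero]
    | succ n =>
      rw [bd_sx, map_sum]
      cases n with
      | zero =>
        rw [Fin.sum_univ_two]
        simp only [map_smul, aug_sx_zero]
        simp
      | succ n =>
        refine Finset.sum_eq_zero fun i _ => ?_
        rw [map_smul, aug_sx_succ, smul_zero]
  exact LinearMap.congr_fun h y

private theorem Zet_aug_od (K : SS) (y : Ch ℤ K) : aug ℤ K (od ℤ K y) = 0 := by
  have h : aug ℤ K ∘ₗ od ℤ K = 0 := ch_ext fun n x => by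
    rw [LinearMap.comp_apply, LinearMap.zero_apply, od_sx]
    split_ifs with hn
    · cases n with
      | zero => exact absurd hn (by decide)
      | succ n => exact aug_sx_succ ℤ x
    · rw [map_zero]
  exact LinearMap.congr_fun h y

private theorem Zet_p1 (K : SS) (z : Ch ℤ K ⊗[ℤ] Ch ℤ K) :
    p1 (((cz K).tens (cz K)).d z) = bd ℤ K (p1 z) := by
  induction z with
  | zero =>
    unfold p1
    simp only [map_zero]
  | add x y hx hy =>
    unfold p1 at hx hy ⊢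
    simp only [map_add]
    rw [hx, hy]
  | tmul a b =>
    rw [DG.tens_d]
    change p1 (bd ℤ K a ⊗ₜ b + (cz K).sg a ⊗ₜ bd ℤ K b) = _
    unfold p1
    rw [map_add, map_add, TensorProduct.map_tmul, TensorProduct.map_tmul, TensorProduct.map_tmul,
      TensorProduct.rid_tmul, TensorProduct.rid_tmul, TensorProduct.rid_tmul, Zet_aug_bd, zero_smul,
      add_zero, map_smul]
    rfl

private theorem Zet_p2 (K : SS) (z : Ch ℤ K ⊗[ℤ] Ch ℤ K) :
    p2 (((cz K).tens (cz K)).d z) = bd ℤ K (p2 z) := by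
  induction z with
  | zero =>
    unfold p2
    simp only [map_zero]
  | add x y hx hy =>
    unfold p2 at hx hy ⊢
    simp only [map_add]
    rw [hx, hy]
  | tmul a b =>
    rw [DG.tens_d]
    change p2 (bd ℤ K a ⊗ₜ b + (a - (2 : ℤ) • od ℤ K a) ⊗ₜ bd ℤ K b) = _
    unfold p2
    rw [map_add, map_add, TensorProduct.map_tmul, TensorProduct.map_tmul, TensorProduct.map_tmul,
      TensorProduct.lid_tmul, TensorProduct.lid_tmul, TensorProduct.lid_tmul, Zet_aug_bd, zero_smul,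
      zero_add, map_sub, map_smul, Zet_aug_od, smul_zero, sub_zero, map_smul]
    rfl

theorem sZet (hTG : S_TG) (hSHot : HEp.S_SHot) (hNabD : HEp.S_NabD) (_hNabG : HEp.S_NabG)
    (hNabU : HEp.S_NabU) : S_Zet := by
  intro e he G _ X E _ act Λ v m hA hB q hE u xA xC hu hxA hxC z hz hDz
  obtain ⟨-, -, hT⟩ := hTG ℤ (Sing E) (vtx v) (q + 1) (Nat.succ_pos q) hE.1 hE.2
  obtain ⟨w, -, hw⟩ := hT z hz hDz
  have hw' : z = sx ℤ (vtx v) ⊗ₜ p2 z + p1 z ⊗ₜ sx ℤ (vtx v) +
      ((cz (Sing E)).tens (cz (Sing E))).d w := hw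
  have h1 : bd ℤ (Sing E) (p1 z) = 0 := by
    rw [← Zet_p1, hDz]
    unfold p1
    simp only [map_zero]
  have h2 : bd ℤ (Sing E) (p2 z) = 0 := by
    rw [← Zet_p2, hDz]
    unfold p2
    simp only [map_zero]
  obtain ⟨s1, s2⟩ := HEp.sSUn hSHot hNabU ℤ e he E v m hA hB
  obtain ⟨y2, hy2⟩ := s1 (p2 z) h2
  obtain ⟨y1, hy1⟩ := s2 (p1 z) h1
  have h3 : mu ℤ e (SingMul m) (sx ℤ (vtx v) ⊗ₜ p2 z) = p2 z + bd ℤ (Sing E) y2 := by
    rw [← hy2]
    abel
  have h4 : mu ℤ e (SingMul m) (p1 z ⊗ₜ sx ℤ (vtx v)) = p1 z + bd ℤ (Sing E) y1 := by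
    rw [← hy1]
    abel
  have h5 : mu ℤ e (SingMul m) (((cz (Sing E)).tens (cz (Sing E))).d w) =
      bd ℤ (Sing E) (mu ℤ e (SingMul m) w) := by
    rw [mu, LinearMap.comp_apply, LinearMap.comp_apply, hNabD e he ℤ (Sing E) (Sing E) w, cmap_bd]
  have h6 : mu ℤ e (SingMul m) z = p1 z + p2 z +
      bd ℤ (Sing E) (y1 + y2 + mu ℤ e (SingMul m) w) := by
    have h7 : mu ℤ e (SingMul m) z = mu ℤ e (SingMul m) (sx ℤ (vtx v) ⊗ₜ p2 z +
        p1 z ⊗ₜ sx ℤ (vtx v) + ((cz (Sing E)).tens (cz (Sing E))).d w) := by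
      rw [← hw']
    rw [h7, map_add, map_add, h3, h4, h5, map_add, map_add]
    abel
  have hc1 : X.Cy (q + 1) (Λ.f' (q + 1) (p1 z)) := by
    change X.d q (Λ.f' (q + 1) (p1 z)) = 0
    rw [← Λ.f'd, h1, map_zero]
  have hc2 : X.Cy (q + 1) (Λ.f' (q + 1) (p2 z)) := by
    change X.d q (Λ.f' (q + 1) (p2 z)) = 0
    rw [← Λ.f'd, h2, map_zero]
  rw [h6, map_add, map_add, map_add, map_add, Λ.f'd, hu, add_zero, hxA _ hc1, hxC _ hc2]

end HPx
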