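import Pool.Agent.Lib.MP_181146_gt.HP.AM
import Pool.Agent.Lib.MP_181146_gt.HP.AcEx
import Pool.Agent.Lib.MP_181146_gt.HP.Alg
import Pool.Agent.Lib.MP_181146_gt.HP.AxF
import Pool.Agent.Lib.MP_181146_gt.HP.Bas
import Pool.Agent.Lib.MP_181146_gt.HP.CapD
import Pool.Agent.Lib.MP_181146_gt.HP.Cncl
import Pool.Agent.Lib.MP_181146_gt.HP.CobI
import Pool.Agent.Lib.MP_181146_gt.HP.Core
import Pool.Agent.Lib.MP_181146_gt.HP.Cyc
import Pool.Agent.Lib.MP_181146_gt.HP.Exi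
import Pool.Agent.Lib.MP_181146_gt.HP.Ext
import Pool.Agent.Lib.MP_181146_gt.HP.Fex
import Pool.Agent.Lib.MP_181146_gt.HP.FunH
import Pool.Agent.Lib.MP_181146_gt.HP.GdM
import Pool.Agent.Lib.MP_181146_gt.HP.GdN
import Pool.Agent.Lib.MP_181146_gt.HP.GdO
import Pool.Agent.Lib.MP_181146_gt.HP.GdP
import Pool.Agent.Lib.MP_181146_gt.HP.Grp
import Pool.Agent.Lib.MP_181146_gt.HP.HmQ
import Pool.Agent.Lib.MP_181146_gt.HP.Hpn
import Pool.Agent.Lib.MP_181146_gt.HP.Jex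
import Pool.Agent.Lib.MP_181146_gt.HP.LfE
import Pool.Agent.Lib.MP_181146_gt.HP.LkAc
import Pool.Agent.Lib.MP_181146_gt.HP.LkEx
import Pool.Agent.Lib.MP_181146_gt.HP.LxD
import Pool.Agent.Lib.MP_181146_gt.HP.MId
import Pool.Agent.Lib.MP_181146_gt.HP.MuA
import Pool.Agent.Lib.MP_181146_gt.HP.Omg
import Pool.Agent.Lib.MP_181146_gt.HP.PLift
import Pool.Agent.Lib.MP_181146_gt.HP.PStop
import Pool.Agent.Lib.MP_181146_gt.HP.PhP
import Pool.Agent.Lib.MP_181146_gt.HP.Phi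
import Pool.Agent.Lib.MP_181146_gt.HP.Pol
import Pool.Agent.Lib.MP_181146_gt.HP.Prd
import Pool.Agent.Lib.MP_181146_gt.HP.Prm
import Pool.Agent.Lib.MP_181146_gt.HP.Red
import Pool.Agent.Lib.MP_181146_gt.HP.Rel
import Pool.Agent.Lib.MP_181146_gt.HP.Rho
import Pool.Agent.Lib.MP_181146_gt.HP.Rng
import Pool.Agent.Lib.MP_181146_gt.HP.SHE
import Pool.Agent.Lib.MP_181146_gt.HP.Swp
import Pool.Agent.Lib.MP_181146_gt.HP.T1
import Pool.Agent.Lib.MP_181146_gt.HP.TG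
import Pool.Agent.Lib.MP_181146_gt.HP.TTex
import Pool.Agent.Lib.MP_181146_gt.HP.TotD
import Pool.Agent.Lib.MP_181146_gt.HP.Tow
import Pool.Agent.Lib.MP_181146_gt.HP.TowP
import Pool.Agent.Lib.MP_181146_gt.HP.TowU
import Pool.Agent.Lib.MP_181146_gt.HP.TowZ
import Pool.Agent.Lib.MP_181146_gt.HP.Tri
import Pool.Agent.Lib.MP_181146_gt.HP.Trn
import Pool.Agent.Lib.MP_181146_gt.HP.Tw3
import Pool.Agent.Lib.MP_181146_gt.HP.Tw4
import Pool.Agent.Lib.MP_181146_gt.HP.TwD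
import Pool.Agent.Lib.MP_181146_gt.HP.TwG
import Pool.Agent.Lib.MP_181146_gt.HP.UNn
import Pool.Agent.Lib.MP_181146_gt.HP.UnB
import Pool.Agent.Lib.MP_181146_gt.HP.VPar
import Pool.Agent.Lib.MP_181146_gt.HP.Vtx
import Pool.Agent.Lib.MP_181146_gt.HP.Zet
import Pool.Agent.Lib.MP_181146_gt.HE.All
import Pool.Agent.Lib.MP_181146_gt.HS.All

/-!
# Project HP: assembly of all modules
-/

set_option autoImplicit false

namespace HPx

theorem pGdM : S_GdM := sGdM 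

theorem pGdO : S_GdO := sGdO 

theorem pGdN : S_GdN := sGdN pGdM

theorem pGdP : S_GdP := sGdP 

theorem pPol : S_Pol := sPol 

theorem pRng : S_Rng := sRng 

theorem pOmg : S_Omg := sOmg pRng

theorem pRed : S_Red := sRed pGdM pGdO pGdN pGdP pPol pOmg

theorem pMId : S_MId := sMId 

theorem pTri : S_Tri := sTri 

theorem pFex : S_Fex := sFex 

theorem pAlg : S_Alg := sAlg pRed pMId pTri pFex pGdM pGdO pGdN

theorem pSwp : S_Swp := sSwp 

theorem pVPar : S_VPar := sVPar 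

theorem pCncl : S_Cncl := sCncl 

theorem pAM : S_AM := sAM pAlg pSwp pVPar pCncl

theorem pAcEx : S_AcEx := sAcEx HEp.pSH0

theorem pAxF : S_AxF := sAxF 

theorem pExt : S_Ext := sExt 

theorem pBas : S_Bas := sBas pExt pAxF

theorem pCapD : S_CapD := sCapD HEp.pDlG

theorem pCobI : S_CobI := sCobI pExt pAxF

theorem pGrp : S_Grp := sGrp 

theorem pTow : S_Tow := sTow pCobI

theorem pTowU : S_TowU := sTowU pCobI

theorem pFunH : S_FunH := sFunH 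

theorem pTowZ : S_TowZ := sTowZ pFunH

theorem pTowP : S_TowP := sTowP 

theorem pCyc : S_Cyc := sCyc pTow pTowU pTowZ pTowP

theorem pPLift : S_PLift := sPLift 

theorem pHmQ : S_HmQ := sHmQ pPLift

theorem pRho : S_Rho := sRho 

theorem pTG : S_TG := sTG pRho

theorem pJex : S_Jex := sJex pPLift pTG

theorem pZet : S_Zet := sZet pTG HEp.pSHot HEp.pNabD HEp.pNabG HEp.pNabU

theorem pPrd : S_Prd := sPrd pHmQ pJex pZet HEp.pNabD HEp.pNabG HEp.pNabN HEp.pNabU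

theorem pPhi : S_Phi := sPhi HEp.pNabD HEp.pNabG HEp.pNabN HEp.pNabU HEp.pDlG HEp.pSHot

theorem pPrm : S_Prm := sPrm pTG HEp.pDlG HEp.pDlC

theorem pPhP : S_PhP := sPhP pPhi pPrm

theorem pExi : S_Exi := sExi pGrp pBas pCyc pPrd pPhP

theorem pMuA : S_MuA := sMuA HEp.pNabD HEp.pNabG HEp.pNabN

theorem pUNn : S_UNn := sUNn HEp.pFAB HEp.pAMh

theorem pHpn : S_Hpn := sHpn pUNn HEp.pPhi HEp.pPsi HEp.pCon HEp.pCtrT HEp.pDlG

theorem pLxD : S_LxD := sLxD 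

theorem pT1 : S_T1 := sT1 pHpn pLxD

theorem pTwD : S_TwD := sTwD pLxD HEp.pDlG HEp.pMid HEp.pTCM HEp.pNabD HEp.pNabG

theorem pTw3 : S_Tw3 := sTw3 HEp.pNabG HEp.pDlG HEp.pDlC

theorem pTw4 : S_Tw4 := sTw4 HEp.pNabG HEp.pDlG

theorem pTwG : S_TwG := sTwG HEp.pNabN HEp.pDlG HEp.pMid

theorem pVtx : S_Vtx := sVtx HEp.pSHot HEp.pNabU

theorem pSHE : S_SHE := sSHE 

theorem pUnB : S_UnB := sUnB pSHE HEp.pNabU

theorem pRel : S_Rel := sRel pMuA pCapD pT1 pTwD pTw3 pTw4 pTwG pVtx pUnB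

theorem pTrn : S_Trn := sTrn 

theorem pTTex : S_TTex := sTTex 

theorem pTotD : S_TotD := sTotD 

theorem pLkEx : S_LkEx := sLkEx 

theorem pLkAc : S_LkAc := sLkAc 

theorem pCore : S_Core := sCore pExi pRel pTrn pTTex pAM pTotD pPrm pLkEx pLkAc pAcEx

theorem pLfE : S_LfE := sLfE 

theorem pPStop : S_PStop := sPStop pCore pLfE HEp.pLpc HEp.pDCo HEp.pPNx HEp.pEZex HSp.pTN

end HPx
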