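import Pool.Agent.Lib.MP_181146_gt.HP.DefsQ
import Pool.Agent.Lib.MP_181146_gt.HP.SpecP

/-!
# Project HP, part 2: existence of the invariant cocycle.  Every statement is a separate task; the
proof of each is in the docstring.

`X : AX G` is a complex of finitely generated projective `ℤ[G]`-modules with augmentation, `G` finite
abelian.  `N = 1 + g + … + g^(m-1)` (`tw g m i`, `i` even), `t = g - 1` (`tw g m i`, `i` odd).
-/

set_option linter.unusedVariables false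
set_option autoImplicit false

namespace HPx

open scoped TensorProduct
open HEp

/-! ## E1. Functionals -/

/-- **Ext.** Extension of functionals.  Proof: `N / range α ≃ range β ⊆ K` is finitely generated and torsion
free, hence free, so `range α` is a direct summand of `N`; define `ξ` on `range α` by `ξ (α x) = ζ x`
(well defined by `hζ`) and by `0` on a complement. -/
def S_Ext : Prop :=
  ∀ (M N K : Type) [AddCommGroup M] [AddCommGroup N] [AddCommGroup K] [Module.Finite ℤ N]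
    [Module.Free ℤ K] (α : M →+ N) (β : N →+ K) (hβα : ∀ x, β (α x) = 0)
    (hex : ∀ y, β y = 0 → ∃ x, α x = y) (ζ : M →+ ℤ) (hζ : ∀ x, α x = 0 → ζ x = 0),
    ∃ ξ : N →+ ℤ, ∀ x, ζ x = ξ (α x)

/-- **AxF.** A finitely generated projective module over `ℤ[G]`, `G` finite, is a finitely generated
free abelian group. -/
def S_AxF : Prop :=
  ∀ (G : Type) [CommGroup G] [Finite G] (M : Type) [AddCommGroup M] [Module (ZG G) M]
    [Module.Finite (ZG G) M] [Module.Projective (ZG G) M],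
    Module.Finite ℤ M ∧ Module.Free ℤ M

/-- **FunH.** Functionals on a projective module, `m` the order of `g`.
Proof: for the free module of rank one (basis `G`) choose representatives `r` of the cosets of `⟨g⟩`;
if `f (N x) = 0`, i.e. `∑_j f (g^j r) = 0`, put `c (g^j r) = ∑_(i<j) f (g^i r)`, `0 ≤ j < m`; if `f (t x) = 0`
put `c r = f r`, `c (g^j r) = 0` for `0 < j < m`.  Finite free modules: componentwise.  In general
`M` is a direct summand of a finite free module: extend `f` by `0`, restrict `c`. -/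
def S_FunH : Prop :=
  ∀ (G : Type) [CommGroup G] [Finite G] (M : Type) [AddCommGroup M] [Module (ZG G) M]
    [Module.Finite (ZG G) M] [Module.Projective (ZG G) M] (g : G) (f : M →+ ℤ),
    ((∀ x, f (tw g (orderOf g) 0 • x) = 0) → ∃ c : M →+ ℤ, ∀ x, f x = c (tw g (orderOf g) 1 • x)) ∧
    ((∀ x, f (tw g (orderOf g) 1 • x) = 0) → ∃ c : M →+ ℤ, ∀ x, f x = c (tw g (orderOf g) 0 • x))

/-- **CobI** (from Ext, AxF).  Cocycles in the exact range.  (1) a functional on `P (i+1)`, `i < n`, which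
vanishes on cycles factors through `d i`.  (2) a cocycle of degree `i + 1 < n` is a coboundary (exactness:
it vanishes on cycles).  (3) a cocycle of degree `0 < n` is a multiple of the augmentation.
Proof of (1): Ext with `α = d i`, `β = d (i-1)`, or `β = ε` for `i = 0` (`K = ℤ`). -/
def S_CobI : Prop :=
  ∀ (G : Type) [CommGroup G] [Finite G] (X : AX G) (n : ℕ) (hX : X.Ac n),
    (∀ i, i < n → ∀ u : X.P (i + 1) →+ ℤ, (∀ x, X.d i x = 0 → u x = 0) →
      ∃ ξ : X.P i →+ ℤ, ∀ x, u x = ξ (X.d i x)) ∧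
    (∀ i, i + 1 < n → ∀ u : X.P (i + 1) →+ ℤ, X.Coc u → ∃ ξ : X.P i →+ ℤ, ∀ x, u x = ξ (X.d i x)) ∧
    (0 < n → ∀ u : X.P 0 →+ ℤ, X.Coc u → ∃ j : ℤ, ∀ x, u x = j * X.ε x)

/-! ## E2. Towers -/

/-- **Tow** (from CobI).  Existence of a tower.  Proof: `b n = u ∘ h n` with `h` of `PN` for `g`:
`u (t x) = u (d h x + h d x) = b n (d x)`.  `b n (N (d y)) = b n (d (N y)) = u (t N y) = 0` (`g^m = 1`), so
`b n ∘ N` is a cocycle of degree `n < n + 1` and `= b (n-1) ∘ d` by CobI (2) (for `n = 0`: `= z ε` by CobI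
(3)).  Then alternately `b i ∘ t`, `b i ∘ N`: `b i (τ_i (d y)) = b i (d (τ_i y)) = b (i+1) (τ_(i+1) τ_i y) = 0`
since `N t = 0`. -/
def S_Tow : Prop :=
  ∀ (G : Type) [CommGroup G] [Finite G] (X : AX G) (n : ℕ) (hn : Even n) (hX : X.Ac (n + 1))
    (hN : X.PN) (g : G) (m : ℕ) (hg : g ^ m = 1) (u : X.P (n + 1) →+ ℤ) (hu : X.Coc u),
    ∃ z : ℤ, Nonempty (X.Tower g m n u z)

/-- **TowU** (from CobI).  The last value is unique modulo `m`.  Proof: `u = ξ ∘ d n` by CobI (1).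
`(b n - ξ t) (d x) = u (t x) - ξ (t d x) = 0`, so `b n = ξ t + η_(n-1) d` (CobI (2)); inductively
`b i = η_i σ_i + η_(i-1) d`, `σ_i = t` for even `i`, `N` for odd `i`, since
`(b (i-1) - η_(i-1) σ_(i-1)) (d x) = b i (τ_i x) - η_(i-1) (σ_(i-1) d x) = η_i (σ_i τ_i x) = 0` (`σ_(i-1) = τ_i`).
In degree `0`: `b 0 = η_0 t + j ε` (CobI (3)), `z ε x = b 0 (N x) = j m ε x`. -/
def S_TowU : Prop :=
  ∀ (G : Type) [CommGroup G] [Finite G] (X : AX G) (n : ℕ) (hn : Even n) (hX : X.Ac (n + 1))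
    (g : G) (m : ℕ) (hg : g ^ m = 1) (u : X.P (n + 1) →+ ℤ)
    (hu : ∀ y, X.Cy (n + 1) y → u y = 0) (z : ℤ) (T : X.Tower g m n u z), (m : ℤ) ∣ z

/-- **TowZ** (from FunH).  If the last value is divisible by the order of `g` the cocycle can be made
invariant.  Proof: `z = j m`; replace `b 0` by `b 0 - j ε` (the relation for `b 1` is unchanged as
`ε d = 0`): `b 0 ∘ N = 0`, so `b 0 = c_0 ∘ t` (FunH).  `b 1 (t x) = b 0 (d x) = c_0 (t d x) = c_0 (d t x)`, so
`(b 1 - c_0 d) ∘ t = 0` and `b 1 = c_0 d + c_1 N` (FunH); `(b 2 - c_1 d) ∘ N = 0`, `b 2 = c_1 d + c_2 t`, and so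
on up to `b n = c_(n-1) d + c_n t` (`n` even); `u (t x) = b n (d x) = c_n (t d x) = c_n (d t x)`; so
`x = u - c_n ∘ d` is invariant under `g`, hence under the powers of `g`, it is a cocycle and agrees
with `u` on cycles. -/
def S_TowZ : Prop :=
  ∀ (G : Type) [CommGroup G] [Finite G] (X : AX G) (n : ℕ) (hn : Even n)
    (g : G) (u : X.P (n + 1) →+ ℤ) (hu : X.Coc u) (z : ℤ) (T : X.Tower g (orderOf g) n u z)
    (hz : (orderOf g : ℤ) ∣ z), X.Inv (Subgroup.zpowers g) u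

/-- **TowP.** Transport of a tower by a map `φ` with `φ (g x) = g⁻¹ φ x`, `n ≡ 2` modulo `4`.
Proof: `b' i = s_i b i (g⁻¹ φ ·)` for even `i` and `b' i = s_i b i (φ ·)` for odd `i`, `s_n = s_(n-1) = -1`,
`s_(n-2) = s_(n-3) = 1`, and so on: `s_i = (-1)^((n-i)/2 + 1)` (integer part), `s_0 = 1`.
`u (φ (t x)) = u (g⁻¹ φ x - φ x) = - u (t g⁻¹ φ x) = - b n (d g⁻¹ φ x)`.  For even `i > 0`:
`b' i (N x) = s_i b i (g⁻¹ φ N x) = s_i b i (N φ x) = s_i b (i-1) (φ d x)` (`φ N = N φ`, `g⁻¹ N = N` as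
`g^m = 1`).  For odd `i`: `b' i (t x) = s_i b i (φ (g x) - φ x) = - s_i b i (t g⁻¹ φ x) =
- s_i b (i-1) (g⁻¹ φ d x)`. -/
def S_TowP : Prop :=
  ∀ (G : Type) [CommGroup G] (X : AX G) (n : ℕ) (hn : n % 4 = 2)
    (g : G) (m : ℕ) (hg : g ^ m = 1) (u : X.P (n + 1) →+ ℤ) (z : ℤ) (T : X.Tower g m n u z)
    (φ : ∀ i, X.P i →+ X.P i)
    (φg : ∀ i x, φ i (MonoidAlgebra.of ℤ G g • x) = MonoidAlgebra.of ℤ G g⁻¹ • φ i x)
    (φd : ∀ i x, φ i (X.d i x) = X.d i (φ (i + 1) x)) (φε : ∀ x, X.ε (φ 0 x) = X.ε x),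
    Nonempty (X.Tower g m n (u.comp (φ (n + 1))) z)

/-- **Cyc** (from Tow, TowU, TowZ, TowP).  Cyclic subgroups, `m = orderOf g`.
Proof: let `T` be a tower for `u` with last value `z` (Tow).  TowP: a tower for `u ∘ φ` with last value
`z`.  Towers are additive: `u ∘ φ - (m - 1) u` has a tower with last value `z - (m - 1) z = (2 - m) z`, and this
cocycle vanishes on cycles (`hφ`, `u` kills boundaries), so `m ∣ (2 - m) z`, `m ∣ 2 z`.  If `m` is odd, `m ∣ z`
and TowZ applies.  If neither `u` nor `u'` is in `Inv`, then `m ∤ z`, `m ∤ z'` (TowZ), so `m` is even and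
`z ≡ z' ≡ m / 2`, `m ∣ z + z'`, and TowZ applies to `u + u'`.  (`Cy (n + 1) y` is `d n y = 0`.) -/
def S_Cyc : Prop :=
  ∀ (G : Type) [CommGroup G] [Finite G] (X : AX G) (n : ℕ) (hn : n % 4 = 2) (hX : X.Ac (n + 1))
    (hN : X.PN) (g : G) (φ : ∀ i, X.P i →+ X.P i)
    (φg : ∀ i x, φ i (MonoidAlgebra.of ℤ G g • x) = MonoidAlgebra.of ℤ G g⁻¹ • φ i x)
    (φd : ∀ i x, φ i (X.d i x) = X.d i (φ (i + 1) x)) (φε : ∀ x, X.ε (φ 0 x) = X.ε x)
    (hφ : ∀ y : X.P (n + 1), X.d n y = 0 →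
      ∃ w, φ (n + 1) y - ((orderOf g : ℤ) - 1) • y = X.d (n + 1) w),
    (Odd (orderOf g) → ∀ u : X.P (n + 1) →+ ℤ, X.Coc u → X.Inv (Subgroup.zpowers g) u) ∧
    ∀ u u' : X.P (n + 1) →+ ℤ, X.Coc u → X.Coc u' → ¬ X.Inv (Subgroup.zpowers g) u →
      ¬ X.Inv (Subgroup.zpowers g) u' → X.Inv (Subgroup.zpowers g) (u + u')

/-! ## E3. The product step -/

/-- **PLift.** Equivariant lifting.  `M` is projective over `ℤ[G]`, hence over `ℤ[H]` (`ℤ[G]` is a free
`ℤ[H]`-module via the injective `j`; compare `HE/RSfp.lean`).  `W`, `W'` abelian groups with actions of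
`H`, modules over `ℤ[H]` through `actHom`; lift `φ : M → D(S)` through the surjective linear map
`S → D(S)`. -/
def S_PLift : Prop :=
  ∀ (G : Type) [CommGroup G] (M : Type) [AddCommGroup M] [Module (ZG G) M]
    [Module.Projective (ZG G) M] (H : Type) [CommGroup H] (j : H →* G)
    (hj : Function.Injective j) (W W' : Type) [AddCommGroup W] [AddCommGroup W']
    (r : H →* AddMonoid.End W) (r' : H →* AddMonoid.End W') (D : W →+ W')
    (hD : ∀ h w, D (r h w) = r' h (D w)) (S : AddSubgroup W) (hS : ∀ h, ∀ w ∈ S, r h w ∈ S)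
    (φ : M →+ W') (hφ : ∀ h x, φ (MonoidAlgebra.of ℤ G (j h) • x) = r' h (φ x))
    (hex : ∀ x, ∃ w ∈ S, D w = φ x),
    ∃ ψ : M →+ W, (∀ x, ψ x ∈ S) ∧ (∀ x, D (ψ x) = φ x) ∧
      ∀ h x, ψ (MonoidAlgebra.of ℤ G (j h) • x) = r h (ψ x)

/-- **HmQ** (from PLift).  Chain maps over the augmentation are equivariantly homotopic to the identity.
Proof: by PLift construct `h i : P i → P (i + 1)`, `i ≤ q`, equivariant, with
`d (h 0 x) = κ 0 x - x` and `d (h (i+1) x) = κ (i+1) x - x - h i (d x)`, `i + 1 ≤ q` (right-hand sides are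
cycles, hence boundaries by `Ac`); `h = h q`. -/
def S_HmQ : Prop :=
  ∀ (G : Type) [CommGroup G] (X : AX G) (q : ℕ) (hX : X.Ac (q + 1)) (H : Type) [CommGroup H]
    (j : H →* G) (hj : Function.Injective j) (κ : ∀ i, X.P i →+ X.P i)
    (κg : ∀ i, i ≤ q + 1 → ∀ h x, κ i (MonoidAlgebra.of ℤ G (j h) • x) =
      MonoidAlgebra.of ℤ G (j h) • κ i x)
    (κd : ∀ i, i ≤ q → ∀ x, X.d i (κ (i + 1) x) = κ i (X.d i x))
    (κε : ∀ x, X.ε (κ 0 x) = X.ε x),
    ∃ h : X.P q →+ X.P (q + 1),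
      (∀ γ x, h (MonoidAlgebra.of ℤ G (j γ) • x) = MonoidAlgebra.of ℤ G (j γ) • h x) ∧
      ∀ x : X.P (q + 1), X.d q (κ (q + 1) x - x - h (X.d q x)) = 0

/-- **Jex** (from PLift, TG).  The equivariant chain map into the tensor square.
Proof: `H = A × C`, `j (a, c) = a c` (injective by `hAC`), acting on `W = Ch ⊗ Ch` by
`cmap (act a) ⊗ cmap (act c)`.  `J 0`: PLift with `D = augT`, `S = tgr 0`, `W' = ℤ` (`v ⊗ v ↦ 1`).
`J (i + 1)`, `i < n`: PLift with `D` the differential of the tensor product, `S = tgr (i + 1)`, `φ = J i ∘ d`: its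
values are in `tgr i`, are cycles (`D J i d = J (i-1) d d = 0`; for `i = 0`: `augT (J 0 d x) = ε (d x) = 0`), so
`hex` by TG.  Above `n` take `0`. -/
def S_Jex : Prop :=
  ∀ (G : Type) [CommGroup G] (X : AX G) (E : Type) [TopologicalSpace E] (act : G → C(E, E))
    (hact1 : act 1 = ContinuousMap.id E) (hact : ∀ a b, act (a * b) = (act a).comp (act b))
    (v : (Sing E).K 0) (n : ℕ) (hn : 0 < n) (hE : AcE E v n) (A C : Subgroup G) (hAC : A ⊓ C = ⊥),
    ∃ J : ∀ i, X.P i →+ Ch ℤ (Sing E) ⊗[ℤ] Ch ℤ (Sing E),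
      (∀ i, i ≤ n → ∀ x, J i x ∈ tgr (gr ℤ (Sing E)) (gr ℤ (Sing E)) i) ∧
      (∀ x, augT (aug ℤ (Sing E)) (aug ℤ (Sing E)) (J 0 x) = X.ε x) ∧
      (∀ i, i < n → ∀ x, ((cz (Sing E)).tens (cz (Sing E))).d (J (i + 1) x) = J i (X.d i x)) ∧
      ∀ i, i ≤ n → ∀ a ∈ A, ∀ c ∈ C, ∀ x, J i (MonoidAlgebra.of ℤ G (a * c) • x) =
        TensorProduct.map (cmap ℤ (SingMap (act a))) (cmap ℤ (SingMap (act c))) (J i x)

/-- **Zet** (from TG, HEp.SHot, HEp.NabD, HEp.NabG, HEp.NabU).  `u (f' (mu z)) = xA (f' z') + xC (f' z'')` for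
cycles `z ∈ tgr (q + 1)`, `z' = (1 ⊗ aug) z`, `z'' = (aug ⊗ 1) z`.
Proof: by TG `z = v ⊗ z'' + z' ⊗ v + D w`, `w ∈ tgr (q + 2)`; `z'`, `z''` are cycles of degree `q + 1`.
`f' (mu (D w)) = f' (bd (mu w)) = d (f' (mu w))` is killed by `u`.  `mu (v ⊗ z'') = cmap (m (v, ·)) z''` (NabU) is
homologous to `z''` (hB), so `u (f' (mu (v ⊗ z''))) = u (f' z'') = xC (f' z'')`, because `f' z''` is a
cycle.  Similarly for `z'`. -/
def S_Zet : Prop :=
  ∀ (e : ∀ p q : ℕ, Ch ℤ ((De p).prod (De q))) (he : EZ e) (G : Type) [CommGroup G] (X : AX G)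
    (E : Type) [TopologicalSpace E] (act : G → C(E, E)) (Λ : Lk X E act)
    (v : E) (m : C(E × E, E))
    (hA : ContinuousMap.Homotopic (ContinuousMap.id E)
      (m.comp (ContinuousMap.prodMk (ContinuousMap.id E) (ContinuousMap.const E v))))
    (hB : ContinuousMap.Homotopic (ContinuousMap.id E)
      (m.comp (ContinuousMap.prodMk (ContinuousMap.const E v) (ContinuousMap.id E))))
    (q : ℕ) (hE : AcE E (vtx v) (q + 1)) (u xA xC : X.P (q + 1) →+ ℤ) (hu : X.Coc u)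
    (hxA : ∀ y, X.Cy (q + 1) y → xA y = u y) (hxC : ∀ y, X.Cy (q + 1) y → xC y = u y)
    (z : Ch ℤ (Sing E) ⊗[ℤ] Ch ℤ (Sing E))
    (hz : z ∈ tgr (gr ℤ (Sing E)) (gr ℤ (Sing E)) (q + 1))
    (hDz : ((cz (Sing E)).tens (cz (Sing E))).d z = 0),
    u (Λ.f' (q + 1) (mu ℤ e (SingMul m) z)) = xA (Λ.f' (q + 1) (p1 z)) + xC (Λ.f' (q + 1) (p2 z))

/-- **Prd** (from HmQ, Jex, Zet, HEp.NabD, HEp.NabG, HEp.NabN, HEp.NabU).  The product step.
Proof: `J` of Jex for `n = q + 1`; `κ i = f' i ∘ mu ∘ J i` for `i ≤ q + 1` (and `κ i = id` above) satisfies the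
hypotheses of HmQ for `H = A × C`, `j (a, c) = a c`: `mu` is a chain map of degree `0`,
`mu ((a ⊗ c) z) = (a c) mu z` (`nab` natural, `m (a x, c y) = a c m (x, y)`), `aug (mu z) = augT z`,
`ε (f' 0 c) = aug c`.  With `h` of HmQ let `c y = κ y - y - h (d y)`, a cycle.
`x y = ζ (J y) - u (c y)`, `ζ z = xA (f' (p1 z)) + xC (f' (p2 z))`, `xA`, `xC` from the hypotheses.
(1) `x` agrees with `u` on cycles `y`: `J y` is a cycle of `tgr (q + 1)`, `ζ (J y) = u (κ y)` (Zet) and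
`κ y = y + c y`.  (2) cocycle: for `y ∈ P (q + 2)`, `J (d y)` is a cycle (`D (J (d y)) = J (d d y) = 0`),
`ζ (J (d y)) = u (κ (d y)) = u (d y + c (d y)) = u (c (d y))`.  (3) invariance under `a c`: `p1`, `p2` are
equivariant, `xA`, `xC` invariant, so `ζ (J (a c y)) = ζ (J y)`; `c (a c y) = a c (c y)`, and
`u (g y') = u y'` for cycles `y'` (PN: `g y' - y' = d (h_g y')`). Every element of `A ⊔ C` is `a c`. -/
def S_Prd : Prop :=
  ∀ (e : ∀ p q : ℕ, Ch ℤ ((De p).prod (De q))) (he : EZ e) (G : Type) [CommGroup G] (X : AX G)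
    (hN : X.PN) (E : Type) [TopologicalSpace E] (act : G → C(E, E))
    (hact1 : act 1 = ContinuousMap.id E) (hact : ∀ a b, act (a * b) = (act a).comp (act b))
    (Λ : Lk X E act) (v : E) (m : C(E × E, E))
    (hA : ContinuousMap.Homotopic (ContinuousMap.id E)
      (m.comp (ContinuousMap.prodMk (ContinuousMap.id E) (ContinuousMap.const E v))))
    (hB : ContinuousMap.Homotopic (ContinuousMap.id E)
      (m.comp (ContinuousMap.prodMk (ContinuousMap.const E v) (ContinuousMap.id E))))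
    (hm1 : ∀ (g : G) (x y : E), m (act g x, y) = act g (m (x, y)))
    (hm2 : ∀ (g : G) (x y : E), m (x, act g y) = act g (m (x, y)))
    (q : ℕ) (hX : X.Ac (q + 1)) (hE : AcE E (vtx v) (q + 1)) (u : X.P (q + 1) →+ ℤ)
    (hu : X.Coc u) (A C : Subgroup G) (hAC : A ⊓ C = ⊥) (h1 : X.Inv A u) (h2 : X.Inv C u),
    X.Inv (A ⊔ C) u

/-! ## E4. Power maps -/

/-- **Phi** (from HEp.NabD, HEp.NabG, HEp.NabN, HEp.NabU, HEp.DlG, HEp.SHot).  Power operations on chains.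
Proof: `φ 1 = id`, `φ (r + 1) = mu ∘ (φ r ⊗ 1) ∘ dl` for `r ≥ 1`.  It preserves `gr`, `aug`
(NabU, DlG) and commutes with `bd` (`φ r ⊗ 1` is a chain map as `φ r` preserves the parity).
Equivariance: `dl (g c) = (g ⊗ g) dl c`, `mu (g^r ⊗ g) = g^(r+1) mu`.  Vertices go to vertices:
`dl σ = σ ⊗ σ`, `mu (σ ⊗ σ') = m (σ, σ')`.  For `c`: `φ (r+1) c = mu (φ_r c ⊗ v) + mu (φ_r v ⊗ c) + bd (..)`,
`mu (φ_r c ⊗ v)` is homologous to `φ_r c` (hA), and `mu (σ ⊗ c)` to `c` for every vertex `σ` (path from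
`σ` to `v`, hB). -/
def S_Phi : Prop :=
  ∀ (e : ∀ p q : ℕ, Ch ℤ ((De p).prod (De q))) (he : EZ e) (G : Type) [CommGroup G]
    (E : Type) [TopologicalSpace E] [PathConnectedSpace E] (act : G → C(E, E))
    (hact1 : act 1 = ContinuousMap.id E) (hact : ∀ a b, act (a * b) = (act a).comp (act b))
    (v : E) (m : C(E × E, E))
    (hA : ContinuousMap.Homotopic (ContinuousMap.id E)
      (m.comp (ContinuousMap.prodMk (ContinuousMap.id E) (ContinuousMap.const E v))))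
    (hB : ContinuousMap.Homotopic (ContinuousMap.id E)
      (m.comp (ContinuousMap.prodMk (ContinuousMap.const E v) (ContinuousMap.id E))))
    (hm1 : ∀ (g : G) (x y : E), m (act g x, y) = act g (m (x, y)))
    (hm2 : ∀ (g : G) (x y : E), m (x, act g y) = act g (m (x, y))) (r : ℕ) (hr : 0 < r),
    ∃ φ : Ch ℤ (Sing E) →ₗ[ℤ] Ch ℤ (Sing E),
      (∀ c, φ (bd ℤ (Sing E) c) = bd ℤ (Sing E) (φ c)) ∧
      (∀ i, ∀ c ∈ gr ℤ (Sing E) i, φ c ∈ gr ℤ (Sing E) i) ∧
      (∀ c, aug ℤ (Sing E) (φ c) = aug ℤ (Sing E) c) ∧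
      (∀ (g : G) c, φ (cmap ℤ (SingMap (act g)) c) = cmap ℤ (SingMap (act (g ^ r))) (φ c)) ∧
      ∀ c, bd ℤ (Sing E) c = 0 → (∃ w, dl ℤ (Sing E) c = c ⊗ₜ sx ℤ (vtx v) +
        sx ℤ (vtx v) ⊗ₜ c + ((cz (Sing E)).tens (cz (Sing E))).d w) →
        ∃ y, φ c - (r : ℤ) • c = bd ℤ (Sing E) y

/-- **PhP** (from Phi, Prm).  The power map `r = orderOf g - 1` on `X`:
`φ i = f' i ∘ φ ∘ f i`.  `φ (g x) = g^r φ x = g⁻¹ φ x`.  For a cycle `y` of degree `n + 1`: `c = f y` is a cycle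
of `gr (n + 1)`, primitive by Prm, `φ c = r c + bd`, `f' (φ c) = r f' (f y) + d (..) = r y + d (..)`.
-/
def S_PhP : Prop :=
  ∀ (e : ∀ p q : ℕ, Ch ℤ ((De p).prod (De q))) (he : EZ e) (G : Type) [CommGroup G] (X : AX G)
    (E : Type) [TopologicalSpace E] [PathConnectedSpace E] (act : G → C(E, E))
    (hact1 : act 1 = ContinuousMap.id E) (hact : ∀ a b, act (a * b) = (act a).comp (act b))
    (Λ : Lk X E act) (v : E) (m : C(E × E, E))
    (hA : ContinuousMap.Homotopic (ContinuousMap.id E)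
      (m.comp (ContinuousMap.prodMk (ContinuousMap.id E) (ContinuousMap.const E v))))
    (hB : ContinuousMap.Homotopic (ContinuousMap.id E)
      (m.comp (ContinuousMap.prodMk (ContinuousMap.const E v) (ContinuousMap.id E))))
    (hm1 : ∀ (g : G) (x y : E), m (act g x, y) = act g (m (x, y)))
    (hm2 : ∀ (g : G) (x y : E), m (x, act g y) = act g (m (x, y)))
    (n : ℕ) (hE : AcE E (vtx v) (n + 1)) (g : G) (hg : 1 < orderOf g),
    ∃ φ : ∀ i, X.P i →+ X.P i,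
      (∀ i x, φ i (MonoidAlgebra.of ℤ G g • x) = MonoidAlgebra.of ℤ G g⁻¹ • φ i x) ∧
      (∀ i x, φ i (X.d i x) = X.d i (φ (i + 1) x)) ∧ (∀ x, X.ε (φ 0 x) = X.ε x) ∧
      ∀ y : X.P (n + 1), X.d n y = 0 →
        ∃ w, φ (n + 1) y - ((orderOf g : ℤ) - 1) • y = X.d (n + 1) w

/-! ## E5. Group theory, bases, conclusion of part 2 -/

/-- **Grp.** Combination over a decomposition of `G` into cyclic groups.
Proof: `G ≃ ∏_(i : ι) Multiplicative (ZMod (n i))`, `1 < n i` (`CommGroup.equiv_prod_multiplicative_zmod_of_finite`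
or similar), `g_i` the generators; `#{g | g * g = 1} = 2^r`, `r` the number of even `n i` (`= orderOf g_i`).
For `u` in `U` let `θ_i(u) = 0` if `Q (zpowers g_i) u` and `1` otherwise; by `hadd`, `hneg`, `h2`,
`θ_i` is a homomorphism `U → ZMod 2`, zero if `n i` is odd.  As `2^r < 2^s`, `r < s`; the linear map
`𝔽_2^s → 𝔽_2^(even i)`, `S ↦ (θ_i (∑_(l ∈ S) u_l))_i` has a nonzero element `S` in its kernel.  Then
`Q (zpowers g_i) u` for all `i`, `u = ∑_(l ∈ S) u_l`, and `Q ⊤ u` by induction over the finite set `ι` with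
`hprod` (the subgroups generated by disjoint sets of the `g_i` are independent). -/
def S_Grp : Prop :=
  ∀ (G : Type) [CommGroup G] [Finite G] (U : Type) [AddCommGroup U] (Q : Subgroup G → U → Prop)
    (hbot : ∀ u, Q ⊥ u) (hadd : ∀ A u u', Q A u → Q A u' → Q A (u + u'))
    (hneg : ∀ A u, Q A u → Q A (-u))
    (hprod : ∀ A C u, A ⊓ C = ⊥ → Q A u → Q C u → Q (A ⊔ C) u)
    (hodd : ∀ g, Odd (orderOf g) → ∀ u, Q (Subgroup.zpowers g) u)
    (h2 : ∀ g u u', ¬ Q (Subgroup.zpowers g) u → ¬ Q (Subgroup.zpowers g) u' →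
      Q (Subgroup.zpowers g) (u + u'))
    (s : ℕ) (hs : Nat.card {g : G // g * g = 1} < 2 ^ s) (u : Fin s → U),
    ∃ S : Finset (Fin s), S.Nonempty ∧ Q ⊤ (∑ l ∈ S, u l)

/-- **Bas** (from Ext, AxF).  Dual bases.  Proof: `Z` = cycles of degree `n + 1`, `B = d (P (n+2))`;
`Z / B` is a finitely generated abelian group in which the `y_i` generate a free group of rank `s`;
so the free part of `Z / B` has rank `≥ s`: there are `y'_j ∈ Z` and functionals `u_i : Z → ℤ`, zero on `B`,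
with `u_i (y'_j) = δ_ij`.  The functionals extend to `P (n + 1)` (`P (n+1) / Z ⊆ P n` is finitely generated
and torsion free, AxF). -/
def S_Bas : Prop :=
  ∀ (G : Type) [CommGroup G] [Finite G] (X : AX G) (n s : ℕ) (y : Fin s → X.P (n + 1))
    (hy : ∀ i, X.d n (y i) = 0)
    (hind : ∀ c : Fin s → ℤ, (∃ w, X.d (n + 1) w = ∑ i, c i • y i) → c = 0),
    ∃ (u : Fin s → (X.P (n + 1) →+ ℤ)) (y' : Fin s → X.P (n + 1)), (∀ i, X.Coc (u i)) ∧
      (∀ i, X.d n (y' i) = 0) ∧ ∀ i j, u i (y' j) = if i = j then 1 else 0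

/-- **Exi** (from Grp, Bas, Cyc, Prd, PhP).  Existence of an invariant cocycle with value `1` on a cycle.
Proof: `U` = the group of cocycles of degree `n + 1`, `Q A u = X.Inv A u`.  `hbot`, `hadd`, `hneg`: clear
(`Inv ⊥ u`: take `x = u`).  `hprod`: Prd.  `hodd`, `h2`: Cyc with PhP if `1 < orderOf g`; for `orderOf g = 1`
`zpowers g = ⊥`.  With `u_i`, `y'_j` of Bas and `S` of Grp: `u = ∑_S u_l`, `y = y'_j` for some `j ∈ S`,
`u y = 1`. -/
def S_Exi : Prop :=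
  ∀ (e : ∀ p q : ℕ, Ch ℤ ((De p).prod (De q))) (he : EZ e) (G : Type) [CommGroup G] [Finite G]
    (X : AX G) (hN : X.PN) (E : Type) [TopologicalSpace E] [PathConnectedSpace E]
    (act : G → C(E, E)) (hact1 : act 1 = ContinuousMap.id E)
    (hact : ∀ a b, act (a * b) = (act a).comp (act b))
    (Λ : Lk X E act) (v : E) (m : C(E × E, E))
    (hA : ContinuousMap.Homotopic (ContinuousMap.id E)
      (m.comp (ContinuousMap.prodMk (ContinuousMap.id E) (ContinuousMap.const E v))))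
    (hB : ContinuousMap.Homotopic (ContinuousMap.id E)
      (m.comp (ContinuousMap.prodMk (ContinuousMap.const E v) (ContinuousMap.id E))))
    (hm1 : ∀ (g : G) (x y : E), m (act g x, y) = act g (m (x, y)))
    (hm2 : ∀ (g : G) (x y : E), m (x, act g y) = act g (m (x, y)))
    (n : ℕ) (hn : n % 4 = 2) (hX : X.Ac (n + 1)) (hE : AcE E (vtx v) (n + 1)) (s : ℕ)
    (y : Fin s → X.P (n + 1)) (hy : ∀ i, X.d n (y i) = 0)
    (hind : ∀ c : Fin s → ℤ, (∃ w, X.d (n + 1) w = ∑ i, c i • y i) → c = 0)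
    (hs : Nat.card {g : G // g * g = 1} < 2 ^ s),
    ∃ (x : X.P (n + 1) →+ ℤ) (y' : X.P (n + 1)), X.Coc x ∧
      (∀ (g : G) (y : X.P (n + 1)), x (MonoidAlgebra.of ℤ G g • y) = x y) ∧ X.d n y' = 0 ∧
      x y' = 1

end HPx
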