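import Pool.Agent.Lib.MP_181146_gt.HE.DefsT

/-!
# Project HP: definitions

`Gd R N`: a ring with a complete system of `N` orthogonal idempotents (the endomorphisms of a graded
module); homogeneous elements.  `DM`, `SM`: the matrices of the contractible complex of the main
argument.  `cap`: cap product with a cochain.
-/

set_option autoImplicit false

namespace HPx

open scoped TensorProduct
open HEp

/-! ## A. Graded rings -/

/-- A ring with a complete system of orthogonal idempotents. -/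
structure Gd (R : Type) [Ring R] (N : ℕ) where
  e : Fin N → R
  mul_self : ∀ i, e i * e i = e i
  mul_ne : ∀ i j, i ≠ j → e i * e j = 0
  sum : ∑ i, e i = 1

section

variable {R : Type} [Ring R] {N : ℕ}

/-- `u` is homogeneous of degree `m`. -/
def Gd.Hm (g : Gd R N) (m : ℤ) (u : R) : Prop :=
  ∀ i j : Fin N, (j : ℤ) ≠ (i : ℤ) + m → g.e j * u * g.e i = 0

/-- The sum of the idempotents with odd index. -/
def Gd.od (g : Gd R N) : R := ∑ i : Fin N, if Odd (i : ℕ) then g.e i else 0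

/-- The differential of the complex `V ⊕ ΠV ⊕ V`. -/
def DM (d a b k l : R) : Matrix (Fin 3) (Fin 3) R :=
  !![d, 0, 0;
     a * b, -d, 0;
     a - (a * k * b + a * a * l), 1 - a * b, d]

/-- The homotopy of the complex `V ⊕ ΠV ⊕ V`. -/
def SM (a b k l : R) : Matrix (Fin 3) (Fin 3) R :=
  !![(a * k * b + a * a * l) - k, a * b + k * b + a * l, b;
     0, -(2 * (a * k * b + a * a * l)), 1 - a * b - a * l;
     0, 0, a * k * b + a * a * l]

/-- The parity projection of `V ⊕ ΠV ⊕ V`. -/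
def PM (P : R) : Matrix (Fin 3) (Fin 3) R :=
  !![P, 0, 0;
     0, 1 - P, 0;
     0, 0, P]

end

section Std

variable (L : Type) [Ring L] (M : ℕ → Type) [∀ i, AddCommGroup (M i)] [∀ i, Module L (M i)]

/-- The total module `M 0 × … × M (N-1)`. -/
abbrev TV (N : ℕ) : Type := ∀ i : Fin N, M i

/-- The projection onto the component `i`. -/
def ePr (N : ℕ) (i : Fin N) : Module.End L (TV M N) :=
  LinearMap.single L (fun i : Fin N => M i) i ∘ₗ LinearMap.proj i

lemma ePr_apply (N : ℕ) (i : Fin N) (x : TV M N) :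
    ePr L M N i x = Pi.single i (x i) := rfl

/-- The standard grading of the endomorphism ring of the total module. -/
def stG (N : ℕ) : Gd (Module.End L (TV M N)) N where
  e := ePr L M N
  mul_self i := by
    apply LinearMap.ext
    intro x
    change ePr L M N i (ePr L M N i x) = ePr L M N i x
    rw [ePr_apply, ePr_apply, Pi.single_eq_same]
  mul_ne i j h := by
    apply LinearMap.ext
    intro x
    change ePr L M N i (ePr L M N j x) = 0
    rw [ePr_apply, ePr_apply, Pi.single_eq_of_ne h, Pi.single_zero]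
  sum := by
    apply LinearMap.ext
    intro x
    rw [LinearMap.sum_apply]
    change ∑ i, ePr L M N i x = x
    simp only [ePr_apply]
    exact Finset.univ_sum_single x

variable {L M}

/-- The total differential. -/
def totd (N : ℕ) (d : ∀ i : ℕ, M (i + 1) →ₗ[L] M i) : Module.End L (TV M N) where
  toFun x j := if h : (j : ℕ) + 1 < N then d j (x ⟨j + 1, h⟩) else 0
  map_add' x y := by
    funext j
    change (if h : (j : ℕ) + 1 < N then d j ((x + y) ⟨j + 1, h⟩) else 0) =
      (if h : (j : ℕ) + 1 < N then d j (x ⟨j + 1, h⟩) else 0) +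
        (if h : (j : ℕ) + 1 < N then d j (y ⟨j + 1, h⟩) else 0)
    split_ifs
    · rw [Pi.add_apply, map_add]
    · rw [add_zero]
  map_smul' c x := by
    funext j
    change (if h : (j : ℕ) + 1 < N then d j ((c • x) ⟨j + 1, h⟩) else 0) =
      c • (if h : (j : ℕ) + 1 < N then d j (x ⟨j + 1, h⟩) else 0)
    split_ifs
    · rw [Pi.smul_apply, map_smul]
    · rw [smul_zero]

end Std

/-! ## B. The homotopy equivalence with the singular chains -/

/-- The group ring of a group. -/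
abbrev LG (G : Type) : Type := MonoidAlgebra ℤ G

/-- A homotopy equivalence between the total module of `M` and the singular chains of `E`, with all
maps and homotopies compatible with the action of `G`. -/
structure TT (G : Type) [Group G] (M : ℕ → Type) [∀ i, AddCommGroup (M i)]
    [∀ i, Module (LG G) (M i)] (d : ∀ i : ℕ, M (i + 1) →ₗ[LG G] M i) (N : ℕ) (E : Type)
    [TopologicalSpace E] (act : G → C(E, E)) where
  f : TV M N →+ Ch ℤ (Sing E)
  f' : Ch ℤ (Sing E) →+ TV M N
  h : Module.End (LG G) (TV M N)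
  t : Ch ℤ (Sing E) →+ Ch ℤ (Sing E)
  f_gr : ∀ (i : Fin N) (x : M i), f (Pi.single i x) ∈ gr ℤ (Sing E) i
  f'_gr : ∀ (n : ℕ), ∀ c ∈ gr ℤ (Sing E) n, ∀ j : Fin N, (j : ℕ) ≠ n → f' c j = 0
  fd : ∀ x, f (totd N d x) = bd ℤ (Sing E) (f x)
  f'd : ∀ c, f' (bd ℤ (Sing E) c) = totd N d (f' c)
  hV : ∀ x, f' (f x) - x = totd N d (h x) + h (totd N d x)
  ht : ∀ c, f (f' c) - c = bd ℤ (Sing E) (t c) + t (bd ℤ (Sing E) c)
  fg : ∀ (g : G) (x : TV M N), f (MonoidAlgebra.of ℤ G g • x) = cmap ℤ (SingMap (act g)) (f x)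
  f'g : ∀ (g : G) (c : Ch ℤ (Sing E)), f' (cmap ℤ (SingMap (act g)) c) =
    MonoidAlgebra.of ℤ G g • f' c
  tg : ∀ (g : G) (c : Ch ℤ (Sing E)), t (cmap ℤ (SingMap (act g)) c) =
    cmap ℤ (SingMap (act g)) (t c)

/-! ## C. Cap product -/

section Cap

variable {k : Type} [CommRing k] {K : SS}

/-- `x ⊗ 1 : V ⊗ V → V`. -/
noncomputable def lx {V : Type} [AddCommGroup V] [Module k V] (x : V →ₗ[k] k) :
    V ⊗[k] V →ₗ[k] V :=
  (TensorProduct.lid k V).toLinearMap ∘ₗ TensorProduct.map x LinearMap.id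

lemma lx_tmul {V : Type} [AddCommGroup V] [Module k V] (x : V →ₗ[k] k) (a b : V) :
    lx x (a ⊗ₜ b) = x a • b := by
  rw [lx, LinearMap.comp_apply, TensorProduct.map_tmul]
  exact TensorProduct.lid_tmul _ _

/-- The cap product with the cochain `x`. -/
noncomputable def cap (x : Ch k K →ₗ[k] k) : Ch k K →ₗ[k] Ch k K := lx x ∘ₗ dl k K

/-- `x` vanishes on the chains of dimension different from `n`. -/
def Sup (n : ℕ) (x : Ch k K →ₗ[k] k) : Prop := ∀ i, i ≠ n → ∀ y ∈ gr k K i, x y = 0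

/-- The operator `(x ⊗ 1) (μ ⊗ μ) exch (z ⊗ Δ y)`. -/
noncomputable def Tw (e : ∀ p q : ℕ, Ch ℤ ((De p).prod (De q))) (m : SSHom (K.prod K) K)
    (x : Ch k K →ₗ[k] k) (z : Ch k K ⊗[k] Ch k K) : Ch k K →ₗ[k] Ch k K :=
  lx x ∘ₗ TensorProduct.map (mu k e m) (mu k e m) ∘ₗ exch (od k K) ∘ₗ
    TensorProduct.mk k (Ch k K ⊗[k] Ch k K) (Ch k K ⊗[k] Ch k K) z ∘ₗ dl k K

lemma Tw_apply (e : ∀ p q : ℕ, Ch ℤ ((De p).prod (De q))) (m : SSHom (K.prod K) K)
    (x : Ch k K →ₗ[k] k) (z : Ch k K ⊗[k] Ch k K) (y : Ch k K) :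
    Tw e m x z y = lx x (TensorProduct.map (mu k e m) (mu k e m)
      (exch (od k K) (z ⊗ₜ dl k K y))) := rfl

end Cap

/-! ## D, E. Augmented complexes over the group ring of a finite abelian group -/

/-- A complex of finitely generated projective modules over `ℤ[G]` with an augmentation, in degrees
`≥ 0`. -/
structure AX (G : Type) [CommGroup G] where
  P : ℕ → Type
  [ac : ∀ i, AddCommGroup (P i)]
  [mo : ∀ i, Module (ZG G) (P i)]
  [fi : ∀ i, Module.Finite (ZG G) (P i)]
  [pr : ∀ i, Module.Projective (ZG G) (P i)]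
  d : ∀ i, P (i + 1) →ₗ[ZG G] P i
  dd : ∀ i x, d i (d (i + 1) x) = 0
  ε : P 0 →+ ℤ
  εg : ∀ (g : G) (x : P 0), ε (MonoidAlgebra.of ℤ G g • x) = ε x
  εd : ∀ x, ε (d 0 x) = 0

attribute [instance] AX.ac AX.mo AX.fi AX.pr

section AXs

variable {G : Type} [CommGroup G] (X : AX G)

/-- The differential leaving the degree `i`, with the augmentation in degree `0`: `Cy X i x` says
that `x` is a cycle of the augmented complex. -/
def AX.Cy : ∀ i : ℕ, X.P i → Prop
  | 0, x => X.ε x = 0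
  | i + 1, x => X.d i x = 0

/-- The augmented complex is exact in the degrees `< n`, and the augmentation is onto. -/
def AX.Ac (n : ℕ) : Prop :=
  (∃ v, X.ε v = 1) ∧ ∀ i, i < n → ∀ x : X.P i, X.Cy i x → ∃ y, X.d i y = x

/-- A cocycle of degree `n`. -/
def AX.Coc {n : ℕ} (u : X.P n →+ ℤ) : Prop := ∀ y, u (X.d n y) = 0

/-- `u` agrees on cycles with a cocycle invariant under the elements of the subgroup `A`. -/
def AX.Inv {n : ℕ} (A : Subgroup G) (u : X.P n →+ ℤ) : Prop :=
  ∃ x : X.P n →+ ℤ, X.Coc x ∧ (∀ a ∈ A, ∀ y, x (MonoidAlgebra.of ℤ G a • y) = x y) ∧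
    ∀ y, X.Cy n y → x y = u y

/-- Homotopies `g ~ 1` for the elements of `G`: `h i` in degree `i`. -/
def AX.PN : Prop :=
  ∀ g : G, ∃ h : ∀ i, X.P i →ₗ[ZG G] X.P (i + 1),
    (∀ x, X.d 0 (h 0 x) = MonoidAlgebra.of ℤ G g • x - x) ∧
    ∀ i x, X.d (i + 1) (h (i + 1) x) + h i (X.d i x) = MonoidAlgebra.of ℤ G g • x - x

/-- The operator `g - 1` in odd degrees, the norm `1 + g + … + g^(m-1)` in even degrees. -/
noncomputable def tw (g : G) (m i : ℕ) : ZG G :=
  if Even i then ∑ j ∈ Finset.range m, MonoidAlgebra.of ℤ G (g ^ j)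
  else MonoidAlgebra.of ℤ G g - 1

/-- A tower for the cocycle `u` of degree `n + 1`, `n` even, with last value `z`:
`b i (τ_i x) = b (i-1) (d x)`, `τ_i` the norm for even `i` and `g - 1` for odd `i`. -/
structure AX.Tower (g : G) (m n : ℕ) (u : X.P (n + 1) →+ ℤ) (z : ℤ) where
  b : ∀ i, X.P i →+ ℤ
  top : ∀ x : X.P (n + 1), u ((MonoidAlgebra.of ℤ G g - 1 : ZG G) • x) = b n (X.d n x)
  rel : ∀ i, i < n → ∀ x : X.P (i + 1), b (i + 1) (tw g m (i + 1) • x) = b i (X.d i x)
  bot : ∀ x : X.P 0, b 0 (tw g m 0 • x) = z * X.ε x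

end AXs

end HPx
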