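import Pool.Agent.Lib.MP_181146_gt.HP.SpecP

/-!
# Project HP, module AM: the algebraic part for a complex of modules
-/

set_option autoImplicit false

namespace HPx

open HEp

private theorem AM_od {R : Type} [Ring R] {N : ℕ} (g : Gd R N) : g.od * g.od = g.od := by
  unfold Gd.od
  rw [Finset.sum_mul]
  refine Finset.sum_congr rfl fun i _ => ?_
  rw [Finset.mul_sum, Finset.sum_eq_single i]
  · split_ifs
    · exact g.mul_self i
    · exact zero_mul _
  · intro j _ hj
    split_ifs
    · exact g.mul_ne i j (Ne.symm hj)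
    · exact mul_zero _
    · exact zero_mul _
    · exact zero_mul _
  · intro h
    exact absurd (Finset.mem_univ i) h

private theorem AM_proj {L : Type} [Ring L] {K : ℕ} (M : Fin K → Type)
    [∀ i, AddCommGroup (M i)] [∀ i, Module L (M i)] [∀ i, Module.Projective L (M i)] :
    Module.Projective L (∀ i, M i) :=
  Module.Projective.of_equiv' (M := Π₀ i, M i) (DFinsupp.linearEquivFunOnFintype)

theorem sAM (hAlg : S_Alg) (hSwp : S_Swp) (hVPar : S_VPar) (hCncl : S_Cncl) : S_AM := by
  intro L _ M _ _ _ _ K n hn hn1 d a b k hdd hd ha hb had hbd hab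
  obtain ⟨F, hF, hPF⟩ := hAlg (Module.End L (TV M (2 * K))) (2 * K) (stG L M (2 * K)) n hn hn1
    d a b k hdd hd ha hb had hbd hab
  obtain ⟨e⟩ := hSwp L (TV M (2 * K)) (stG L M (2 * K)).od (AM_od _) F hF hPF
  obtain ⟨⟨e1⟩, ⟨e2⟩⟩ := hVPar L M K
  have i1 : Module.Projective L (∀ j : Fin K, M (2 * j)) := AM_proj (fun j : Fin K => M (2 * j))
  have i2 : Module.Projective L (∀ j : Fin K, M (2 * j + 1)) :=
    AM_proj (fun j : Fin K => M (2 * j + 1))
  refine hCncl L (∀ j : Fin K, M (2 * j)) (∀ j : Fin K, M (2 * j + 1)) ⟨?_⟩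
  exact (e1.symm.prodCongr (e2.symm.prodCongr e1.symm)).trans
    (e.trans (e2.prodCongr (e1.prodCongr e2)))

end HPx
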