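import Pool.Agent.Lib.MP_181146_gt.HP.DefsP

/-!
# Project HP: definitions for part 2 (existence of the invariant cocycle)
-/

set_option autoImplicit false

namespace HPx

open scoped TensorProduct
open HEp

/-- The chains of `K` over `ℤ`. -/
noncomputable abbrev cz (K : SS) : DG ℤ := chDG ℤ K

/-- The homology of `E` vanishes in the degrees `0 < i < n`, and in degree `0` it is generated by the
vertex `v`. -/
def AcE (E : Type) [TopologicalSpace E] (v : (Sing E).K 0) (n : ℕ) : Prop :=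
  (∀ x ∈ gr ℤ (Sing E) 0, ∃ y, x - aug ℤ (Sing E) x • sx ℤ v = bd ℤ (Sing E) y) ∧
  ∀ i, 0 < i → i < n → ∀ x ∈ gr ℤ (Sing E) i, bd ℤ (Sing E) x = 0 → ∃ y, x = bd ℤ (Sing E) y

/-- `1 ⊗ aug`. -/
noncomputable def p1 {K : SS} (z : Ch ℤ K ⊗[ℤ] Ch ℤ K) : Ch ℤ K :=
  TensorProduct.rid ℤ (Ch ℤ K) (TensorProduct.map LinearMap.id (aug ℤ K) z)

/-- `aug ⊗ 1`. -/
noncomputable def p2 {K : SS} (z : Ch ℤ K ⊗[ℤ] Ch ℤ K) : Ch ℤ K :=
  TensorProduct.lid ℤ (Ch ℤ K) (TensorProduct.map (aug ℤ K) LinearMap.id z)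

/-- Equivariant chain maps between the complex `X` and the singular chains of `E`, with a homotopy
`f' f ~ 1`. -/
structure Lk {G : Type} [CommGroup G] (X : AX G) (E : Type) [TopologicalSpace E]
    (act : G → C(E, E)) where
  f : ∀ i, X.P i →+ Ch ℤ (Sing E)
  f' : ∀ i, Ch ℤ (Sing E) →+ X.P i
  h : ∀ i, X.P i →+ X.P (i + 1)
  f_gr : ∀ i (x : X.P i), f i x ∈ gr ℤ (Sing E) i
  f'_gr : ∀ (n i : ℕ), i ≠ n → ∀ c ∈ gr ℤ (Sing E) n, f' i c = 0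
  fd : ∀ i (x : X.P (i + 1)), f i (X.d i x) = bd ℤ (Sing E) (f (i + 1) x)
  f'd : ∀ i c, f' i (bd ℤ (Sing E) c) = X.d i (f' (i + 1) c)
  fε : ∀ x, aug ℤ (Sing E) (f 0 x) = X.ε x
  f'ε : ∀ c, X.ε (f' 0 c) = aug ℤ (Sing E) c
  h0 : ∀ x, f' 0 (f 0 x) - x = X.d 0 (h 0 x)
  hs : ∀ i (x : X.P (i + 1)), f' (i + 1) (f (i + 1) x) - x =
    X.d (i + 1) (h (i + 1) x) + h i (X.d i x)
  fg : ∀ (g : G) i (x : X.P i), f i (MonoidAlgebra.of ℤ G g • x) =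
    cmap ℤ (SingMap (act g)) (f i x)
  f'g : ∀ (g : G) i c, f' i (cmap ℤ (SingMap (act g)) c) = MonoidAlgebra.of ℤ G g • f' i c

end HPx
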