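import Pool.Agent.Lib.MP_181146_gt.HP.SpecQ

/-!
# Project HP: module Exi (existence of an invariant cocycle with value `1` on a cycle)
-/

set_option autoImplicit false

namespace HPx

open scoped TensorProduct
open HEp

/-- The group of cocycles of degree `n`. -/
private def cocs {G : Type} [CommGroup G] (X : AX G) (n : ℕ) : AddSubgroup (X.P n →+ ℤ) where
  carrier := {u | X.Coc u}
  add_mem' := by
    intro u u' hu hu' y
    rw [AddMonoidHom.add_apply, hu y, hu' y, add_zero]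
  zero_mem' := by
    intro y
    rfl
  neg_mem' := by
    intro u hu y
    rw [AddMonoidHom.neg_apply, hu y, neg_zero]

private lemma inv_bot {G : Type} [CommGroup G] (X : AX G) {n : ℕ} (u : X.P n →+ ℤ)
    (hu : X.Coc u) : X.Inv ⊥ u := by
  refine ⟨u, hu, fun a ha y => ?_, fun y _ => rfl⟩
  rw [Subgroup.mem_bot] at ha
  rw [ha, map_one, one_smul]

private lemma inv_add {G : Type} [CommGroup G] (X : AX G) {n : ℕ} (A : Subgroup G)
    (u u' : X.P n →+ ℤ) (h : X.Inv A u) (h' : X.Inv A u') : X.Inv A (u + u') := by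
  obtain ⟨x, hx, hxa, hxu⟩ := h
  obtain ⟨x', hx', hxa', hxu'⟩ := h'
  refine ⟨x + x', fun y => ?_, fun a ha y => ?_, fun y hy => ?_⟩
  · rw [AddMonoidHom.add_apply, hx y, hx' y, add_zero]
  · rw [AddMonoidHom.add_apply, AddMonoidHom.add_apply, hxa a ha, hxa' a ha]
  · rw [AddMonoidHom.add_apply, AddMonoidHom.add_apply, hxu y hy, hxu' y hy]

private lemma inv_neg {G : Type} [CommGroup G] (X : AX G) {n : ℕ} (A : Subgroup G)
    (u : X.P n →+ ℤ) (h : X.Inv A u) : X.Inv A (-u) := by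
  obtain ⟨x, hx, hxa, hxu⟩ := h
  refine ⟨-x, fun y => ?_, fun a ha y => ?_, fun y hy => ?_⟩
  · rw [AddMonoidHom.neg_apply, hx y, neg_zero]
  · rw [AddMonoidHom.neg_apply, AddMonoidHom.neg_apply, hxa a ha]
  · rw [AddMonoidHom.neg_apply, AddMonoidHom.neg_apply, hxu y hy]

theorem sExi (hGrp : S_Grp) (hBas : S_Bas) (hCyc : S_Cyc) (hPrd : S_Prd) (hPhP : S_PhP) :
    S_Exi := by
  intro e he G _ _ X hN E _ _ act hact1 hact Λ v m hA hB hm1 hm2 n hn hX hE s y hy hind hs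
  obtain ⟨u, y', hu, hy', huy⟩ := hBas G X n s y hy hind
  have hone : ∀ g : G, ¬ 1 < orderOf g → ∀ w : X.P (n + 1) →+ ℤ, X.Coc w →
      X.Inv (Subgroup.zpowers g) w := by
    intro g hg w hw
    have h0 : 0 < orderOf g := orderOf_pos g
    have h1 : orderOf g = 1 := by omega
    rw [orderOf_eq_one_iff] at h1
    rw [h1, Subgroup.zpowers_one_eq_bot]
    exact inv_bot X w hw
  have hcy : ∀ g : G, 1 < orderOf g →
      (Odd (orderOf g) → ∀ u : X.P (n + 1) →+ ℤ, X.Coc u → X.Inv (Subgroup.zpowers g) u) ∧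
      ∀ u u' : X.P (n + 1) →+ ℤ, X.Coc u → X.Coc u' → ¬ X.Inv (Subgroup.zpowers g) u →
        ¬ X.Inv (Subgroup.zpowers g) u' → X.Inv (Subgroup.zpowers g) (u + u') := by
    intro g hg
    obtain ⟨φ, φg, φd, φε, hφ⟩ :=
      hPhP e he G X E act hact1 hact Λ v m hA hB hm1 hm2 n hE g hg
    exact hCyc G X n hn hX hN g φ φg φd φε hφ
  obtain ⟨S, ⟨j, hj⟩, hS⟩ := hGrp G (cocs X (n + 1)) (fun A w => X.Inv A w.1)
    (fun w => inv_bot X w.1 w.2) (fun A w w' h h' => inv_add X A w.1 w'.1 h h')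
    (fun A w h => inv_neg X A w.1 h)
    (fun A C w hAC h h' => hPrd e he G X hN E act hact1 hact Λ v m hA hB hm1 hm2 n hX hE w.1 w.2
      A C hAC h h')
    (fun g hg w => by
      by_cases h1 : 1 < orderOf g
      · exact (hcy g h1).1 hg w.1 w.2
      · exact hone g h1 w.1 w.2)
    (fun g w w' h h' => by
      by_cases h1 : 1 < orderOf g
      · exact (hcy g h1).2 w.1 w'.1 w.2 w'.2 h h'
      · exact absurd (hone g h1 w.1 w.2) h)
    s hs (fun i => ⟨u i, hu i⟩)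
  obtain ⟨x, hx, hxa, hxu⟩ := hS
  refine ⟨x, y' j, hx, fun g z => hxa g (Subgroup.mem_top g) z, hy' j, ?_⟩
  rw [hxu (y' j) (hy' j)]
  have h1 : ((∑ l ∈ S, (⟨u l, hu l⟩ : cocs X (n + 1)) : cocs X (n + 1)) : X.P (n + 1) →+ ℤ) =
      ∑ l ∈ S, u l := by
    rw [AddSubgroup.val_finsetSum]
  refine (congrArg (fun f : X.P (n + 1) →+ ℤ => f (y' j)) h1).trans ?_
  change (∑ l ∈ S, u l) (y' j) = 1
  rw [AddMonoidHom.finsetSum_apply, Finset.sum_eq_single j]
  · rw [huy, if_pos rfl]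
  · intro l _ hl
    rw [huy, if_neg hl]
  · intro h
    exact absurd hj h

end HPx
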