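import Pool.Agent.Lib.MP_181146_gt.HP.SpecQ

/-!
# Project HP: the equivariant chain map into the tensor square
-/

set_option autoImplicit false

namespace HPx

open scoped TensorProduct
open HEp

/-- The tensor square of the singular chains. -/
private abbrev TSq (E : Type) [TopologicalSpace E] : Type :=
  Ch ℤ (Sing E) ⊗[ℤ] Ch ℤ (Sing E)

private lemma jex_cmap_gr {K L : SS} (f : SSHom K L) (n : ℕ) (x : Ch ℤ K)
    (hx : x ∈ gr ℤ K n) : cmap ℤ f x ∈ gr ℤ L n := by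
  have h1 : gr ℤ K n ≤ (gr ℤ L n).comap (cmap ℤ f) := by
    rw [gr, Finsupp.supported_eq_span_single, Submodule.span_le]
    rintro _ ⟨⟨m, y⟩, hm, rfl⟩
    change m = n at hm
    subst hm
    change cmap ℤ f (sx ℤ y) ∈ gr ℤ L m
    rw [cmap_sx]
    exact sx_mem_gr ℤ _
  exact h1 hx

private lemma jex_tgr {K L : SS} (f g : SSHom K L) (n : ℕ) (z : Ch ℤ K ⊗[ℤ] Ch ℤ K)
    (hz : z ∈ tgr (gr ℤ K) (gr ℤ K) n) :
    TensorProduct.map (cmap ℤ f) (cmap ℤ g) z ∈ tgr (gr ℤ L) (gr ℤ L) n := by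
  have h1 : tgr (gr ℤ K) (gr ℤ K) n ≤
      (tgr (gr ℤ L) (gr ℤ L) n).comap (TensorProduct.map (cmap ℤ f) (cmap ℤ g)) := by
    rw [tgr, Submodule.span_le]
    rintro _ ⟨i, j, x, y, hij, hx, hy, rfl⟩
    change TensorProduct.map (cmap ℤ f) (cmap ℤ g) (x ⊗ₜ y) ∈ tgr (gr ℤ L) (gr ℤ L) n
    rw [TensorProduct.map_tmul]
    exact Submodule.subset_span ⟨i, j, _, _, hij, jex_cmap_gr f i x hx, jex_cmap_gr g j y hy, rfl⟩
  exact h1 hz

private lemma jex_d {K L : SS} (f g : SSHom K L) (z : Ch ℤ K ⊗[ℤ] Ch ℤ K) :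
    ((cz L).tens (cz L)).d (TensorProduct.map (cmap ℤ f) (cmap ℤ g) z) =
      TensorProduct.map (cmap ℤ f) (cmap ℤ g) (((cz K).tens (cz K)).d z) := by
  induction z using TensorProduct.induction_on with
  | zero => simp only [map_zero]
  | add x y hx hy => rw [map_add, map_add, hx, hy, map_add, map_add]
  | tmul a b =>
    have h1 : ((chDG ℤ K).tens (chDG ℤ K)).d (a ⊗ₜ b) =
      bd ℤ K a ⊗ₜ[ℤ] b + (a - (2 : ℤ) • od ℤ K a) ⊗ₜ[ℤ] bd ℤ K b := rfl
    have h2 : ((chDG ℤ L).tens (chDG ℤ L)).d (cmap ℤ f a ⊗ₜ cmap ℤ g b) =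
      bd ℤ L (cmap ℤ f a) ⊗ₜ[ℤ] cmap ℤ g b +
        (cmap ℤ f a - (2 : ℤ) • od ℤ L (cmap ℤ f a)) ⊗ₜ[ℤ] bd ℤ L (cmap ℤ g b) := rfl
    rw [TensorProduct.map_tmul, h2]
    refine Eq.symm (Eq.trans (congrArg _ h1) ?_)
    rw [map_add, TensorProduct.map_tmul, TensorProduct.map_tmul, map_sub, map_smul, cmap_bd,
      cmap_bd, cmap_od]

private lemma jex_augT {K L : SS} (f g : SSHom K L) (z : Ch ℤ K ⊗[ℤ] Ch ℤ K) :
    augT (aug ℤ L) (aug ℤ L) (TensorProduct.map (cmap ℤ f) (cmap ℤ g) z) =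
      augT (aug ℤ K) (aug ℤ K) z := by
  induction z using TensorProduct.induction_on with
  | zero => simp only [map_zero]
  | add x y hx hy => rw [map_add, map_add, map_add, hx, hy]
  | tmul a b => rw [TensorProduct.map_tmul, augT_tmul, augT_tmul, aug_cmap, aug_cmap]

section

variable {G : Type} [CommGroup G] {E : Type} [TopologicalSpace E]

private lemma cmap_act_one {act : G → C(E, E)} (hact1 : act 1 = ContinuousMap.id E)
    (x : Ch ℤ (Sing E)) : cmap ℤ (SingMap (act 1)) x = x := by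
  rw [hact1]
  exact cmap_id ℤ x

private lemma cmap_act_mul {act : G → C(E, E)}
    (hact : ∀ a b, act (a * b) = (act a).comp (act b)) (a b : G)
    (x : Ch ℤ (Sing E)) : cmap ℤ (SingMap (act (a * b))) x =
      cmap ℤ (SingMap (act a)) (cmap ℤ (SingMap (act b)) x) := by
  rw [hact]
  exact cmap_comp ℤ (SingMap (act a)) (SingMap (act b)) x

/-- The action of `A × C` on the tensor square. -/
private noncomputable def rT {act : G → C(E, E)} (hact1 : act 1 = ContinuousMap.id E)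
    (hact : ∀ a b, act (a * b) = (act a).comp (act b)) (A C : Subgroup G) :
    (A × C) →* AddMonoid.End (TSq E) where
  toFun h := (TensorProduct.map (cmap ℤ (SingMap (act (h.1 : G))))
    (cmap ℤ (SingMap (act (h.2 : G))))).toAddMonoidHom
  map_one' := by
    apply AddMonoidHom.ext
    intro z
    change TensorProduct.map (cmap ℤ (SingMap (act 1))) (cmap ℤ (SingMap (act 1))) z = z
    have h : cmap ℤ (SingMap (act 1)) = LinearMap.id := LinearMap.ext (cmap_act_one hact1)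
    rw [h, TensorProduct.map_id]
    rfl
  map_mul' h h' := by
    apply AddMonoidHom.ext
    intro z
    change TensorProduct.map (cmap ℤ (SingMap (act ((h.1 : G) * (h'.1 : G)))))
      (cmap ℤ (SingMap (act ((h.2 : G) * (h'.2 : G))))) z =
      TensorProduct.map (cmap ℤ (SingMap (act (h.1 : G)))) (cmap ℤ (SingMap (act (h.2 : G))))
        (TensorProduct.map (cmap ℤ (SingMap (act (h'.1 : G))))
          (cmap ℤ (SingMap (act (h'.2 : G)))) z)
    have h1 : cmap ℤ (SingMap (act ((h.1 : G) * (h'.1 : G)))) =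
      cmap ℤ (SingMap (act (h.1 : G))) ∘ₗ cmap ℤ (SingMap (act (h'.1 : G))) :=
      LinearMap.ext (cmap_act_mul hact _ _)
    have h2 : cmap ℤ (SingMap (act ((h.2 : G) * (h'.2 : G)))) =
      cmap ℤ (SingMap (act (h.2 : G))) ∘ₗ cmap ℤ (SingMap (act (h'.2 : G))) :=
      LinearMap.ext (cmap_act_mul hact _ _)
    rw [h1, h2, TensorProduct.map_comp]
    rfl

/-- The inclusion `A × C → G`. -/
private def jT (A C : Subgroup G) : (A × C) →* G := A.subtype.coprod C.subtype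

private lemma jT_apply (A C : Subgroup G) (h : A × C) : jT A C h = (h.1 : G) * (h.2 : G) := rfl

private lemma jT_inj (A C : Subgroup G) (hAC : A ⊓ C = ⊥) : Function.Injective (jT A C) := by
  rw [injective_iff_map_eq_one]
  rintro ⟨a, c⟩ h
  rw [jT_apply] at h
  have h1 : (a : G) = (c : G)⁻¹ := eq_inv_of_mul_eq_one_left h
  have h2 : (a : G) ∈ A ⊓ C := ⟨a.2, by rw [h1]; exact C.inv_mem c.2⟩
  rw [hAC, Subgroup.mem_bot] at h2
  have h3 : (c : G) = 1 := by
    change (a : G) * (c : G) = 1 at h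
    rw [h2, one_mul] at h
    exact h
  apply Prod.ext
  · exact Subtype.ext h2
  · exact Subtype.ext h3

/-- The properties of the chain map in the degrees `≤ N`. -/
private def JP (X : AX G) {act : G → C(E, E)} (hact1 : act 1 = ContinuousMap.id E)
    (hact : ∀ a b, act (a * b) = (act a).comp (act b)) (A C : Subgroup G)
    (N : ℕ) (J : ∀ i, X.P i →+ TSq E) : Prop :=
  (∀ i, i ≤ N → ∀ x, J i x ∈ tgr (gr ℤ (Sing E)) (gr ℤ (Sing E)) i) ∧
  (∀ x, augT (aug ℤ (Sing E)) (aug ℤ (Sing E)) (J 0 x) = X.ε x) ∧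
  (∀ i, i < N → ∀ x, ((cz (Sing E)).tens (cz (Sing E))).d (J (i + 1) x) = J i (X.d i x)) ∧
  ∀ i, i ≤ N → ∀ h : A × C, ∀ x,
    J i (MonoidAlgebra.of ℤ G (jT A C h) • x) = rT hact1 hact A C h (J i x)

private lemma jex_zero (hPLift : S_PLift) (X : AX G) {act : G → C(E, E)}
    (hact1 : act 1 = ContinuousMap.id E)
    (hact : ∀ a b, act (a * b) = (act a).comp (act b)) (v : (Sing E).K 0) (A C : Subgroup G)
    (hAC : A ⊓ C = ⊥) : ∃ J, JP X hact1 hact A C 0 J := by
  obtain ⟨ψ, h1, h2, h3⟩ := hPLift G (X.P 0) (A × C) (jT A C) (jT_inj A C hAC) (TSq E) ℤ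
    (rT hact1 hact A C) 1 (augT (aug ℤ (Sing E)) (aug ℤ (Sing E))).toAddMonoidHom
    (fun h w => jex_augT _ _ w) (tgr (gr ℤ (Sing E)) (gr ℤ (Sing E)) 0).toAddSubgroup
    (fun h w hw => jex_tgr _ _ 0 w hw) X.ε (fun h x => X.εg _ x)
    (fun x => ⟨X.ε x • (sx ℤ v ⊗ₜ sx ℤ v), Submodule.smul_mem _ _ (Submodule.subset_span
      ⟨0, 0, _, _, rfl, sx_mem_gr ℤ v, sx_mem_gr ℤ v, rfl⟩), by
        change augT (aug ℤ (Sing E)) (aug ℤ (Sing E)) (X.ε x • (sx ℤ v ⊗ₜ sx ℤ v)) = X.ε x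
        rw [map_smul, augT_tmul, aug_sx_zero, one_mul, smul_eq_mul, mul_one]⟩)
  refine ⟨fun i => match i with
    | 0 => ψ
    | (_ + 1) => 0, ?_, ?_, ?_, ?_⟩
  · intro i hi x
    obtain rfl : i = 0 := Nat.le_zero.1 hi
    exact h1 x
  · exact h2
  · intro i hi
    exact absurd hi (Nat.not_lt_zero i)
  · intro i hi h x
    obtain rfl : i = 0 := Nat.le_zero.1 hi
    exact h3 h x

private lemma jex_succ (hPLift : S_PLift) (hTG : S_TG) (X : AX G) {act : G → C(E, E)}
    (hact1 : act 1 = ContinuousMap.id E)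
    (hact : ∀ a b, act (a * b) = (act a).comp (act b)) (v : (Sing E).K 0) (n : ℕ) (hn : 0 < n)
    (hE : AcE E v n) (A C : Subgroup G) (hAC : A ⊓ C = ⊥) (N : ℕ) (hN : N < n)
    (J : ∀ i, X.P i →+ TSq E) (hJ : JP X hact1 hact A C N J) :
    ∃ J', JP X hact1 hact A C (N + 1) J' := by
  obtain ⟨hT1, hT2, _⟩ := hTG ℤ (Sing E) v n hn hE.1 hE.2
  obtain ⟨J1, J2, J3, J4⟩ := hJ
  have hcyc : ∀ x : X.P (N + 1), ∃ w ∈ tgr (gr ℤ (Sing E)) (gr ℤ (Sing E)) (N + 1),
      ((chDG ℤ (Sing E)).tens (chDG ℤ (Sing E))).d w = J N (X.d N x) := by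
    intro x
    cases N with
    | zero =>
      refine hT2 _ (J1 0 le_rfl _) ?_
      rw [J2, X.εd]
    | succ N =>
      refine hT1 (N + 1) (Nat.succ_pos N) hN _ (J1 (N + 1) le_rfl _) ?_
      have := J3 N (Nat.lt_succ_self N) (X.d (N + 1) x)
      refine this.trans ?_
      rw [X.dd, map_zero]
  obtain ⟨ψ, h1, h2, h3⟩ := hPLift G (X.P (N + 1)) (A × C) (jT A C) (jT_inj A C hAC) (TSq E)
    (TSq E) (rT hact1 hact A C) (rT hact1 hact A C)
    ((cz (Sing E)).tens (cz (Sing E))).d.toAddMonoidHom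
    (fun h w => jex_d _ _ w) (tgr (gr ℤ (Sing E)) (gr ℤ (Sing E)) (N + 1)).toAddSubgroup
    (fun h w hw => jex_tgr _ _ (N + 1) w hw)
    ((J N).comp (X.d N).toAddMonoidHom)
    (fun h x => by
      change J N (X.d N (MonoidAlgebra.of ℤ G (jT A C h) • x)) =
        rT hact1 hact A C h (J N (X.d N x))
      rw [map_smul, J4 N le_rfl])
    (fun x => hcyc x)
  refine ⟨Function.update J (N + 1) ψ, ?_, ?_, ?_, ?_⟩
  · intro i hi x
    rcases Nat.lt_or_ge i (N + 1) with h | h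
    · rw [Function.update_of_ne h.ne]
      exact J1 i (Nat.lt_succ_iff.1 h) x
    · obtain rfl : i = N + 1 := le_antisymm hi h
      rw [Function.update_self]
      exact h1 x
  · intro x
    rw [Function.update_of_ne (Nat.succ_ne_zero N).symm]
    exact J2 x
  · intro i hi x
    rcases Nat.lt_or_ge i N with h | h
    · rw [Function.update_of_ne (show i + 1 ≠ N + 1 by omega),
        Function.update_of_ne (show i ≠ N + 1 by omega)]
      exact J3 i h x
    · obtain rfl : i = N := le_antisymm (Nat.lt_succ_iff.1 hi) h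
      rw [Function.update_self, Function.update_of_ne (show i ≠ i + 1 by omega)]
      exact h2 x
  · intro i hi h x
    rcases Nat.lt_or_ge i (N + 1) with h' | h'
    · rw [Function.update_of_ne h'.ne]
      exact J4 i (Nat.lt_succ_iff.1 h') h x
    · obtain rfl : i = N + 1 := le_antisymm hi h'
      rw [Function.update_self]
      exact h3 h x

end

theorem sJex (hPLift : S_PLift) (hTG : S_TG) : S_Jex := by
  intro G _ X E _ act hact1 hact v n hn hE A C hAC
  have key : ∀ N, N ≤ n → ∃ J, JP X hact1 hact A C N J := by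
    intro N
    induction N with
    | zero => exact fun _ => jex_zero hPLift X hact1 hact v A C hAC
    | succ N ih =>
      intro hN
      obtain ⟨J, hJ⟩ := ih (Nat.le_of_succ_le hN)
      exact jex_succ hPLift hTG X hact1 hact v n hn hE A C hAC N hN J hJ
  obtain ⟨J, J1, J2, J3, J4⟩ := key n le_rfl
  exact ⟨J, J1, J2, J3, fun i hi a ha c hc x => J4 i hi (⟨a, ha⟩, ⟨c, hc⟩) x⟩

end HPx
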