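import Pool.Agent.Lib.MP_181146_gt.HP.SpecQ
import Pool.Agent.Lib.MP_181146_gt.HE.SpecS

/-! # Project HP, module Phi (helper17): power operations on chains

The auxiliary statements on vertices are those of `HP/Vtx.lean`. -/

set_option autoImplicit false

namespace HPx

open scoped TensorProduct
open HEp

/-! ### Homotopies -/

private theorem Phi_id {E : Type} [TopologicalSpace E]
    (x : Ch ℤ (Sing E)) : cmap ℤ (SingMap (ContinuousMap.id E)) x = x := by
  have h : cmap ℤ (SingMap (ContinuousMap.id E)) = LinearMap.id := ch_ext fun n y => by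
    rw [cmap_sx]
    rfl
  exact LinearMap.congr_fun h x

private theorem Phi_right {E : Type} [TopologicalSpace E] (v : E)
    (m : C(E × E, E)) (x : Ch ℤ (Sing E)) :
    cmap ℤ (SingMul m) (cmap ℤ (SSHom.pair (SSHom.id (Sing E)) (SSHom.cst (Sing E) (vtx v))) x) =
      cmap ℤ (SingMap (m.comp (ContinuousMap.prodMk (ContinuousMap.id E)
        (ContinuousMap.const E v)))) x := by
  have h : cmap ℤ (SingMul m) ∘ₗ
      cmap ℤ (SSHom.pair (SSHom.id (Sing E)) (SSHom.cst (Sing E) (vtx v))) =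
      cmap ℤ (SingMap (m.comp (ContinuousMap.prodMk (ContinuousMap.id E)
        (ContinuousMap.const E v)))) := ch_ext fun n y => by
    rw [LinearMap.comp_apply, cmap_sx, cmap_sx, cmap_sx]
    rfl
  exact LinearMap.congr_fun h x

private theorem Phi_left {E : Type} [TopologicalSpace E] (v : E)
    (m : C(E × E, E)) (x : Ch ℤ (Sing E)) :
    cmap ℤ (SingMul m) (cmap ℤ (SSHom.pair (SSHom.cst (Sing E) (vtx v)) (SSHom.id (Sing E))) x) =
      cmap ℤ (SingMap (m.comp (ContinuousMap.prodMk (ContinuousMap.const E v)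
        (ContinuousMap.id E)))) x := by
  have h : cmap ℤ (SingMul m) ∘ₗ
      cmap ℤ (SSHom.pair (SSHom.cst (Sing E) (vtx v)) (SSHom.id (Sing E))) =
      cmap ℤ (SingMap (m.comp (ContinuousMap.prodMk (ContinuousMap.const E v)
        (ContinuousMap.id E)))) := ch_ext fun n y => by
    rw [LinearMap.comp_apply, cmap_sx, cmap_sx, cmap_sx]
    rfl
  exact LinearMap.congr_fun h x

private theorem Phi_hot (hSHot : S_SHot) {E : Type} [TopologicalSpace E]
    (g : C(E, E)) (hg : (ContinuousMap.id E).Homotopic g) (x : Ch ℤ (Sing E))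
    (hx : bd ℤ (Sing E) x = 0) : ∃ y, cmap ℤ (SingMap g) x - x = bd ℤ (Sing E) y := by
  obtain ⟨h, hh⟩ := hSHot ℤ E E (ContinuousMap.id E) g hg
  refine ⟨h x, ?_⟩
  have h1 : cmap ℤ (SingMap g) x - cmap ℤ (SingMap (ContinuousMap.id E)) x =
      bd ℤ (Sing E) (h x) + h (bd ℤ (Sing E) x) := hh x
  rw [Phi_id, hx, map_zero, add_zero] at h1
  exact h1

/-- Every `0`-simplex is a vertex. -/
private theorem Phi_vtx {E : Type} [TopologicalSpace E] (σ : (Sing E).K 0) :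
    ∃ w : E, σ = vtx w := by
  have hsub : ∀ p q : Pool.Agent.Lib.SingHom.Sx 0, p = q := by
    intro p q
    apply Subtype.ext
    funext i
    have hp := p.2.2
    have hq := q.2.2
    rw [Fin.sum_univ_one] at hp hq
    have hi : i = 0 := Fin.eq_zero i
    rw [hi]
    exact hp.trans hq.symm
  obtain ⟨p⟩ : Nonempty (Pool.Agent.Lib.SingHom.Sx 0) := inferInstance
  let τ : C(Pool.Agent.Lib.SingHom.Sx 0, E) := σ
  refine ⟨τ p, ?_⟩
  change τ = ContinuousMap.const _ (τ p)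
  apply ContinuousMap.ext
  intro q
  rw [ContinuousMap.const_apply, hsub q p]

/-! ### Gradings -/

private theorem Phi_gr {K : SS} {M : Type} [AddCommGroup M] [Module ℤ M]
    (f : Ch ℤ K →ₗ[ℤ] M) (S : Submodule ℤ M) (n : ℕ) (h : ∀ x : K.K n, f (sx ℤ x) ∈ S) :
    ∀ c ∈ gr ℤ K n, f c ∈ S := by
  intro c hc
  have h1 : gr ℤ K n ≤ S.comap f := by
    rw [gr, Finsupp.supported_eq_span_single, Submodule.span_le]
    rintro _ ⟨⟨i, x⟩, hi, rfl⟩
    obtain rfl : i = n := hi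
    exact h x
  exact h1 hc

private theorem Phi_cmap {K L : SS} (f : SSHom K L) (n : ℕ) :
    ∀ c ∈ gr ℤ K n, cmap ℤ f c ∈ gr ℤ L n :=
  Phi_gr _ _ n fun x => by
    rw [cmap_sx]
    exact sx_mem_gr ℤ _

private theorem Phi_od {K : SS} (n : ℕ) : ∀ c ∈ gr ℤ K n,
    od ℤ K c = if Odd n then c else 0 := by
  intro c hc
  have h := Phi_gr (od ℤ K - (if Odd n then LinearMap.id else 0)) ⊥ n (fun x => by
    rw [Submodule.mem_bot, LinearMap.sub_apply, od_sx]
    split_ifs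
    · exact sub_self _
    · exact sub_self _) c hc
  rw [Submodule.mem_bot, LinearMap.sub_apply, sub_eq_zero] at h
  rw [h]
  split_ifs
  · rfl
  · rfl

/-- A map which preserves the dimension commutes with the parity. -/
private theorem Phi_par {K : SS} (φ : Ch ℤ K →ₗ[ℤ] Ch ℤ K)
    (h : ∀ i, ∀ c ∈ gr ℤ K i, φ c ∈ gr ℤ K i) (c : Ch ℤ K) : φ (od ℤ K c) = od ℤ K (φ c) := by
  have h1 : φ ∘ₗ od ℤ K = od ℤ K ∘ₗ φ := ch_ext fun n x => by
    rw [LinearMap.comp_apply, LinearMap.comp_apply, od_sx, Phi_od n _ (h n _ (sx_mem_gr ℤ x))]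
    split_ifs
    · rfl
    · rw [map_zero]
  exact LinearMap.congr_fun h1 c

/-! ### Tensor products -/

private theorem Phi_D {K : SS} (φ : Ch ℤ K →ₗ[ℤ] Ch ℤ K)
    (h : ∀ c, φ (bd ℤ K c) = bd ℤ K (φ c)) (h' : ∀ c, φ (od ℤ K c) = od ℤ K (φ c))
    (z : Ch ℤ K ⊗[ℤ] Ch ℤ K) : TensorProduct.map φ LinearMap.id (((cz K).tens (cz K)).d z) =
      ((cz K).tens (cz K)).d (TensorProduct.map φ LinearMap.id z) := by
  induction z using TensorProduct.induction_on with
  | zero => simp only [map_zero]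
  | add x y hx hy => rw [map_add, map_add, hx, hy, map_add, map_add]
  | tmul a b =>
    have h1 : ((cz K).tens (cz K)).d (a ⊗ₜ b) =
      bd ℤ K a ⊗ₜ[ℤ] b + (a - (2 : ℤ) • od ℤ K a) ⊗ₜ[ℤ] bd ℤ K b := rfl
    have h2 : ((cz K).tens (cz K)).d (φ a ⊗ₜ b) =
      bd ℤ K (φ a) ⊗ₜ[ℤ] b + (φ a - (2 : ℤ) • od ℤ K (φ a)) ⊗ₜ[ℤ] bd ℤ K b := rfl
    rw [TensorProduct.map_tmul, LinearMap.id_apply, h2]
    refine Eq.trans (congrArg _ h1) ?_
    rw [map_add, TensorProduct.map_tmul, TensorProduct.map_tmul, map_sub, map_smul, h, h',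
      LinearMap.id_apply, LinearMap.id_apply]

private theorem Phi_tgr {K : SS} (φ : Ch ℤ K →ₗ[ℤ] Ch ℤ K)
    (h : ∀ i, ∀ c ∈ gr ℤ K i, φ c ∈ gr ℤ K i) (n : ℕ) :
    ∀ z ∈ tgr (gr ℤ K) (gr ℤ K) n,
      TensorProduct.map φ LinearMap.id z ∈ tgr (gr ℤ K) (gr ℤ K) n := by
  intro z hz
  have h1 : tgr (gr ℤ K) (gr ℤ K) n ≤
      (tgr (gr ℤ K) (gr ℤ K) n).comap (TensorProduct.map φ LinearMap.id) := by
    rw [tgr, Submodule.span_le]
    rintro _ ⟨i, j, x, y, hij, hx, hy, rfl⟩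
    exact Submodule.subset_span ⟨i, j, φ x, y, hij, h i x hx, hy, rfl⟩
  exact h1 hz

private theorem Phi_aug {K : SS} (φ : Ch ℤ K →ₗ[ℤ] Ch ℤ K)
    (h : ∀ c, aug ℤ K (φ c) = aug ℤ K c) (z : Ch ℤ K ⊗[ℤ] Ch ℤ K) :
    augT (aug ℤ K) (aug ℤ K) (TensorProduct.map φ LinearMap.id z) =
      augT (aug ℤ K) (aug ℤ K) z := by
  induction z using TensorProduct.induction_on with
  | zero => simp only [map_zero]
  | add x y hx hy => rw [map_add, map_add, map_add, hx, hy]
  | tmul a b => rw [TensorProduct.map_tmul, augT_tmul, augT_tmul, h, LinearMap.id_apply]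

/-- The coproduct of a vertex. -/
private theorem Phi_dl {K : SS} (σ : K.K 0) : dl ℤ K (sx ℤ σ) = sx ℤ σ ⊗ₜ sx ℤ σ := by
  rw [dl, LinearMap.comp_apply, cmap_sx, aw, sx, Finsupp.linearCombination_single, one_smul]
  have h1 : ∀ a : Fin (0 + 1) → Fin (0 + 1), K.act a σ = σ := by
    intro a
    have h2 : a = id := by
      funext i
      exact Subsingleton.elim (α := Fin 1) _ _
    rw [h2, K.act_id]
  change ∑ p ∈ Finset.HasAntidiagonal.antidiagonal 0,
    sx ℤ (K.act (fr p.1 0) σ) ⊗ₜ[ℤ] sx ℤ (K.act (bk p.1 p.2 0) σ) = _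
  rw [Finset.HasAntidiagonal.antidiagonal_zero, Finset.sum_singleton]
  change sx ℤ (K.act (fr 0 0) σ) ⊗ₜ[ℤ] sx ℤ (K.act (bk 0 0 0) σ) = _
  rw [h1, h1]

/-! ### The induction -/

private structure PhiOK {G : Type} [CommGroup G] {E : Type} [TopologicalSpace E]
    (act : G → C(E, E)) (v : E) (r : ℕ) (φ : Ch ℤ (Sing E) →ₗ[ℤ] Ch ℤ (Sing E)) : Prop where
  d : ∀ c, φ (bd ℤ (Sing E) c) = bd ℤ (Sing E) (φ c)
  g : ∀ i, ∀ c ∈ gr ℤ (Sing E) i, φ c ∈ gr ℤ (Sing E) i
  a : ∀ c, aug ℤ (Sing E) (φ c) = aug ℤ (Sing E) c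
  e : ∀ (g : G) c, φ (cmap ℤ (SingMap (act g)) c) = cmap ℤ (SingMap (act (g ^ r))) (φ c)
  vt : ∃ w : E, φ (sx ℤ (vtx v)) = sx ℤ (vtx w)
  l : ∀ c, bd ℤ (Sing E) c = 0 → (∃ w, dl ℤ (Sing E) c = c ⊗ₜ sx ℤ (vtx v) +
      sx ℤ (vtx v) ⊗ₜ c + ((cz (Sing E)).tens (cz (Sing E))).d w) →
      ∃ y, φ c - (r : ℤ) • c = bd ℤ (Sing E) y

private theorem Phi_step (hNabD : S_NabD) (hNabG : S_NabG) (hNabN : S_NabN) (hNabU : S_NabU)
    (hDlG : S_DlG) (hSHot : S_SHot) (e : ∀ p q : ℕ, Ch ℤ ((De p).prod (De q))) (he : EZ e)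
    {G : Type} [CommGroup G] {E : Type} [TopologicalSpace E] [PathConnectedSpace E]
    (act : G → C(E, E)) (hact : ∀ a b, act (a * b) = (act a).comp (act b)) (v : E)
    (m : C(E × E, E))
    (hA : ContinuousMap.Homotopic (ContinuousMap.id E)
      (m.comp (ContinuousMap.prodMk (ContinuousMap.id E) (ContinuousMap.const E v))))
    (hB : ContinuousMap.Homotopic (ContinuousMap.id E)
      (m.comp (ContinuousMap.prodMk (ContinuousMap.const E v) (ContinuousMap.id E))))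
    (hm1 : ∀ (g : G) (x y : E), m (act g x, y) = act g (m (x, y)))
    (hm2 : ∀ (g : G) (x y : E), m (x, act g y) = act g (m (x, y))) (r : ℕ)
    (φ : Ch ℤ (Sing E) →ₗ[ℤ] Ch ℤ (Sing E)) (hφ : PhiOK act v r φ) :
    PhiOK act v (r + 1)
      (mu ℤ e (SingMul m) ∘ₗ TensorProduct.map φ LinearMap.id ∘ₗ dl ℤ (Sing E)) := by
  obtain ⟨hdl, hdg, hda, hdn⟩ := hDlG ℤ (Sing E)
  obtain ⟨n1, n2, n3⟩ := hNabU e he ℤ (Sing E) (Sing E)
  have hpar := Phi_par φ hφ.g
  have hmuD : ∀ z, mu ℤ e (SingMul m) (((cz (Sing E)).tens (cz (Sing E))).d z) =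
      bd ℤ (Sing E) (mu ℤ e (SingMul m) z) := by
    intro z
    rw [mu, LinearMap.comp_apply, LinearMap.comp_apply, hNabD e he ℤ (Sing E) (Sing E) z, cmap_bd]
  have hmuG : ∀ (n : ℕ), ∀ z ∈ tgr (gr ℤ (Sing E)) (gr ℤ (Sing E)) n,
      mu ℤ e (SingMul m) z ∈ gr ℤ (Sing E) n := by
    intro n z hz
    have h1 : tgr (gr ℤ (Sing E)) (gr ℤ (Sing E)) n ≤
        (gr ℤ (Sing E) n).comap (mu ℤ e (SingMul m)) := by
      rw [tgr, Submodule.span_le]
      rintro _ ⟨i, j, x, y, rfl, hx, hy, rfl⟩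
      exact Phi_cmap _ _ _ ((hNabG e he ℤ (Sing E) (Sing E)).1 i j x hx y hy)
    exact h1 hz
  have hmuA : ∀ z, aug ℤ (Sing E) (mu ℤ e (SingMul m) z) =
      augT (aug ℤ (Sing E)) (aug ℤ (Sing E)) z := by
    intro z
    rw [mu, LinearMap.comp_apply, aug_cmap, n3]
  have hmuE : ∀ (a b : G) z, mu ℤ e (SingMul m) (TensorProduct.map (cmap ℤ (SingMap (act a)))
      (cmap ℤ (SingMap (act b))) z) =
      cmap ℤ (SingMap (act (a * b))) (mu ℤ e (SingMul m) z) := by
    intro a b z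
    rw [mu, LinearMap.comp_apply, LinearMap.comp_apply,
      hNabN e ℤ (Sing E) (Sing E) (Sing E) (Sing E) (SingMap (act a)) (SingMap (act b)) z]
    have h : cmap ℤ (SingMul m) ∘ₗ cmap ℤ ((SingMap (act a)).prod (SingMap (act b))) =
        cmap ℤ (SingMap (act (a * b))) ∘ₗ cmap ℤ (SingMul m) := ch_ext fun n y => by
      rw [LinearMap.comp_apply, LinearMap.comp_apply, cmap_sx, cmap_sx, cmap_sx, cmap_sx]
      refine congrArg (sx ℤ (K := Sing E) (n := n)) ?_
      obtain ⟨y1, y2⟩ : C(Pool.Agent.Lib.SingHom.Sx n, E) × C(Pool.Agent.Lib.SingHom.Sx n, E) := y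
      apply ContinuousMap.ext
      intro t
      change m (act a (y1 t), act b (y2 t)) = act (a * b) (m (y1 t, y2 t))
      rw [hm1, hm2, hact, ContinuousMap.comp_apply]
    exact LinearMap.congr_fun h _
  refine ⟨?_, ?_, ?_, ?_, ?_, ?_⟩
  · intro c
    rw [LinearMap.comp_apply, LinearMap.comp_apply, LinearMap.comp_apply, LinearMap.comp_apply]
    have h1 : dl ℤ (Sing E) (bd ℤ (Sing E) c) =
      ((cz (Sing E)).tens (cz (Sing E))).d (dl ℤ (Sing E) c) := hdl.d c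
    rw [h1, Phi_D φ hφ.d hpar, hmuD]
  · intro i c hc
    exact hmuG i _ (Phi_tgr φ hφ.g i _ (hdg i c hc))
  · intro c
    rw [LinearMap.comp_apply, LinearMap.comp_apply, hmuA, Phi_aug φ hφ.a, hda]
  · intro g c
    rw [LinearMap.comp_apply, LinearMap.comp_apply, LinearMap.comp_apply, LinearMap.comp_apply,
      ← hdn (Sing E) (SingMap (act g)) c]
    have h1 : ∀ z, TensorProduct.map φ LinearMap.id
        (TensorProduct.map (cmap ℤ (SingMap (act g))) (cmap ℤ (SingMap (act g))) z) =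
        TensorProduct.map (cmap ℤ (SingMap (act (g ^ r)))) (cmap ℤ (SingMap (act g)))
          (TensorProduct.map φ LinearMap.id z) := by
      intro z
      induction z using TensorProduct.induction_on with
      | zero => simp only [map_zero]
      | add x y hx hy => rw [map_add, map_add, hx, hy, map_add, map_add]
      | tmul a b =>
        rw [TensorProduct.map_tmul, TensorProduct.map_tmul, TensorProduct.map_tmul,
          TensorProduct.map_tmul, hφ.e, LinearMap.id_apply, LinearMap.id_apply]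
    rw [h1, hmuE, ← pow_succ]
  · obtain ⟨w, hw⟩ := hφ.vt
    rw [LinearMap.comp_apply, LinearMap.comp_apply, Phi_dl, TensorProduct.map_tmul, hw,
      LinearMap.id_apply, mu, LinearMap.comp_apply, n1, cmap_sx, cmap_sx]
    obtain ⟨w', hw'⟩ := Phi_vtx ((SingMul m).f
      ((SSHom.pair (SSHom.id (Sing E)) (SSHom.cst (Sing E) (vtx v))).f (vtx w)))
    exact ⟨w', congrArg (sx ℤ) hw'⟩
  · intro c hc hp
    obtain ⟨y0, hy0⟩ := hφ.l c hc hp
    obtain ⟨w0, hw0⟩ := hp
    obtain ⟨w, hw⟩ := hφ.vt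
    have hφc : bd ℤ (Sing E) (φ c) = 0 := by rw [← hφ.d, hc, map_zero]
    obtain ⟨y1, hy1⟩ := Phi_hot hSHot _ hA (φ c) hφc
    have hne : Nonempty E := ⟨v⟩
    have h1 : (ContinuousMap.const E v).Homotopic (ContinuousMap.const E w) :=
      ContinuousMap.homotopic_const_iff.2 (PathConnectedSpace.joined v w)
    have h2 : (m.comp (ContinuousMap.prodMk (ContinuousMap.const E v)
        (ContinuousMap.id E))).Homotopic
        (m.comp (ContinuousMap.prodMk (ContinuousMap.const E w) (ContinuousMap.id E))) :=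
      (ContinuousMap.Homotopic.refl m).comp (h1.prodMk (ContinuousMap.Homotopic.refl _))
    obtain ⟨y2, hy2⟩ := Phi_hot hSHot _ (hB.trans h2) c hc
    have h3 : mu ℤ e (SingMul m) (φ c ⊗ₜ sx ℤ (vtx v)) = φ c + bd ℤ (Sing E) y1 := by
      rw [← hy1, mu, LinearMap.comp_apply, n1, Phi_right]
      abel
    have h4 : mu ℤ e (SingMul m) (sx ℤ (vtx w) ⊗ₜ c) = c + bd ℤ (Sing E) y2 := by
      rw [← hy2, mu, LinearMap.comp_apply, n2, Phi_left]
      abel
    have h5 : φ c = (r : ℤ) • c + bd ℤ (Sing E) y0 := by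
      rw [← hy0]
      abel
    refine ⟨y0 + y1 + y2 + mu ℤ e (SingMul m) (TensorProduct.map φ LinearMap.id w0), ?_⟩
    have h6 : TensorProduct.map φ LinearMap.id (dl ℤ (Sing E) c) =
        φ c ⊗ₜ sx ℤ (vtx v) + sx ℤ (vtx w) ⊗ₜ c +
          ((cz (Sing E)).tens (cz (Sing E))).d (TensorProduct.map φ LinearMap.id w0) := by
      rw [hw0, map_add, map_add, TensorProduct.map_tmul, TensorProduct.map_tmul, hw,
        LinearMap.id_apply, LinearMap.id_apply, Phi_D φ hφ.d hpar]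
    rw [LinearMap.comp_apply, LinearMap.comp_apply, h6]
    refine (congrArg (fun z => z - ((r + 1 : ℕ) : ℤ) • c) (map_add _ _ _)).trans ?_
    rw [map_add, hmuD, h3, h4, h5, map_add, map_add, map_add]
    push_cast
    module

theorem sPhi (hNabD : HEp.S_NabD) (hNabG : HEp.S_NabG) (hNabN : HEp.S_NabN) (hNabU : HEp.S_NabU)
    (hDlG : HEp.S_DlG) (hSHot : HEp.S_SHot) : S_Phi := by
  intro e he G _ E _ _ act _ hact v m hA hB hm1 hm2 r hr
  have key : ∃ φ : Ch ℤ (Sing E) →ₗ[ℤ] Ch ℤ (Sing E), PhiOK act v r φ := by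
    induction r with
    | zero => exact absurd hr (lt_irrefl 0)
    | succ r ih =>
      rcases Nat.eq_zero_or_pos r with h0 | h0
      · subst h0
        refine ⟨LinearMap.id, fun _ => rfl, fun _ _ h => h, fun _ => rfl, ?_, ⟨v, rfl⟩, ?_⟩
        · intro g c
          rw [LinearMap.id_apply, LinearMap.id_apply, zero_add, pow_one]
        · intro c _ _
          refine ⟨0, ?_⟩
          rw [LinearMap.id_apply, map_zero]
          simp
      · obtain ⟨φ, hφ⟩ := ih h0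
        exact ⟨_, Phi_step hNabD hNabG hNabN hNabU hDlG hSHot e he act hact v m hA hB hm1 hm2 r φ
          hφ⟩
  obtain ⟨φ, hφ⟩ := key
  exact ⟨φ, hφ.d, hφ.g, hφ.a, hφ.e, hφ.l⟩

end HPx
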