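import Pool.Agent.Lib.MP_181146_gt.HP.SpecQ
import Pool.Agent.Lib.MP_181146_gt.HS.Slim
import Pool.Agent.Lib.MP_181146_gt.HE.SpecS
import Pool.Agent.Lib.MP_181146_gt.HS.Spec

/-!
# Project HP, part 3: assembly for the unobstructed case.  Every statement is a separate task; the
proof of each is in the docstring.
-/

set_option linter.unusedVariables false
set_option autoImplicit false

namespace HPx

open scoped TensorProduct
open HEp

/-- The complex `M` as an augmented complex. -/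
def mkAX {G : Type} [CommGroup G] (M : ℕ → Type) [∀ i, AddCommGroup (M i)]
    [∀ i, Module (ZG G) (M i)] [∀ i, Module.Finite (ZG G) (M i)]
    [∀ i, Module.Projective (ZG G) (M i)] (d : ∀ i, M (i + 1) →ₗ[ZG G] M i)
    (dd : ∀ i x, d i (d (i + 1) x) = 0) (ε : M 0 →+ ℤ)
    (εg : ∀ (g : G) (x : M 0), ε (MonoidAlgebra.of ℤ G g • x) = ε x) (εd : ∀ x, ε (d 0 x) = 0) :
    AX G where
  P := M
  d := d
  dd := dd
  ε := ε
  εg := εg
  εd := εd

/-- **LkEx.** The augmentation and the link with the singular chains (compare `HP/TTex.lean`,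
`HE/TEx.lean`): `f i` = `u i`, `cmpInv`, inclusion; `f' i` = component in degree `i`, `cmp`, `u' i`;
`ε x = aug (f 0 x)`; `ε (f' 0 c) = aug c` because `f (f' c) - c` is a boundary for `c ∈ gr 0`, and both sides
vanish on `gr n`, `n > 0`. -/
def S_LkEx : Prop :=
  ∀ (E : Type) [TopologicalSpace E] (G : Type) [CommGroup G] (act : G → C(E, E)) (M : ℕ → Type)
    [∀ i, AddCommGroup (M i)] [∀ i, Module (ZG G) (M i)] [∀ i, Module.Finite (ZG G) (M i)]
    [∀ i, Module.Projective (ZG G) (M i)] (d : ∀ i : ℕ, M (i + 1) →ₗ[ZG G] M i)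
    (dd : ∀ i x, d i (d (i + 1) x) = 0)
    (u : ∀ i, M i →+ (HSp.SC E).X i) (u' : ∀ i, (HSp.SC E).X i →+ M i)
    (a : ∀ i, M i →+ M (i + 1)) (b : ∀ i, (HSp.SC E).X i →+ (HSp.SC E).X (i + 1))
    (ud : ∀ i x, u i (d i x) = ((HSp.SC E).d (i + 1) i).hom (u (i + 1) x))
    (u'd : ∀ i x, u' i (((HSp.SC E).d (i + 1) i).hom x) = d i (u' (i + 1) x))
    (ha0 : ∀ x, u' 0 (u 0 x) - x = d 0 (a 0 x))
    (ha : ∀ i x, u' (i + 1) (u (i + 1) x) - x = d (i + 1) (a (i + 1) x) + a i (d i x))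
    (hb0 : ∀ x, u 0 (u' 0 x) - x = ((HSp.SC E).d 1 0).hom (b 0 x))
    (hb : ∀ i x, u (i + 1) (u' (i + 1) x) - x = ((HSp.SC E).d (i + 2) (i + 1)).hom (b (i + 1) x) +
      b i (((HSp.SC E).d (i + 1) i).hom x))
    (ug : ∀ (g : G) i x, u i (MonoidAlgebra.of ℤ G g • x) =
      ((HSp.SCmap (act g)).f i).hom (u i x))
    (u'g : ∀ (g : G) i x, u' i (((HSp.SCmap (act g)).f i).hom x) =
      MonoidAlgebra.of ℤ G g • u' i x),
    ∃ (ε : M 0 →+ ℤ) (εg : ∀ (g : G) (x : M 0), ε (MonoidAlgebra.of ℤ G g • x) = ε x)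
      (εd : ∀ x, ε (d 0 x) = 0), Nonempty (Lk (mkAX M d dd ε εg εd) E act)

/-- **LkAc.** Exactness of `X` from the link: for a cycle `x` of degree `i`, `0 < i < n`: `f x` is a cycle of
`gr i`, `f x = bd y`; `x = f' f x - d (h x) - h (d x) = d (f' y - h x)`.  Degree `0`: `aug (f x) = ε x = 0`, so
`f x = bd y`; `ε (f' v) = aug v = 1`. -/
def S_LkAc : Prop :=
  ∀ (G : Type) [CommGroup G] (X : AX G) (E : Type) [TopologicalSpace E] (act : G → C(E, E))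
    (Λ : Lk X E act) (v : (Sing E).K 0) (n : ℕ) (hE : AcE E v n), X.Ac n

/-- **AcEx** (from HEp.SH0).  The hypothesis on the homology of `E` in terms of Mathlib's singular chain
complex gives `AcE` (`SingHom.Compare`: `cmp`, `cmpInv`; take components in degree `i`). -/
def S_AcEx : Prop :=
  ∀ (E : Type) [TopologicalSpace E] [PathConnectedSpace E] (v : E) (n : ℕ)
    (hE : ∀ i, i + 1 < n → ∀ x : HSp.SI E (i + 1), HSp.bdS E i x = 0 →
      ∃ y, HSp.bdS E (i + 1) y = x), AcE E (vtx v) n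

/-- **Core** (from Exi, Rel, Trn, TTex, AM, TotD, Prm, LkEx, LkAc, AcEx).
Proof.  LkEx: `X = mkAX M d ..`, `Λ`; LkAc, AcEx.  `y i = u' (z i)`: cycles; if `∑ c_i y_i = d w` then
`∑ c_i u (u' (z_i)) = bd (u w)` and `u (u' z) - z = bd (b z)` for cycles `z`, so `∑ c_i z_i` is a
boundary and `c = 0`.  Exi: `x`, `y'`.  Put `x̂ c = x (f' (n+1) c)` (linear over `ℤ`, `Sup`, cocycle,
invariant), `c = f (n+1) y'` (a cycle of `gr (n+1)`), `x̂ c = x (f' f y') = x y' = 1`.  `w` from Prm.  Rel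
over `ℤ` gives the operators on `Ch ℤ (Sing E)`; for `α = act g` the conditions are `hm2`, `hBg`, invariance.
TTex (`N = 2 K`), Trn, TotD, AM (degree `n + 1`, odd, `> 1`). -/
def S_Core : Prop :=
  ∀ (e : ∀ p q : ℕ, Ch ℤ ((De p).prod (De q))) (he : EZ e) (G : Type) [CommGroup G] [Finite G]
    (E : Type) [TopologicalSpace E] [PathConnectedSpace E]
    (act : G → C(E, E)) (hact1 : act 1 = ContinuousMap.id E)
    (hact : ∀ a b, act (a * b) = (act a).comp (act b))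
    (v : E) (m : C(E × E, E))
    (hA : ContinuousMap.Homotopic (ContinuousMap.id E)
      (m.comp (ContinuousMap.prodMk (ContinuousMap.id E) (ContinuousMap.const E v))))
    (B : C(unitInterval × E, E)) (hB0 : ∀ x, B (0, x) = x) (hB1 : ∀ x, B (1, x) = m (v, x))
    (hBg : ∀ (g : G) s x, B (s, act g x) = act g (B (s, x)))
    (hm1 : ∀ (g : G) (x y : E), m (act g x, y) = act g (m (x, y)))
    (hm2 : ∀ (g : G) (x y : E), m (x, act g y) = act g (m (x, y)))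
    (M : ℕ → Type) [∀ i, AddCommGroup (M i)] [∀ i, Module (ZG G) (M i)]
    [∀ i, Module.Finite (ZG G) (M i)] [∀ i, Module.Projective (ZG G) (M i)]
    (d : ∀ i : ℕ, M (i + 1) →ₗ[ZG G] M i) (dd : ∀ i x, d i (d (i + 1) x) = 0) (K : ℕ)
    (hK : ∀ i, 2 * K ≤ i → Subsingleton (M i))
    (u : ∀ i, M i →+ (HSp.SC E).X i) (u' : ∀ i, (HSp.SC E).X i →+ M i)
    (a : ∀ i, M i →+ M (i + 1)) (b : ∀ i, (HSp.SC E).X i →+ (HSp.SC E).X (i + 1))
    (ud : ∀ i x, u i (d i x) = ((HSp.SC E).d (i + 1) i).hom (u (i + 1) x))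
    (u'd : ∀ i x, u' i (((HSp.SC E).d (i + 1) i).hom x) = d i (u' (i + 1) x))
    (ha0 : ∀ x, u' 0 (u 0 x) - x = d 0 (a 0 x))
    (ha : ∀ i x, u' (i + 1) (u (i + 1) x) - x = d (i + 1) (a (i + 1) x) + a i (d i x))
    (hb0 : ∀ x, u 0 (u' 0 x) - x = ((HSp.SC E).d 1 0).hom (b 0 x))
    (hb : ∀ i x, u (i + 1) (u' (i + 1) x) - x = ((HSp.SC E).d (i + 2) (i + 1)).hom (b (i + 1) x) +
      b i (((HSp.SC E).d (i + 1) i).hom x))
    (ug : ∀ (g : G) i x, u i (MonoidAlgebra.of ℤ G g • x) =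
      ((HSp.SCmap (act g)).f i).hom (u i x))
    (u'g : ∀ (g : G) i x, u' i (((HSp.SCmap (act g)).f i).hom x) =
      MonoidAlgebra.of ℤ G g • u' i x)
    (ag : ∀ (g : G) i x, a i (MonoidAlgebra.of ℤ G g • x) = MonoidAlgebra.of ℤ G g • a i x)
    (bg : ∀ (g : G) i x, b i (((HSp.SCmap (act g)).f i).hom x) =
      ((HSp.SCmap (act g)).f (i + 1)).hom (b i x))
    (hPN : ∀ g : G, ∃ h : ∀ i : ℕ, M i →ₗ[ZG G] M (i + 1),
      (∀ x, d 0 (h 0 x) = MonoidAlgebra.of ℤ G g • x - x) ∧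
      ∀ i x, d (i + 1) (h (i + 1) x) + h i (d i x) = MonoidAlgebra.of ℤ G g • x - x)
    (n : ℕ) (hn : n % 4 = 2)
    (hE : ∀ i, i < n → ∀ x : HSp.SI E (i + 1), HSp.bdS E i x = 0 → ∃ y, HSp.bdS E (i + 1) y = x)
    (s : ℕ) (z : Fin s → HSp.SI E (n + 1)) (hz : ∀ i, HSp.bdS E n (z i) = 0)
    (hind : ∀ c : Fin s → ℤ, (∃ w, HSp.bdS E (n + 1) w = ∑ i, c i • z i) → c = 0)
    (hs : Nat.card {g : G // g * g = 1} < 2 ^ s),
    ∃ c : ℕ, Nonempty (((∀ j : Fin K, M (2 * j)) × (Fin c → ZG G)) ≃ₗ[ZG G]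
      ((∀ j : Fin K, M (2 * j + 1)) × (Fin c → ZG G)))

/-- **PStop** (from Core, LfE, HEp.Lpc, HEp.DCo, HEp.PNx, HEp.EZex, HSp.TN).  The theorem for the
unobstructed case.  Proof: as `sHEtop` in `HE/HEtop.lean` (`Γ = Deck p` is commutative by TN and DCo) and
`HS/SlimT.lean` (`C.cx`, `C.cx_equiv`, for PNx); the data `u`, `u'`, `a`, `b` are in the definition of
`EqvSing` (`f`, `g`, `s`, `t` of `ACx.Eqv`). -/
def S_PStop : Prop :=
  ∀ (X E : Type) [TopologicalSpace X] [TopologicalSpace E] [PathConnectedSpace X]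
    [LocallyPathConnectedSpace X] [SimplyConnectedSpace E] (p : E → X) (hp : IsCoveringMap p)
    (e : X) (μ : C(X × X, X)) (hμ : HSp.IsHMul e μ) (hfin : Finite (HSp.Deck p))
    (C : HSp.Cpl (HSp.GR (HSp.Deck p))) (K : ℕ) (hC : C.IsPerf K)
    (heq : HSp.EqvSing (HSp.Deck p) C) (j : ℕ)
    (hE : ∀ i, i < 4 * j + 2 → ∀ x : HSp.SI E (i + 1), HSp.bdS E i x = 0 →
      ∃ y, HSp.bdS E (i + 1) y = x)
    (s : ℕ) (z : Fin s → HSp.SI E (4 * j + 3)) (hz : ∀ i, HSp.bdS E (4 * j + 2) (z i) = 0)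
    (hind : ∀ c : Fin s → ℤ, (∃ w, HSp.bdS E (4 * j + 3) w = ∑ i, c i • z i) → c = 0)
    (hs : Nat.card {g : HSp.Deck p // g * g = 1} < 2 ^ s),
    ∃ a : ℕ, C.StEq K a a

end HPx
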