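import Pool.Agent.Lib.MP_181146_gt.HP.SpecP

/-!
# Project HP: TG, the tensor square of a complex with vanishing homology in degrees `0 < i < n`
-/

set_option autoImplicit false

namespace HPx

open scoped TensorProduct
open HEp

section Aux

variable {k : Type} [CommRing k] {K : SS}

private lemma TG_ind {n : ℕ} {M : Type} [AddCommGroup M]
    [Module k M] (f : Ch k K →ₗ[k] M) (S : Submodule k M) (h : ∀ x : K.K n, f (sx k x) ∈ S)
    (x : Ch k K) (hx : x ∈ gr k K n) : f x ∈ S := by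
  have h1 : gr k K n ≤ S.comap f := by
    rw [gr, Finsupp.supported_eq_span_single, Submodule.span_le]
    rintro _ ⟨⟨m, y⟩, hm, rfl⟩
    change m = n at hm
    subst hm
    exact h y
  exact h1 hx

private lemma TG_od (n : ℕ) (x : Ch k K) (hx : x ∈ gr k K n) :
    od k K x = if Odd n then x else 0 := by
  by_cases h : Odd n
  · rw [if_pos h]
    have h1 := TG_ind (od k K - LinearMap.id) ⊥ (fun x => by
      rw [LinearMap.sub_apply, LinearMap.id_apply, od_sx, if_pos h, sub_self]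
      exact Submodule.zero_mem _) x hx
    rw [Submodule.mem_bot, LinearMap.sub_apply, LinearMap.id_apply] at h1
    exact sub_eq_zero.1 h1
  · rw [if_neg h]
    have h1 := TG_ind (od k K) ⊥ (fun x => by
      rw [od_sx, if_neg h]
      exact Submodule.zero_mem _) x hx
    exact (Submodule.mem_bot k).1 h1

private lemma TG_bd0 (x : Ch k K) (hx : x ∈ gr k K 0) : bd k K x = 0 := by
  have h1 := TG_ind (bd k K) ⊥ (fun x => by
    rw [bd_sx_zero]
    exact Submodule.zero_mem _) x hx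
  exact (Submodule.mem_bot k).1 h1

private lemma TG_bd (n : ℕ) (x : Ch k K) (hx : x ∈ gr k K (n + 1)) : bd k K x ∈ gr k K n := by
  refine TG_ind (bd k K) (gr k K n) (fun x => ?_) x hx
  rw [bd_sx]
  exact Submodule.sum_mem _ fun i _ => Submodule.smul_mem _ _ (sx_mem_gr k _)

private lemma TG_aug (n : ℕ) (hn : 0 < n) (x : Ch k K) (hx : x ∈ gr k K n) : aug k K x = 0 := by
  obtain ⟨m, rfl⟩ : ∃ m, n = m + 1 := ⟨n - 1, by omega⟩
  have h1 := TG_ind (aug k K) ⊥ (fun x => by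
    rw [aug_sx_succ]
    exact Submodule.zero_mem _) x hx
  exact (Submodule.mem_bot k).1 h1

private lemma TG_sg (n : ℕ) (x : Ch k K) (hx : x ∈ gr k K n) :
    (chDG k K).sg x ∈ gr k K n := by
  rw [DG.sg_apply]
  refine Submodule.sub_mem _ hx (Submodule.smul_mem _ _ ?_)
  change od k K x ∈ gr k K n
  rw [TG_od n x hx]
  split_ifs
  · exact hx
  · exact Submodule.zero_mem _

private lemma TG_augsg (x : Ch k K) : aug k K ((chDG k K).sg x) = aug k K x := by
  have h : aug k K ∘ₗ (chDG k K).sg = aug k K := ch_ext fun n x => by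
    rw [LinearMap.comp_apply, DG.sg_apply, map_sub, map_smul]
    change aug k K (sx k x) - (2 : k) • aug k K (od k K (sx k x)) = _
    cases n with
    | zero => rw [od_sx, if_neg (by decide), map_zero, smul_zero, sub_zero]
    | succ n =>
      rw [od_sx, aug_sx_succ]
      split_ifs
      · rw [aug_sx_succ, smul_zero, sub_zero]
      · rw [map_zero, smul_zero, sub_zero]
  exact LinearMap.congr_fun h x

private noncomputable def TGS (A : DG k) (s ρ : A.V →ₗ[k] A.V) :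
    A.V ⊗[k] A.V →ₗ[k] A.V ⊗[k] A.V :=
  TensorProduct.map s LinearMap.id + TensorProduct.map (ρ ∘ₗ A.sg) s

private lemma TGS_tmul (A : DG k) (s ρ : A.V →ₗ[k] A.V) (a b : A.V) :
    TGS A s ρ (a ⊗ₜ[k] b) = s a ⊗ₜ[k] b + ρ (A.sg a) ⊗ₜ[k] s b := rfl

private lemma TG_tens (A : DG k) (s ρ : A.V →ₗ[k] A.V)
    (hodd : ∀ x, A.P (s x) = s (x - A.P x)) (hρ : ∀ x, ρ x = x - A.d (s x) - s (A.d x))
    (x : A.V ⊗[k] A.V) :
    (A.tens A).d (TGS A s ρ x) + TGS A s ρ ((A.tens A).d x) =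
      x - TensorProduct.map ρ ρ x := by
  have hd : ∀ x, ρ (A.d x) = A.d (ρ x) := by
    intro x
    rw [hρ, hρ, A.dd, map_zero, sub_zero, map_sub, map_sub, A.dd, sub_zero]
  have hP : ∀ x, ρ (A.P x) = A.P (ρ x) := by
    intro x
    have e1 : s x - s (x - A.P x) = s (A.P x) := by rw [← map_sub, sub_sub_cancel]
    have e2 : A.d x - A.d (x - A.P x) = A.d (A.P x) := by rw [← map_sub, sub_sub_cancel]
    rw [hρ, hρ, map_sub, map_sub, A.Pd, hodd, hodd, A.Pd, e1, e2]
  have hsg : ∀ x, ρ (A.sg x) = A.sg (ρ x) := by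
    intro x
    rw [DG.sg_apply, DG.sg_apply, map_sub, map_smul, hP]
  set S : A.V ⊗[k] A.V →ₗ[k] A.V ⊗[k] A.V := TGS A s ρ with hSdef
  have hS : ∀ (a : A.V) (b : A.V), S (a ⊗ₜ[k] b) =
      s a ⊗ₜ[k] b + ρ (A.sg a) ⊗ₜ[k] s b := fun _ _ => rfl
  induction x using TensorProduct.induction_on with
  | zero => simp only [map_zero, add_zero, sub_zero]
  | add x y hx hy =>
    rw [map_add, map_add, map_add, map_add, map_add]
    have : (A.tens A).d (S x) + (A.tens A).d (S y) +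
      (S ((A.tens A).d x) + S ((A.tens A).d y)) =
      ((A.tens A).d (S x) + S ((A.tens A).d x)) +
        ((A.tens A).d (S y) + S ((A.tens A).d y)) := by abel
    rw [this, hx, hy]
    abel
  | tmul a b =>
    have e1 : (A.tens A).d (a ⊗ₜ[k] b) = A.d a ⊗ₜ[k] b + A.sg a ⊗ₜ[k] A.d b := rfl
    have e2 : (A.tens A).d (s a ⊗ₜ[k] b) =
      A.d (s a) ⊗ₜ[k] b + A.sg (s a) ⊗ₜ[k] A.d b := rfl
    have e3 : (A.tens A).d (ρ (A.sg a) ⊗ₜ[k] s b) =
      A.d (ρ (A.sg a)) ⊗ₜ[k] s b + A.sg (ρ (A.sg a)) ⊗ₜ[k] A.d (s b) := rfl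
    have l1 : (A.tens A).d (S (a ⊗ₜ[k] b)) =
        A.d (s a) ⊗ₜ[k] b + A.sg (s a) ⊗ₜ[k] A.d b +
        (A.d (ρ (A.sg a)) ⊗ₜ[k] s b + A.sg (ρ (A.sg a)) ⊗ₜ[k] A.d (s b)) := by
      rw [hS, map_add, ← e2, ← e3]
    have l2 : S ((A.tens A).d (a ⊗ₜ[k] b)) =
        s (A.d a) ⊗ₜ[k] b + ρ (A.sg (A.d a)) ⊗ₜ[k] s b +
        (s (A.sg a) ⊗ₜ[k] A.d b + ρ (A.sg (A.sg a)) ⊗ₜ[k] s (A.d b)) := by
      refine Eq.trans (congrArg S e1) ?_
      rw [map_add, hS, hS]
    refine Eq.trans (congrArg₂ (· + ·) l1 l2) ?_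
    have a1 : A.sg (s a) = - s (A.sg a) := by
      rw [DG.sg_apply, DG.sg_apply, hodd, map_sub, map_sub, map_smul]
      module
    have a2 : A.sg (ρ (A.sg a)) = ρ a := by rw [← hsg, A.sg_sg]
    have a3 : A.d (ρ (A.sg a)) = - ρ (A.sg (A.d a)) := by
      rw [← hd, A.sg_d, map_neg, neg_neg]
    have a4 : A.d (s a) = a - ρ a - s (A.d a) := by rw [hρ]; abel
    have a5 : A.d (s b) = b - ρ b - s (A.d b) := by rw [hρ]; abel
    rw [TensorProduct.map_tmul, a1, a2, a3, a4, a5, A.sg_sg]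
    simp only [TensorProduct.tmul_sub, TensorProduct.sub_tmul, TensorProduct.neg_tmul]
    abel

private lemma TG_tind {n : ℕ} {M : Type} [AddCommMonoid M] [Module k M]
    (f : Ch k K ⊗[k] Ch k K →ₗ[k] M) (S : Submodule k M)
    (h : ∀ (p q : ℕ) (x y : Ch k K), p + q = n → x ∈ gr k K p → y ∈ gr k K q →
      f (x ⊗ₜ y) ∈ S) (z : Ch k K ⊗[k] Ch k K) (hz : z ∈ tgr (gr k K) (gr k K) n) :
    f z ∈ S := by
  have h1 : tgr (gr k K) (gr k K) n ≤ S.comap f := by
    rw [tgr, Submodule.span_le]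
    rintro _ ⟨i, j, x, y, hij, hx, hy, rfl⟩
    exact h i j x y hij hx hy
  exact h1 hz

private lemma TG_teq {n : ℕ} {M : Type} [AddCommMonoid M] [Module k M]
    (f g : Ch k K ⊗[k] Ch k K →ₗ[k] M)
    (h : ∀ (p q : ℕ) (x y : Ch k K), p + q = n → x ∈ gr k K p → y ∈ gr k K q →
      f (x ⊗ₜ y) = g (x ⊗ₜ y)) (z : Ch k K ⊗[k] Ch k K) (hz : z ∈ tgr (gr k K) (gr k K) n) :
    f z = g z := by
  have h1 : tgr (gr k K) (gr k K) n ≤ LinearMap.eqLocus f g := by
    rw [tgr, Submodule.span_le]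
    rintro _ ⟨i, j, x, y, hij, hx, hy, rfl⟩
    exact h i j x y hij hx hy
  exact h1 hz

private lemma TG_mem {n p q : ℕ} {x y : Ch k K} (h : p + q = n) (hx : x ∈ gr k K p)
    (hy : y ∈ gr k K q) : x ⊗ₜ[k] y ∈ tgr (gr k K) (gr k K) n :=
  Submodule.subset_span ⟨p, q, x, y, h, hx, hy, rfl⟩

end Aux

theorem sTG (hRho : S_Rho) : S_TG := by
  intro k _ K v n hn h0 hi
  obtain ⟨s, hs1, hs2, hs3, hs4⟩ := hRho k K v n hn h0 hi
  have hodd : ∀ x, (chDG k K).P (s x) = s (x - (chDG k K).P x) := by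
    intro x
    have h : od k K ∘ₗ s = s ∘ₗ (LinearMap.id - od k K) := ch_ext fun m x => by
      rw [LinearMap.comp_apply, LinearMap.comp_apply, LinearMap.sub_apply, LinearMap.id_apply,
        od_sx, TG_od (m + 1) _ (hs1 m _ (sx_mem_gr k x))]
      by_cases hm : Odd m
      · rw [if_pos hm, if_neg (by rw [Nat.odd_add_one]; exact fun h => h hm), sub_self, map_zero]
      · rw [if_neg hm, if_pos (by rw [Nat.odd_add_one]; exact hm), sub_zero]
    exact LinearMap.congr_fun h x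
  let ρ : Ch k K →ₗ[k] Ch k K := LinearMap.id - bd k K ∘ₗ s - s ∘ₗ bd k K
  have hρ : ∀ x, ρ x = x - bd k K (s x) - s (bd k K x) := fun _ => rfl
  let S : Ch k K ⊗[k] Ch k K →ₗ[k] Ch k K ⊗[k] Ch k K := TGS (chDG k K) s ρ
  have hS : ∀ x y : Ch k K, S (x ⊗ₜ[k] y) = s x ⊗ₜ[k] y + ρ ((chDG k K).sg x) ⊗ₜ[k] s y :=
    fun _ _ => rfl
  have hrel : ∀ z : Ch k K ⊗[k] Ch k K, ((chDG k K).tens (chDG k K)).d (S z) +
      S (((chDG k K).tens (chDG k K)).d z) = z - TensorProduct.map ρ ρ z :=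
    fun z => TG_tens (chDG k K) s ρ hodd hρ z
  have hrel' : ∀ z : Ch k K ⊗[k] Ch k K, ((chDG k K).tens (chDG k K)).d z = 0 →
      z = TensorProduct.map ρ ρ z + ((chDG k K).tens (chDG k K)).d (S z) := by
    intro z hz
    have h1 : ((chDG k K).tens (chDG k K)).d (S z) + S (0 : Ch k K ⊗[k] Ch k K) =
        z - TensorProduct.map ρ ρ z := by
      rw [← hz]
      exact hrel z
    have h2 : S (0 : Ch k K ⊗[k] Ch k K) = 0 := map_zero S
    have h3 : ((chDG k K).tens (chDG k K)).d (S z) = z - TensorProduct.map ρ ρ z := by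
      rw [← h1, h2]
      exact (add_zero _).symm
    rw [h3]
    exact (add_sub_cancel _ _).symm
  -- `ρ` on homogeneous elements
  have hρ0 : ∀ x ∈ gr k K 0, ρ x = aug k K x • sx k v := by
    intro x hx
    rw [hρ, hs3 x hx, TG_bd0 x hx, map_zero, sub_zero, sub_sub_cancel]
  have hρi : ∀ i, 0 < i → i < n → ∀ x ∈ gr k K i, ρ x = 0 := by
    intro i h1 h2 x hx
    rw [hρ, sub_sub, hs4 i h1 h2 x hx, sub_self]
  have hρg : ∀ i, ∀ x ∈ gr k K i, ρ x ∈ gr k K i := by
    intro i x hx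
    rw [hρ]
    refine Submodule.sub_mem _ (Submodule.sub_mem _ hx (TG_bd i _ (hs1 i x hx))) ?_
    cases i with
    | zero => rw [TG_bd0 x hx, map_zero]; exact Submodule.zero_mem _
    | succ i => exact hs1 i _ (TG_bd i x hx)
  have hρc : ∀ x ∈ gr k K n, bd k K x = 0 → ρ x = x := by
    intro x hx hb
    rw [hρ, hs2 n le_rfl x hx, hb, map_zero, map_zero, sub_zero, sub_zero]
  have hSg : ∀ i, ∀ z ∈ tgr (gr k K) (gr k K) i, S z ∈ tgr (gr k K) (gr k K) (i + 1) := by
    intro i z hz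
    refine TG_tind S _ (fun p q x y hpq hx hy => ?_) z hz
    rw [hS]
    exact Submodule.add_mem _ (TG_mem (by omega) (hs1 p x hx) hy)
      (TG_mem (by omega) (hρg p _ (TG_sg p x hx)) (hs1 q y hy))
  have hD0 : ∀ z ∈ tgr (gr k K) (gr k K) 0, ((chDG k K).tens (chDG k K)).d z = 0 := by
    intro z hz
    refine TG_teq ((chDG k K).tens (chDG k K)).d 0 (fun p q x y hpq hx hy => ?_) z hz
    obtain rfl : p = 0 := by omega
    obtain rfl : q = 0 := by omega
    change bd k K x ⊗ₜ[k] y + (chDG k K).sg x ⊗ₜ[k] bd k K y = 0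
    rw [TG_bd0 x hx, TG_bd0 y hy, TensorProduct.zero_tmul, TensorProduct.tmul_zero, add_zero]
  refine ⟨fun i h1 h2 z hz hDz => ⟨S z, hSg i z hz, ?_⟩, fun z hz haz => ⟨S z, hSg 0 z hz, ?_⟩,
    fun z hz hDz => ⟨S z, hSg n z hz, ?_⟩⟩
  · have h3 := hrel' z hDz
    have h4 : TensorProduct.map ρ ρ z = 0 := by
      refine TG_teq (TensorProduct.map ρ ρ) 0 (fun p q x y hpq hx hy => ?_) z hz
      rw [TensorProduct.map_tmul, LinearMap.zero_apply]
      rcases Nat.eq_zero_or_pos p with hp | hp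
      · rw [hρi q (by omega) (by omega) y hy, TensorProduct.tmul_zero]
      · rw [hρi p hp (by omega) x hx, TensorProduct.zero_tmul]
    rw [h4, zero_add] at h3
    exact h3.symm
  · have h3 := hrel' z (hD0 z hz)
    have h4 : TensorProduct.map ρ ρ z = augT (aug k K) (aug k K) z • (sx k v ⊗ₜ[k] sx k v) := by
      refine TG_teq (TensorProduct.map ρ ρ)
        ((LinearMap.toSpanSingleton k (Ch k K ⊗[k] Ch k K) (sx k v ⊗ₜ[k] sx k v)) ∘ₗ
          augT (aug k K) (aug k K)) (fun p q x y hpq hx hy => ?_) z hz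
      obtain rfl : p = 0 := by omega
      obtain rfl : q = 0 := by omega
      rw [LinearMap.comp_apply, LinearMap.toSpanSingleton_apply,
        TensorProduct.map_tmul, augT_tmul, hρ0 x hx, hρ0 y hy, TensorProduct.smul_tmul_smul]
    rw [h4, haz, zero_smul, zero_add] at h3
    exact h3.symm
  · have h3 := hrel' z hDz
    -- the two slices
    let f1 : Ch k K ⊗[k] Ch k K →ₗ[k] Ch k K :=
      (TensorProduct.lid k (Ch k K)).toLinearMap ∘ₗ
        TensorProduct.map (aug k K) LinearMap.id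
    let f2 : Ch k K ⊗[k] Ch k K →ₗ[k] Ch k K :=
      (TensorProduct.rid k (Ch k K)).toLinearMap ∘ₗ
        TensorProduct.map LinearMap.id (aug k K)
    have hf1 : ∀ x y : Ch k K, f1 (x ⊗ₜ y) = aug k K x • y := by
      intro x y
      exact TensorProduct.lid_tmul y (aug k K x)
    have hf2 : ∀ x y : Ch k K, f2 (x ⊗ₜ y) = aug k K y • x := by
      intro x y
      exact TensorProduct.rid_tmul x (aug k K y)
    have hb1 : ∀ z, f1 (((chDG k K).tens (chDG k K)).d z) = bd k K (f1 z) := by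
      intro z
      have h : f1 ∘ₗ ((chDG k K).tens (chDG k K)).d = bd k K ∘ₗ f1 := by
        apply TensorProduct.ext'
        intro x y
        change f1 (bd k K x ⊗ₜ[k] y + (chDG k K).sg x ⊗ₜ[k] bd k K y) = bd k K (f1 (x ⊗ₜ[k] y))
        rw [map_add, hf1, hf1, hf1, aug_bd, zero_smul, zero_add, TG_augsg, map_smul]
      exact LinearMap.congr_fun h z
    have hb2 : ∀ z, f2 (((chDG k K).tens (chDG k K)).d z) = bd k K (f2 z) := by
      intro z
      have h : f2 ∘ₗ ((chDG k K).tens (chDG k K)).d = bd k K ∘ₗ f2 := by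
        apply TensorProduct.ext'
        intro x y
        change f2 (bd k K x ⊗ₜ[k] y + (chDG k K).sg x ⊗ₜ[k] bd k K y) = bd k K (f2 (x ⊗ₜ[k] y))
        rw [map_add, hf2, hf2, hf2, aug_bd, zero_smul, add_zero, map_smul]
      exact LinearMap.congr_fun h z
    have hg1 : f1 z ∈ gr k K n := by
      refine TG_tind f1 _ (fun p q x y hpq hx hy => ?_) z hz
      rw [hf1]
      rcases Nat.eq_zero_or_pos p with hp | hp
      · obtain rfl : q = n := by omega
        exact Submodule.smul_mem _ _ hy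
      · rw [TG_aug p hp x hx, zero_smul]
        exact Submodule.zero_mem _
    have hg2 : f2 z ∈ gr k K n := by
      refine TG_tind f2 _ (fun p q x y hpq hx hy => ?_) z hz
      rw [hf2]
      rcases Nat.eq_zero_or_pos q with hq | hq
      · obtain rfl : p = n := by omega
        exact Submodule.smul_mem _ _ hx
      · rw [TG_aug q hq y hy, zero_smul]
        exact Submodule.zero_mem _
    have hc1 : ρ (f1 z) = f1 z := hρc _ hg1 (by rw [← hb1, hDz]; exact map_zero f1)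
    have hc2 : ρ (f2 z) = f2 z := hρc _ hg2 (by rw [← hb2, hDz]; exact map_zero f2)
    have h4 : TensorProduct.map ρ ρ z = sx k v ⊗ₜ[k] ρ (f1 z) + ρ (f2 z) ⊗ₜ[k] sx k v := by
      refine TG_teq (TensorProduct.map ρ ρ)
        ((TensorProduct.mk k (Ch k K) (Ch k K) (sx k v)) ∘ₗ ρ ∘ₗ f1 +
          ((TensorProduct.mk k (Ch k K) (Ch k K)).flip (sx k v)) ∘ₗ ρ ∘ₗ f2)
        (fun p q x y hpq hx hy => ?_) z hz
      change TensorProduct.map ρ ρ (x ⊗ₜ[k] y) = sx k v ⊗ₜ[k] ρ (f1 (x ⊗ₜ[k] y)) +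
          ρ (f2 (x ⊗ₜ[k] y)) ⊗ₜ[k] sx k v
      rw [TensorProduct.map_tmul, hf1, hf2, map_smul, map_smul]
      rcases Nat.eq_zero_or_pos p with hp | hp
      · subst hp
        obtain rfl : q = n := by omega
        rw [hρ0 x hx, TG_aug q hn y hy, zero_smul, TensorProduct.zero_tmul, add_zero,
          TensorProduct.smul_tmul]
      · rcases Nat.eq_zero_or_pos q with hq | hq
        · subst hq
          obtain rfl : p = n := by omega
          rw [hρ0 y hy, TG_aug p hn x hx, zero_smul, TensorProduct.tmul_zero, zero_add,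
            ← TensorProduct.smul_tmul]
        · rw [hρi p hp (by omega) x hx, TG_aug p hp x hx, TG_aug q hq y hy, zero_smul,
            zero_smul, TensorProduct.tmul_zero, TensorProduct.zero_tmul,
            TensorProduct.zero_tmul, add_zero]
    rw [h4, hc1, hc2] at h3
    exact h3

end HPx
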