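import Pool.Agent.Lib.MP_181146_gt.HP.SpecP
import Pool.Agent.Lib.MP_181146_gt.HE.SpecS

/-!
# Project HP: `Tw` of a boundary

`D (w ⊗ dl y) = D w ⊗ dl y + w ⊗ dl (bd y)` for even `w`; the exchange and `mu ⊗ mu` are chain maps.
-/

set_option autoImplicit false

namespace HPx

open HEp
open scoped TensorProduct

namespace TwDaux

/-- `mu` is a chain map which preserves the parity. -/
private lemma muCM (hNabD : HEp.S_NabD) (hNabG : HEp.S_NabG)
    (e : ∀ p q : ℕ, Ch ℤ ((De p).prod (De q))) (he : EZ e) (k : Type) [CommRing k] (K : SS)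
    (m : SSHom (K.prod K) K) :
    IsCM ((chDG k K).tens (chDG k K)) (chDG k K) (mu k e m) := by
  refine ⟨fun z => ?_, fun z => ?_⟩
  · change cmap k m (nab k e K K (((chDG k K).tens (chDG k K)).d z)) =
      bd k K (cmap k m (nab k e K K z))
    rw [hNabD e he k K K z, cmap_bd]
  · change cmap k m (nab k e K K (((chDG k K).tens (chDG k K)).P z)) =
      od k K (cmap k m (nab k e K K z))
    rw [(hNabG e he k K K).2 z, cmap_od]

/-- The differential of `w ⊗ u` for even `w`. -/
private lemma dEven {k : Type} [CommRing k] (A B : DG k) (w : A.V) (hw : A.P w = 0) (u : B.V) :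
    (A.tens B).d (w ⊗ₜ u) = A.d w ⊗ₜ u + w ⊗ₜ B.d u := by
  rw [DG.tens_d, DG.sg_apply, hw, smul_zero, sub_zero]

private lemma dgSub {k : Type} [CommRing k] (A B : DG k) (f : A.V →ₗ[k] B.V) (a b : A.V) :
    f (a - b) = f a - f b := map_sub f a b

end TwDaux

open TwDaux in
/-- **TwD.** -/
theorem sTwD (hLxD : S_LxD) (hDlG : HEp.S_DlG) (hMid : HEp.S_Mid) (hTCM : HEp.S_TCM)
    (hNabD : HEp.S_NabD) (hNabG : HEp.S_NabG) : S_TwD := by
  intro e he k _ K m n hn x hx hxb w hw y
  have hmu := muCM hNabD hNabG e he k K m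
  have hmm := hTCM k _ _ _ _ _ _ hmu hmu
  have hmid := (hMid k (chDG k K) (chDG k K) (chDG k K) (chDG k K)).1
  have hdl : ((chDG k K).tens (chDG k K)).d (dl k K y) = dl k K (bd k K y) :=
    ((hDlG k K).1.d y).symm
  have h1 : (((chDG k K).tens (chDG k K)).d w ⊗ₜ[k] dl k K y :
      (Ch k K ⊗[k] Ch k K) ⊗[k] (Ch k K ⊗[k] Ch k K)) =
      (((chDG k K).tens (chDG k K)).tens ((chDG k K).tens (chDG k K))).d (w ⊗ₜ dl k K y) -
        w ⊗ₜ dl k K (bd k K y) := by
    have h := dEven ((chDG k K).tens (chDG k K)) ((chDG k K).tens (chDG k K)) w hw (dl k K y)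
    rw [hdl] at h
    exact (sub_eq_iff_eq_add.2 h).symm
  have h2 : ∀ z, exch (od k K) ((((chDG k K).tens (chDG k K)).tens
      ((chDG k K).tens (chDG k K))).d z) =
      (((chDG k K).tens (chDG k K)).tens ((chDG k K).tens (chDG k K))).d (exch (od k K) z) :=
    fun z => hmid.d z
  have h3 : ∀ z, TensorProduct.map (mu k e m) (mu k e m)
      ((((chDG k K).tens (chDG k K)).tens ((chDG k K).tens (chDG k K))).d z) =
      ((chDG k K).tens (chDG k K)).d (TensorProduct.map (mu k e m) (mu k e m) z) :=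
    fun z => hmm.d z
  have h4 : Tw e m x (((chDG k K).tens (chDG k K)).d w) y =
      lx x (TensorProduct.map (mu k e m) (mu k e m) (exch (od k K)
        ((((chDG k K).tens (chDG k K)).tens ((chDG k K).tens (chDG k K))).d
          (w ⊗ₜ dl k K y)))) - Tw e m x w (bd k K y) := by
    rw [Tw_apply, Tw_apply]
    refine Eq.trans (congrArg (fun t => lx x (TensorProduct.map (mu k e m) (mu k e m)
      (exch (od k K) t))) h1) ?_
    exact dgSub (((chDG k K).tens (chDG k K)).tens ((chDG k K).tens (chDG k K))) (chDG k K)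
      (lx x ∘ₗ TensorProduct.map (mu k e m) (mu k e m) ∘ₗ exch (od k K)) _ _
  rw [h4, h2, h3, hLxD k K n hn x hx hxb]
  rfl

end HPx
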